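import Pool.Agent.H50.R2.Own

/-! # Module Anti: `tau` is antisymmetric (MP_966f71_lc)

No nondegeneracy needed. For `x = s • (e_i + e_j)` (regular for almost all `s`), `h x = 0` reads
`s nu_i k_i + s nu_j k_j = 0` (`h_eq_on`), so `nu_i k_i(x) + nu_j k_j(x) = 0` for `s ≠ 0`. Insert
`k_i = mu_i + s T_ii k_i + s T_ij k_j` etc. and `nu_i mu_i = nu_j mu_j = 0` (`single_dot`):
`s (nu_i T_ii k_i + nu_i T_ij k_j + nu_j T_ji k_i + nu_j T_jj k_j) = 0`. Divide by `s`, let `s → 0`
(`RatAt.zero`): `tau i i + tau i j + tau j i + tau j j = 0`, and `tau i i = tau j j = 0`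
(`single_tau`). -/

set_option autoImplicit false

namespace Pool.Agent.H50.R2

open Matrix Filter

variable {F ι : Type*} [Field F] [Infinite F] [Fintype ι] [DecidableEq ι]

namespace Inst

variable {I : Inst F ι} {i j : ι}

theorem Anti_rat {x : F → ι → F} {s0 : F} (hx : Path x) (h : I.Reg (x s0)) (u : Fin 2 → F)
    (M : Matrix (Fin 2) (Fin 2) F) (m : ι) :
    RatAt s0 (fun s => u ⬝ᵥ (M *ᵥ vec (I.k (x s)) m)) := by
  show RatAt s0 (fun s => ∑ a, u a * (∑ b, M a b * I.k (x s) (m, b)))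
  refine RatAt.sum Finset.univ (fun a s => u a * (∑ b, M a b * I.k (x s) (m, b))) fun a _ => ?_
  refine (RatAt.const (u a)).mul ?_
  refine RatAt.sum Finset.univ (fun b s => M a b * I.k (x s) (m, b)) fun b _ => ?_
  exact (RatAt.const (M a b)).mul (I.ratK hx h (m, b))

theorem tau_anti (hij : i ≠ j) (h : I.Odd {i, j}) : I.tau i j = - I.tau j i := by
  have hi : I.Odd {i} := h.mono (by simp)
  have hj : I.Odd {j} := h.mono (by simp)
  set e : ι → F := Pi.single i 1 + Pi.single j 1 with he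
  have hei : e i = 1 := by simp [he, hij]
  have hej : e j = 1 := by simp [he, hij.symm]
  have hsupp : ∀ s : F, Supp (s • e) ({i, j} : Finset ι) := by
    intro s m hm
    simp only [Finset.mem_insert, Finset.mem_singleton, not_or] at hm
    simp [he, Pi.single_eq_of_ne hm.1, Pi.single_eq_of_ne hm.2]
  have hp : Path (fun s : F => s • e) := Path.smul e
  have hreg0 : I.Reg ((fun s : F => s • e) 0) := by
    simpa using I.reg_zero
  set f : F → F := fun s => vec I.nu i ⬝ᵥ (blk I.T i i *ᵥ vec (I.k (s • e)) i) +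
    vec I.nu i ⬝ᵥ (blk I.T i j *ᵥ vec (I.k (s • e)) j) +
    (vec I.nu j ⬝ᵥ (blk I.T j i *ᵥ vec (I.k (s • e)) i) +
    vec I.nu j ⬝ᵥ (blk I.T j j *ᵥ vec (I.k (s • e)) j)) with hf
  have hrat : RatAt 0 f :=
    ((Anti_rat hp hreg0 _ _ _).add (Anti_rat hp hreg0 _ _ _)).add
      ((Anti_rat hp hreg0 _ _ _).add (Anti_rat hp hreg0 _ _ _))
  have hne : ∀ᶠ s : F in cofinite, s ≠ 0 := by
    have : ({0} : Set F)ᶜ ∈ (cofinite : Filter F) := (Set.finite_singleton (0 : F)).compl_mem_cofinite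
    exact this
  have hz : ∀ᶠ s in cofinite, f s = 0 := by
    filter_upwards [I.evReg hp hreg0, hne] with s hs hs0
    have h1 := h _ (hsupp s) hs
    rw [I.h_eq_on (hsupp s), Finset.sum_pair hij] at h1
    simp only [Pi.smul_apply, smul_eq_mul, hei, hej, mul_one] at h1
    have h2 : vec I.nu i ⬝ᵥ vec (I.k (s • e)) i + vec I.nu j ⬝ᵥ vec (I.k (s • e)) j = 0 := by
      have : s * (vec I.nu i ⬝ᵥ vec (I.k (s • e)) i + vec I.nu j ⬝ᵥ vec (I.k (s • e)) j) = 0 := by
        rw [mul_add]; exact h1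
      exact (mul_eq_zero.1 this).resolve_left hs0
    have h3 := I.k_eq_on hs (hsupp s) i
    have h4 := I.k_eq_on hs (hsupp s) j
    rw [Finset.sum_pair hij] at h3 h4
    simp only [Pi.smul_apply, smul_eq_mul, hei, hej, mul_one] at h3 h4
    have h5 : s * f s = 0 := by
      have h7 := single_dot hi
      have h8 := single_dot hj
      have h9 : vec I.nu i ⬝ᵥ vec (I.k (s • e)) i =
          s * (vec I.nu i ⬝ᵥ (blk I.T i i *ᵥ vec (I.k (s • e)) i)) +
          s * (vec I.nu i ⬝ᵥ (blk I.T i j *ᵥ vec (I.k (s • e)) j)) := by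
        conv_lhs => rw [h3]
        rw [dotProduct_add, dotProduct_add, dotProduct_smul, dotProduct_smul, h7, zero_add,
          smul_eq_mul, smul_eq_mul]
      have h10 : vec I.nu j ⬝ᵥ vec (I.k (s • e)) j =
          s * (vec I.nu j ⬝ᵥ (blk I.T j i *ᵥ vec (I.k (s • e)) i)) +
          s * (vec I.nu j ⬝ᵥ (blk I.T j j *ᵥ vec (I.k (s • e)) j)) := by
        conv_lhs => rw [h4]
        rw [dotProduct_add, dotProduct_add, dotProduct_smul, dotProduct_smul, h8, zero_add,
          smul_eq_mul, smul_eq_mul]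
      rw [h9, h10] at h2
      rw [hf]
      linear_combination h2
    exact (mul_eq_zero.1 h5).resolve_left hs0
  have h0 := hrat.zero hz
  have h6 : f 0 = I.tau i i + I.tau i j + (I.tau j i + I.tau j j) := by
    simp only [hf, zero_smul, I.k_zero]
    rfl
  rw [h6, single_tau hi, single_tau hj] at h0
  linear_combination h0

end Inst

end Pool.Agent.H50.R2
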