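import Pool.Agent.H50.R2.Master

/-! # Module IndepSet: independent sets are odd (MP_966f71_lc)

For `i, j ∈ S` the covector `nu_i T_ij` kills `mu_j` (`h2`, and `single_tau` for `i = j`), so it is
`s i j • nu_j` (`exists_covec`, `single_dot`). Hence `e_i := nu_i k_i(x)` satisfies
`e_i = sum_(j in S) x_j s_ij e_j` for `i ∈ S` (`k_eq_on`). For the path `t ↦ t • x` the determinant of
the matrix `1 - t (s_ij x_j)` on `S` (or on all of `ι` with `s = 0` off `S`) is a polynomial in `t`
with value 1 at `t = 0`, so it is nonzero for almost all `t`, and then `e = 0`. `RatAt.zero` at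
`t = 1` gives `e_i = 0` at `x`, and `h x = sum x_i e_i = 0`. -/

set_option autoImplicit false

namespace Pool.Agent.H50.R2

open Matrix Filter

variable {F ι : Type*} [Field F] [Infinite F] [Fintype ι] [DecidableEq ι]

namespace Inst

variable {I : Inst F ι} {S : Finset ι}

/-- the coefficients `s i j` -/
private theorem indepSet_coef (hnd : I.NonDeg S) (h1 : ∀ i ∈ S, I.Odd {i})
    (h2 : ∀ i ∈ S, ∀ j ∈ S, i ≠ j → I.tau i j = 0) :
    ∃ s : ι → ι → F, ∀ i ∈ S, ∀ j ∈ S,
      vec I.nu i ᵥ* blk I.T i j = s i j • vec I.nu j := by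
  have h : ∀ i j : ι, ∃ c : F, i ∈ S → j ∈ S →
      vec I.nu i ᵥ* blk I.T i j = c • vec I.nu j := by
    intro i j
    by_cases hi : i ∈ S
    · by_cases hj : j ∈ S
      · have ht : I.tau i j = 0 := by
          by_cases hij : i = j
          · subst hij
            exact single_tau (h1 i hi)
          · exact h2 i hi j hj hij
        have hc : (vec I.nu i ᵥ* blk I.T i j) ⬝ᵥ vec I.mu j = 0 := by
          rw [← dotProduct_mulVec]
          exact ht
        obtain ⟨c, hc'⟩ := exists_covec (hnd j hj).1 (hnd j hj).2 (single_dot (h1 j hj)) hc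
        exact ⟨c, fun _ _ => hc'⟩
      · exact ⟨0, fun _ h => absurd h hj⟩
    · exact ⟨0, fun h _ => absurd h hi⟩
  choose s hs using h
  exact ⟨s, fun i hi j hj => hs i j hi hj⟩

private theorem indepSet_eq (h1 : ∀ i ∈ S, I.Odd {i}) {s : ι → ι → F}
    (hs : ∀ i ∈ S, ∀ j ∈ S, vec I.nu i ᵥ* blk I.T i j = s i j • vec I.nu j)
    {x : ι → F} (hS : Supp x S) (hx : I.Reg x) {i : ι} (hi : i ∈ S) :
    vec I.nu i ⬝ᵥ vec (I.k x) i =
      ∑ j ∈ S, x j * (s i j * (vec I.nu j ⬝ᵥ vec (I.k x) j)) := by
  conv_lhs => rw [I.k_eq_on hx hS i]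
  rw [dotProduct_add, single_dot (h1 i hi), zero_add, dotProduct_sum]
  apply Finset.sum_congr rfl
  intro j hj
  rw [dotProduct_smul, smul_eq_mul, dotProduct_mulVec, hs i hi j hj, smul_dotProduct,
    smul_eq_mul]

theorem indepSet (hnd : I.NonDeg S) (h1 : ∀ i ∈ S, I.Odd {i})
    (h2 : ∀ i ∈ S, ∀ j ∈ S, i ≠ j → I.tau i j = 0) {x : ι → F} (hS : Supp x S)
    (hx : I.Reg x) {i : ι} (hi : i ∈ S) : vec I.nu i ⬝ᵥ vec (I.k x) i = 0 := by
  classical
  obtain ⟨s, hs⟩ := indepSet_coef hnd h1 h2
  -- the matrix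
  let M : Matrix ι ι F := fun a b => if a ∈ S ∧ b ∈ S then s a b * x b else 0
  have hdet : ∀ᶠ t : F in cofinite, (1 - t • M).det ≠ 0 := by
    have hr : RatAt (0 : F) (fun t : F => (1 - t • M).det) := by
      apply RatAt.det
      intro a b
      have e : (fun t : F => (1 - t • M) a b) = fun t => (1 : Matrix ι ι F) a b - t * M a b := by
        funext t
        rw [Matrix.sub_apply, Matrix.smul_apply, smul_eq_mul]
      rw [e]
      exact (RatAt.const _).sub (RatAt.var.mul (RatAt.const _))
    apply hr.ne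
    rw [zero_smul, sub_zero, Matrix.det_one]
    exact one_ne_zero
  have hone : (fun t : F => t • x) 1 = x := one_smul F x
  have hreg : ∀ᶠ t : F in cofinite, I.Reg (t • x) :=
    I.evReg (s0 := 1) (Path.smul x) (by rw [one_smul]; exact hx)
  have hzero : ∀ᶠ t : F in cofinite, vec I.nu i ⬝ᵥ vec (I.k (t • x)) i = 0 := by
    filter_upwards [hdet, hreg] with t ht hr
    have hSt : Supp (t • x) S := by
      intro j hj
      rw [Pi.smul_apply, hS j hj, smul_zero]
    let e : ι → F := fun a => if a ∈ S then vec I.nu a ⬝ᵥ vec (I.k (t • x)) a else 0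
    have he : (1 - t • M) *ᵥ e = 0 := by
      funext a
      rw [Matrix.sub_mulVec, Matrix.one_mulVec, Matrix.smul_mulVec, Pi.sub_apply, Pi.smul_apply,
        Pi.zero_apply, sub_eq_zero]
      by_cases ha : a ∈ S
      · have h3 := indepSet_eq h1 hs hSt hr ha
        have h4 : (M *ᵥ e) a = ∑ b ∈ S, s a b * x b * (vec I.nu b ⬝ᵥ vec (I.k (t • x)) b) := by
          change ∑ b, M a b * e b = _
          rw [← Finset.sum_subset (Finset.subset_univ S)]
          · apply Finset.sum_congr rfl
            intro b hb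
            simp only [M, e, ha, hb, and_self, if_true]
          · intro b _ hb
            simp only [M, hb, and_false, if_false, zero_mul]
        have h5 : e a = vec I.nu a ⬝ᵥ vec (I.k (t • x)) a := if_pos ha
        rw [h4, h5, h3, smul_eq_mul, Finset.mul_sum]
        apply Finset.sum_congr rfl
        intro b _
        rw [Pi.smul_apply, smul_eq_mul]
        ring
      · have h4 : (M *ᵥ e) a = 0 := by
          change ∑ b, M a b * e b = _
          apply Finset.sum_eq_zero
          intro b _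
          simp only [M, ha, false_and, if_false, zero_mul]
        have h5 : e a = 0 := if_neg ha
        rw [h4, h5, smul_zero]
    have he0 : e = 0 := by
      have hu : IsUnit (1 - t • M).det := isUnit_iff_ne_zero.2 ht
      have h6 : (1 - t • M)⁻¹ *ᵥ ((1 - t • M) *ᵥ e) = e := by
        rw [Matrix.mulVec_mulVec, Matrix.nonsing_inv_mul _ hu, Matrix.one_mulVec]
      rw [← h6, he, Matrix.mulVec_zero]
    have h7 := congrFun he0 i
    have h8 : e i = vec I.nu i ⬝ᵥ vec (I.k (t • x)) i := if_pos hi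
    rw [← h8]
    exact h7
  have hrat : RatAt (1 : F) (fun t : F => vec I.nu i ⬝ᵥ vec (I.k (t • x)) i) := by
    have e : (fun t : F => vec I.nu i ⬝ᵥ vec (I.k (t • x)) i) =
        fun t => ∑ a, vec I.nu i a * I.k (t • x) (i, a) := rfl
    rw [e]
    apply RatAt.sum
    intro a _
    exact (RatAt.const _).mul (I.ratK (s0 := 1) (Path.smul x) (by rw [one_smul]; exact hx) (i, a))
  have := hrat.zero hzero
  rw [one_smul] at this
  exact this

theorem indepSet_odd (hnd : I.NonDeg S) (h1 : ∀ i ∈ S, I.Odd {i})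
    (h2 : ∀ i ∈ S, ∀ j ∈ S, i ≠ j → I.tau i j = 0) : I.Odd S := by
  intro x hS hx
  rw [I.h_eq_on hS]
  apply Finset.sum_eq_zero
  intro i hi
  rw [indepSet hnd h1 h2 hS hx hi, mul_zero]

end Inst

end Pool.Agent.H50.R2
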