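import Pool.Agent.H50.R2.Base
import Pool.Agent.H50.R2.IndepSet
import Pool.Agent.H50.R2.Anti

/-! # Module LemD: no independent triple in a minimal non-odd set (MP_966f71_lc)

All proper subsets of `V` genuine, `4 ≤ V.card`. `exists_base` with `Q = {i, j, l}`,
`J = I.shift z`, `z` supported on `V \ Q`. `V.erase l` is a proper subset, so genuine:
`I.Indep i j (V.erase l)`, so `I.Indep i j ({i, j} ∪ (V \ Q))` (`Indep.mono`), so
`J.Indep i j {i, j}` (`Indep.shift`), so `J.tau i j = 0` (`tau_zero`; `{i, j}` is odd for `J`).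
Similarly for the other ordered pairs (`tau_anti` gives the reversed ones). `indepSet_odd` makes
`Q` odd for `J`: contradiction to `J.MinNon Q`. -/

set_option autoImplicit false

namespace Pool.Agent.H50.R2

open Matrix Filter

variable {F ι : Type*} [Field F] [Infinite F] [Fintype ι] [DecidableEq ι]

namespace Inst

variable {I : Inst F ι} {V : Finset ι} {i j l : ι}

private theorem LemD_tau {Q : Finset ι} {z : ι → F} (hg : ∀ S ⊂ V, I.Gen S) (hQ : Q ⊆ V)
    (hz : Supp z (V \ Q)) (rz : I.Reg z) (nd : (I.shift z).NonDeg V)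
    (hJ : (I.shift z).MinNon Q) {a b c : ι} (ha : a ∈ Q) (hb : b ∈ Q) (hc : c ∈ Q)
    (hab : a ≠ b) (hac : a ≠ c) (hbc : b ≠ c) (t : I.tau a b = 0) :
    (I.shift z).tau a b = 0 := by
  have hsub : ({a, b} : Finset ι) ∪ (V \ Q) ⊆ V.erase c := by
    intro y hy
    rw [Finset.mem_erase]
    rcases Finset.mem_union.1 hy with h | h
    · rcases Finset.mem_insert.1 h with rfl | h
      · exact ⟨hac, hQ ha⟩
      · rw [Finset.mem_singleton.1 h]
        exact ⟨hbc, hQ hb⟩
    · rw [Finset.mem_sdiff] at h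
      refine ⟨?_, h.1⟩
      rintro rfl
      exact h.2 hc
  have h1 : I.Indep a b (V.erase c) :=
    hg (V.erase c) (Finset.erase_ssubset (hQ hc)) a (Finset.mem_erase.2 ⟨hac, hQ ha⟩) b
      (Finset.mem_erase.2 ⟨hbc, hQ hb⟩) hab t
  have h2 : (I.shift z).Indep a b {a, b} := (h1.mono hsub).shift hz rz
  have hsubQ : ({a, b} : Finset ι) ⊆ Q := by
    intro y hy
    rcases Finset.mem_insert.1 hy with rfl | h
    · exact ha
    · rw [Finset.mem_singleton.1 h]; exact hb
  have h3 : ({a, b} : Finset ι) ⊂ Q := by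
    refine Finset.ssubset_iff_subset_ne.2 ⟨hsubQ, ?_⟩
    intro he
    have : c ∈ ({a, b} : Finset ι) := by rw [he]; exact hc
    rcases Finset.mem_insert.1 this with h | h
    · exact hac h.symm
    · exact hbc (Finset.mem_singleton.1 h).symm
  exact tau_zero hab (hJ.prop _ h3) (nd.mono (hsubQ.trans hQ)) h2

theorem lemD (hV : I.MinNon V) (hg : ∀ S ⊂ V, I.Gen S) (hi : i ∈ V) (hj : j ∈ V) (hl : l ∈ V)
    (hij : i ≠ j) (hil : i ≠ l) (hjl : j ≠ l) (tij : I.tau i j = 0) (til : I.tau i l = 0)
    (tjl : I.tau j l = 0) : False := by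
  have hQ : ({i, j, l} : Finset ι) ⊆ V := by
    intro y hy
    simp only [Finset.mem_insert, Finset.mem_singleton] at hy
    rcases hy with rfl | rfl | rfl
    · exact hi
    · exact hj
    · exact hl
  obtain ⟨z, hz, rz, nd, -, hJ⟩ := exists_base hV hQ ⟨i, by simp⟩
  have miQ : i ∈ ({i, j, l} : Finset ι) := by simp
  have mjQ : j ∈ ({i, j, l} : Finset ι) := by simp
  have mlQ : l ∈ ({i, j, l} : Finset ι) := by simp
  have hrev : ∀ {a b c : ι}, a ∈ V → b ∈ V → c ∈ V → a ≠ b → a ≠ c → b ≠ c →
      I.tau a b = 0 → I.tau b a = 0 := by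
    intro a b c ha hb hc hab hac hbc t
    have h3 : ({a, b} : Finset ι) ⊂ V := by
      refine Finset.ssubset_iff_subset_ne.2 ⟨?_, ?_⟩
      · intro y hy
        rcases Finset.mem_insert.1 hy with rfl | h
        · exact ha
        · rw [Finset.mem_singleton.1 h]; exact hb
      · intro he
        have : c ∈ ({a, b} : Finset ι) := by rw [he]; exact hc
        rcases Finset.mem_insert.1 this with h | h
        · exact hac h.symm
        · exact hbc (Finset.mem_singleton.1 h).symm
    have h4 := tau_anti hab (hV.prop _ h3)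
    rw [t] at h4
    exact neg_eq_zero.1 h4.symm
  have tji := hrev hi hj hl hij hil hjl tij
  have tli := hrev hi hl hj hil hij hjl.symm til
  have tlj := hrev hj hl hi hjl hij.symm hil.symm tjl
  have Jij := LemD_tau hg hQ hz rz nd hJ miQ mjQ mlQ hij hil hjl tij
  have Jji := LemD_tau hg hQ hz rz nd hJ mjQ miQ mlQ hij.symm hjl hil tji
  have Jil := LemD_tau hg hQ hz rz nd hJ miQ mlQ mjQ hil hij hjl.symm til
  have Jli := LemD_tau hg hQ hz rz nd hJ mlQ miQ mjQ hil.symm hjl.symm hij tli
  have Jjl := LemD_tau hg hQ hz rz nd hJ mjQ mlQ miQ hjl hij.symm hil.symm tjl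
  have Jlj := LemD_tau hg hQ hz rz nd hJ mlQ mjQ miQ hjl.symm hil.symm hij.symm tlj
  refine hJ.non (indepSet_odd (nd.mono hQ) ?_ ?_)
  · intro a ha
    refine hJ.prop _ (Finset.ssubset_iff_subset_ne.2 ⟨Finset.singleton_subset_iff.2 ha, ?_⟩)
    intro he
    have hi' : i ∈ ({a} : Finset ι) := by rw [he]; exact miQ
    have hj' : j ∈ ({a} : Finset ι) := by rw [he]; exact mjQ
    exact hij ((Finset.mem_singleton.1 hi').trans (Finset.mem_singleton.1 hj').symm)
  · intro a ha b hb hab
    simp only [Finset.mem_insert, Finset.mem_singleton] at ha hb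
    rcases ha with rfl | rfl | rfl <;> rcases hb with rfl | rfl | rfl <;>
      first
        | exact absurd rfl hab
        | assumption

end Inst

end Pool.Agent.H50.R2
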