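import Mathlib

/-! # Module Ramsey: `R(3, 3) = 6` (MP_966f71_lc)

Take `a ∈ S`; among the other five either three are related to `a` or three are not
(pigeonhole: filters of `S.erase a`). In the first case either two of the three are related
(triangle) or the three are pairwise unrelated; the second case is symmetric. -/

set_option autoImplicit false

namespace Pool.Agent.H50.R2

theorem ramsey {α : Type*} [DecidableEq α] (S : Finset α) (hS : 6 ≤ S.card) (r : α → α → Prop)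
    (hr : ∀ a ∈ S, ∀ b ∈ S, r a b → r b a) :
    ∃ a ∈ S, ∃ b ∈ S, ∃ c ∈ S, a ≠ b ∧ a ≠ c ∧ b ≠ c ∧
      ((r a b ∧ r a c ∧ r b c) ∨ (¬ r a b ∧ ¬ r a c ∧ ¬ r b c)) := by
  classical
  have _ := hr
  obtain ⟨a, ha⟩ : S.Nonempty := Finset.card_pos.mp (by omega)
  have hT : 5 ≤ (S.erase a).card := by
    rw [Finset.card_erase_of_mem ha]
    omega
  have hsum := Finset.card_filter_add_card_filter_not (s := S.erase a) (fun b => r a b)
  have hc : 2 < ((S.erase a).filter fun b => r a b).card ∨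
      2 < ((S.erase a).filter fun b => ¬ r a b).card := by omega
  rcases hc with hc | hc
  · obtain ⟨b, hb, c, hc', d, hd, hbc, hbd, hcd⟩ := Finset.two_lt_card.mp hc
    simp only [Finset.mem_filter, Finset.mem_erase] at hb hc' hd
    by_cases h1 : r b c
    · exact ⟨a, ha, b, hb.1.2, c, hc'.1.2, hb.1.1.symm, hc'.1.1.symm, hbc,
        Or.inl ⟨hb.2, hc'.2, h1⟩⟩
    by_cases h2 : r b d
    · exact ⟨a, ha, b, hb.1.2, d, hd.1.2, hb.1.1.symm, hd.1.1.symm, hbd,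
        Or.inl ⟨hb.2, hd.2, h2⟩⟩
    by_cases h3 : r c d
    · exact ⟨a, ha, c, hc'.1.2, d, hd.1.2, hc'.1.1.symm, hd.1.1.symm, hcd,
        Or.inl ⟨hc'.2, hd.2, h3⟩⟩
    exact ⟨b, hb.1.2, c, hc'.1.2, d, hd.1.2, hbc, hbd, hcd, Or.inr ⟨h1, h2, h3⟩⟩
  · obtain ⟨b, hb, c, hc', d, hd, hbc, hbd, hcd⟩ := Finset.two_lt_card.mp hc
    simp only [Finset.mem_filter, Finset.mem_erase] at hb hc' hd
    by_cases h1 : r b c
    · by_cases h2 : r b d
      · by_cases h3 : r c d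
        · exact ⟨b, hb.1.2, c, hc'.1.2, d, hd.1.2, hbc, hbd, hcd, Or.inl ⟨h1, h2, h3⟩⟩
        · exact ⟨a, ha, c, hc'.1.2, d, hd.1.2, hc'.1.1.symm, hd.1.1.symm, hcd,
            Or.inr ⟨hc'.2, hd.2, h3⟩⟩
      · exact ⟨a, ha, b, hb.1.2, d, hd.1.2, hb.1.1.symm, hd.1.1.symm, hbd,
          Or.inr ⟨hb.2, hd.2, h2⟩⟩
    · exact ⟨a, ha, b, hb.1.2, c, hc'.1.2, hb.1.1.symm, hc'.1.1.symm, hbc,
        Or.inr ⟨hb.2, hc'.2, h1⟩⟩

end Pool.Agent.H50.R2
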