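import Pool.Agent.H50.R2.LemC
import Pool.Agent.H50.R2.LemD
import Pool.Agent.H50.R2.Ramsey

/-! # The local-to-global theorem (MP_966f71_lc): a locally odd instance is odd -/

set_option autoImplicit false

namespace Pool.Agent.H50.R2

open Matrix Filter

variable {F ι : Type*} [Field F] [Infinite F] [Fintype ι] [DecidableEq ι]

namespace Inst

variable {I : Inst F ι} {D : Finset ι}

theorem LocOdd.odd (h : I.LocOdd D) : I.Odd D := by
  classical
  by_contra hD
  -- a minimal non-odd subset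
  obtain ⟨V, hVD, hV, hmin⟩ : ∃ V ⊆ D, ¬ I.Odd V ∧ ∀ S ⊂ V, I.Odd S := by
    have key : ∀ n : ℕ, ∀ V ⊆ D, V.card = n → ¬ I.Odd V → ∃ V ⊆ D, ¬ I.Odd V ∧ ∀ S ⊂ V, I.Odd S := by
      intro n
      induction n using Nat.strong_induction_on with
      | _ n ih =>
        intro V hVD hn hV
        by_cases hex : ∀ S ⊂ V, I.Odd S
        · exact ⟨V, hVD, hV, hex⟩
        · push Not at hex
          obtain ⟨S, hS, hS'⟩ := hex
          exact ih S.card (hn ▸ Finset.card_lt_card hS) S (hS.1.trans hVD) rfl hS'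
    exact key _ D (Finset.Subset.refl _) rfl hD
  have hM : I.MinNon V := ⟨h.1.mono hVD, hV, hmin⟩
  have h6 : 6 ≤ V.card := by
    by_contra hlt
    exact hV (h.2 V hVD (by omega)).1
  have hgen : ∀ S ⊂ V, I.Gen S :=
    fun S hS => lemC hM (fun S hS h5 => (h.2 S (hS.trans hVD) h5).2) S hS
  have hpair : ∀ a ∈ V, ∀ b ∈ V, a ≠ b → I.tau a b = - I.tau b a := by
    intro a ha b hb hab
    refine tau_anti hab (hmin _ ?_)
    refine Finset.ssubset_iff_subset_ne.2 ⟨?_, ?_⟩
    · intro c hc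
      rcases Finset.mem_insert.1 hc with rfl | hc
      · exact ha
      · rw [Finset.mem_singleton.1 hc]; exact hb
    · intro he
      have := Finset.card_le_two (a := a) (b := b)
      rw [he] at this
      omega
  obtain ⟨a, ha, b, hb, c, hc, hab, hac, hbc, hr⟩ := ramsey V h6
    (fun a b => a ≠ b ∧ I.tau a b ≠ 0) (fun a ha b hb h => ⟨h.1.symm, by
      intro h0
      have := hpair a ha b hb h.1
      rw [h0] at this
      exact h.2 (by simpa using this)⟩)
  rcases hr with ⟨h1, h2, h3⟩ | ⟨h1, h2, h3⟩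
  · exact lemA hM ha hb hc hab hac hbc h1.2 h2.2 h3.2
  · have e : ∀ {u v : ι}, u ≠ v → ¬ (u ≠ v ∧ I.tau u v ≠ 0) → I.tau u v = 0 := by
      intro u v huv hn
      by_contra h0
      exact hn ⟨huv, h0⟩
    exact lemD hM hgen ha hb hc hab hac hbc (e hab h1) (e hac h2) (e hbc h3)

end Inst

end Pool.Agent.H50.R2
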