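import Pool.Agent.H50.R2.ShiftOdd

/-! # Module Base: generic base points (MP_966f71_lc)

`ev_good`: path `s ↦ s • z`; at `s = 0` it is `0`, `I.shift 0 = I`; finitely many conditions, each
`evReg`, `evK`, `evL`, `evTau` (combine with `Filter.eventually_all_finset`,
`Filter.Eventually.and`). `exists_base`: let `x` be supported on `V`, regular, `h x ≠ 0`; path
`s ↦ s • x` at `s0 = 1`: for almost all `s` `h (s • x) ≠ 0` and `s • x` is regular; with
`z = s • rst x (V \ Q)` apply `ev_good` and `not_odd_shift` (`V \ Q` is a proper subset of `V`). -/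

set_option autoImplicit false

namespace Pool.Agent.H50.R2

open Matrix Filter

variable {F ι : Type*} [Field F] [Infinite F] [Fintype ι] [DecidableEq ι]

namespace Inst

variable {I : Inst F ι} {V Q : Finset ι}

omit [Infinite F] in
theorem ev_good (hnd : I.NonDeg V) (z : ι → F) :
    ∀ᶠ s : F in cofinite, I.Reg (s • z) ∧ (I.shift (s • z)).NonDeg V ∧
      ∀ i ∈ V, ∀ j ∈ V, I.tau i j ≠ 0 → (I.shift (s • z)).tau i j ≠ 0 := by
  have hx : Path (fun s : F => s • z) := Path.smul z
  have h00 : (0 : F) • z = 0 := zero_smul F z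
  have hr : I.Reg ((fun s : F => s • z) 0) := by
    change I.Reg ((0 : F) • z)
    rw [h00]
    exact I.reg_zero
  have h1 : ∀ᶠ s : F in cofinite, I.Reg (s • z) := I.evReg hx hr
  have h2 : ∀ᶠ s : F in cofinite, ∀ i ∈ V, vec (I.k (s • z)) i ≠ 0 := by
    refine (Filter.eventually_all_finset V).mpr fun i hi => ?_
    refine I.evK hx hr (i := i) ?_
    change vec (I.k ((0 : F) • z)) i ≠ 0
    rw [h00, I.k_zero]
    exact (hnd i hi).1
  have h3 : ∀ᶠ s : F in cofinite, ∀ i ∈ V, vec (I.l (s • z)) i ≠ 0 := by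
    refine (Filter.eventually_all_finset V).mpr fun i hi => ?_
    refine I.evL hx hr (i := i) ?_
    change vec (I.l ((0 : F) • z)) i ≠ 0
    rw [h00, I.l_zero]
    exact (hnd i hi).2
  have h4 : ∀ᶠ s : F in cofinite, ∀ i ∈ V, ∀ j ∈ V, I.tau i j ≠ 0 →
      (I.shift (s • z)).tau i j ≠ 0 := by
    refine (Filter.eventually_all_finset V).mpr fun i _ =>
      (Filter.eventually_all_finset V).mpr fun j _ => ?_
    by_cases h : I.tau i j = 0
    · exact Filter.Eventually.of_forall fun s h' => absurd h h'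
    · have h5 : ∀ᶠ s : F in cofinite, (I.shift (s • z)).tau i j ≠ 0 := by
        refine I.evTau hx hr (i := i) (j := j) ?_
        change (I.shift ((0 : F) • z)).tau i j ≠ 0
        rw [h00, I.shift_zero]
        exact h
      filter_upwards [h5] with s hs _
      exact hs
  filter_upwards [h1, h2, h3, h4] with s hs1 hs2 hs3 hs4
  exact ⟨hs1, fun i hi => ⟨hs2 i hi, hs3 i hi⟩, hs4⟩

theorem exists_base (hV : I.MinNon V) (hQ : Q ⊆ V) (hne : Q.Nonempty) :
    ∃ z : ι → F, Supp z (V \ Q) ∧ I.Reg z ∧ (I.shift z).NonDeg V ∧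
      (∀ i ∈ V, ∀ j ∈ V, I.tau i j ≠ 0 → (I.shift z).tau i j ≠ 0) ∧ (I.shift z).MinNon Q := by
  have hnon := hV.non
  unfold Odd at hnon
  push Not at hnon
  obtain ⟨x, hxV, hxr, hxh⟩ := hnon
  have hx : Path (fun s : F => s • x) := Path.smul x
  have h11 : (1 : F) • x = x := one_smul F x
  have hr : I.Reg ((fun s : F => s • x) 1) := by
    change I.Reg ((1 : F) • x)
    rw [h11]
    exact hxr
  have h1 : ∀ᶠ s : F in cofinite, I.Reg (s • x) := I.evReg hx hr
  have h2 : ∀ᶠ s : F in cofinite, I.h (s • x) ≠ 0 := by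
    refine (I.ratH hx hr).ne ?_
    change I.h ((1 : F) • x) ≠ 0
    rw [h11]
    exact hxh
  obtain ⟨s, hs1, hs2, hs3, hs4, hs5⟩ :=
    (h1.and (h2.and (ev_good hV.nd (rst x (V \ Q))))).exists
  have hsub : V \ Q ⊂ V := by
    refine Finset.sdiff_ssubset hQ hne
  have hz : Supp (s • rst x (V \ Q)) (V \ Q) := (supp_rst x (V \ Q)).smul s
  have hy : Supp (s • rst x Q) Q := (supp_rst x Q).smul s
  have hzy : s • rst x (V \ Q) + s • rst x Q = s • x := by
    rw [← smul_add, rst_add_rst hxV hQ]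
  refine ⟨s • rst x (V \ Q), hz, hs3, hs4, hs5, ⟨hs4.mono hQ, ?_, fun S hS => ?_⟩⟩
  · refine not_odd_shift (hV.prop _ hsub) hz hs3 hy ?_ ?_
    · rw [hzy]
      exact hs1
    · rw [hzy]
      exact hs2
  · refine Odd.shift (R := V \ Q) (hV.prop _ ?_) hz hs3
    refine ⟨Finset.union_subset (hS.1.trans hQ) Finset.sdiff_subset, fun h => hS.2 ?_⟩
    intro a ha
    have h3 := h (hQ ha)
    rw [Finset.mem_union, Finset.mem_sdiff] at h3
    exact h3.resolve_right fun h4 => h4.2 ha

end Inst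

end Pool.Agent.H50.R2
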