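import Pool.Agent.H50.R2.Defs

/-! # Module Basic: equations for `k`, `l`, `h` (MP_966f71_lc)

* `reg_zero`: `dg 0 = 0`.
* `k_eq`: `(1 - T X) k = mu` (`Matrix.mul_nonsing_inv`, unit determinant), read off at `(i, a)`; the
  sum over `ι × Fin 2` is `Fintype.sum_prod_type`. `_on` versions: terms outside the support vanish.
* `k_unique`: multiply by `(1 - T X)⁻¹`.
* `reg_tr`: `det (1 - T X) = det (1 - X T)` (`Matrix.det_one_sub_mul_comm` or
  `Matrix.det_one_add_mul_comm`), transpose.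
* `push`: `(1 - T X)⁻¹ T = T (1 - X T)⁻¹` from `T (1 - X T) = (1 - T X) T`. -/

set_option autoImplicit false

namespace Pool.Agent.H50.R2

open Matrix

variable {F ι : Type*} [Field F] [Fintype ι] [DecidableEq ι]

theorem vec_add (f g : ι × Fin 2 → F) (i : ι) : vec (f + g) i = vec f i + vec g i := by
  rfl

theorem vec_smul (c : F) (f : ι × Fin 2 → F) (i : ι) : vec (c • f) i = c • vec f i := by
  rfl

theorem vec_mulVec (T : Matrix (ι × Fin 2) (ι × Fin 2) F) (f : ι × Fin 2 → F) (i : ι) :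
    vec (T *ᵥ f) i = ∑ j, blk T i j *ᵥ vec f j := by
  funext a
  simp only [vec, blk, Matrix.mulVec, dotProduct, Fintype.sum_prod_type, Finset.sum_apply]

theorem vec_dg (x : ι → F) (f : ι × Fin 2 → F) (i : ι) : vec (dg x *ᵥ f) i = x i • vec f i := by
  funext a
  simp [vec, dg, Matrix.mulVec_diagonal]

theorem dot_eq_sum (f g : ι × Fin 2 → F) : f ⬝ᵥ g = ∑ i, vec f i ⬝ᵥ vec g i := by
  simp only [vec, dotProduct, Fintype.sum_prod_type]

theorem dg_add (x y : ι → F) : dg (x + y) = dg x + dg y := by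
  simp only [dg]
  rw [Matrix.diagonal_add]
  rfl

theorem dg_zero : dg (0 : ι → F) = 0 := by
  simp only [dg, Pi.zero_apply]
  exact Matrix.diagonal_zero

theorem det_comm (T : Matrix (ι × Fin 2) (ι × Fin 2) F) (x : ι → F) :
    (1 - dg x * T).det = (1 - T * dg x).det := by
  exact Matrix.det_one_sub_mul_comm _ _

theorem Basic_push_gen {A B : Matrix (ι × Fin 2) (ι × Fin 2) F} (h : (1 - A * B).det ≠ 0) :
    (1 - A * B)⁻¹ * A = A * (1 - B * A)⁻¹ := by
  have hu : IsUnit (1 - A * B).det := isUnit_iff_ne_zero.2 h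
  have hu' : IsUnit (1 - B * A).det := by
    rw [Matrix.det_one_sub_mul_comm]; exact hu
  have e : A * (1 - B * A) = (1 - A * B) * A := by
    rw [Matrix.mul_sub, Matrix.sub_mul, Matrix.mul_one, Matrix.one_mul, Matrix.mul_assoc]
  calc (1 - A * B)⁻¹ * A = (1 - A * B)⁻¹ * A * ((1 - B * A) * (1 - B * A)⁻¹) := by
        rw [Matrix.mul_nonsing_inv _ hu', Matrix.mul_one]
    _ = (1 - A * B)⁻¹ * (A * (1 - B * A)) * (1 - B * A)⁻¹ := by
        simp only [Matrix.mul_assoc]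
    _ = (1 - A * B)⁻¹ * ((1 - A * B) * A) * (1 - B * A)⁻¹ := by rw [e]
    _ = A * (1 - B * A)⁻¹ := by
        rw [← Matrix.mul_assoc, Matrix.nonsing_inv_mul _ hu, Matrix.one_mul]

theorem Basic_dg_transpose (x : ι → F) : (dg x)ᵀ = dg x := by
  simp only [dg, Matrix.diagonal_transpose]

theorem Basic_vecMul_dg (f : ι × Fin 2 → F) (x : ι → F) : f ᵥ* dg x = dg x *ᵥ f := by
  rw [← Matrix.mulVec_transpose, Basic_dg_transpose]

theorem Basic_vec_vecMul (T : Matrix (ι × Fin 2) (ι × Fin 2) F) (f : ι × Fin 2 → F) (j : ι) :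
    vec (f ᵥ* T) j = ∑ i, vec f i ᵥ* blk T i j := by
  funext a
  simp only [vec, blk, Matrix.vecMul, dotProduct, Fintype.sum_prod_type, Finset.sum_apply]

theorem push {T : Matrix (ι × Fin 2) (ι × Fin 2) F} {x : ι → F} (h : (1 - T * dg x).det ≠ 0) :
    (1 - T * dg x)⁻¹ * T = T * (1 - dg x * T)⁻¹ := by
  exact Basic_push_gen h

theorem kk_eq {T : Matrix (ι × Fin 2) (ι × Fin 2) F} {mu : ι × Fin 2 → F} {x : ι → F}
    (h : (1 - T * dg x).det ≠ 0) : kk T mu x = mu + T *ᵥ (dg x *ᵥ kk T mu x) := by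
  have hu : IsUnit (1 - T * dg x).det := isUnit_iff_ne_zero.2 h
  have e : (1 - T * dg x) *ᵥ kk T mu x = mu := by
    rw [kk, Matrix.mulVec_mulVec, Matrix.mul_nonsing_inv _ hu, Matrix.one_mulVec]
  rw [Matrix.sub_mulVec, Matrix.one_mulVec, ← Matrix.mulVec_mulVec] at e
  exact sub_eq_iff_eq_add.1 e

theorem ll_eq {T : Matrix (ι × Fin 2) (ι × Fin 2) F} {nu : ι × Fin 2 → F} {x : ι → F}
    (h : (1 - T * dg x).det ≠ 0) : ll T nu x = nu + (dg x *ᵥ ll T nu x) ᵥ* T := by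
  have hu : IsUnit (1 - dg x * T).det := by
    rw [det_comm]; exact isUnit_iff_ne_zero.2 h
  have e : ll T nu x ᵥ* (1 - dg x * T) = nu := by
    rw [ll, Matrix.vecMul_vecMul, Matrix.nonsing_inv_mul _ hu, Matrix.vecMul_one]
  rw [Matrix.vecMul_sub, Matrix.vecMul_one, ← Matrix.vecMul_vecMul, Basic_vecMul_dg] at e
  exact sub_eq_iff_eq_add.1 e

theorem kk_unique {T : Matrix (ι × Fin 2) (ι × Fin 2) F} {mu v : ι × Fin 2 → F} {x : ι → F}
    (h : (1 - T * dg x).det ≠ 0) (hv : v = mu + T *ᵥ (dg x *ᵥ v)) : v = kk T mu x := by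
  have hu : IsUnit (1 - T * dg x).det := isUnit_iff_ne_zero.2 h
  have e : (1 - T * dg x) *ᵥ v = mu := by
    rw [Matrix.sub_mulVec, Matrix.one_mulVec, ← Matrix.mulVec_mulVec]
    exact sub_eq_iff_eq_add.2 hv
  rw [kk, ← e, Matrix.mulVec_mulVec, Matrix.nonsing_inv_mul _ hu, Matrix.one_mulVec]

namespace Inst

variable (I : Inst F ι) {x y : ι → F} {S S' : Finset ι}

theorem reg_zero : I.Reg 0 := by
  simp [Reg, dg_zero]

theorem k_zero : I.k 0 = I.mu := by
  simp [k, kk, dg_zero]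

theorem l_zero : I.l 0 = I.nu := by
  simp [l, ll, dg_zero]

theorem h_zero : I.h 0 = 0 := by
  simp [h, dg_zero]

theorem shift_zero : I.shift 0 = I := by
  simp only [shift, k_zero, l_zero, dg_zero, Matrix.mul_zero, sub_zero, inv_one, Matrix.one_mul]

theorem k_eq_on (hx : I.Reg x) (hS : Supp x S) (i : ι) :
    vec (I.k x) i = vec I.mu i + ∑ j ∈ S, x j • (blk I.T i j *ᵥ vec (I.k x) j) := by
  have e := congrArg (fun f => vec f i) (kk_eq (mu := I.mu) hx)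
  simp only [vec_add] at e
  rw [vec_mulVec I.T (dg x *ᵥ kk I.T I.mu x)] at e
  rw [k, e]
  congr 1
  have e2 : ∀ j, blk I.T i j *ᵥ vec (dg x *ᵥ kk I.T I.mu x) j =
      x j • (blk I.T i j *ᵥ vec (kk I.T I.mu x) j) := by
    intro j
    rw [vec_dg, Matrix.mulVec_smul]
  rw [Finset.sum_congr rfl fun j _ => e2 j]
  symm
  apply Finset.sum_subset (Finset.subset_univ S)
  intro j _ hj
  rw [hS j hj, zero_smul]

theorem l_eq_on (hx : I.Reg x) (hS : Supp x S) (j : ι) :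
    vec (I.l x) j = vec I.nu j + ∑ i ∈ S, x i • (vec (I.l x) i ᵥ* blk I.T i j) := by
  have e := congrArg (fun f => vec f j) (ll_eq (nu := I.nu) hx)
  simp only [vec_add, Basic_vec_vecMul] at e
  rw [l, e]
  congr 1
  have e2 : ∀ i, vec (dg x *ᵥ ll I.T I.nu x) i ᵥ* blk I.T i j =
      x i • (vec (ll I.T I.nu x) i ᵥ* blk I.T i j) := by
    intro i
    rw [vec_dg, Matrix.smul_vecMul]
  rw [Finset.sum_congr rfl fun i _ => e2 i]
  symm
  apply Finset.sum_subset (Finset.subset_univ S)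
  intro i _ hi
  rw [hS i hi, zero_smul]

theorem h_eq_on (hS : Supp x S) :
    I.h x = ∑ i ∈ S, x i * (vec I.nu i ⬝ᵥ vec (I.k x) i) := by
  rw [h, dot_eq_sum]
  have e2 : ∀ i, vec I.nu i ⬝ᵥ vec (dg x *ᵥ I.k x) i = x i * (vec I.nu i ⬝ᵥ vec (I.k x) i) := by
    intro i
    rw [vec_dg, dotProduct_smul, smul_eq_mul]
  rw [Finset.sum_congr rfl fun i _ => e2 i]
  symm
  apply Finset.sum_subset (Finset.subset_univ S)
  intro i _ hi
  rw [hS i hi, zero_mul]

theorem k_unique (hx : I.Reg x) {v : ι × Fin 2 → F}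
    (hv : ∀ i, vec v i = vec I.mu i + ∑ j, x j • (blk I.T i j *ᵥ vec v j)) : v = I.k x := by
  apply kk_unique hx
  funext p
  have e := congrFun (hv p.1) p.2
  have e3 : vec (I.mu + I.T *ᵥ (dg x *ᵥ v)) p.1 =
      vec I.mu p.1 + ∑ j, x j • (blk I.T p.1 j *ᵥ vec v j) := by
    rw [vec_add, vec_mulVec]
    congr 1
    apply Finset.sum_congr rfl
    intro j _
    rw [vec_dg, Matrix.mulVec_smul]
  exact e.trans (congrFun e3 p.2).symm

theorem reg_tr : I.tr.Reg x ↔ I.Reg x := by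
  have e : (1 - I.tr.T * dg x).det = (1 - I.T * dg x).det := by
    rw [← det_comm I.T x, ← Matrix.det_transpose (1 - dg x * I.T), Matrix.transpose_sub,
      Matrix.transpose_one, Matrix.transpose_mul, Basic_dg_transpose]
    rfl
  unfold Reg
  rw [e]

theorem k_tr : I.tr.k x = I.l x := by
  have e : (1 - I.tr.T * dg x) = (1 - dg x * I.T)ᵀ := by
    rw [Matrix.transpose_sub, Matrix.transpose_one, Matrix.transpose_mul, Basic_dg_transpose]
    rfl
  show (1 - I.tr.T * dg x)⁻¹ *ᵥ I.nu = I.nu ᵥ* (1 - dg x * I.T)⁻¹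
  rw [e, ← Matrix.transpose_nonsing_inv, Matrix.mulVec_transpose]

theorem l_tr : I.tr.l x = I.k x := by
  have e : (1 - dg x * I.tr.T) = (1 - I.T * dg x)ᵀ := by
    rw [Matrix.transpose_sub, Matrix.transpose_one, Matrix.transpose_mul, Basic_dg_transpose]
    rfl
  show I.mu ᵥ* (1 - dg x * I.tr.T)⁻¹ = (1 - I.T * dg x)⁻¹ *ᵥ I.mu
  rw [e, ← Matrix.transpose_nonsing_inv, Matrix.vecMul_transpose]

theorem h_tr (hx : I.Reg x) : I.tr.h x = I.h x := by
  have hx' : (1 - dg x * I.T).det ≠ 0 := by rw [det_comm]; exact hx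
  have e1 : I.tr.h x = I.mu ⬝ᵥ (dg x *ᵥ I.l x) := by
    rw [h, k_tr]; rfl
  rw [e1, h]
  have e2 : dg x *ᵥ I.l x = (I.nu ᵥ* (1 - dg x * I.T)⁻¹) ᵥ* dg x := by
    rw [Basic_vecMul_dg]; rfl
  have e3 : dg x *ᵥ I.k x = (dg x * (1 - I.T * dg x)⁻¹) *ᵥ I.mu := by
    rw [← Matrix.mulVec_mulVec]; rfl
  rw [e2, e3, Matrix.vecMul_vecMul, Basic_push_gen hx', dotProduct_comm, Matrix.dotProduct_mulVec]

theorem tau_tr (i j : ι) : I.tr.tau i j = I.tau j i := by
  show vec I.mu i ⬝ᵥ (blk I.Tᵀ i j *ᵥ vec I.nu j) = vec I.nu j ⬝ᵥ (blk I.T j i *ᵥ vec I.mu i)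
  have e : blk I.Tᵀ i j = (blk I.T j i)ᵀ := rfl
  rw [e, Matrix.mulVec_transpose, dotProduct_comm, Matrix.dotProduct_mulVec]

theorem shift_tr (hx : I.Reg x) : I.tr.shift x = (I.shift x).tr := by
  have h1 : (1 - I.tr.T * dg x).det ≠ 0 := (I.reg_tr).2 hx
  have e1 : (1 - I.tr.T * dg x)⁻¹ * I.tr.T = ((1 - I.T * dg x)⁻¹ * I.T)ᵀ := by
    rw [push h1, Matrix.transpose_mul, Matrix.transpose_nonsing_inv, Matrix.transpose_sub,
      Matrix.transpose_one, Matrix.transpose_mul, Basic_dg_transpose]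
    rfl
  show (⟨(1 - I.tr.T * dg x)⁻¹ * I.tr.T, I.tr.k x, I.tr.l x⟩ : Inst F ι) =
    ⟨((1 - I.T * dg x)⁻¹ * I.T)ᵀ, I.l x, I.k x⟩
  rw [e1, k_tr, l_tr]

theorem odd_tr (h : I.Odd S) : I.tr.Odd S := by
  intro x hx hr
  have hr' : I.Reg x := (I.reg_tr).1 hr
  rw [I.h_tr hr']
  exact h x hx hr'

theorem Odd.mono {I : Inst F ι} (h : I.Odd S') (hS : S ⊆ S') : I.Odd S := by
  intro x hx hr
  exact h x (fun i hi => hx i fun h' => hi (hS h')) hr

theorem Indep.mono {I : Inst F ι} {i j : ι} (h : I.Indep i j S') (hS : S ⊆ S') :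
    I.Indep i j S := by
  intro x y hx hy hl hrx hry
  exact h x y (fun i hi => hx i fun h' => hi (hS h')) (fun i hi => hy i fun h' => hi (hS h'))
    hl hrx hry

theorem NonDeg.mono {I : Inst F ι} (h : I.NonDeg S') (hS : S ⊆ S') : I.NonDeg S := by
  exact fun i hi => h i (hS hi)

theorem IsArea.mono {I : Inst F ι} {w : ι → F} {th : ι → Fin 2 → F} (h : I.IsArea S' w th)
    (hS : S ⊆ S') : I.IsArea S w th := by
  exact ⟨fun i hi => h.hw i (hS hi), fun i hi => h.hth i (hS hi)⟩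

theorem LocOdd.mono {I : Inst F ι} (h : I.LocOdd S') (hS : S ⊆ S') : I.LocOdd S := by
  exact ⟨NonDeg.mono h.1 hS, fun U hU hc => h.2 U (hU.trans hS) hc⟩

end Inst

end Pool.Agent.H50.R2
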