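import Pool.Agent.H50.R2.Defs

/-! # Certificates (MP_966f71_lc)

`M(x) = B + P (dg x) Q`, that is `B + sum_i x_i P_i Q_i` with `P_i` of size `N × 2`, `Q_i` of size
`2 × K`. -/

set_option autoImplicit false

namespace Pool.Agent.H50.R2

open Matrix Module

variable {F ι N K : Type*} [Field F] [Fintype ι] [DecidableEq ι] [Fintype N] [Fintype K]

/-- Certificates: a subspace `U` of pairs `(y, xi)` with `B y + P xi = 0`, subspaces `Y i` of the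
plane, disjoint nonempty sets `S ∈ D` with locally odd instances `J S`, and a point `a`. -/
structure IsCert (B : Matrix N K F) (P : Matrix N (ι × Fin 2) F) (Q : Matrix (ι × Fin 2) K F)
    (U : Submodule F ((K → F) × (ι × Fin 2 → F))) (Y : ι → Submodule F (Fin 2 → F))
    (D : Finset (Finset ι)) (a : ι → F) (J : Finset ι → Inst F ι) : Prop where
  ker : ∀ u ∈ U, B *ᵥ u.1 + P *ᵥ u.2 = 0
  ne : ∀ S ∈ D, S.Nonempty
  disj : ∀ S ∈ D, ∀ S' ∈ D, S ≠ S' → Disjoint S S'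
  loc : ∀ S ∈ D, (J S).LocOdd S
  out : ∀ u ∈ U, ∀ i, (∀ S ∈ D, i ∉ S) → vec (Q *ᵥ u.1) i ∈ Y i ∧ vec u.2 i ∈ Y i
  nu0 : ∀ u ∈ U, ∀ S ∈ D,
    ∑ i ∈ S, vec (J S).nu i ⬝ᵥ (vec u.2 i - a i • vec (Q *ᵥ u.1) i) = 0
  mu0 : ∀ u ∈ U, ∀ S ∈ D, ∃ t : F, ∀ i ∈ S, vec (Q *ᵥ u.1) i =
    ∑ j ∈ S, blk (J S).T i j *ᵥ (vec u.2 j - a j • vec (Q *ᵥ u.1) j) + t • vec (J S).mu i

/-- The value of a certificate is `val - dim U`. -/
noncomputable def val (K : Type*) [Fintype K] (Y : ι → Submodule F (Fin 2 → F))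
    (D : Finset (Finset ι)) : ℕ :=
  Fintype.card K + ∑ i ∈ (D.biUnion id)ᶜ, finrank F (Y i) + ∑ S ∈ D, (2 * S.card - 1)

end Pool.Agent.H50.R2
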