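import Pool.Agent.H50.R2.SysPar

/-! # Module SysInd: independence of directions (MP_966f71_lc)

`S` good, `i` active. `DInd i R`: the direction of `kk_i` depends only on the coordinates off `R`.
* `dind_notA` (`j` not active): path `s • a`, `s • b`; `nu ∈ L` with `nu_i ≠ 0`; for almost all `s`
  `ll_i(nu, s • b) ≠ 0`. For almost all `u` the point `s • a + Pi.single i u` is regular; (`E0`) for
  it and `s • b` (they agree off `i, j`; the `j` term vanishes as `j` is not active) gives
  `(s a_i + u - s b_i) * (ll_i(nu, s • b) kk_i(mu, s • a + u e_i)) = 0` with `a_i = b_i` (`i ≠ j`):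
  divide by `u`, let `u → 0`: `ll_i(nu, s • b)` kills `kk_i(mu, s • a)`; it kills
  `kk_i(mu', s • b)` by `own`. `par_of_ker`, then `RatAt.zero` at `s = 1`.
* `dind_nonadj` (`j ≠ i` active, not adjacent): same path; for almost all `s` also
  `kk_j(mu0, s • b) ≠ 0`, where `mu0 ∈ E`, `mu0_j ≠ 0`. At the base `z = s • b`, with `T' = T^z`, the
  point `s • a = z + t e_j`: `kk_i(mu, s • a) = kk_i(mu, z) + t T'_ij kk_j(mu, s • a)`
  (`k_eq_on` for the shifted instance), and `kk_j(mu, s • a) = c kk_j(mu0, z)` (`par_own` for `j`).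
  `ll_i(nu, z) T'_ij kk_j(mu0, z) = tau i j` at `z` for `(mu0, nu)` `= 0` (`Good.tau`, not adjacent).
  So `ll_i(nu, z)` kills `kk_i(mu, s • a)` and `kk_i(mu', z)`.
* `dind_union`: `c` = `b` on `R`, `a` off `R`: `a, c` agree off `R`, `c, b` agree off `R'`... (`c`
  agrees with `b` on `R`, and off `R ∪ R'`). Use the path `s • a, s • c, s • b` and `mu0 ∈ E` with
  `mu0_i ≠ 0`, so that `kk_i(mu0, s • c) ≠ 0` for almost all `s`; `par_trans`, close at `s = 1`.
* `dind_set`: `Finset` induction. -/

set_option autoImplicit false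

namespace Pool.Agent.H50.R2

open Matrix Module Filter

variable {F ι : Type*} [Field F] [Infinite F] [Fintype ι] [DecidableEq ι]

namespace Sys

variable {S : Sys F ι} {i j : ι} {R R' : Finset ι}

omit [Infinite F] in
private theorem sysInd_reg {a : ι → F} (ha : S.Reg a) : ∀ᶠ s : F in cofinite, S.Reg (s • a) := by
  have h1 : (1 - S.T * dg ((fun s : F => s • a) 1)).det ≠ 0 := by
    change (1 - S.T * dg ((1 : F) • a)).det ≠ 0
    rw [one_smul]
    exact ha
  exact ev_det (T := S.T) (x := fun s : F => s • a) (Path.smul a) h1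

omit [Infinite F] in
private theorem sysInd_reg0 (a : ι → F) : ∀ᶠ s : F in cofinite, S.Reg (s • a) := by
  have h1 : (1 - S.T * dg ((fun s : F => s • a) 0)).det ≠ 0 := by
    change (1 - S.T * dg ((0 : F) • a)).det ≠ 0
    rw [zero_smul]
    exact S.reg_zero
  exact ev_det (T := S.T) (x := fun s : F => s • a) (Path.smul a) h1

omit [Infinite F] in
private theorem sysInd_kk0 {mu : ι × Fin 2 → F} (a : ι → F) (h : vec mu i ≠ 0) :
    ∀ᶠ s : F in cofinite, vec (kk S.T mu (s • a)) i ≠ 0 := by
  have h1 : (1 - S.T * dg ((fun s : F => s • a) 0)).det ≠ 0 := by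
    change (1 - S.T * dg ((0 : F) • a)).det ≠ 0
    rw [zero_smul]
    exact S.reg_zero
  have h2 : kk S.T mu ((fun s : F => s • a) 0) = mu := by
    change kk S.T mu ((0 : F) • a) = mu
    rw [zero_smul]
    exact (Inst.mk S.T mu mu).k_zero
  obtain ⟨e, he⟩ := Function.ne_iff.1 h
  have h3 : kk S.T mu ((fun s : F => s • a) 0) (i, e) ≠ 0 := by
    rw [h2]
    exact he
  filter_upwards [RatAt.ne (ratkk mu (x := fun s : F => s • a) (Path.smul a) h1 (i, e)) h3]
    with s hs
  exact Function.ne_iff.2 ⟨e, hs⟩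

omit [Infinite F] in
private theorem sysInd_ll0 {nu : ι × Fin 2 → F} (a : ι → F) (h : vec nu i ≠ 0) :
    ∀ᶠ s : F in cofinite, vec (ll S.T nu (s • a)) i ≠ 0 := by
  have h1 : (1 - S.T * dg ((fun s : F => s • a) 0)).det ≠ 0 := by
    change (1 - S.T * dg ((0 : F) • a)).det ≠ 0
    rw [zero_smul]
    exact S.reg_zero
  have h2 : ll S.T nu ((fun s : F => s • a) 0) = nu := by
    change ll S.T nu ((0 : F) • a) = nu
    rw [zero_smul]
    exact (Inst.mk S.T nu nu).l_zero
  obtain ⟨e, he⟩ := Function.ne_iff.1 h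
  have h3 : ll S.T nu ((fun s : F => s • a) 0) (i, e) ≠ 0 := by
    rw [h2]
    exact he
  filter_upwards [RatAt.ne (ratll nu (x := fun s : F => s • a) (Path.smul a) h1 (i, e)) h3]
    with s hs
  exact Function.ne_iff.2 ⟨e, hs⟩

private theorem sysInd_close {mu mu' : ι × Fin 2 → F} {a b : ι → F} (ha : S.Reg a) (hb : S.Reg b)
    (H : ∀ᶠ s : F in cofinite,
      par (vec (kk S.T mu (s • a)) i) (vec (kk S.T mu' (s • b)) i)) :
    par (vec (kk S.T mu a) i) (vec (kk S.T mu' b) i) := by
  have h1 : (1 - S.T * dg ((fun s : F => s • a) 1)).det ≠ 0 := by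
    change (1 - S.T * dg ((1 : F) • a)).det ≠ 0
    rw [one_smul]
    exact ha
  have h2 : (1 - S.T * dg ((fun s : F => s • b) 1)).det ≠ 0 := by
    change (1 - S.T * dg ((1 : F) • b)).det ≠ 0
    rw [one_smul]
    exact hb
  have ra : ∀ e : Fin 2, RatAt 1 (fun s : F => kk S.T mu (s • a) (i, e)) := fun e =>
    ratkk mu (x := fun s : F => s • a) (Path.smul a) h1 (i, e)
  have rb : ∀ e : Fin 2, RatAt 1 (fun s : F => kk S.T mu' (s • b) (i, e)) := fun e =>
    ratkk mu' (x := fun s : F => s • b) (Path.smul b) h2 (i, e)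
  have h3 : RatAt 1 (fun s : F => ar (vec (kk S.T mu (s • a)) i) (vec (kk S.T mu' (s • b)) i)) :=
    ((ra 0).mul (rb 1)).sub ((ra 1).mul (rb 0))
  have h4 := RatAt.zero h3 H
  simp only [one_smul] at h4
  exact h4

omit [Infinite F] [Fintype ι] [DecidableEq ι] in
private theorem sysInd_dot {s0 : F} (w : Fin 2 → F) (f : F → Fin 2 → F)
    (hf : ∀ e, RatAt s0 (fun s => f s e)) : RatAt s0 (fun s => w ⬝ᵥ f s) := by
  have h : (fun s => w ⬝ᵥ f s) = fun s => w 0 * f s 0 + w 1 * f s 1 := by
    funext s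
    simp only [dotProduct, Fin.sum_univ_two]
  rw [h]
  exact ((RatAt.const (w 0)).mul (hf 0)).add ((RatAt.const (w 1)).mul (hf 1))

theorem dind_own (h : S.Good) (hi : S.InA i) : S.DInd i {i} := by
  intro mu hmu mu' hmu' a b ha hb hab
  exact par_own h hi hmu hmu' ha hb fun m hm => hab m fun h' => hm (Finset.mem_singleton.1 h')

theorem dind_notA (h : S.Good) (hi : S.InA i) (hj : ¬ S.InA j) : S.DInd i {j} := by
  intro mu hmu mu' hmu' a b ha hb hab
  obtain ⟨nu, hnu, hnui⟩ := h.nu i hi
  refine sysInd_close ha hb ?_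
  filter_upwards [sysInd_reg ha, sysInd_reg hb, sysInd_ll0 b hnui] with s hsa hsb hsl
  have hij : i ≠ j := fun e => hj (e ▸ hi)
  refine par_of_ker hsl ?_ (own hmu' hnu hsb hsb fun _ _ => rfl)
  have hpath : Path (fun u : F => s • a + (Pi.single i u : ι → F)) :=
    Path.add (x := fun _ : F => s • a) (y := fun u : F => (Pi.single i u : ι → F))
      (Path.const (s • a)) (Path.single i)
  have hz : (fun u : F => s • a + (Pi.single i u : ι → F)) 0 = s • a := by
    change s • a + (Pi.single i (0 : F) : ι → F) = s • a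
    rw [Pi.single_zero, add_zero]
  have hreg : (1 - S.T * dg ((fun u : F => s • a + (Pi.single i u : ι → F)) 0)).det ≠ 0 := by
    rw [hz]
    exact hsa
  have hr : ∀ e : Fin 2,
      RatAt 0 (fun u : F => kk S.T mu (s • a + (Pi.single i u : ι → F)) (i, e)) :=
    fun e => ratkk mu (x := fun u : F => s • a + (Pi.single i u : ι → F)) hpath hreg (i, e)
  have hrat : RatAt 0 (fun u : F =>
      vec (ll S.T nu (s • b)) i ⬝ᵥ vec (kk S.T mu (s • a + (Pi.single i u : ι → F))) i) :=
    sysInd_dot (vec (ll S.T nu (s • b)) i)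
      (fun u : F => vec (kk S.T mu (s • a + (Pi.single i u : ι → F))) i) hr
  have hev : ∀ᶠ u : F in cofinite,
      vec (ll S.T nu (s • b)) i ⬝ᵥ
        vec (kk S.T mu (s • a + (Pi.single i u : ι → F))) i = 0 := by
    have hne : ∀ᶠ u : F in cofinite, u ≠ 0 := by
      refine (Set.finite_singleton (0 : F)).subset ?_
      intro u hu
      by_contra hu'
      exact hu hu'
    filter_upwards [ev_det (T := S.T) (x := fun u : F => s • a + (Pi.single i u : ι → F))
      hpath hreg, hne] with u hu hu0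
    have hE := E0 hmu hnu hu hsb
    rw [Finset.sum_eq_single i] at hE
    · have e1 : (s • a + (Pi.single i u : ι → F)) i - (s • b) i = u := by
        have e2 := hab i (fun h' => hij (Finset.mem_singleton.1 h'))
        rw [Pi.add_apply, Pi.single_eq_same, Pi.smul_apply, Pi.smul_apply, e2]
        ring
      rw [e1] at hE
      exact (mul_eq_zero.1 hE).resolve_left hu0
    · intro m _ hmi
      by_cases hmj : m = j
      · subst hmj
        have e3 : vec (ll S.T nu (s • b)) m ⬝ᵥ
            vec (kk S.T mu (s • a + (Pi.single i u : ι → F))) m = 0 := by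
          by_contra hne'
          exact hj ⟨mu, hmu, nu, hnu, _, _, hsb, hu, hne'⟩
        rw [e3, mul_zero]
      · have e2 := hab m (fun h' => hmj (Finset.mem_singleton.1 h'))
        have e1 : (s • a + (Pi.single i u : ι → F)) m - (s • b) m = 0 := by
          rw [Pi.add_apply, Pi.single_eq_of_ne hmi, Pi.smul_apply, Pi.smul_apply, e2]
          ring
        rw [e1, zero_mul]
    · intro h'
      exact absurd (Finset.mem_univ i) h'
  have hfin := RatAt.zero hrat hev
  simpa only [Pi.single_zero, add_zero] using hfin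

theorem dind_nonadj (h : S.Good) (hi : S.InA i) (hj : S.InA j) (hij : i ≠ j)
    (hadj : ¬ S.Adj i j) : S.DInd i {j} := by
  intro mu hmu mu' hmu' a b ha hb hab
  obtain ⟨nu, hnu, hnui⟩ := h.nu i hi
  obtain ⟨mu0, hmu0, hmu0j⟩ := h.mu j hj
  refine sysInd_close ha hb ?_
  filter_upwards [sysInd_reg ha, sysInd_reg hb, sysInd_ll0 b hnui, sysInd_kk0 b hmu0j]
    with s hsa hsb hsl hsk
  refine par_of_ker hsl ?_ (own hmu' hnu hsb hsb fun _ _ => rfl)
  have hab' : ∀ m, m ≠ j → (s • a) m = (s • b) m := by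
    intro m hm
    rw [Pi.smul_apply, Pi.smul_apply, hab m fun h' => hm (Finset.mem_singleton.1 h')]
  obtain ⟨c, hc⟩ := exists_smul_of_par hsk
    (par_symm (par_own h hj hmu hmu0 hsa hsb hab'))
  have hza : s • b + (Pi.single j ((s • a) j - (s • b) j) : ι → F) = s • a := by
    funext m
    by_cases hm : m = j
    · subst hm
      rw [Pi.add_apply, Pi.single_eq_same]
      ring
    · rw [Pi.add_apply, Pi.single_eq_of_ne hm, add_zero, hab' m hm]
  have hrz : (Inst.mk S.T mu nu).Reg (s • b) := hsb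
  have hrza : (Inst.mk S.T mu nu).Reg
      (s • b + (Pi.single j ((s • a) j - (s • b) j) : ι → F)) := by
    rw [hza]
    exact hsa
  have hr1 : ((Inst.mk S.T mu nu).shift (s • b)).Reg
      (Pi.single j ((s • a) j - (s • b) j) : ι → F) :=
    ((Inst.mk S.T mu nu).reg_add hrz).2 hrza
  have hk := ((Inst.mk S.T mu nu).shift (s • b)).k_eq_on hr1 (supp_single j _) i
  rw [(Inst.mk S.T mu nu).k_add hrz hrza, hza, Finset.sum_singleton, Pi.single_eq_same] at hk
  have hk' : vec (kk S.T mu (s • a)) i = vec (kk S.T mu (s • b)) i +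
      ((s • a) j - (s • b) j) • (blk ((1 - S.T * dg (s • b))⁻¹ * S.T) i j *ᵥ
        vec (kk S.T mu (s • a)) j) := hk
  rw [hk', hc, dotProduct_add, own hmu hnu hsb hsb (fun _ _ => rfl), zero_add, dotProduct_smul,
    Matrix.mulVec_smul, dotProduct_smul]
  have htau : vec (ll S.T nu (s • b)) i ⬝ᵥ
      (blk ((1 - S.T * dg (s • b))⁻¹ * S.T) i j *ᵥ vec (kk S.T mu0 (s • b)) j) = 0 := by
    by_contra hne
    exact hadj (h.tau i j mu0 hmu0 nu hnu (s • b) hsb hne)
  rw [htau, smul_zero, smul_zero]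

theorem dind_union (h : S.Good) (hi : S.InA i) (h1 : S.DInd i R) (h2 : S.DInd i R') :
    S.DInd i (R ∪ R') := by
  intro mu hmu mu' hmu' a b ha hb hab
  obtain ⟨mu0, hmu0, hmu0i⟩ := h.mu i hi
  refine sysInd_close ha hb ?_
  set c : ι → F := fun m => if m ∈ R then b m else a m with hcdef
  filter_upwards [sysInd_reg ha, sysInd_reg hb, sysInd_reg0 (S := S) c, sysInd_kk0 c hmu0i]
    with s hsa hsb hsc hsk
  refine par_trans hsk (h1 mu hmu mu0 hmu0 (s • a) (s • c) hsa hsc ?_)
    (h2 mu0 hmu0 mu' hmu' (s • c) (s • b) hsc hsb ?_)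
  · intro m hm
    rw [Pi.smul_apply, Pi.smul_apply, hcdef]
    simp only [if_neg hm]
  · intro m hm
    rw [Pi.smul_apply, Pi.smul_apply, hcdef]
    by_cases hmR : m ∈ R
    · simp only [if_pos hmR]
    · simp only [if_neg hmR]
      rw [hab m fun h' => (Finset.mem_union.1 h').elim hmR hm]

theorem dind_set (h : S.Good) (hi : S.InA i) (hR : ∀ m ∈ R, m ≠ i → S.InA m → ¬ S.Adj i m) :
    S.DInd i R := by
  classical
  induction R using Finset.induction_on with
  | empty =>
    intro mu hmu mu' hmu' a b ha hb hab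
    exact dind_own h hi mu hmu mu' hmu' a b ha hb fun m _ => hab m (Finset.notMem_empty m)
  | insert m R hm ih =>
    have h1 : S.DInd i R := ih fun l hl => hR l (Finset.mem_insert_of_mem hl)
    have h2 : S.DInd i {m} := by
      by_cases hmi : m = i
      · subst hmi
        exact dind_own h hi
      · by_cases hmA : S.InA m
        · exact dind_nonadj h hi hmA (Ne.symm hmi) (hR m (Finset.mem_insert_self m R) hmi hmA)
        · exact dind_notA h hi hmA
    have h3 := dind_union h hi h2 h1
    rwa [← Finset.insert_eq] at h3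

end Sys

end Pool.Agent.H50.R2
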