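import Pool.Agent.H50.R2.SysComp
import Pool.Agent.H50.R2.SysInd

/-! # Module LocPiece: the pieces are locally odd; the dimension of `L` (MP_966f71_lc)

* `locOdd`: `NonDeg` from `IsVec`, `IsCov`; `Odd` from `S.odd` (`Odd.mono`). Genuine: `i ≠ j` in `D`
  with `tau i j = 0` for `(mu0, nu0)`. Then `¬ S.Adj i j`: for `mu ∈ E`, `nu ∈ L`, `mu_j = m mu0_j`,
  `nu_i = n nu0_i`, so `tau i j` of `(mu, nu)` is `m n` times that of `(mu0, nu0)`. So `DInd i {j}`
  (`dind_nonadj`), which is `Indep`.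
* `finrank_L`: for `C ∈ D` let `nuC` be as in `IsCov` and `pC = (iC, eC)` with `iC ∈ C`,
  `nuC pC ≠ 0`. The linear map `S.L → (D → F)`, `nu ↦ (nu pC)_C` has kernel inside `S.Yann`: if
  `nu pC = 0` then `nu = 0` on `C` (`nu = m nuC` on `C`); so `nu_i = 0` for all active `i`; if `i` is
  not active, `nu_i = ll_i(nu, 0)` kills all `kk_i(mu, y)`, so all of `Y i`. Rank-nullity. -/

set_option autoImplicit false

namespace Pool.Agent.H50.R2

open Matrix Module Filter

variable {F ι : Type*} [Field F] [Infinite F] [Fintype ι] [DecidableEq ι]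

namespace Sys

variable {S : Sys F ι}

theorem locOdd {C : Finset ι} {mu0 nu0 : ι × Fin 2 → F} (h : S.Good) (hC : S.IsComp C)
    (hm : S.IsVec C mu0) (hn : S.IsCov C nu0) : (Inst.mk S.T mu0 nu0).LocOdd C := by
  refine ⟨fun i hi => ⟨hm.ne i hi, hn.ne i hi⟩, fun S' hS' _ => ⟨?_, ?_⟩⟩
  · exact Inst.Odd.mono (S.odd mu0 hm.mem nu0 hn.mem) (Finset.subset_univ S')
  · intro i hi j hj hij htau x y _ _ hxy hx hy
    have hadj : ¬ S.Adj i j := by
      rintro ⟨mu, hmu, nu, hnu, hne⟩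
      obtain ⟨m, hm'⟩ := hm.all mu hmu
      obtain ⟨n, hn'⟩ := hn.all nu hnu
      apply hne
      have e1 := hm' j (hS' hj)
      have e2 := hn' i (hS' hi)
      have e3 : vec nu0 i ⬝ᵥ (blk S.T i j *ᵥ vec mu0 j) = 0 := htau
      change vec nu i ⬝ᵥ (blk S.T i j *ᵥ vec mu j) = 0
      rw [e1, e2, Matrix.mulVec_smul, dotProduct_smul, smul_dotProduct, e3]
      simp
    exact dind_nonadj h (hC.inA i (hS' hi)) (hC.inA j (hS' hj)) hij hadj mu0 hm.mem mu0 hm.mem x y
      hx hy (fun m hmj => hxy m (fun e => hmj (Finset.mem_singleton.2 e)))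

theorem finrank_L (h : S.Good) {D : Finset (Finset ι)} (hD : ∀ C ∈ D, S.IsComp C)
    (hA : ∀ i, S.InA i ↔ i ∈ D.biUnion id) : finrank F S.L ≤ D.card + finrank F S.Yann := by
  classical
  have hex : ∀ C : ↥D, ∃ p : ι × Fin 2, ∀ nu ∈ S.L, nu p = 0 → ∀ i ∈ C.1, vec nu i = 0 := by
    intro C
    obtain ⟨nuC, hnuC⟩ := exists_cov h (hD C.1 C.2)
    obtain ⟨i0, hi0⟩ := (hD C.1 C.2).ne
    have hne := hnuC.ne i0 hi0
    obtain ⟨e, he⟩ := Function.ne_iff.1 hne
    refine ⟨(i0, e), fun nu hnu h0 i hi => ?_⟩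
    obtain ⟨m, hm⟩ := hnuC.all nu hnu
    have h1 : nu (i0, e) = m * nuC (i0, e) := congrFun (hm i0 hi0) e
    have h2 : m = 0 := by
      rw [h0] at h1
      rcases mul_eq_zero.1 h1.symm with h3 | h3
      · exact h3
      · exact absurd h3 he
    rw [hm i hi, h2, zero_smul]
  choose p hp using hex
  let phi : S.L →ₗ[F] (↥D → F) :=
    { toFun := fun nu C => nu.1 (p C)
      map_add' := fun _ _ => rfl
      map_smul' := fun _ _ => rfl }
  have hker : ∀ nu ∈ LinearMap.ker phi, (nu : ι × Fin 2 → F) ∈ S.Yann := by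
    intro nu hnu i y hy
    have h0 : ∀ C : ↥D, (nu : ι × Fin 2 → F) (p C) = 0 := fun C =>
      congrFun (LinearMap.mem_ker.1 hnu) C
    by_cases hi : S.InA i
    · obtain ⟨C, hC, hiC⟩ := Finset.mem_biUnion.1 ((hA i).1 hi)
      rw [hp ⟨C, hC⟩ nu.1 nu.2 (h0 ⟨C, hC⟩) i hiC, zero_dotProduct]
    · refine Submodule.span_induction (p := fun y _ => vec (nu : ι × Fin 2 → F) i ⬝ᵥ y = 0)
        ?_ ?_ ?_ ?_ hy
      · rintro _ ⟨mu, hmu, x, hx, rfl⟩
        by_contra hne
        apply hi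
        refine ⟨mu, hmu, nu.1, nu.2, 0, x, S.reg_zero, hx, ?_⟩
        have e : ll S.T nu.1 0 = nu.1 := Inst.l_zero (I := Inst.mk S.T mu nu.1)
        rw [e]
        exact hne
      · exact dotProduct_zero _
      · intro a b _ _ ha hb
        rw [dotProduct_add, ha, hb, add_zero]
      · intro c a _ ha
        rw [dotProduct_smul, ha, smul_zero]
  have h1 := LinearMap.finrank_range_add_finrank_ker phi
  have h2 : finrank F (LinearMap.range phi) ≤ D.card := by
    refine (Submodule.finrank_le _).trans ?_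
    rw [Module.finrank_fintype_fun_eq_card, Fintype.card_coe]
  have h3 : finrank F (LinearMap.ker phi) ≤ finrank F S.Yann := by
    refine LinearMap.finrank_le_finrank_of_injective
      (f := LinearMap.codRestrict S.Yann (S.L.subtype ∘ₗ (LinearMap.ker phi).subtype)
        (fun nu => hker nu.1 nu.2)) ?_
    intro a b hab
    have h4 := congrArg Subtype.val hab
    exact Subtype.ext (Subtype.ext h4)
  omega

end Sys

end Pool.Agent.H50.R2
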