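import Pool.Agent.H50.R2.DirD

/-! # Module PieceC: the certificate conditions of a component (MP_966f71_lc)

`S` good, `D` a component, `mu0` (`IsVec`), `nu0` (`IsCov`), `mu ∈ E`, `x` regular.
* `piece_nu`: for almost all `s` let `X = s • x` and `b = s • rst x Dᶜ` (i.e. `X` off `D`, `0` on
  `D`), both regular; (`E0`) for `X` and `b`, `(mu, nu0)`:
  `sum_(i in D) X_i (ll_i(nu0, b) kk_i(mu, X)) = 0`. `dd` for `S.tr` (`Good.tr`, `IsComp.tr`) and the
  points `b`, `0` (they agree on `D`): the restrictions to `D` of `ll(nu0, b)` and `nu0` are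
  parallel; `nu0 ≠ 0` on `D`, and `ll(nu0, b) ≠ 0` on `D` for almost all `s`: so
  `ll(nu0, b) = c nu0` on `D`, `c ≠ 0`, and `sum_(i in D) X_i (nu0_i kk_i(mu, X)) = 0`. Close at
  `s = 1`.
* `piece_mu`: for almost all `s` let `X = s • x`, `c = s • rst x D`, both regular and
  `kk(mu0, c) ≠ 0` on `D`; `dd`: `kk(mu, X) = al kk(mu0, c)` on `D`; `k_eq_on` for `c` (supported on
  `D`): `kk_i(mu0, c) = mu0_i + sum_(j in D) c_j T_ij kk_j(mu0, c)`. So the vector
  `v_i = kk_i(mu, X) - sum_(j in D) X_j T_ij kk_j(mu, X)`, `i ∈ D`, is `al mu0_i`. All minors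
  `v_p mu0_q - v_q mu0_p` vanish for almost all `s`, so (`RatAt.zero`) at `s = 1`; as some `mu0_q`,
  `q.1 ∈ D`, is nonzero, `v = t mu0` on `D`. -/

set_option autoImplicit false

namespace Pool.Agent.H50.R2

open Matrix Module Filter

variable {F ι : Type*} [Field F] [Infinite F] [Fintype ι] [DecidableEq ι]

namespace Sys

variable {S : Sys F ι} {D : Finset ι} {mu0 nu0 mu : ι × Fin 2 → F} {x : ι → F}

omit [Infinite F] [Fintype ι] [DecidableEq ι] in
private theorem PieceC_var (s0 : F) (x : ι → F) (j : ι) :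
    RatAt s0 (fun s : F => (s • x) j) :=
  RatAt.var.mul (RatAt.const (x j))

omit [Infinite F] [Fintype ι] in
private theorem PieceC_zero (x : ι → F) (R : Finset ι) : rst ((0 : F) • x) R = 0 := by
  funext i
  simp [rst]

omit [Infinite F] [Fintype ι] [DecidableEq ι] in
private theorem PieceC_ne {v : Fin 2 → F} (hv : v ≠ 0) : ∃ e, v e ≠ 0 := by
  by_contra hc
  push Not at hc
  exact hv (funext hc)

theorem piece_nu (h : S.Good) (hD : S.IsComp D) (hn : S.IsCov D nu0) (hmu : mu ∈ S.E)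
    (hx : S.Reg x) : ∑ i ∈ D, vec nu0 i ⬝ᵥ (x i • vec (kk S.T mu x) i) = 0 := by
  obtain ⟨i0, hi0⟩ := hD.ne
  obtain ⟨e0, he0⟩ := PieceC_ne (hn.ne i0 hi0)
  have hx1 : (1 - S.T * dg ((1 : F) • x)).det ≠ 0 := by rw [one_smul]; exact hx
  have hx0 : (1 - S.T * dg ((0 : F) • x)).det ≠ 0 := by
    rw [zero_smul]
    exact S.reg_zero
  have hb0 : (1 - S.T * dg (rst ((0 : F) • x) Dᶜ)).det ≠ 0 := by
    rw [PieceC_zero]
    exact S.reg_zero
  have hpb : Path (fun s : F => rst (s • x) Dᶜ) := (Path.smul x).rst Dᶜ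
  have hll0 : ll S.T nu0 0 = nu0 := (Inst.mk S.T mu nu0).l_zero
  have hrat : RatAt (1 : F)
      (fun s : F => ∑ i ∈ D, vec nu0 i ⬝ᵥ ((s • x) i • vec (kk S.T mu (s • x)) i)) :=
    RatAt.sum D _ fun i _ => RatAt.dot (u := fun _ => vec nu0 i)
      (fun e => RatAt.const (vec nu0 i e))
      (fun e => (PieceC_var 1 x i).mul (ratkk mu (Path.smul x) hx1 (i, e)))
  have hne : ∀ᶠ s : F in cofinite, ll S.T nu0 (rst (s • x) Dᶜ) (i0, e0) ≠ 0 := by
    refine RatAt.ne (s0 := (0 : F)) (ratll nu0 hpb hb0 (i0, e0)) ?_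
    rw [PieceC_zero, hll0]
    exact he0
  have hcomm : ∀ i j, i ≠ j → S.Adj i j → S.Adj j i := fun i j hij ha => adj_symm hij ha
  have key := RatAt.zero hrat (by
    filter_upwards [ev_det (Path.smul x) hx0, ev_det hpb hb0, hne] with s hX hb hc
    set X : ι → F := s • x with hXdef
    set b : ι → F := rst X Dᶜ with hbdef
    have hX' : S.Reg X := hX
    have hb' : S.Reg b := hb
    have hbD : ∀ i ∈ D, b i = 0 := by
      intro i hi
      simp [hbdef, rst, hi]
    have hbC : ∀ i, i ∉ D → b i = X i := by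
      intro i hi
      simp [hbdef, rst, hi]
    have hE := E0 hmu hn.mem hX' hb'
    have hE2 : ∑ m ∈ D, X m * (vec (ll S.T nu0 b) m ⬝ᵥ vec (kk S.T mu X) m) = 0 := by
      rw [← hE]
      symm
      rw [← Finset.sum_subset (Finset.subset_univ D)]
      · refine Finset.sum_congr rfl fun m hm => ?_
        rw [hbD m hm, sub_zero]
      · intro m _ hm
        rw [hbC m hm, sub_self, zero_mul]
    have hpar : ∀ m ∈ D, ∀ e, ll S.T nu0 b (m, e) =
        (ll S.T nu0 b (i0, e0) / nu0 (i0, e0)) * nu0 (m, e) := by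
      intro m hm e
      have h1 := dd (S := S.tr) h.tr (hD.tr hcomm) ((S.tr_reg b).mpr hb')
        ((S.tr_reg 0).mpr S.reg_zero) (fun i hi => hbD i hi) hn.mem hn.mem
        (p := (m, e)) (q := (i0, e0)) hm hi0
      rw [S.kk_tr, S.kk_tr, hll0] at h1
      have h2 : nu0 (i0, e0) ≠ 0 := he0
      field_simp
      exact h1
    have hvec : ∀ m ∈ D, vec (ll S.T nu0 b) m =
        (ll S.T nu0 b (i0, e0) / nu0 (i0, e0)) • vec nu0 m := by
      intro m hm
      funext e
      exact hpar m hm e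
    have hcne : ll S.T nu0 b (i0, e0) / nu0 (i0, e0) ≠ 0 := div_ne_zero hc he0
    have hE3 : (ll S.T nu0 b (i0, e0) / nu0 (i0, e0)) *
        ∑ m ∈ D, vec nu0 m ⬝ᵥ (X m • vec (kk S.T mu X) m) = 0 := by
      rw [← hE2, Finset.mul_sum]
      refine Finset.sum_congr rfl fun m hm => ?_
      rw [hvec m hm, smul_dotProduct, dotProduct_smul, smul_eq_mul, smul_eq_mul]
      ring
    exact (mul_eq_zero.mp hE3).resolve_left hcne)
  simpa only [one_smul] using key

theorem piece_mu (h : S.Good) (hD : S.IsComp D) (hm : S.IsVec D mu0) (hmu : mu ∈ S.E)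
    (hx : S.Reg x) : ∃ t : F, ∀ i ∈ D, vec (kk S.T mu x) i =
      ∑ j ∈ D, blk S.T i j *ᵥ (x j • vec (kk S.T mu x) j) + t • vec mu0 i := by
  obtain ⟨i0, hi0⟩ := hD.ne
  obtain ⟨e0, he0⟩ := PieceC_ne (hm.ne i0 hi0)
  have he0' : mu0 (i0, e0) ≠ 0 := he0
  have hx1 : (1 - S.T * dg ((1 : F) • x)).det ≠ 0 := by rw [one_smul]; exact hx
  have hx0 : (1 - S.T * dg ((0 : F) • x)).det ≠ 0 := by
    rw [zero_smul]
    exact S.reg_zero
  have hc0 : (1 - S.T * dg (rst ((0 : F) • x) D)).det ≠ 0 := by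
    rw [PieceC_zero]
    exact S.reg_zero
  have hpc : Path (fun s : F => rst (s • x) D) := (Path.smul x).rst D
  have hkk0 : kk S.T mu0 0 = mu0 := (Inst.mk S.T mu0 mu0).k_zero
  -- the vector `v`
  let V : (ι → F) → ι × Fin 2 → F := fun X p => kk S.T mu X p -
    (∑ j ∈ D, blk S.T p.1 j *ᵥ (X j • vec (kk S.T mu X) j)) p.2
  have hV : ∀ p, RatAt (1 : F) (fun s : F => V (s • x) p) := by
    intro p
    refine (ratkk mu (Path.smul x) hx1 p).sub ?_
    have h1 : RatAt (1 : F) (fun s : F =>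
        ∑ j ∈ D, (blk S.T p.1 j *ᵥ ((s • x) j • vec (kk S.T mu (s • x)) j)) p.2) :=
      RatAt.sum D _ fun j _ => RatAt.matMulVec (A := fun _ => blk S.T p.1 j)
        (fun a b => RatAt.const _)
        (fun e => (PieceC_var 1 x j).mul (ratkk mu (Path.smul x) hx1 (j, e))) p.2
    refine h1.congr ?_ (Eventually.of_forall fun s => ?_)
    · simp only [Finset.sum_apply]
    · simp only [Finset.sum_apply]
  have hne : ∀ᶠ s : F in cofinite, kk S.T mu0 (rst (s • x) D) (i0, e0) ≠ 0 := by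
    refine RatAt.ne (s0 := (0 : F)) (ratkk mu0 hpc hc0 (i0, e0)) ?_
    rw [PieceC_zero, hkk0]
    exact he0'
  have key : ∀ p : ι × Fin 2, p.1 ∈ D → V x p * mu0 (i0, e0) = V x (i0, e0) * mu0 p := by
    intro p hp
    have hz := RatAt.zero (s0 := (1 : F))
      (((hV p).mul (RatAt.const (mu0 (i0, e0)))).sub ((hV (i0, e0)).mul (RatAt.const (mu0 p)))) (by
      filter_upwards [ev_det (Path.smul x) hx0, ev_det hpc hc0, hne] with s hX hb hc
      set X : ι → F := s • x with hXdef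
      set c : ι → F := rst X D with hcdef
      have hX' : S.Reg X := hX
      have hc' : S.Reg c := hb
      have hcD : ∀ i ∈ D, X i = c i := by
        intro i hi
        simp [hcdef, rst, hi]
      have hcS : Supp c D := by
        intro i hi
        simp [hcdef, rst, hi]
      have hpar : ∀ m ∈ D, ∀ e, kk S.T mu X (m, e) =
          (kk S.T mu X (i0, e0) / kk S.T mu0 c (i0, e0)) * kk S.T mu0 c (m, e) := by
        intro m hm' e
        have h1 := dd h hD hX' hc' hcD hmu hm.mem (p := (m, e)) (q := (i0, e0)) hm' hi0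
        field_simp
        exact h1
      have hvec : ∀ m ∈ D, vec (kk S.T mu X) m =
          (kk S.T mu X (i0, e0) / kk S.T mu0 c (i0, e0)) • vec (kk S.T mu0 c) m := by
        intro m hm'
        funext e
        exact hpar m hm' e
      have hVal : ∀ q : ι × Fin 2, q.1 ∈ D →
          V X q = (kk S.T mu X (i0, e0) / kk S.T mu0 c (i0, e0)) * mu0 q := by
        rintro ⟨m, e⟩ hq
        have h1 := congrFun ((Inst.mk S.T mu0 mu0).k_eq_on (x := c) (S := D) hc' hcS m) e
        have h2 : kk S.T mu0 c (m, e) = mu0 (m, e) +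
            (∑ j ∈ D, c j • (blk S.T m j *ᵥ vec (kk S.T mu0 c) j)) e := h1
        have h3 : (∑ j ∈ D, blk S.T m j *ᵥ (X j • vec (kk S.T mu X) j)) =
            (kk S.T mu X (i0, e0) / kk S.T mu0 c (i0, e0)) •
              ∑ j ∈ D, c j • (blk S.T m j *ᵥ vec (kk S.T mu0 c) j) := by
          rw [Finset.smul_sum]
          refine Finset.sum_congr rfl fun j hj => ?_
          rw [hvec j hj, hcD j hj, mulVec_smul, mulVec_smul, smul_comm]
        change kk S.T mu X (m, e) -
          (∑ j ∈ D, blk S.T m j *ᵥ (X j • vec (kk S.T mu X) j)) e = _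
        rw [h3, hpar m hq e, h2, Pi.smul_apply, smul_eq_mul]
        ring
      rw [hVal p hp, hVal (i0, e0) hi0]
      ring)
    simp only [one_smul] at hz
    linear_combination hz
  refine ⟨V x (i0, e0) / mu0 (i0, e0), fun i hi => ?_⟩
  funext e
  have h1 := key (i, e) hi
  have h2 : V x (i, e) = (V x (i0, e0) / mu0 (i0, e0)) * mu0 (i, e) := by
    field_simp
    exact h1
  have h3 : V x (i, e) = kk S.T mu x (i, e) -
      (∑ j ∈ D, blk S.T i j *ᵥ (x j • vec (kk S.T mu x) j)) e := rfl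
  rw [h3] at h2
  change kk S.T mu x (i, e) = (∑ j ∈ D, blk S.T i j *ᵥ (x j • vec (kk S.T mu x) j)) e +
    (V x (i0, e0) / mu0 (i0, e0)) * mu0 (i, e)
  linear_combination h2

end Sys

end Pool.Agent.H50.R2
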