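import Pool.Agent.H50.R2.Basic

/-! # Module Shift: base change and the identity (E) (MP_966f71_lc)

With `X = dg x`, `Y = dg y`, `T' = (1 - T X)⁻¹ T = T (1 - X T)⁻¹` (`push`):
* `1 - T (X + Y) = (1 - T X) (1 - T' Y)`, so `reg_add`, `kk_add`, `shift_add`;
* `1 - (X + Y) T = (1 - Y T') (1 - X T)`, so `ll_add`.
* (E): `l(b) (A - B) k(a) = h(a) - h(b)`: `k(a) = mu + T A k(a)`, `l(b) = nu + l(b) B T`, so
  `l(b) A k(a) = nu A k(a) + l(b) B T A k(a) = h(a) + l(b) B (k(a) - mu)`, and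
  `l(b) B mu = nu (1 - B T)⁻¹ B mu = nu B (1 - T B)⁻¹ mu = h(b)`.
* `h_add`: (E) with `a = x + y`, `b = x`, and `l(x) Y k(x + y) = h^{shift}(y)`. -/

set_option autoImplicit false

namespace Pool.Agent.H50.R2

open Matrix

variable {F ι : Type*} [Field F] [Fintype ι] [DecidableEq ι]

theorem Shift_fac {T : Matrix (ι × Fin 2) (ι × Fin 2) F} {x : ι → F}
    (hx : (1 - T * dg x).det ≠ 0) (y : ι → F) :
    1 - T * dg (x + y) = (1 - T * dg x) * (1 - ((1 - T * dg x)⁻¹ * T) * dg y) := by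
  have hu : IsUnit (1 - T * dg x).det := isUnit_iff_ne_zero.2 hx
  rw [Matrix.mul_sub, Matrix.mul_one, ← Matrix.mul_assoc, ← Matrix.mul_assoc,
    Matrix.mul_nonsing_inv _ hu, Matrix.one_mul, dg_add, Matrix.mul_add]
  abel

theorem Shift_fac' {T : Matrix (ι × Fin 2) (ι × Fin 2) F} {x : ι → F}
    (hx : (1 - T * dg x).det ≠ 0) (y : ι → F) :
    1 - dg (x + y) * T = (1 - dg y * ((1 - T * dg x)⁻¹ * T)) * (1 - dg x * T) := by
  have hu : IsUnit (1 - dg x * T).det := by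
    rw [det_comm]; exact isUnit_iff_ne_zero.2 hx
  rw [push hx, Matrix.sub_mul, Matrix.one_mul, Matrix.mul_assoc, Matrix.mul_assoc,
    Matrix.nonsing_inv_mul _ hu, Matrix.mul_one, dg_add, Matrix.add_mul]
  abel

theorem det_add {T : Matrix (ι × Fin 2) (ι × Fin 2) F} {x : ι → F}
    (hx : (1 - T * dg x).det ≠ 0) (y : ι → F) :
    (1 - T * dg (x + y)).det = (1 - T * dg x).det * (1 - ((1 - T * dg x)⁻¹ * T) * dg y).det := by
  rw [Shift_fac hx y, Matrix.det_mul]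

theorem kk_add {T : Matrix (ι × Fin 2) (ι × Fin 2) F} {x y : ι → F} (mu : ι × Fin 2 → F)
    (hx : (1 - T * dg x).det ≠ 0) (hxy : (1 - T * dg (x + y)).det ≠ 0) :
    kk ((1 - T * dg x)⁻¹ * T) (kk T mu x) y = kk T mu (x + y) := by
  have e := Shift_fac hx y
  rw [kk, kk, kk, e, Matrix.mul_inv_rev, Matrix.mulVec_mulVec]

theorem ll_add {T : Matrix (ι × Fin 2) (ι × Fin 2) F} {x y : ι → F} (nu : ι × Fin 2 → F)
    (hx : (1 - T * dg x).det ≠ 0) (hxy : (1 - T * dg (x + y)).det ≠ 0) :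
    ll ((1 - T * dg x)⁻¹ * T) (ll T nu x) y = ll T nu (x + y) := by
  have e := Shift_fac' hx y
  rw [ll, ll, ll, e, Matrix.mul_inv_rev, Matrix.vecMul_vecMul]

theorem shiftT_add {T : Matrix (ι × Fin 2) (ι × Fin 2) F} {x y : ι → F}
    (hx : (1 - T * dg x).det ≠ 0) (hxy : (1 - T * dg (x + y)).det ≠ 0) :
    (1 - ((1 - T * dg x)⁻¹ * T) * dg y)⁻¹ * ((1 - T * dg x)⁻¹ * T) =
      (1 - T * dg (x + y))⁻¹ * T := by
  have e := Shift_fac hx y
  rw [e, Matrix.mul_inv_rev]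
  simp only [Matrix.mul_assoc]

namespace Inst

variable (I : Inst F ι) {x y a b : ι → F}

theorem reg_add (hx : I.Reg x) : (I.shift x).Reg y ↔ I.Reg (x + y) := by
  unfold Reg
  rw [det_add hx y]
  show (1 - ((1 - I.T * dg x)⁻¹ * I.T) * dg y).det ≠ 0 ↔ _
  constructor
  · intro h1
    exact mul_ne_zero hx h1
  · intro h1
    exact right_ne_zero_of_mul h1

theorem k_add (hx : I.Reg x) (hxy : I.Reg (x + y)) : (I.shift x).k y = I.k (x + y) := by
  exact kk_add I.mu hx hxy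

theorem l_add (hx : I.Reg x) (hxy : I.Reg (x + y)) : (I.shift x).l y = I.l (x + y) := by
  exact ll_add I.nu hx hxy

theorem shift_add (hx : I.Reg x) (hxy : I.Reg (x + y)) :
    (I.shift x).shift y = I.shift (x + y) := by
  have e1 : ((I.shift x).shift y).T = (I.shift (x + y)).T := shiftT_add hx hxy
  have e2 : ((I.shift x).shift y).mu = (I.shift (x + y)).mu := kk_add I.mu hx hxy
  have e3 : ((I.shift x).shift y).nu = (I.shift (x + y)).nu := ll_add I.nu hx hxy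
  cases h1 : (I.shift x).shift y
  cases h2 : I.shift (x + y)
  rw [h1, h2] at e1 e2 e3
  simp only at e1 e2 e3
  rw [e1, e2, e3]

/-- The identity (E). -/
theorem E_id (ha : I.Reg a) (hb : I.Reg b) :
    ∑ i, (a i - b i) * (vec (I.l b) i ⬝ᵥ vec (I.k a) i) = I.h a - I.h b := by
  have ek : I.k a = I.mu + I.T *ᵥ (dg a *ᵥ I.k a) := kk_eq ha
  have el : I.l b = I.nu + (dg b *ᵥ I.l b) ᵥ* I.T := ll_eq hb
  have eh : I.h b = I.l b ⬝ᵥ (dg b *ᵥ I.mu) := by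
    rw [← I.h_tr hb, h, k_tr]
    show I.mu ⬝ᵥ (dg b *ᵥ I.l b) = _
    rw [Matrix.dotProduct_mulVec, Basic_vecMul_dg, dotProduct_comm]
  have e1 : I.l b ⬝ᵥ (dg a *ᵥ I.k a) =
      I.h a + (dg b *ᵥ I.l b) ⬝ᵥ (I.T *ᵥ (dg a *ᵥ I.k a)) := by
    conv_lhs => rw [el]
    rw [add_dotProduct, ← Matrix.dotProduct_mulVec]
    rfl
  have e2 : I.l b ⬝ᵥ (dg b *ᵥ I.k a) =
      I.h b + (dg b *ᵥ I.l b) ⬝ᵥ (I.T *ᵥ (dg a *ᵥ I.k a)) := by
    conv_lhs => rw [ek]
    rw [Matrix.mulVec_add, dotProduct_add, ← eh]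
    congr 1
    rw [Matrix.dotProduct_mulVec, Basic_vecMul_dg]
  have e3 : ∀ z : ι → F, I.l b ⬝ᵥ (dg z *ᵥ I.k a) =
      ∑ i, z i * (vec (I.l b) i ⬝ᵥ vec (I.k a) i) := by
    intro z
    rw [dot_eq_sum]
    apply Finset.sum_congr rfl
    intro i _
    rw [vec_dg, dotProduct_smul, smul_eq_mul]
  have e4 : ∑ i, (a i - b i) * (vec (I.l b) i ⬝ᵥ vec (I.k a) i) =
      I.l b ⬝ᵥ (dg a *ᵥ I.k a) - I.l b ⬝ᵥ (dg b *ᵥ I.k a) := by
    rw [e3, e3, ← Finset.sum_sub_distrib]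
    apply Finset.sum_congr rfl
    intro i _
    ring
  rw [e4, e1, e2]
  ring

theorem h_add (hx : I.Reg x) (hxy : I.Reg (x + y)) : I.h (x + y) = I.h x + (I.shift x).h y := by
  have hE := I.E_id hxy hx
  have e1 : (I.shift x).h y = ∑ i, ((x + y) i - x i) * (vec (I.l x) i ⬝ᵥ vec (I.k (x + y)) i) := by
    rw [h, I.k_add hx hxy, dot_eq_sum]
    apply Finset.sum_congr rfl
    intro i _
    rw [vec_dg, dotProduct_smul, smul_eq_mul, Pi.add_apply, add_sub_cancel_left]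
    rfl
  rw [e1, hE]
  ring

end Inst

end Pool.Agent.H50.R2
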