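import Pool.Agent.H50.R2.MatRat
import Pool.Agent.H50.R2.Shift

/-! # Module RatI: everything is rational along polynomial paths (MP_966f71_lc)

The entries of `1 - T dg (x s)` are polynomials in `s`; use `RatAt.det`, `RatAt.matInv`,
`RatAt.matMul`, `RatAt.matMulVec`, `RatAt.matVecMul`, `RatAt.dot`. For `ll`: the determinant of
`1 - dg x * T` is the same (`det_comm`). `evReg`: the determinant is nonzero at `s0`
(`RatAt.ne`). `ratKs` etc. are for instances `I.shift (z s)` evaluated at a second path `x s`;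
here `J s = I.shift (z s)`, so its `T` is rational (`ratT`), its `mu`, `nu` are `ratK`, `ratL`. -/

set_option autoImplicit false

namespace Pool.Agent.H50.R2

open Matrix Filter

variable {F ι : Type*} [Field F] [Fintype ι] [DecidableEq ι] {s0 : F}

theorem Path.const (p : ι → F) : Path (fun _ : F => p) :=
  fun i => ⟨Polynomial.C (p i), fun s => by simp⟩

theorem Path.smul (p : ι → F) : Path (fun s : F => s • p) := by
  intro i
  refine ⟨Polynomial.C (p i) * Polynomial.X, fun s => ?_⟩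
  show s * p i = _
  rw [Polynomial.eval_mul, Polynomial.eval_C, Polynomial.eval_X, mul_comm]

theorem Path.add {x y : F → ι → F} (hx : Path x) (hy : Path y) : Path (fun s => x s + y s) := by
  intro i
  obtain ⟨p, hp⟩ := hx i
  obtain ⟨q, hq⟩ := hy i
  refine ⟨p + q, fun s => ?_⟩
  show x s i + y s i = _
  rw [hp, hq, Polynomial.eval_add]

theorem Path.single (i : ι) : Path (fun s : F => (Pi.single i s : ι → F)) := by
  intro j
  by_cases h : j = i
  · subst h
    exact ⟨Polynomial.X, fun s => by simp⟩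
  · exact ⟨0, fun s => by simp [Pi.single_apply, h]⟩

theorem Path.rst {x : F → ι → F} (hx : Path x) (S : Finset ι) : Path (fun s => rst (x s) S) := by
  intro j
  by_cases h : j ∈ S
  · obtain ⟨p, hp⟩ := hx j
    exact ⟨p, fun s => by simp only [Pool.Agent.H50.R2.rst, if_pos h, hp]⟩
  · exact ⟨0, fun s => by simp only [Pool.Agent.H50.R2.rst, if_neg h, Polynomial.eval_zero]⟩

theorem ratI_path {x : F → ι → F} (hx : Path x) (i : ι) : RatAt s0 (fun s => x s i) := by
  obtain ⟨p, hp⟩ := hx i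
  have h : (fun s => x s i) = fun s => p.eval s := funext hp
  rw [h]
  exact RatAt.poly p

theorem ratI_one (p q : ι × Fin 2) :
    RatAt s0 (fun _ : F => (1 : Matrix (ι × Fin 2) (ι × Fin 2) F) p q) := RatAt.const _

theorem ratI_A (T : Matrix (ι × Fin 2) (ι × Fin 2) F) {x : F → ι → F} (hx : Path x)
    (p q : ι × Fin 2) : RatAt s0 (fun s => (1 - T * dg (x s)) p q) := by
  have h : (fun s => (1 - T * dg (x s)) p q) =
      fun s => (1 : Matrix (ι × Fin 2) (ι × Fin 2) F) p q - T p q * x s q.1 := by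
    funext s
    simp only [Matrix.sub_apply, dg, Matrix.mul_diagonal]
  rw [h]
  exact (ratI_one p q).sub ((RatAt.const _).mul (ratI_path hx q.1))

theorem ratI_B (T : Matrix (ι × Fin 2) (ι × Fin 2) F) {x : F → ι → F} (hx : Path x)
    (p q : ι × Fin 2) : RatAt s0 (fun s => (1 - dg (x s) * T) p q) := by
  have h : (fun s => (1 - dg (x s) * T) p q) =
      fun s => (1 : Matrix (ι × Fin 2) (ι × Fin 2) F) p q - x s p.1 * T p q := by
    funext s
    simp only [Matrix.sub_apply, dg, Matrix.diagonal_mul]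
  rw [h]
  exact (ratI_one p q).sub ((ratI_path hx p.1).mul (RatAt.const _))

theorem ratkk {T : Matrix (ι × Fin 2) (ι × Fin 2) F} (mu : ι × Fin 2 → F) {x : F → ι → F}
    (hx : Path x) (h : (1 - T * dg (x s0)).det ≠ 0) (p : ι × Fin 2) :
    RatAt s0 (fun s => kk T mu (x s) p) :=
  RatAt.matMulVec (A := fun s => (1 - T * dg (x s))⁻¹) (v := fun _ => mu)
    (fun i j => RatAt.matInv (A := fun s => 1 - T * dg (x s)) (ratI_A T hx) h i j)
    (fun _ => RatAt.const _) p

theorem ratll {T : Matrix (ι × Fin 2) (ι × Fin 2) F} (nu : ι × Fin 2 → F) {x : F → ι → F}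
    (hx : Path x) (h : (1 - T * dg (x s0)).det ≠ 0) (p : ι × Fin 2) :
    RatAt s0 (fun s => ll T nu (x s) p) := by
  have h' : (1 - dg (x s0) * T).det ≠ 0 := by rwa [det_comm]
  exact RatAt.matVecMul (A := fun s => (1 - dg (x s) * T)⁻¹) (v := fun _ => nu)
    (fun i j => RatAt.matInv (A := fun s => 1 - dg (x s) * T) (ratI_B T hx) h' i j)
    (fun _ => RatAt.const _) p

theorem ev_det {T : Matrix (ι × Fin 2) (ι × Fin 2) F} {x : F → ι → F}
    (hx : Path x) (h : (1 - T * dg (x s0)).det ≠ 0) :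
    ∀ᶠ s in cofinite, (1 - T * dg (x s)).det ≠ 0 :=
  RatAt.ne (RatAt.det (A := fun s => 1 - T * dg (x s)) (ratI_A T hx)) h

namespace Inst

variable (I : Inst F ι) {x : F → ι → F}

theorem evReg (hx : Path x) (h : I.Reg (x s0)) : ∀ᶠ s in cofinite, I.Reg (x s) :=
  ev_det hx h

theorem ratK (hx : Path x) (h : I.Reg (x s0)) (p : ι × Fin 2) :
    RatAt s0 (fun s => I.k (x s) p) :=
  ratkk I.mu hx h p

theorem ratL (hx : Path x) (h : I.Reg (x s0)) (p : ι × Fin 2) :
    RatAt s0 (fun s => I.l (x s) p) :=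
  ratll I.nu hx h p

theorem ratH (hx : Path x) (h : I.Reg (x s0)) : RatAt s0 (fun s => I.h (x s)) := by
  refine RatAt.dot (u := fun _ => I.nu) (v := fun s => dg (x s) *ᵥ I.k (x s))
    (fun _ => RatAt.const _) fun q => ?_
  have h1 : (fun s => (dg (x s) *ᵥ I.k (x s)) q) = fun s => x s q.1 * I.k (x s) q := by
    funext s
    simp only [dg, Matrix.mulVec_diagonal]
  rw [h1]
  exact (ratI_path hx q.1).mul (I.ratK hx h q)

theorem ratT (hx : Path x) (h : I.Reg (x s0)) (p q : ι × Fin 2) :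
    RatAt s0 (fun s => (I.shift (x s)).T p q) :=
  RatAt.matMul (A := fun s => (1 - I.T * dg (x s))⁻¹) (B := fun _ => I.T)
    (fun i j => RatAt.matInv (A := fun s => 1 - I.T * dg (x s)) (ratI_A I.T hx) h i j)
    (fun _ _ => RatAt.const _) p q

theorem ratTau (hx : Path x) (h : I.Reg (x s0)) (i j : ι) :
    RatAt s0 (fun s => (I.shift (x s)).tau i j) :=
  RatAt.dot (u := fun s => vec (I.shift (x s)).nu i)
    (v := fun s => blk (I.shift (x s)).T i j *ᵥ vec (I.shift (x s)).mu j)
    (fun a => I.ratL hx h (i, a))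
    (fun a => RatAt.matMulVec (A := fun s => blk (I.shift (x s)).T i j)
      (v := fun s => vec (I.shift (x s)).mu j) (fun a b => I.ratT hx h (i, a) (j, b))
      (fun b => I.ratK hx h (j, b)) a)

/-- A nonzero component stays nonzero. -/
theorem evK (hx : Path x) (h : I.Reg (x s0)) {i : ι} (h0 : vec (I.k (x s0)) i ≠ 0) :
    ∀ᶠ s in cofinite, vec (I.k (x s)) i ≠ 0 := by
  obtain ⟨a, ha⟩ := Function.ne_iff.1 h0
  filter_upwards [RatAt.ne (I.ratK hx h (i, a)) ha] with s hs
  exact Function.ne_iff.2 ⟨a, hs⟩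

theorem evL (hx : Path x) (h : I.Reg (x s0)) {i : ι} (h0 : vec (I.l (x s0)) i ≠ 0) :
    ∀ᶠ s in cofinite, vec (I.l (x s)) i ≠ 0 := by
  obtain ⟨a, ha⟩ := Function.ne_iff.1 h0
  filter_upwards [RatAt.ne (I.ratL hx h (i, a)) ha] with s hs
  exact Function.ne_iff.2 ⟨a, hs⟩

theorem evTau (hx : Path x) (h : I.Reg (x s0)) {i j : ι} (h0 : (I.shift (x s0)).tau i j ≠ 0) :
    ∀ᶠ s in cofinite, (I.shift (x s)).tau i j ≠ 0 :=
  RatAt.ne (I.ratTau hx h i j) h0

/-- Parallelism is closed along paths. -/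
theorem closePar [Infinite F] {y : F → ι → F} (hx : Path x) (hy : Path y) (h : I.Reg (x s0))
    (h' : I.Reg (y s0)) {i : ι}
    (H : ∀ᶠ s in cofinite, par (vec (I.k (x s)) i) (vec (I.k (y s)) i)) :
    par (vec (I.k (x s0)) i) (vec (I.k (y s0)) i) := by
  have h1 : RatAt s0 (fun s => ar (vec (I.k (x s)) i) (vec (I.k (y s)) i)) :=
    ((I.ratK hx h (i, 0)).mul (I.ratK hy h' (i, 1))).sub
      ((I.ratK hx h (i, 1)).mul (I.ratK hy h' (i, 0)))
  have h2 := RatAt.zero (f := fun s => ar (vec (I.k (x s)) i) (vec (I.k (y s)) i)) h1 H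
  exact h2

/-- If `h` vanishes at almost all points of a path then it vanishes at every regular one. -/
theorem closeH [Infinite F] (hx : Path x) (h : I.Reg (x s0))
    (H : ∀ᶠ s in cofinite, I.h (x s) = 0) : I.h (x s0) = 0 :=
  RatAt.zero (f := fun s => I.h (x s)) (I.ratH hx h) H

end Inst

end Pool.Agent.H50.R2
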