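import Pool.Agent.H50.R2.SysShift
import Pool.Agent.H50.R2.RatI
import Pool.Agent.H50.R2.Anti

/-! # Module SysGood: basic facts on systems, generic base points (MP_966f71_lc)

* `E0`: `E_id` for `Inst.mk S.T mu nu` and `S.odd` (`Supp x univ` is trivial).
* `own`: `own_dot` with `S = univ`.
* `adj_symm`: `tau_anti` (`Odd.mono` of `S.odd`).
* `exists_common`: finitely many functions `f w`, `w : W` (`W` a finite type), each rational along
  all polynomial paths through regular points and nonzero at some regular point, have a common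
  regular point where all are nonzero. Induction on a finset of `w`s: given `a` regular with
  `f w a ≠ 0` for `w ∈ s` and `b` regular with `f w0 b ≠ 0`, take the path `t ↦ a + t • (b - a)`
  (`t = 0`: `a`, `t = 1`: `b`); almost every `t` works.
* `exists_good`: for every `i` with `InA i` choose `mu, nu, x, y` as in the definition: the vector
  `kk mu y` is nonzero at `i`, so one of its two coordinates; same for `ll nu x`. For every pair
  `i, j` for which some `mu ∈ E`, `nu ∈ L`, `x` regular have `tau ≠ 0` at `x` choose such. Apply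
  `exists_common` to these functions (a coordinate of `kk S.T mu`, of `ll S.T nu`, and
  `x ↦ ((Inst.mk S.T mu nu).shift x).tau i j`; use `ratkk`, `ratll`, `ratTau`); the common point `a`
  gives a good system `S.shift a` (`inA_shift`, `mem_E_shift`, `inst_shift`, `inst_shift_shift`).
* `Good.ev`: the same witnesses at base `0` are nonzero at `s = 0`, so for almost all `s`.
* `adj_shift`: `→`: `Adj` for the shift is `tau ≠ 0` at the regular point `a`, use `Good.tau` of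
  `S`. `←`: `Good.tau` of `S.shift a` at the point `-a` (regular, `a + (-a) = 0`), where
  `inst_shift_shift` gives the instance `(Inst.mk S.T mu nu).shift 0`. -/

set_option autoImplicit false

namespace Pool.Agent.H50.R2

open Matrix Module Filter

variable {F ι : Type*} [Field F] [Infinite F] [Fintype ι] [DecidableEq ι]

/-- rational along all polynomial paths, at regular points -/
def RatF (S : Sys F ι) (f : (ι → F) → F) : Prop :=
  ∀ (x : F → ι → F) (s0 : F), Path x → S.Reg (x s0) → RatAt s0 (fun s => f (x s))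

theorem exists_common (S : Sys F ι) {W : Type*} [Fintype W] (f : W → (ι → F) → F)
    (hf : ∀ w, RatF S (f w)) (hne : ∀ w, ∃ x, S.Reg x ∧ f w x ≠ 0) :
    ∃ a, S.Reg a ∧ ∀ w, f w a ≠ 0 := by
  classical
  have key : ∀ s : Finset W, ∃ a, S.Reg a ∧ ∀ w ∈ s, f w a ≠ 0 := by
    intro s
    induction s using Finset.induction_on with
    | empty => exact ⟨0, S.reg_zero, fun w hw => absurd hw (Finset.notMem_empty w)⟩
    | insert w0 s hw0 ih =>
      obtain ⟨a, ha, hfa⟩ := ih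
      obtain ⟨b, hb, hfb⟩ := hne w0
      have hx : Path (fun t : F => a + t • (b - a)) := (Path.const a).add (Path.smul (b - a))
      have e0 : a + (0 : F) • (b - a) = a := by rw [zero_smul, add_zero]
      have e1 : a + (1 : F) • (b - a) = b := by rw [one_smul, add_sub_cancel]
      have hr : ∀ᶠ t : F in cofinite, S.Reg (a + t • (b - a)) :=
        ev_det (s0 := (0 : F)) hx (by simp only [e0]; exact ha)
      have h1 : ∀ᶠ t : F in cofinite, ∀ w ∈ s, f w (a + t • (b - a)) ≠ 0 := by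
        rw [Filter.eventually_all_finset]
        intro w hw
        exact RatAt.ne (hf w _ 0 hx (by simp only [e0]; exact ha))
          (by simp only [e0]; exact hfa w hw)
      have h2 : ∀ᶠ t : F in cofinite, f w0 (a + t • (b - a)) ≠ 0 :=
        RatAt.ne (hf w0 _ 1 hx (by simp only [e1]; exact hb)) (by simp only [e1]; exact hfb)
      obtain ⟨t, h3, h4, h5⟩ := (hr.and (h1.and h2)).exists
      refine ⟨_, h3, fun w hw => ?_⟩
      rcases Finset.mem_insert.1 hw with rfl | hw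
      · exact h5
      · exact h4 w hw
  obtain ⟨a, ha, h⟩ := key Finset.univ
  exact ⟨a, ha, fun w => h w (Finset.mem_univ w)⟩

namespace Sys

variable {S : Sys F ι} {mu nu : ι × Fin 2 → F} {a b : ι → F} {i j : ι}

omit [Infinite F] [DecidableEq ι] in
theorem sysGood_supp (x : ι → F) : Supp x Finset.univ := fun m hm => absurd (Finset.mem_univ m) hm

omit [Infinite F] in
theorem E0 (hmu : mu ∈ S.E) (hnu : nu ∈ S.L) (ha : S.Reg a) (hb : S.Reg b) :
    ∑ m, (a m - b m) * (vec (ll S.T nu b) m ⬝ᵥ vec (kk S.T mu a) m) = 0 := by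
  have h := Inst.E_id (Inst.mk S.T mu nu) (a := a) (b := b) ha hb
  rw [S.odd mu hmu nu hnu a (sysGood_supp a) ha, S.odd mu hmu nu hnu b (sysGood_supp b) hb,
    sub_zero] at h
  exact h

theorem own (hmu : mu ∈ S.E) (hnu : nu ∈ S.L) (ha : S.Reg a) (hb : S.Reg b)
    (hab : ∀ m, m ≠ i → a m = b m) : vec (ll S.T nu b) i ⬝ᵥ vec (kk S.T mu a) i = 0 :=
  Inst.own_dot (I := Inst.mk S.T mu nu) (S.odd mu hmu nu hnu) (Finset.mem_univ i)
    (sysGood_supp a) (sysGood_supp b) hab ha hb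

theorem adj_symm (hij : i ≠ j) (h : S.Adj i j) : S.Adj j i := by
  obtain ⟨mu, hmu, nu, hnu, h1⟩ := h
  refine ⟨mu, hmu, nu, hnu, fun h2 => h1 ?_⟩
  rw [Inst.tau_anti hij ((S.odd mu hmu nu hnu).mono (Finset.subset_univ _)), h2, neg_zero]

omit [Infinite F] in
/-- A criterion for a good base point. -/
theorem sysGood_mk (ha : S.Reg a)
    (h1 : ∀ i, S.InA i → ∃ mu ∈ S.E, vec (kk S.T mu a) i ≠ 0)
    (h2 : ∀ i, S.InA i → ∃ nu ∈ S.L, vec (ll S.T nu a) i ≠ 0)
    (h3 : ∀ i j, (∃ mu ∈ S.E, ∃ nu ∈ S.L, ∃ x, S.Reg x ∧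
      ((Inst.mk S.T mu nu).shift x).tau i j ≠ 0) →
      ∃ mu ∈ S.E, ∃ nu ∈ S.L, ((Inst.mk S.T mu nu).shift a).tau i j ≠ 0) :
    (S.shift a ha).Good where
  mu i hi := by
    obtain ⟨mu, hmu, h⟩ := h1 i ((S.inA_shift ha i).1 hi)
    exact ⟨_, S.mem_E_shift ha hmu, h⟩
  nu i hi := by
    obtain ⟨nu, hnu, h⟩ := h2 i ((S.inA_shift ha i).1 hi)
    exact ⟨_, S.mem_L_shift ha hnu, h⟩
  tau i j mu' hmu' nu' hnu' y hy h := by
    obtain ⟨mu, hmu, rfl⟩ := S.exists_E_shift ha hmu'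
    obtain ⟨nu, hnu, rfl⟩ := S.exists_L_shift ha hnu'
    rw [S.inst_shift_shift ha mu nu hy] at h
    obtain ⟨mu1, hmu1, nu1, hnu1, h4⟩ :=
      h3 i j ⟨mu, hmu, nu, hnu, a + y, (S.reg_shift ha y).1 hy, h⟩
    refine ⟨_, S.mem_E_shift ha hmu1, _, S.mem_L_shift ha hnu1, ?_⟩
    rw [S.inst_shift ha mu1 nu1]
    exact h4

theorem exists_good (S : Sys F ι) : ∃ (a : ι → F) (ha : S.Reg a), (S.shift a ha).Good := by
  classical
  have c1 : ∀ w : {i // S.InA i}, ∃ f : (ι → F) → F, RatF S f ∧ (∃ x, S.Reg x ∧ f x ≠ 0) ∧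
      ∀ a, S.Reg a → f a ≠ 0 → ∃ mu ∈ S.E, vec (kk S.T mu a) w.1 ≠ 0 := by
    rintro ⟨i, mu, hmu, nu, hnu, x, y, hx, hy, h⟩
    have h1 : vec (kk S.T mu y) i ≠ 0 := fun h2 => h (by rw [h2, dotProduct_zero])
    obtain ⟨c, hc⟩ := Function.ne_iff.1 h1
    exact ⟨fun z => kk S.T mu z (i, c), fun z s0 hz hr => ratkk mu hz hr (i, c), ⟨y, hy, hc⟩,
      fun a _ ha => ⟨mu, hmu, Function.ne_iff.2 ⟨c, ha⟩⟩⟩
  have c2 : ∀ w : {i // S.InA i}, ∃ f : (ι → F) → F, RatF S f ∧ (∃ x, S.Reg x ∧ f x ≠ 0) ∧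
      ∀ a, S.Reg a → f a ≠ 0 → ∃ nu ∈ S.L, vec (ll S.T nu a) w.1 ≠ 0 := by
    rintro ⟨i, mu, hmu, nu, hnu, x, y, hx, hy, h⟩
    have h1 : vec (ll S.T nu x) i ≠ 0 := fun h2 => h (by rw [h2, zero_dotProduct])
    obtain ⟨c, hc⟩ := Function.ne_iff.1 h1
    exact ⟨fun z => ll S.T nu z (i, c), fun z s0 hz hr => ratll nu hz hr (i, c), ⟨x, hx, hc⟩,
      fun a _ ha => ⟨nu, hnu, Function.ne_iff.2 ⟨c, ha⟩⟩⟩
  have c3 : ∀ w : {p : ι × ι // ∃ mu ∈ S.E, ∃ nu ∈ S.L, ∃ x, S.Reg x ∧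
      ((Inst.mk S.T mu nu).shift x).tau p.1 p.2 ≠ 0}, ∃ f : (ι → F) → F, RatF S f ∧
      (∃ x, S.Reg x ∧ f x ≠ 0) ∧ ∀ a, S.Reg a → f a ≠ 0 → ∃ mu ∈ S.E, ∃ nu ∈ S.L,
        ((Inst.mk S.T mu nu).shift a).tau w.1.1 w.1.2 ≠ 0 := by
    rintro ⟨⟨i, j⟩, mu, hmu, nu, hnu, x, hx, h⟩
    exact ⟨fun z => ((Inst.mk S.T mu nu).shift z).tau i j,
      fun z s0 hz hr => Inst.ratTau (Inst.mk S.T mu nu) hz hr i j, ⟨x, hx, h⟩,
      fun a _ ha => ⟨mu, hmu, nu, hnu, ha⟩⟩
  choose f1 r1 n1 g1 using c1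
  choose f2 r2 n2 g2 using c2
  choose f3 r3 n3 g3 using c3
  let W := {i // S.InA i} ⊕ {i // S.InA i} ⊕ {p : ι × ι // ∃ mu ∈ S.E, ∃ nu ∈ S.L, ∃ x, S.Reg x ∧
      ((Inst.mk S.T mu nu).shift x).tau p.1 p.2 ≠ 0}
  have : Fintype W := Fintype.ofFinite W
  obtain ⟨a, ha, h⟩ := exists_common S (W := W) (Sum.elim f1 (Sum.elim f2 f3))
    (by rintro (w | w | w); exacts [r1 w, r2 w, r3 w])
    (by rintro (w | w | w); exacts [n1 w, n2 w, n3 w])
  exact ⟨a, ha, sysGood_mk ha (fun i hi => g1 ⟨i, hi⟩ a ha (h (Sum.inl ⟨i, hi⟩)))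
    (fun i hi => g2 ⟨i, hi⟩ a ha (h (Sum.inr (Sum.inl ⟨i, hi⟩))))
    (fun i j hij => g3 ⟨(i, j), hij⟩ a ha (h (Sum.inr (Sum.inr ⟨(i, j), hij⟩))))⟩

omit [Infinite F] in
theorem Good.ev (h : S.Good) (x : ι → F) :
    ∀ᶠ s : F in cofinite, ∃ hs : S.Reg (s • x), (S.shift (s • x) hs).Good := by
  classical
  have hx : Path (fun s : F => s • x) := Path.smul x
  have hr0 : S.Reg ((0 : F) • x) := by rw [zero_smul]; exact S.reg_zero
  have ek : ∀ mu, kk S.T mu ((0 : F) • x) = mu := by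
    intro mu
    rw [zero_smul]
    exact (Inst.mk S.T mu mu).k_zero
  have el : ∀ nu, ll S.T nu ((0 : F) • x) = nu := by
    intro nu
    rw [zero_smul]
    exact (Inst.mk S.T nu nu).l_zero
  have h1 : ∀ᶠ s : F in cofinite, ∀ i, S.InA i → ∃ mu ∈ S.E, vec (kk S.T mu (s • x)) i ≠ 0 := by
    rw [Filter.eventually_all]
    intro i
    rw [Filter.eventually_imp_distrib_left]
    intro hi
    obtain ⟨mu, hmu, h2⟩ := h.mu i hi
    obtain ⟨c, hc⟩ := Function.ne_iff.1 h2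
    filter_upwards [RatAt.ne (ratkk mu hx hr0 (i, c)) (by simp only [ek]; exact hc)] with s hs
    exact ⟨mu, hmu, Function.ne_iff.2 ⟨c, hs⟩⟩
  have h2 : ∀ᶠ s : F in cofinite, ∀ i, S.InA i → ∃ nu ∈ S.L, vec (ll S.T nu (s • x)) i ≠ 0 := by
    rw [Filter.eventually_all]
    intro i
    rw [Filter.eventually_imp_distrib_left]
    intro hi
    obtain ⟨nu, hnu, h2⟩ := h.nu i hi
    obtain ⟨c, hc⟩ := Function.ne_iff.1 h2
    filter_upwards [RatAt.ne (ratll nu hx hr0 (i, c)) (by simp only [el]; exact hc)] with s hs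
    exact ⟨nu, hnu, Function.ne_iff.2 ⟨c, hs⟩⟩
  have h3 : ∀ᶠ s : F in cofinite, ∀ i j, S.Adj i j →
      ∃ mu ∈ S.E, ∃ nu ∈ S.L, ((Inst.mk S.T mu nu).shift (s • x)).tau i j ≠ 0 := by
    rw [Filter.eventually_all]
    intro i
    rw [Filter.eventually_all]
    intro j
    rw [Filter.eventually_imp_distrib_left]
    rintro ⟨mu, hmu, nu, hnu, h2⟩
    filter_upwards [Inst.evTau (Inst.mk S.T mu nu) hx hr0 (i := i) (j := j)
      (by simp only [zero_smul, Inst.shift_zero]; exact h2)] with s hs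
    exact ⟨mu, hmu, nu, hnu, hs⟩
  have h4 : ∀ᶠ s : F in cofinite, S.Reg (s • x) := ev_det hx hr0
  filter_upwards [h1, h2, h3, h4] with s s1 s2 s3 s4
  refine ⟨s4, sysGood_mk s4 s1 s2 ?_⟩
  rintro i j ⟨mu, hmu, nu, hnu, y, hy, h5⟩
  exact s3 i j (h.tau i j mu hmu nu hnu y hy h5)

omit [Infinite F] in
theorem adj_shift (h : S.Good) (ha : S.Reg a) (h' : (S.shift a ha).Good) :
    (S.shift a ha).Adj i j ↔ S.Adj i j := by
  constructor
  · rintro ⟨mu', hmu', nu', hnu', h1⟩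
    obtain ⟨mu, hmu, rfl⟩ := S.exists_E_shift ha hmu'
    obtain ⟨nu, hnu, rfl⟩ := S.exists_L_shift ha hnu'
    rw [S.inst_shift ha mu nu] at h1
    exact h.tau i j mu hmu nu hnu a ha h1
  · rintro ⟨mu, hmu, nu, hnu, h1⟩
    have hy : (S.shift a ha).Reg (-a) := by
      rw [S.reg_shift ha, add_neg_cancel]
      exact S.reg_zero
    refine h'.tau i j _ (S.mem_E_shift ha hmu) _ (S.mem_L_shift ha hnu) (-a) hy ?_
    rw [S.inst_shift_shift ha mu nu hy, add_neg_cancel, Inst.shift_zero]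
    exact h1

omit [Infinite F] in
theorem IsComp.shift (h : S.Good) (ha : S.Reg a) (h' : (S.shift a ha).Good) {D : Finset ι}
    (hD : S.IsComp D) : (S.shift a ha).IsComp D where
  ne := hD.ne
  inA i hi := (S.inA_shift ha i).2 (hD.inA i hi)
  sep i hi l hl := by
    rw [adj_shift h ha h', adj_shift h ha h']
    exact hD.sep i hi l hl
  conn p hp hstep := hD.conn p hp fun a' ha' b' hb' hab hadj =>
    hstep a' ha' b' hb' hab ((adj_shift h ha h').2 hadj)

end Sys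

end Pool.Agent.H50.R2
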