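import Pool.Agent.H50.R2.GInv
import Pool.Agent.H50.R2.SysGood

/-! # Module USpace: the space `U` and the system of a matrix of maximal rank (MP_966f71_lc)

`T = - Q G P`. `RR` is the span of the vectors `X kx` (`B beta = 0`, `x` regular), `UU` the span of
the pairs `(yx, X kx)`, the system `SS` has `E = Q (ker B)` and `L` = the annihilator of `RR`.
* `sysOf` is a system: `h x = nu X kx = 0` for `nu ∈ L` (definition of `L`).
* `finrank_UU`: `LinearMap.snd` maps `UU` onto `RR`; the kernel of this map on `UU` is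
  `{(beta, 0) : B beta = 0}`: it contains these (`x = 0`: `yx = beta`), and `(y, 0) ∈ UU` satisfies
  `B y = 0` (`M_yy`). Rank-nullity, `finrank ker = card K - rank B`. -/

set_option autoImplicit false

namespace Pool.Agent.H50.R2

open Matrix Module

variable {F ι N K : Type*} [Field F] [Fintype ι] [DecidableEq ι] [Fintype N] [Fintype K]
  [DecidableEq K] [DecidableEq N]

/-- The span of the `X kx`. -/
noncomputable def RR (B : Matrix N K F) (P : Matrix N (ι × Fin 2) F) (Q : Matrix (ι × Fin 2) K F)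
    (G : Matrix K N F) : Submodule F (ι × Fin 2 → F) :=
  Submodule.span F {v | ∃ beta, B *ᵥ beta = 0 ∧ ∃ x, (1 - -(Q * G * P) * dg x).det ≠ 0 ∧
    v = dg x *ᵥ kk (-(Q * G * P)) (Q *ᵥ beta) x}

/-- The span of the pairs `(yx, X kx)`. -/
noncomputable def UU (B : Matrix N K F) (P : Matrix N (ι × Fin 2) F) (Q : Matrix (ι × Fin 2) K F)
    (G : Matrix K N F) : Submodule F ((K → F) × (ι × Fin 2 → F)) :=
  Submodule.span F {v | ∃ beta, B *ᵥ beta = 0 ∧ ∃ x, (1 - -(Q * G * P) * dg x).det ≠ 0 ∧
    v = (yy G P Q beta x, dg x *ᵥ kk (-(Q * G * P)) (Q *ᵥ beta) x)}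

/-- The system of `(B, P, Q, G)`. -/
noncomputable def sysOf (B : Matrix N K F) (P : Matrix N (ι × Fin 2) F)
    (Q : Matrix (ι × Fin 2) K F) (G : Matrix K N F) : Sys F ι where
  T := -(Q * G * P)
  E := (LinearMap.ker B.mulVecLin).map Q.mulVecLin
  L := dotAnn (RR B P Q G)
  odd := by
    rintro _ ⟨beta, hb, rfl⟩ nu hnu x _ hx
    exact hnu _ (Submodule.subset_span ⟨beta, by simpa using hb, x, hx, rfl⟩)

variable {B : Matrix N K F} {P : Matrix N (ι × Fin 2) F} {Q : Matrix (ι × Fin 2) K F}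
  {G : Matrix K N F}

theorem uSpace_rel (hG : B * G * B = B) (hmax : ∀ x : ι → F, (B + P * dg x * Q).rank ≤ B.rank)
    {v : (K → F) × (ι × Fin 2 → F)} (hv : v ∈ UU B P Q G) : B *ᵥ v.1 + P *ᵥ v.2 = 0 := by
  induction hv using Submodule.span_induction with
  | mem v hv =>
    obtain ⟨beta, hb, x, hx, rfl⟩ := hv
    exact M_yy hG hmax hx hb
  | zero => simp
  | add u v _ _ hu hv =>
    rw [Prod.fst_add, Prod.snd_add, mulVec_add, mulVec_add, add_add_add_comm, hu, hv, add_zero]
  | smul c v _ hv =>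
    rw [Prod.smul_fst, Prod.smul_snd, mulVec_smul, mulVec_smul, ← smul_add, hv, smul_zero]

omit [DecidableEq K] [DecidableEq N] in
theorem uSpace_mem {beta : K → F} (hb : B *ᵥ beta = 0) :
    ((beta, 0) : (K → F) × (ι × Fin 2 → F)) ∈ UU B P Q G := by
  refine Submodule.subset_span ⟨beta, hb, 0, ?_, ?_⟩
  · have h : dg (0 : ι → F) = 0 := by
      ext p q
      simp [dg, Matrix.diagonal_apply]
    rw [h, Matrix.mul_zero, sub_zero, det_one]
    exact one_ne_zero
  · have h : dg (0 : ι → F) = 0 := by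
      ext p q
      simp [dg, Matrix.diagonal_apply]
    rw [yy, h, Matrix.zero_mulVec, Matrix.mulVec_zero, Matrix.mulVec_zero, sub_zero]

theorem finrank_UU (hG : B * G * B = B) (hmax : ∀ x : ι → F, (B + P * dg x * Q).rank ≤ B.rank) :
    finrank F (UU B P Q G) + B.rank = Fintype.card K + finrank F (RR B P Q G) := by
  have h1 : (UU B P Q G).map (LinearMap.snd F (K → F) (ι × Fin 2 → F)) = RR B P Q G := by
    rw [UU, RR, Submodule.map_span]
    congr 1
    ext v
    constructor
    · rintro ⟨_, ⟨beta, hb, x, hx, rfl⟩, rfl⟩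
      exact ⟨beta, hb, x, hx, rfl⟩
    · rintro ⟨beta, hb, x, hx, rfl⟩
      exact ⟨_, ⟨beta, hb, x, hx, rfl⟩, rfl⟩
  have h2 := LinearMap.finrank_range_add_finrank_ker
    ((LinearMap.snd F (K → F) (ι × Fin 2 → F)).domRestrict (UU B P Q G))
  have h3 : LinearMap.range ((LinearMap.snd F (K → F) (ι × Fin 2 → F)).domRestrict
      (UU B P Q G)) = RR B P Q G := by
    rw [LinearMap.range_domRestrict, h1]
  have h4 : (LinearMap.ker ((LinearMap.snd F (K → F) (ι × Fin 2 → F)).domRestrict
      (UU B P Q G))).map (UU B P Q G).subtype =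
      (LinearMap.ker B.mulVecLin).map (LinearMap.inl F (K → F) (ι × Fin 2 → F)) := by
    ext v
    constructor
    · rintro ⟨w, hw, rfl⟩
      have h5 : (w : (K → F) × (ι × Fin 2 → F)).2 = 0 := hw
      have h6 := uSpace_rel hG hmax w.2
      rw [h5, mulVec_zero, add_zero] at h6
      exact ⟨(w : (K → F) × (ι × Fin 2 → F)).1, h6, Prod.ext rfl h5.symm⟩
    · rintro ⟨beta, hb, rfl⟩
      exact ⟨⟨_, uSpace_mem (P := P) (Q := Q) (G := G) hb⟩, rfl, rfl⟩
  have h5 := congrArg (fun M : Submodule F ((K → F) × (ι × Fin 2 → F)) => finrank F M) h4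
  rw [Submodule.finrank_map_subtype_eq, (Submodule.equivMapOfInjective _
    LinearMap.inl_injective (LinearMap.ker B.mulVecLin)).finrank_eq.symm] at h5
  have h6 := LinearMap.finrank_range_add_finrank_ker B.mulVecLin
  rw [finrank_fintype_fun_eq_card] at h6
  rw [h3, h5] at h2
  have h7 : B.rank = finrank F (LinearMap.range B.mulVecLin) := rfl
  omega

theorem finrank_LR : finrank F (sysOf B P Q G).L + finrank F (RR B P Q G) =
    2 * Fintype.card ι := by
  have h := finrank_dotAnn (RR B P Q G)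
  rw [Fintype.card_prod, Fintype.card_fin, mul_comm] at h
  exact h

end Pool.Agent.H50.R2
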