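import Pool.Agent.H50.R2.SysPar

/-! # Module YCount: the dimension count (MP_966f71_lc)

* `finrank_Yann`: `dim Yann = sum_i (2 - dim Y i)`: `Yann` is isomorphic to the product of the
  annihilators of `Y i` in `F ^ 2` (`finrank_dotAnn` for each `i`, `finrank_pi_fintype`).
* `count`: `dim L + dim R = 2 |ι|` (`R` is the orthogonal of `L`), `dim L ≤ |D| + dim Yann`,
  `dim Y i = 2` on the active indices (`Y_top`), and the members of `D` are disjoint with union the
  set of active indices. So `dim R ≥ sum_i dim Y i - |D| = sum_(i not in union) dim Y i +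
  sum_(C in D) (2 |C| - 1)`. -/

set_option autoImplicit false

namespace Pool.Agent.H50.R2

open Matrix Module Filter

variable {F ι : Type*} [Field F] [Infinite F] [Fintype ι] [DecidableEq ι]

namespace Sys

variable {S : Sys F ι}

omit [Infinite F] in
theorem finrank_Yann (S : Sys F ι) :
    finrank F S.Yann + ∑ i, finrank F (S.Y i) = 2 * Fintype.card ι := by
  let e : S.Yann ≃ₗ[F] ((i : ι) → dotAnn (S.Y i)) :=
    { toFun := fun v i => ⟨vec (v : ι × Fin 2 → F) i, fun r hr => v.2 i r hr⟩
      map_add' := fun u v => rfl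
      map_smul' := fun c u => rfl
      invFun := fun g => ⟨fun p => (g p.1 : Fin 2 → F) p.2, fun i y hy => (g i).2 y hy⟩
      left_inv := fun v => rfl
      right_inv := fun g => rfl }
  have h1 : finrank F S.Yann = ∑ i, finrank F (dotAnn (S.Y i)) := by
    rw [e.finrank_eq, Module.finrank_pi_fintype]
  rw [h1, ← Finset.sum_add_distrib]
  have h2 : ∀ i ∈ (Finset.univ : Finset ι),
      finrank F (dotAnn (S.Y i)) + finrank F (S.Y i) = 2 := by
    intro i _
    rw [finrank_dotAnn, Fintype.card_fin]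
  rw [Finset.sum_congr rfl h2, Finset.sum_const, Finset.card_univ, smul_eq_mul, mul_comm]

theorem count {D : Finset (Finset ι)} (hne : ∀ C ∈ D, C.Nonempty)
    (hdis : ∀ C ∈ D, ∀ C' ∈ D, C ≠ C' → Disjoint C C')
    (hA : ∀ i, S.InA i ↔ i ∈ D.biUnion id) (hL : finrank F S.L ≤ D.card + finrank F S.Yann)
    {R : Submodule F (ι × Fin 2 → F)} (hR : finrank F S.L + finrank F R = 2 * Fintype.card ι) :
    ∑ i ∈ (D.biUnion id)ᶜ, finrank F (S.Y i) + ∑ C ∈ D, (2 * C.card - 1) ≤ finrank F R := by
  have h1 := finrank_Yann S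
  have h2 : ∑ i, finrank F (S.Y i) = ∑ i ∈ D.biUnion id, finrank F (S.Y i) +
      ∑ i ∈ (D.biUnion id)ᶜ, finrank F (S.Y i) :=
    (Finset.sum_add_sum_compl _ _).symm
  have h3 : ∑ i ∈ D.biUnion id, finrank F (S.Y i) = ∑ C ∈ D, 2 * C.card := by
    have hpd : (D : Set (Finset ι)).PairwiseDisjoint id :=
      fun C hC C' hC' h => hdis C hC C' hC' h
    rw [Finset.sum_biUnion hpd]
    refine Finset.sum_congr rfl fun C hC => ?_
    have h4 : ∀ i ∈ (id C : Finset ι), finrank F (S.Y i) = 2 := by
      intro i hi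
      have h5 : S.InA i := (hA i).2 (Finset.mem_biUnion.2 ⟨C, hC, hi⟩)
      rw [Y_top h5, finrank_top, Module.finrank_fintype_fun_eq_card, Fintype.card_fin]
    rw [Finset.sum_congr rfl h4, Finset.sum_const, smul_eq_mul, mul_comm, id_eq]
  have h6 : ∑ C ∈ D, (2 * C.card - 1) + D.card = ∑ C ∈ D, 2 * C.card := by
    rw [Finset.card_eq_sum_ones, ← Finset.sum_add_distrib]
    refine Finset.sum_congr rfl fun C hC => ?_
    have := (hne C hC).card_pos
    omega
  omega

end Sys

end Pool.Agent.H50.R2
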