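import Pool.Agent.H50.R2.Cert
import Pool.Agent.H50.R2.USpace
import Pool.Agent.H50.R2.PieceC
import Pool.Agent.H50.R2.LocPiece
import Pool.Agent.H50.R2.YCount

/-! # Module Complete: a certificate at a base point of maximal rank (MP_966f71_lc)

`S = sysOf B P Q G`, `a` and `ha` from `exists_good S`, `S' = S.shift a ha`; components `D` of `S'`
(`exists_comps`), for `C ∈ D` `mu0`, `nu0` (`exists_vec`, `exists_cov`),
`J C = Inst.mk S'.T mu0 nu0` (choice; junk for `C ∉ D`), `Y i = S.Y i = S'.Y i` (`Y_shift`),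
`U = UU B P Q G`, the point `a`. `IsCert`: every condition is linear in `u ∈ U`, so it is enough to
check it for the generators (`Submodule.span_induction`; for `mu0` the `t`s add up):
`u = (yx, X kx)`, `Q yx = kx` (`Q_yy`), `x` regular for `S`.
* `ker`: `M_yy`. * `loc`: `locOdd`. * `out`: `kx_i ∈ S.Y i` and `x_i kx_i ∈ S.Y i`.
* `nu0`, `mu0`: `xi_i - a_i (Q y)_i = (x_i - a_i) kx_i`, and
  `kx = kk S'.T (kk S.T (Q beta) a) (x - a)` (`kk_shift`, `a + (x - a) = x`), so `piece_nu`,
  `piece_mu` for `S'` at the point `x - a`.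
The value: `count` with `R = RR B P Q G` (`finrank_LR`, `finrank_L_shift`), and `finrank_UU`:
`val = card K + (...) ≤ card K + dim RR = dim UU + rank B`. -/

set_option autoImplicit false

namespace Pool.Agent.H50.R2

open Matrix Module

variable {F ι N K : Type*} [Field F] [Infinite F] [Fintype ι] [DecidableEq ι] [Fintype N]
  [Fintype K] [DecidableEq K] [DecidableEq N]

theorem complete0 {B : Matrix N K F} {P : Matrix N (ι × Fin 2) F} {Q : Matrix (ι × Fin 2) K F}
    (hmax : ∀ x : ι → F, (B + P * dg x * Q).rank ≤ B.rank) :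
    ∃ U Y D a J, IsCert B P Q U Y D a J ∧ val K Y D ≤ B.rank + finrank F U := by
  classical
  obtain ⟨G, hG⟩ := exists_ginv B
  obtain ⟨a, ha, hgood⟩ := Sys.exists_good (sysOf B P Q G)
  obtain ⟨D, hcomp, hdis, hA⟩ := Sys.exists_comps ((sysOf B P Q G).shift a ha)
  have hex : ∀ C : Finset ι, ∃ I : Inst F ι, C ∈ D →
      (I.T = ((sysOf B P Q G).shift a ha).T ∧ ((sysOf B P Q G).shift a ha).IsVec C I.mu ∧
        ((sysOf B P Q G).shift a ha).IsCov C I.nu) := by
    intro C
    by_cases hC : C ∈ D
    · obtain ⟨mu0, hmu0⟩ := Sys.exists_vec hgood (hcomp C hC)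
      obtain ⟨nu0, hnu0⟩ := Sys.exists_cov hgood (hcomp C hC)
      exact ⟨⟨((sysOf B P Q G).shift a ha).T, mu0, nu0⟩, fun _ => ⟨rfl, hmu0, hnu0⟩⟩
    · exact ⟨⟨((sysOf B P Q G).shift a ha).T, 0, 0⟩, fun h => absurd h hC⟩
  choose J hJ using hex
  -- facts on the generators
  have hreg : ∀ x : ι → F, (1 - -(Q * G * P) * dg x).det ≠ 0 → (sysOf B P Q G).Reg x :=
    fun x hx => hx
  have hE : ∀ beta : K → F, B *ᵥ beta = 0 → Q *ᵥ beta ∈ (sysOf B P Q G).E := by
    intro beta hb
    exact ⟨beta, by simpa using hb, rfl⟩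
  have hkk : ∀ (beta : K → F) (x : ι → F), (1 - -(Q * G * P) * dg x).det ≠ 0 →
      kk (-(Q * G * P)) (Q *ᵥ beta) x = kk ((sysOf B P Q G).shift a ha).T
        (kk (sysOf B P Q G).T (Q *ᵥ beta) a) (x - a) := by
    intro beta x hx
    have hr : ((sysOf B P Q G).shift a ha).Reg (x - a) := by
      rw [Sys.reg_shift, add_sub_cancel]
      exact hreg x hx
    rw [Sys.kk_shift _ _ _ hr, add_sub_cancel]
    rfl
  have hdiff : ∀ (beta : K → F) (x : ι → F), (1 - -(Q * G * P) * dg x).det ≠ 0 → ∀ i,
      vec (dg x *ᵥ kk (-(Q * G * P)) (Q *ᵥ beta) x) i - a i • vec (Q *ᵥ yy G P Q beta x) i =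
        (x - a) i • vec (kk ((sysOf B P Q G).shift a ha).T
          (kk (sysOf B P Q G).T (Q *ᵥ beta) a) (x - a)) i := by
    intro beta x hx i
    rw [Q_yy hx, vec_dg, ← hkk beta x hx, Pi.sub_apply, sub_smul]
  have hgen : ∀ C ∈ D, ∀ (beta : K → F), B *ᵥ beta = 0 → ∀ x : ι → F,
      (1 - -(Q * G * P) * dg x).det ≠ 0 →
      ((sysOf B P Q G).shift a ha).Reg (x - a) := by
    intro C _ beta _ x hx
    rw [Sys.reg_shift, add_sub_cancel]
    exact hreg x hx
  refine ⟨UU B P Q G, (sysOf B P Q G).Y, D, a, J, ?_, ?_⟩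
  · refine ⟨?_, fun C hC => (hcomp C hC).ne, hdis, ?_, ?_, ?_, ?_⟩
    · -- ker
      intro u hu
      induction hu using Submodule.span_induction with
      | mem v hv =>
        obtain ⟨beta, hb, x, hx, rfl⟩ := hv
        exact M_yy hG hmax hx hb
      | zero => simp
      | add u v _ _ h1 h2 =>
        simp only [Prod.fst_add, Prod.snd_add, mulVec_add]
        rw [add_add_add_comm, h1, h2, add_zero]
      | smul c u _ h1 =>
        simp only [Prod.smul_fst, Prod.smul_snd, mulVec_smul]
        rw [← smul_add, h1, smul_zero]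
    · -- loc
      intro C hC
      obtain ⟨h1, h2, h3⟩ := hJ C hC
      have h4 := Sys.locOdd hgood (hcomp C hC) h2 h3
      have h5 : J C = Inst.mk ((sysOf B P Q G).shift a ha).T (J C).mu (J C).nu := by
        rw [← h1]
      rw [h5]
      exact h4
    · -- out
      intro u hu i _
      induction hu using Submodule.span_induction with
      | mem v hv =>
        obtain ⟨beta, hb, x, hx, rfl⟩ := hv
        have h1 : vec (kk (-(Q * G * P)) (Q *ᵥ beta) x) i ∈ (sysOf B P Q G).Y i :=
          Submodule.subset_span ⟨Q *ᵥ beta, hE beta hb, x, hreg x hx, rfl⟩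
        refine ⟨?_, ?_⟩
        · simp only
          rw [Q_yy hx]
          exact h1
        · simp only
          rw [vec_dg]
          exact Submodule.smul_mem _ _ h1
      | zero =>
        simp only [Prod.fst_zero, Prod.snd_zero, mulVec_zero]
        exact ⟨Submodule.zero_mem _, Submodule.zero_mem _⟩
      | add u v _ _ h1 h2 =>
        simp only [Prod.fst_add, Prod.snd_add, mulVec_add, vec_add]
        exact ⟨Submodule.add_mem _ h1.1 h2.1, Submodule.add_mem _ h1.2 h2.2⟩
      | smul c u _ h1 =>
        simp only [Prod.smul_fst, Prod.smul_snd, mulVec_smul, vec_smul]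
        exact ⟨Submodule.smul_mem _ _ h1.1, Submodule.smul_mem _ _ h1.2⟩
    · -- nu0
      intro u hu C hC
      obtain ⟨h1, h2, h3⟩ := hJ C hC
      induction hu using Submodule.span_induction with
      | mem v hv =>
        obtain ⟨beta, hb, x, hx, rfl⟩ := hv
        have h4 := Sys.piece_nu hgood (hcomp C hC) h3
          (Sys.mem_E_shift (sysOf B P Q G) ha (hE beta hb)) (hgen C hC beta hb x hx)
        rw [← h4]
        refine Finset.sum_congr rfl fun i _ => ?_
        rw [hdiff beta x hx i]
      | zero =>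
        refine Finset.sum_eq_zero fun i _ => ?_
        have : vec (0 : ι × Fin 2 → F) i = 0 := rfl
        simp only [Prod.fst_zero, Prod.snd_zero, mulVec_zero, this, smul_zero, sub_zero,
          dotProduct_zero]
      | add u v _ _ h4 h5 =>
        rw [← add_zero (0 : F)]
        nth_rewrite 1 [← h4]
        rw [← h5, ← Finset.sum_add_distrib]
        refine Finset.sum_congr rfl fun i _ => ?_
        simp only [Prod.fst_add, Prod.snd_add, mulVec_add, vec_add]
        rw [← dotProduct_add]
        congr 1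
        rw [smul_add]
        abel
      | smul c u _ h4 =>
        have h5 : ∑ i ∈ C, vec (J C).nu i ⬝ᵥ (vec (c • u).2 i - a i • vec (Q *ᵥ (c • u).1) i) =
            c * ∑ i ∈ C, vec (J C).nu i ⬝ᵥ (vec u.2 i - a i • vec (Q *ᵥ u.1) i) := by
          rw [Finset.mul_sum]
          refine Finset.sum_congr rfl fun i _ => ?_
          simp only [Prod.smul_fst, Prod.smul_snd, mulVec_smul, vec_smul]
          rw [smul_comm (a i) c, ← smul_sub, dotProduct_smul, smul_eq_mul]
        rw [h5, h4, mul_zero]
    · -- mu0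
      intro u hu C hC
      obtain ⟨h1, h2, h3⟩ := hJ C hC
      rw [h1]
      induction hu using Submodule.span_induction with
      | mem v hv =>
        obtain ⟨beta, hb, x, hx, rfl⟩ := hv
        obtain ⟨t, ht⟩ := Sys.piece_mu hgood (hcomp C hC) h2
          (Sys.mem_E_shift (sysOf B P Q G) ha (hE beta hb)) (hgen C hC beta hb x hx)
        refine ⟨t, fun i hi => ?_⟩
        have h5 := ht i hi
        rw [← hkk beta x hx] at h5
        simp only
        rw [Q_yy hx, h5]
        congr 1
        refine Finset.sum_congr rfl fun j _ => ?_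
        have h6 := hdiff beta x hx j
        rw [Q_yy hx] at h6
        rw [h6, ← hkk beta x hx]
      | zero =>
        refine ⟨0, fun i _ => ?_⟩
        have h4 : ∀ j : ι, vec (0 : ι × Fin 2 → F) j = 0 := fun _ => rfl
        simp only [Prod.fst_zero, Prod.snd_zero, mulVec_zero, h4, smul_zero, sub_zero,
          mulVec_zero, Finset.sum_const_zero, zero_smul, add_zero]
      | add u v _ _ h4 h5 =>
        obtain ⟨t1, ht1⟩ := h4
        obtain ⟨t2, ht2⟩ := h5
        refine ⟨t1 + t2, fun i hi => ?_⟩
        have h6 := ht1 i hi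
        have h7 := ht2 i hi
        simp only [Prod.fst_add, Prod.snd_add, mulVec_add, vec_add]
        rw [h6, h7, add_smul, add_add_add_comm, ← Finset.sum_add_distrib]
        congr 1
        refine Finset.sum_congr rfl fun j hj => ?_
        rw [← mulVec_add]
        congr 1
        rw [smul_add]
        abel
      | smul c u _ h4 =>
        obtain ⟨t1, ht1⟩ := h4
        refine ⟨c * t1, fun i hi => ?_⟩
        have h6 := ht1 i hi
        simp only [Prod.smul_fst, Prod.smul_snd, mulVec_smul, vec_smul]
        rw [h6, smul_add, Finset.smul_sum, mul_smul]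
        congr 1
        refine Finset.sum_congr rfl fun j _ => ?_
        rw [smul_comm (a j) c, ← smul_sub, mulVec_smul]
  · -- the value
    have hL := Sys.finrank_L hgood hcomp hA
    have hR : finrank F ((sysOf B P Q G).shift a ha).L + finrank F (RR B P Q G) =
        2 * Fintype.card ι := by
      rw [Sys.finrank_L_shift]
      exact finrank_LR
    have h1 := Sys.count (fun C hC => (hcomp C hC).ne) hdis hA hL hR
    have h2 := finrank_UU hG hmax
    have h3 : ∑ i ∈ (D.biUnion id)ᶜ, finrank F (((sysOf B P Q G).shift a ha).Y i) =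
        ∑ i ∈ (D.biUnion id)ᶜ, finrank F ((sysOf B P Q G).Y i) :=
      Finset.sum_congr rfl fun i _ => by rw [Sys.Y_shift]
    rw [h3] at h1
    unfold val
    omega

end Pool.Agent.H50.R2
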