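import Pool.Agent.H50.R2.PathC

/-! # Module Cycle: four-cycles (MP_966f71_lc)

`cycle_half`. If `c = 0` then the defect form vanishes: take `la = 0`, `u = 0`. Otherwise `pd` of
both paths: `c ar(phi a, b) = c' ar(phi' a, b)` for all `a, b`, so `c phi = c' phi'` as maps; both
send `mu_j` to `mu_i ≠ 0`: `c = c'`, `phi' = phi`. Subtract the two `pa`:
`(nu_j v) (rho - rho') = (c1' - c1) phi v` for all `v`; at `v = mu_j` (`nu_j mu_j = 0`, the right
side is `(c1' - c1) mu_i`): `c1 = c1'`; then `rho = rho'` as `nu_j ≠ 0`; from `pb`: `c2 = c2'`.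
For regular `x` on `{i, j, l, m}`, by `k_eq_on` for `i` and `j`, `pa`, `pb`, `out` (twice) and
`h x = sum x nu k`: `(1 + c2 x_i) k_i = (1 + c1 x_j) phi k_j + h rho`, so
`(1 + c2 x_i) R_ij(k_j, k_i) = c ar(phi k_j, (1 + c2 x_i) k_i) = c h ar(phi k_j, rho)`; this is
`h (u k_j)` with `u b = c ar(phi b, rho)`, a linear functional.
`four_cycle`: `exists_area` on `{i, j, l, m}`; the four paths `i-l-j`, `i-m-j`, `l-i-m`, `l-j-m`
(`path`; permute the finite sets by `Finset` extensionality; `tau` antisymmetric by `tau_anti`);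
`master_quad`, `pair_dfct` for the four edges; multiply by `(1 + la x_i)(1 + la' x_l)`:
`h ((1 - theta)(1 + la x_i)(1 + la' x_l) + x_i x_j (u k_j)(1 + la' x_l) +
x_l x_m (u' k_m)(1 + la x_i)) = 0`, and `odd_of_mul` (`g 0 = 1`). -/

set_option autoImplicit false

namespace Pool.Agent.H50.R2

open Matrix Filter

variable {F ι : Type*} [Field F] [Infinite F] [Fintype ι] [DecidableEq ι]

namespace Inst

variable {I : Inst F ι} {i j l m : ι} {w : ι → F} {th : ι → Fin 2 → F}

private theorem Cycle_ar_ext {F : Type*} [Field F] {u v : Fin 2 → F}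
    (h : ∀ b, ar u b = ar v b) : u = v := by
  have h0 := h ![0, 1]
  have h1 := h ![1, 0]
  simp [ar] at h0 h1
  funext t
  fin_cases t
  · exact h0
  · exact h1

private theorem Cycle_ar_ne {F : Type*} [Field F] {u : Fin 2 → F} (hu : u ≠ 0) :
    ∃ b, ar u b ≠ 0 := by
  by_contra hcon
  push Not at hcon
  apply hu
  apply Cycle_ar_ext
  intro b
  rw [hcon b, ar_zero_left]

private theorem Cycle_dot_ne {F : Type*} [Field F] {u : Fin 2 → F} (hu : u ≠ 0) :
    ∃ b, u ⬝ᵥ b ≠ 0 := by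
  by_contra hcon
  push Not at hcon
  apply hu
  funext t
  have h0 := hcon ![1, 0]
  have h1 := hcon ![0, 1]
  simp [dotProduct, Fin.sum_univ_two] at h0 h1
  fin_cases t
  · exact h0
  · exact h1

omit [Infinite F] in
theorem cycle_half (hij : i ≠ j) (hil : i ≠ l) (him : i ≠ m) (hjl : j ≠ l) (hjm : j ≠ m)
    (hlm : l ≠ m) (hnd : I.NonDeg {i, j, l, m}) (hj : vec I.nu j ⬝ᵥ vec I.mu j = 0)
    {phi phi' : Matrix (Fin 2) (Fin 2) F} {rho rho' : Fin 2 → F} {c1 c2 c c1' c2' c' : F}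
    (p : I.PathD w th i l j phi rho c1 c2 c) (p' : I.PathD w th i m j phi' rho' c1' c2' c') :
    ∃ (la : F) (u : Fin 2 → F), ∀ x, Supp x {i, j, l, m} → I.Reg x →
      (1 + la * x i) * I.dfct w th i j (vec (I.k x) j) (vec (I.k x) i) =
        I.h x * (u ⬝ᵥ vec (I.k x) j) := by
  have hmi : vec I.mu i ≠ 0 := (hnd i (by simp)).1
  have hnj : vec I.nu j ≠ 0 := (hnd j (by simp)).2
  rcases eq_or_ne c 0 with rfl | hc
  · refine ⟨0, 0, fun x _ _ => ?_⟩
    rw [p.pd]
    simp
  have hcc : c = c' := by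
    have h1 : ∀ b, c * ar (vec I.mu i) b = c' * ar (vec I.mu i) b := fun b => by
      have e1 := p.pd (vec I.mu j) b
      have e2 := p'.pd (vec I.mu j) b
      rw [p.phi_mu] at e1
      rw [p'.phi_mu] at e2
      rw [← e1, e2]
    obtain ⟨b, hb⟩ := Cycle_ar_ne hmi
    exact mul_right_cancel₀ hb (h1 b)
  have hphi : ∀ a, phi' *ᵥ a = phi *ᵥ a := by
    intro a
    apply Cycle_ar_ext
    intro b
    have e1 := p.pd a b
    have e2 := p'.pd a b
    rw [e1, ← hcc] at e2
    exact (mul_left_cancel₀ hc e2).symm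
  have hpa : ∀ v (t : Fin 2), (vec I.nu j ⬝ᵥ v) * rho t + c1 * (phi *ᵥ v) t =
      (vec I.nu j ⬝ᵥ v) * rho' t + c1' * (phi *ᵥ v) t := by
    intro v t
    have e1 := congrFun (p.pa v) t
    have e2 := congrFun (p'.pa v) t
    rw [hphi, hphi] at e2
    simp only [Pi.add_apply, Pi.smul_apply, smul_eq_mul] at e1 e2
    linear_combination e2 - e1
  have hc1 : c1 = c1' := by
    obtain ⟨t, ht⟩ := Function.ne_iff.mp hmi
    have e := hpa (vec I.mu j) t
    rw [hj, p.phi_mu] at e
    simp only [zero_mul, zero_add] at e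
    exact mul_right_cancel₀ ht e
  have hrho : ∀ t, rho' t = rho t := by
    intro t
    obtain ⟨b, hb⟩ := Cycle_dot_ne hnj
    have e := hpa b t
    rw [hc1] at e
    have e' : (vec I.nu j ⬝ᵥ b) * rho' t = (vec I.nu j ⬝ᵥ b) * rho t := by
      linear_combination -e
    exact mul_left_cancel₀ hb e'
  refine ⟨c2, ![c * (phi 0 0 * rho 1 - phi 1 0 * rho 0),
    c * (phi 0 1 * rho 1 - phi 1 1 * rho 0)], fun x hS hx => ?_⟩
  have Ei := I.k_eq_on hx hS i
  have Ej := I.k_eq_on hx hS j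
  have Hh := I.h_eq_on hS
  have n1 : i ∉ ({j, l, m} : Finset ι) := by simp [hij, hil, him]
  have n2 : j ∉ ({l, m} : Finset ι) := by simp [hjl, hjm]
  have n3 : l ∉ ({m} : Finset ι) := by simp [hlm]
  rw [Finset.sum_insert n1, Finset.sum_insert n2, Finset.sum_insert n3,
    Finset.sum_singleton] at Ei Ej Hh
  have Ep : phi *ᵥ vec (I.k x) j = vec I.mu i + (x i • (phi *ᵥ (blk I.T j i *ᵥ vec (I.k x) i)) +
      (x j • (phi *ᵥ (blk I.T j j *ᵥ vec (I.k x) j)) +
      (x l • (phi *ᵥ (blk I.T j l *ᵥ vec (I.k x) l)) +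
      x m • (phi *ᵥ (blk I.T j m *ᵥ vec (I.k x) m))))) := by
    conv_lhs => rw [Ej]
    simp only [Matrix.mulVec_add, Matrix.mulVec_smul, p.phi_mu]
  have key : (1 + c2 * x i) • vec (I.k x) i =
      (1 + c1 * x j) • (phi *ᵥ vec (I.k x) j) + I.h x • rho := by
    funext t
    have e1 := congrFun Ei t
    have e2 := congrFun Ep t
    have ea := congrFun (p.pa (vec (I.k x) j)) t
    have eb := congrFun (p.pb (vec (I.k x) i)) t
    have eo := congrFun (p.out (vec (I.k x) l)) t
    have eo' := congrFun (p'.out (vec (I.k x) m)) t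
    rw [hphi] at eo'
    simp only [Pi.add_apply, Pi.smul_apply, Pi.sub_apply, smul_eq_mul, hrho] at e1 e2 ea eb eo eo' ⊢
    rw [Hh]
    linear_combination e1 - e2 + x i * eb + x j * ea + x l * eo + x m * eo'
  have hu : (![c * (phi 0 0 * rho 1 - phi 1 0 * rho 0),
      c * (phi 0 1 * rho 1 - phi 1 1 * rho 0)] : Fin 2 → F) ⬝ᵥ vec (I.k x) j =
      c * ar (phi *ᵥ vec (I.k x) j) rho := by
    simp only [ar, dotProduct, Matrix.mulVec, Fin.sum_univ_two, Matrix.cons_val_zero,
      Matrix.cons_val_one]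
    ring
  rw [hu, p.pd]
  calc (1 + c2 * x i) * (c * ar (phi *ᵥ vec (I.k x) j) (vec (I.k x) i))
      = c * ar (phi *ᵥ vec (I.k x) j) ((1 + c2 * x i) • vec (I.k x) i) := by
        rw [ar_smul_right]
        ring
    _ = c * ((1 + c1 * x j) * ar (phi *ᵥ vec (I.k x) j) (phi *ᵥ vec (I.k x) j) +
          I.h x * ar (phi *ᵥ vec (I.k x) j) rho) := by
        rw [key, ar_add_right, ar_smul_right, ar_smul_right]
    _ = I.h x * (c * ar (phi *ᵥ vec (I.k x) j) rho) := by
        rw [ar_self]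
        ring

theorem four_cycle (hij : i ≠ j) (hil : i ≠ l) (him : i ≠ m) (hjl : j ≠ l) (hjm : j ≠ m)
    (hlm : l ≠ m) (hnd : I.NonDeg {i, j, l, m})
    (o1 : I.Odd {i, j, l}) (o2 : I.Odd {i, j, m}) (o3 : I.Odd {i, l, m}) (o4 : I.Odd {j, l, m})
    (g1 : I.Gen {i, j, l}) (g2 : I.Gen {i, j, m}) (g3 : I.Gen {i, l, m}) (g4 : I.Gen {j, l, m})
    (tij : I.tau i j = 0) (tlm : I.tau l m = 0) (til : I.tau i l ≠ 0) (tim : I.tau i m ≠ 0)
    (tjl : I.tau j l ≠ 0) (tjm : I.tau j m ≠ 0) : I.Odd {i, j, l, m} := by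
  -- subsets
  have s1 : ({i} : Finset ι) ⊆ {i, j, l} := by simp
  have s2 : ({j} : Finset ι) ⊆ {i, j, l} := by simp
  have s3 : ({l} : Finset ι) ⊆ {i, j, l} := by simp
  have s4 : ({m} : Finset ι) ⊆ {i, j, m} := by simp
  have hodd1 : ∀ a ∈ ({i, j, l, m} : Finset ι), I.Odd {a} := by
    intro a ha
    simp only [Finset.mem_insert, Finset.mem_singleton] at ha
    rcases ha with rfl | rfl | rfl | rfl
    · exact o1.mono s1
    · exact o1.mono s2
    · exact o1.mono s3
    · exact o2.mono s4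
  obtain ⟨w, th, hA⟩ := exists_area hnd hodd1
  have q1 : ({i, j, l} : Finset ι) ⊆ {i, j, l, m} := by
    intro a
    simp only [Finset.mem_insert, Finset.mem_singleton]
    tauto
  have q2 : ({i, j, m} : Finset ι) ⊆ {i, j, l, m} := by
    intro a
    simp only [Finset.mem_insert, Finset.mem_singleton]
    tauto
  have e3 : ({i, l, m} : Finset ι) = {l, m, i} := by
    ext a
    simp only [Finset.mem_insert, Finset.mem_singleton]
    tauto
  have e4 : ({j, l, m} : Finset ι) = {l, m, j} := by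
    ext a
    simp only [Finset.mem_insert, Finset.mem_singleton]
    tauto
  have e5 : ({i, j, l, m} : Finset ι) = {l, m, i, j} := by
    ext a
    simp only [Finset.mem_insert, Finset.mem_singleton]
    tauto
  have q3 : ({l, m, i} : Finset ι) ⊆ {i, j, l, m} := by
    intro a
    simp only [Finset.mem_insert, Finset.mem_singleton]
    tauto
  have q4 : ({l, m, j} : Finset ι) ⊆ {i, j, l, m} := by
    intro a
    simp only [Finset.mem_insert, Finset.mem_singleton]
    tauto
  rw [e3] at o3 g3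
  rw [e4] at o4 g4
  have p1 : ({i, l} : Finset ι) ⊆ {i, j, l} := by
    intro a
    simp only [Finset.mem_insert, Finset.mem_singleton]
    tauto
  have p2 : ({j, l} : Finset ι) ⊆ {i, j, l} := by
    intro a
    simp only [Finset.mem_insert, Finset.mem_singleton]
    tauto
  have p3 : ({i, m} : Finset ι) ⊆ {i, j, m} := by
    intro a
    simp only [Finset.mem_insert, Finset.mem_singleton]
    tauto
  have p4 : ({j, m} : Finset ι) ⊆ {i, j, m} := by
    intro a
    simp only [Finset.mem_insert, Finset.mem_singleton]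
    tauto
  have tli : I.tau l i ≠ 0 := by
    intro h0
    apply til
    rw [tau_anti hil (o1.mono p1), h0, neg_zero]
  have tlj : I.tau l j ≠ 0 := by
    intro h0
    apply tjl
    rw [tau_anti hjl (o1.mono p2), h0, neg_zero]
  have tmi : I.tau m i ≠ 0 := by
    intro h0
    apply tim
    rw [tau_anti him (o2.mono p3), h0, neg_zero]
  have tmj : I.tau m j ≠ 0 := by
    intro h0
    apply tjm
    rw [tau_anti hjm (o2.mono p4), h0, neg_zero]
  obtain ⟨f1, r1, a1, b1, d1, P1⟩ := path hij hil hjl (hnd.mono q1) o1 g1 (hA.mono q1) tij til tjl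
  obtain ⟨f2, r2, a2, b2, d2, P2⟩ := path hij him hjm (hnd.mono q2) o2 g2 (hA.mono q2) tij tim tjm
  obtain ⟨f3, r3, a3, b3, d3, P3⟩ := path hlm hil.symm him.symm (hnd.mono q3) o3 g3 (hA.mono q3)
    tlm tli tmi
  obtain ⟨f4, r4, a4, b4, d4, P4⟩ := path hlm hjl.symm hjm.symm (hnd.mono q4) o4 g4 (hA.mono q4)
    tlm tlj tmj
  obtain ⟨la, u, hu⟩ := cycle_half hij hil him hjl hjm hlm hnd
    (single_dot (hodd1 j (by simp))) P1 P2
  obtain ⟨la', u', hu'⟩ := cycle_half hlm hil.symm hjl.symm him.symm hjm.symm hij (e5 ▸ hnd)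
    (single_dot (hodd1 m (by simp))) P3 P4
  rw [← e5] at hu'
  -- pair defects
  have D1 : ∀ a b, I.dfct w th i l a b = 0 := pair_dfct hil (hnd.mono (p1.trans q1))
    (o1.mono p1) (hA.mono (p1.trans q1)) til
  have D2 : ∀ a b, I.dfct w th i m a b = 0 := pair_dfct him (hnd.mono (p3.trans q2))
    (o2.mono p3) (hA.mono (p3.trans q2)) tim
  have D3 : ∀ a b, I.dfct w th j l a b = 0 := pair_dfct hjl (hnd.mono (p2.trans q1))
    (o1.mono p2) (hA.mono (p2.trans q1)) tjl
  have D4 : ∀ a b, I.dfct w th j m a b = 0 := pair_dfct hjm (hnd.mono (p4.trans q2))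
    (o2.mono p4) (hA.mono (p4.trans q2)) tjm
  refine odd_of_mul (fun x => (1 - (x i * (th i ⬝ᵥ vec (I.k x) i) +
      x j * (th j ⬝ᵥ vec (I.k x) j) + x l * (th l ⬝ᵥ vec (I.k x) l) +
      x m * (th m ⬝ᵥ vec (I.k x) m))) * (1 + la * x i) * (1 + la' * x l) +
      x i * (x j * (u ⬝ᵥ vec (I.k x) j)) * (1 + la' * x l) +
      x l * (x m * (u' ⬝ᵥ vec (I.k x) m)) * (1 + la * x i)) ?_ ?_ ?_
  · intro x _
    have hx : ∀ a : ι, RatAt 0 (fun s : F => (s • x) a) := fun a =>
      RatAt.mul RatAt.var (RatAt.const (x a))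
    have hl : ∀ (b : F) (a : ι), RatAt 0 (fun s : F => 1 + b * (s • x) a) := fun b a =>
      (RatAt.const 1).add ((RatAt.const b).mul (hx a))
    have hth : ∀ a : ι, RatAt 0 (fun s : F => (s • x) a * (th a ⬝ᵥ vec (I.k (s • x)) a)) :=
      fun a => rat_theta x a (th a)
    have h1 : RatAt 0 (fun s : F => 1 - ((s • x) i * (th i ⬝ᵥ vec (I.k (s • x)) i) +
        (s • x) j * (th j ⬝ᵥ vec (I.k (s • x)) j) + (s • x) l * (th l ⬝ᵥ vec (I.k (s • x)) l) +
        (s • x) m * (th m ⬝ᵥ vec (I.k (s • x)) m))) :=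
      (RatAt.const 1).sub ((((hth i).add (hth j)).add (hth l)).add (hth m))
    exact (((h1.mul (hl la i)).mul (hl la' l)).add
      (((hx i).mul (rat_theta x j u)).mul (hl la' l))).add
      (((hx l).mul (rat_theta x m u')).mul (hl la i))
  · simp
  · intro x hS hx
    have M := master_quad hij hil him hjl hjm hlm hA hS hx
    rw [D1, D2, D3, D4] at M
    have H1 := hu x hS hx
    have H2 := hu' x hS hx
    linear_combination (1 + la * x i) * (1 + la' * x l) * M - x i * x j * (1 + la' * x l) * H1 -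
      x l * x m * (1 + la * x i) * H2

end Inst

end Pool.Agent.H50.R2
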