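import Mathlib

/-! # Rank-two coefficient matrices: definitions (MP_966f71_lc)

`F` is a field, `ι` a finite index type. Every index `i : ι` carries a plane `F ^ 2`; vectors are
functions `ι × Fin 2 → F`, `vec f i` is the component at `i`, `blk T i j` the `2 × 2` block of `T`.
`dg x` is the diagonal matrix with `x i` on both coordinates of the plane of `i`. -/

set_option autoImplicit false

namespace Pool.Agent.H50.R2

open Matrix

variable {F ι : Type*} [Field F] [Fintype ι] [DecidableEq ι]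

/-- The diagonal matrix of a point `x : ι → F` (every coordinate twice). -/
def dg (x : ι → F) : Matrix (ι × Fin 2) (ι × Fin 2) F := Matrix.diagonal fun p => x p.1

/-- The component at `i` of a vector. -/
def vec (f : ι × Fin 2 → F) (i : ι) : Fin 2 → F := fun a => f (i, a)

/-- The block `(i, j)` of a matrix. -/
def blk (T : Matrix (ι × Fin 2) (ι × Fin 2) F) (i j : ι) : Matrix (Fin 2) (Fin 2) F :=
  fun a b => T (i, a) (j, b)

/-- The area form of the plane. -/
def ar (u v : Fin 2 → F) : F := u 0 * v 1 - u 1 * v 0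

/-- `u` and `v` are linearly dependent. -/
def par (u v : Fin 2 → F) : Prop := ar u v = 0

/-- `x` is supported on `S`. -/
def Supp (x : ι → F) (S : Finset ι) : Prop := ∀ i, i ∉ S → x i = 0

/-- `x` restricted to `S`. -/
def rst (x : ι → F) (S : Finset ι) : ι → F := fun i => if i ∈ S then x i else 0

/-- `(1 - T X)⁻¹ mu`. -/
noncomputable def kk (T : Matrix (ι × Fin 2) (ι × Fin 2) F) (mu : ι × Fin 2 → F) (x : ι → F) :
    ι × Fin 2 → F := (1 - T * dg x)⁻¹ *ᵥ mu

/-- `nu (1 - X T)⁻¹`. -/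
noncomputable def ll (T : Matrix (ι × Fin 2) (ι × Fin 2) F) (nu : ι × Fin 2 → F) (x : ι → F) :
    ι × Fin 2 → F := nu ᵥ* (1 - dg x * T)⁻¹

/-- Local data: a matrix `T` of `2 × 2` blocks, a vector `mu` and a covector `nu`. -/
structure Inst (F ι : Type*) where
  T : Matrix (ι × Fin 2) (ι × Fin 2) F
  mu : ι × Fin 2 → F
  nu : ι × Fin 2 → F

namespace Inst

variable (I : Inst F ι)

/-- `x` is regular: `1 - T X` is invertible. -/
def Reg (x : ι → F) : Prop := (1 - I.T * dg x).det ≠ 0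

/-- `k(x) = (1 - T X)⁻¹ mu`. -/
noncomputable def k (x : ι → F) : ι × Fin 2 → F := kk I.T I.mu x

/-- `l(x) = nu (1 - X T)⁻¹`. -/
noncomputable def l (x : ι → F) : ι × Fin 2 → F := ll I.T I.nu x

/-- `h(x) = nu X k(x)`. -/
noncomputable def h (x : ι → F) : F := I.nu ⬝ᵥ (dg x *ᵥ I.k x)

/-- The instance seen from the base point `x`. -/
noncomputable def shift (x : ι → F) : Inst F ι := ⟨(1 - I.T * dg x)⁻¹ * I.T, I.k x, I.l x⟩

/-- The transposed instance. -/
def tr : Inst F ι := ⟨I.Tᵀ, I.nu, I.mu⟩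

/-- `tau i j = nu_i T_ij mu_j`. -/
def tau (i j : ι) : F := vec I.nu i ⬝ᵥ (blk I.T i j *ᵥ vec I.mu j)

/-- `S` is odd: `h` vanishes at all regular points supported on `S`. -/
def Odd (S : Finset ι) : Prop := ∀ x, Supp x S → I.Reg x → I.h x = 0

/-- On `S` the direction of `k_i` does not depend on the coordinate `j`. -/
def Indep (i j : ι) (S : Finset ι) : Prop :=
  ∀ x y, Supp x S → Supp y S → (∀ l, l ≠ j → x l = y l) → I.Reg x → I.Reg y →
    par (vec (I.k x) i) (vec (I.k y) i)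

/-- `S` is genuine: if `tau i j = 0` then the direction of `k_i` does not depend on `x_j`. -/
def Gen (S : Finset ι) : Prop := ∀ i ∈ S, ∀ j ∈ S, i ≠ j → I.tau i j = 0 → I.Indep i j S

/-- All `mu_i` and `nu_i`, `i ∈ S`, are nonzero. -/
def NonDeg (S : Finset ι) : Prop := ∀ i ∈ S, vec I.mu i ≠ 0 ∧ vec I.nu i ≠ 0

/-- Locally odd on `D`: nondegenerate, and all subsets with at most five elements are odd and
genuine. -/
def LocOdd (D : Finset ι) : Prop :=
  I.NonDeg D ∧ ∀ S ⊆ D, S.card ≤ 5 → I.Odd S ∧ I.Gen S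

/-- Area data: `nu_i = w_i ar(mu_i, .)` and `w_i ar(T_ii a, a) = - nu_i(a) th_i(a)`. -/
structure IsArea (S : Finset ι) (w : ι → F) (th : ι → Fin 2 → F) : Prop where
  hw : ∀ i ∈ S, ∀ b, vec I.nu i ⬝ᵥ b = w i * ar (vec I.mu i) b
  hth : ∀ i ∈ S, ∀ a, w i * ar (blk I.T i i *ᵥ a) a = -((vec I.nu i ⬝ᵥ a) * (th i ⬝ᵥ a))

/-- The defect form `R_ij(a, b)`, `a` in the plane of `j`, `b` in the plane of `i`. -/
def dfct (w : ι → F) (th : ι → Fin 2 → F) (i j : ι) (a b : Fin 2 → F) : F :=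
  w i * ar (blk I.T i j *ᵥ a) b + w j * ar (blk I.T j i *ᵥ b) a +
    (vec I.nu i ⬝ᵥ b) * (th j ⬝ᵥ a) + (vec I.nu j ⬝ᵥ a) * (th i ⬝ᵥ b)

/-- Data of a path `i - l - j` (see module `PathA`). -/
structure PathD (w : ι → F) (th : ι → Fin 2 → F) (i l j : ι) (phi : Matrix (Fin 2) (Fin 2) F)
    (rho : Fin 2 → F) (c1 c2 c : F) : Prop where
  phi_mu : phi *ᵥ vec I.mu j = vec I.mu i
  phi_det : phi.det ≠ 0
  out : ∀ v, blk I.T i l *ᵥ v = phi *ᵥ (blk I.T j l *ᵥ v) + (vec I.nu l ⬝ᵥ v) • rho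
  pa : ∀ v, blk I.T i j *ᵥ v = phi *ᵥ (blk I.T j j *ᵥ v) + (vec I.nu j ⬝ᵥ v) • rho +
    c1 • (phi *ᵥ v)
  pb : ∀ v, blk I.T i i *ᵥ v = phi *ᵥ (blk I.T j i *ᵥ v) + (vec I.nu i ⬝ᵥ v) • rho - c2 • v
  pd : ∀ a b, I.dfct w th i j a b = c * ar (phi *ᵥ a) b

/-- `V` is a minimal subset that is not odd. -/
structure MinNon (V : Finset ι) : Prop where
  nd : I.NonDeg V
  non : ¬ I.Odd V
  prop : ∀ S ⊂ V, I.Odd S

end Inst

/-- `f` is a rational function near `s0` (in a weak algebraic sense). -/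
def RatAt (s0 : F) (f : F → F) : Prop :=
  ∃ p q : Polynomial F, q.eval s0 ≠ 0 ∧ ∀ s, q.eval s ≠ 0 → q.eval s * f s = p.eval s

/-- A polynomial path in `ι → F`. -/
def Path (x : F → ι → F) : Prop := ∀ i, ∃ p : Polynomial F, ∀ s, x s i = p.eval s

end Pool.Agent.H50.R2
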