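import Pool.Agent.H50.R2.SysComp
import Pool.Agent.H50.R2.SysInd

/-! # Module DirBase: a coordinate outside a component, at the base point (MP_966f71_lc)

`S` good, `D` a component, `mu0` as in `IsVec`, `l ∉ D`, `t e_l` regular, `mu ∈ E`. For `i ∈ D`:
`DInd i {l}` (`dind_set`: `l` is not adjacent to `i`, `IsComp.sep`) between `t e_l` and `0`:
`kk_i(mu, t e_l) = al_i mu0_i`. Claim `al_i = al_j` for adjacent `i ≠ j` in `D`; then `conn`.
Let `nu0` be as in `IsCov` (`exists_cov`); since `Adj i j` and by the multiples in `IsVec`, `IsCov`,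
`tau j i ≠ 0` for `(mu0, nu0)` (`adj_symm`). Let `b = u e_i + v e_j` be regular. (`E0`) for `t e_l`
and `b`, `(mu, nu0)`: `- u al_i (ll_i(b) mu0_i) - v al_j (ll_j(b) mu0_j) + t (ll_l(b) kk_l(mu, t e_l)) = 0`,
and for `0` and `b`, `(mu0, nu0)`: `u (ll_i(b) mu0_i) + v (ll_j(b) mu0_j) = 0`.
The term of `l`: zero if `l` is not active. If `l` is active, `DInd l {l, i, j}` (`dind_set`) gives
`kk_l(mu, t e_l) ∥ kk_l(mu', b)` for `mu' ∈ E` with `mu'_l ≠ 0`, nonzero for generic `b`, and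
`ll_l(b) kk_l(mu', b) = 0` (`own`); so the term is zero for generic `b`. Hence
`u (al_i - al_j) (ll_i(nu0, b) mu0_i) = 0` for generic `b`. Finally `ll_i(nu0, b) mu0_i ≠ 0` for
generic `b`: at `b = v e_j` it is `(nu0_i + v' nu0_j T_ji) mu0_i = v' tau j i`. (Choose `v` first:
`v e_j` regular, `v ≠ 0`, `kk_l(mu', v e_j) ≠ 0`, `ll_i(v e_j) mu0_i ≠ 0`: almost all `v`; the last
because `ll_i(v e_j) = nu0_i + v ll_j(v e_j) T_ji` and `ll_j(v e_j) T_ji mu0_i → tau j i` as `v → 0`;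
then `u` generic along the path `u e_i + v e_j`.) -/

set_option autoImplicit false

namespace Pool.Agent.H50.R2

open Matrix Module Filter

variable {F ι : Type*} [Field F] [Infinite F] [Fintype ι] [DecidableEq ι]

namespace Sys

variable {S : Sys F ι} {D : Finset ι} {mu0 mu : ι × Fin 2 → F} {l : ι} {t : F}

private theorem DirBase_gen {x : F → ι → F} (hx : Path x) (hr : S.Reg (x 0))
    (mu' nu0 : ι × Fin 2 → F) (l i : ι) (w : Fin 2 → F)
    (hk : S.InA l → vec (kk S.T mu' (x 0)) l ≠ 0)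
    (hX : vec (ll S.T nu0 (x 0)) i ⬝ᵥ w ≠ 0) :
    ∃ s : F, s ≠ 0 ∧ S.Reg (x s) ∧ (S.InA l → vec (kk S.T mu' (x s)) l ≠ 0) ∧
      vec (ll S.T nu0 (x s)) i ⬝ᵥ w ≠ 0 := by
  have e1 : ∀ᶠ v : F in cofinite, S.Reg (x v) := ev_det (s0 := (0 : F)) hx hr
  have e2 : ∀ᶠ v : F in cofinite, S.InA l → vec (kk S.T mu' (x v)) l ≠ 0 := by
    by_cases hA : S.InA l
    · obtain ⟨c, hc⟩ := Function.ne_iff.1 (hk hA)
      filter_upwards [RatAt.ne (s0 := (0 : F)) (ratkk mu' hx hr (l, c)) hc] with v hv _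
      exact Function.ne_iff.2 ⟨c, hv⟩
    · exact Filter.Eventually.of_forall fun v hA' => absurd hA' hA
  have e3 : ∀ᶠ v : F in cofinite, vec (ll S.T nu0 (x v)) i ⬝ᵥ w ≠ 0 :=
    RatAt.ne (s0 := (0 : F)) (RatAt.dot (u := fun v => vec (ll S.T nu0 (x v)) i)
      (v := fun _ => w) (fun a => ratll nu0 hx hr (i, a)) (fun a => RatAt.const _)) hX
  have e4 : ∀ᶠ v : F in cofinite, v ≠ 0 := eventually_cofinite_ne 0
  obtain ⟨v, v1, v2, v3, v4⟩ := (e1.and (e2.and (e3.and e4))).exists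
  exact ⟨v, v4, v1, v2, v3⟩

private theorem DirBase_step (h : S.Good) (hD : S.IsComp D) (hm : S.IsVec D mu0) (hl : l ∉ D)
    (ht : S.Reg (Pi.single l t)) (hmu : mu ∈ S.E) {i j : ι} (hi : i ∈ D) (hj : j ∈ D)
    (hij : i ≠ j) (hadj : S.Adj i j) {ai aj : F}
    (hai : vec (kk S.T mu (Pi.single l t)) i = ai • vec mu0 i)
    (haj : vec (kk S.T mu (Pi.single l t)) j = aj • vec mu0 j) : ai = aj := by
  classical
  obtain ⟨nu0, hn⟩ := exists_cov h hD
  have hli : l ≠ i := fun e => hl (e ▸ hi)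
  have hlj : l ≠ j := fun e => hl (e ▸ hj)
  have hk0 : ∀ m : ι × Fin 2 → F, kk S.T m 0 = m := fun m => (Inst.mk S.T m m).k_zero
  have hl0 : ∀ m : ι × Fin 2 → F, ll S.T m 0 = m := fun m => (Inst.mk S.T m m).l_zero
  have hτ : vec nu0 j ⬝ᵥ (blk S.T j i *ᵥ vec mu0 i) ≠ 0 := by
    obtain ⟨mu1, hmu1, nu1, hnu1, h1⟩ := adj_symm hij hadj
    obtain ⟨m, hm1⟩ := hm.all mu1 hmu1
    obtain ⟨m', hm2⟩ := hn.all nu1 hnu1
    intro h0
    apply h1
    show vec nu1 j ⬝ᵥ (blk S.T j i *ᵥ vec mu1 i) = 0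
    rw [hm1 i hi, hm2 j hj, Matrix.mulVec_smul, dotProduct_smul, smul_dotProduct, h0,
      smul_zero, smul_zero]
  obtain ⟨mu', hmu', hmul⟩ : ∃ mu' ∈ S.E, S.InA l → vec mu' l ≠ 0 := by
    by_cases hA : S.InA l
    · obtain ⟨mu', h1, h2⟩ := h.mu l hA
      exact ⟨mu', h1, fun _ => h2⟩
    · exact ⟨0, S.E.zero_mem, fun h => absurd h hA⟩
  have hown0 : vec nu0 i ⬝ᵥ vec mu0 i = 0 := by
    have h1 := own (i := i) hm.mem hn.mem S.reg_zero S.reg_zero (fun _ _ => rfl)
    rwa [hk0, hl0] at h1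
  -- choice of `v`
  have hv : ∃ v : F, v ≠ 0 ∧ S.Reg (Pi.single j v) ∧
      (S.InA l → vec (kk S.T mu' (Pi.single j v)) l ≠ 0) ∧
      vec (ll S.T nu0 (Pi.single j v)) i ⬝ᵥ vec mu0 i ≠ 0 := by
    obtain ⟨v, v4, v1, v2, v3⟩ := DirBase_gen (S := S)
      (x := fun s : F => (Pi.single j s : ι → F)) (Path.single j)
      (by rw [Pi.single_zero]; exact S.reg_zero) mu' nu0 l j (blk S.T j i *ᵥ vec mu0 i)
      (by rw [Pi.single_zero, hk0]; exact hmul) (by rw [Pi.single_zero, hl0]; exact hτ)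
    refine ⟨v, v4, v1, v2, ?_⟩
    have hsu : Supp (Pi.single j v : ι → F) {j} := by
      intro m hm
      rw [Pi.single_eq_of_ne (fun e => hm (Finset.mem_singleton.2 e))]
    have h1 := (Inst.mk S.T mu0 nu0).l_eq_on (x := Pi.single j v) (S := {j}) v1 hsu i
    have h2 : vec (ll S.T nu0 (Pi.single j v)) i = vec nu0 i +
        v • (vec (ll S.T nu0 (Pi.single j v)) j ᵥ* blk S.T j i) := by
      rw [Finset.sum_singleton, Pi.single_eq_same] at h1
      exact h1
    rw [h2, add_dotProduct, hown0, zero_add, smul_dotProduct, ← Matrix.dotProduct_mulVec]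
    exact mul_ne_zero v4 v3
  obtain ⟨v, hv0, hvr, hvk, hvX⟩ := hv
  -- choice of `u`
  have ez : (Pi.single i (0 : F) : ι → F) + Pi.single j v = Pi.single j v := by
    rw [Pi.single_zero, zero_add]
  have hu := DirBase_gen (S := S) (x := fun s : F => (Pi.single i s : ι → F) + Pi.single j v)
      ((Path.single i).add (Path.const _)) (by rw [ez]; exact hvr) mu' nu0 l i (vec mu0 i)
      (by rw [ez]; exact hvk) (by rw [ez]; exact hvX)
  obtain ⟨u, hu0, hbr, hbk, hbX⟩ := hu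
  set b : ι → F := Pi.single i u + Pi.single j v with hb
  have hbi : b i = u := by
    rw [hb, Pi.add_apply, Pi.single_eq_same, Pi.single_eq_of_ne hij, add_zero]
  have hbj : b j = v := by
    rw [hb, Pi.add_apply, Pi.single_eq_same, Pi.single_eq_of_ne (Ne.symm hij), zero_add]
  have hbm : ∀ m, m ≠ i → m ≠ j → b m = 0 := by
    intro m h1 h2
    rw [hb, Pi.add_apply, Pi.single_eq_of_ne h1, Pi.single_eq_of_ne h2, add_zero]
  -- the term of `l`
  have hterm : vec (ll S.T nu0 b) l ⬝ᵥ vec (kk S.T mu (Pi.single l t)) l = 0 := by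
    by_cases hA : S.InA l
    · have hd : S.DInd l {l, i, j} := by
        refine dind_set h hA ?_
        intro m hmR hml _
        rcases Finset.mem_insert.1 hmR with rfl | hmR
        · exact absurd rfl hml
        · rcases Finset.mem_insert.1 hmR with rfl | hmR
          · exact (hD.sep m hi l hl).2
          · rw [Finset.mem_singleton.1 hmR]
            exact (hD.sep j hj l hl).2
      have h1 := hd mu hmu mu' hmu' (Pi.single l t) b ht hbr (by
        intro m hmR
        have h2 : m ≠ l := fun e => hmR (by rw [e]; exact Finset.mem_insert_self _ _)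
        have h3 : m ≠ i := fun e => hmR (by
          rw [e]; exact Finset.mem_insert_of_mem (Finset.mem_insert_self _ _))
        have h4 : m ≠ j := fun e => hmR (by
          rw [e]
          exact Finset.mem_insert_of_mem (Finset.mem_insert_of_mem (Finset.mem_singleton_self _)))
        rw [hbm m h3 h4, Pi.single_eq_of_ne h2])
      obtain ⟨c, hc⟩ := exists_smul_of_par (hbk hA) (par_symm h1)
      rw [hc, dotProduct_smul, own (i := l) hmu' hn.mem hbr hbr (fun _ _ => rfl), smul_zero]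
    · by_contra hne
      exact hA ⟨mu, hmu, nu0, hn.mem, b, Pi.single l t, hbr, ht, hne⟩
  have E1 := E0 hmu hn.mem ht hbr
  have E2 := E0 hm.mem hn.mem S.reg_zero hbr
  have hsum : ∀ f : ι → F, (∀ m, m ≠ l → m ≠ i → m ≠ j → f m = 0) →
      ∑ m, f m = f l + (f i + f j) := by
    intro f hf
    rw [← Finset.sum_subset (Finset.subset_univ ({l, i, j} : Finset ι))]
    · rw [Finset.sum_insert (by simp [hli, hlj]), Finset.sum_insert (by simp [hij]),
        Finset.sum_singleton]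
    · intro m _ hm'
      simp only [Finset.mem_insert, Finset.mem_singleton, not_or] at hm'
      exact hf m hm'.1 hm'.2.1 hm'.2.2
  rw [hsum _ (by
    intro m h1 h2 h3
    rw [hbm m h2 h3, Pi.single_eq_of_ne h1, sub_zero, zero_mul])] at E1
  rw [hsum _ (by
    intro m h1 h2 h3
    rw [hbm m h2 h3, Pi.zero_apply, sub_zero, zero_mul])] at E2
  rw [hterm, mul_zero, zero_add, Pi.single_eq_of_ne (Ne.symm hli), Pi.single_eq_of_ne
    (Ne.symm hlj), hbi, hbj, hai, haj, dotProduct_smul, dotProduct_smul, smul_eq_mul,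
    smul_eq_mul] at E1
  rw [hbm l hli hlj, Pi.zero_apply, sub_self, zero_mul, zero_add, Pi.zero_apply, Pi.zero_apply,
    hbi, hbj, hk0] at E2
  have E3 : u * (ai - aj) * (vec (ll S.T nu0 b) i ⬝ᵥ vec mu0 i) = 0 := by
    linear_combination -E1 + aj * E2
  have h1 := (mul_eq_zero.1 E3).resolve_right hbX
  exact sub_eq_zero.1 ((mul_eq_zero.1 h1).resolve_left hu0)

theorem dir_base (h : S.Good) (hD : S.IsComp D) (hm : S.IsVec D mu0) (hl : l ∉ D)
    (ht : S.Reg (Pi.single l t)) (hmu : mu ∈ S.E) :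
    ∃ al : F, ∀ i ∈ D, vec (kk S.T mu (Pi.single l t)) i = al • vec mu0 i := by
  classical
  have key : ∀ i ∈ D, ∃ al : F, vec (kk S.T mu (Pi.single l t)) i = al • vec mu0 i := by
    intro i hi
    have hli : l ≠ i := fun e => hl (e ▸ hi)
    have hd : S.DInd i {l} := by
      refine dind_set h (hD.inA i hi) ?_
      intro m hmR _ _
      rw [Finset.mem_singleton.1 hmR]
      exact (hD.sep i hi l hl).1
    have h1 := hd mu hmu mu0 hm.mem (Pi.single l t) 0 ht S.reg_zero (by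
      intro m hmR
      rw [Pi.zero_apply, Pi.single_eq_of_ne (fun e => hmR (Finset.mem_singleton.2 e))])
    have hk0 : kk S.T mu0 0 = mu0 := (Inst.mk S.T mu0 mu0).k_zero
    rw [hk0] at h1
    exact exists_smul_of_par (hm.ne i hi) (par_symm h1)
  obtain ⟨i0, hi0⟩ := hD.ne
  obtain ⟨al, hal⟩ := key i0 hi0
  refine ⟨al, hD.conn (fun i => vec (kk S.T mu (Pi.single l t)) i = al • vec mu0 i)
    ⟨i0, hi0, hal⟩ ?_⟩
  intro a ha b hb hab hadj hpa
  obtain ⟨be, hbe⟩ := key b hb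
  have h1 := DirBase_step h hD hm hl ht hmu ha hb hab hadj hpa hbe
  rw [h1]
  exact hbe

end Sys

end Pool.Agent.H50.R2
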