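import Pool.Agent.H50.R2.DirBase

/-! # Module DirD: the direction of `kk` on a component depends only on the coordinates in it

(MP_966f71_lc.) `DD D a b`: for all `mu, mu' ∈ E` the restrictions to `D × Fin 2` of `kk mu a` and
`kk mu' b` are parallel (all `2 × 2` minors vanish).
* `dd_one`: `a, b` regular, agree off `l ∉ D`. For almost all `s` the system `S' = S.shift (s • b)`
  is good (`Good.ev`) and `D` is a component of it (`IsComp.shift`); let `mu1` be as in `IsVec` for
  `S'`. `s • a = s • b + Pi.single l t`. By `dir_base` for `S'` and `kk_shift`,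
  `kk(mu, s • a) = al mu1` on `D`, and `kk(mu', s • b) ∈ S'.E` is `m mu1` on `D`. So the minors vanish
  for `s • a, s • b`; close with `RatAt.zero` at `s = 1`. (With `t = 0` this also covers `a = b`.)
* `dd_set`: induction on the finset `R` (disjoint from `D`) of coordinates where `a, b` may
  differ; intermediate point `c` (equal to `b` on the new coordinate, to `a` elsewhere); path
  `s • a, s • c, s • b`, and `kk(mu0, s • c)` is nonzero at some `(i, e)`, `i ∈ D`, for almost all
  `s` (`mu0 ∈ E` with `mu0_i ≠ 0`, `i ∈ D`); parallelism is transitive through a nonzero vector.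
  If there is no coordinate outside `D` at all use `a = b` : `S' = S.shift (s • a)` and `IsVec`.
* `dd`: `R = univ \ D`. -/

set_option autoImplicit false

namespace Pool.Agent.H50.R2

open Matrix Module Filter

variable {F ι : Type*} [Field F] [Infinite F] [Fintype ι] [DecidableEq ι]

namespace Sys

variable {S : Sys F ι} {D : Finset ι} {mu mu' : ι × Fin 2 → F} {a b : ι → F}

/-- Vanishing minors along a path close up at `s = 1`. -/
private theorem dirD_close (ha : S.Reg a) (hb : S.Reg b) (p q : ι × Fin 2)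
    (H : ∀ᶠ s : F in cofinite, kk S.T mu (s • a) p * kk S.T mu' (s • b) q =
      kk S.T mu (s • a) q * kk S.T mu' (s • b) p) :
    kk S.T mu a p * kk S.T mu' b q = kk S.T mu a q * kk S.T mu' b p := by
  have ra : (1 - S.T * dg ((fun s : F => s • a) 1)).det ≠ 0 := by
    simp only [one_smul]
    exact ha
  have rb : (1 - S.T * dg ((fun s : F => s • b) 1)).det ≠ 0 := by
    simp only [one_smul]
    exact hb
  have h1 : RatAt (1 : F) (fun s => kk S.T mu (s • a) p * kk S.T mu' (s • b) q -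
      kk S.T mu (s • a) q * kk S.T mu' (s • b) p) :=
    ((ratkk mu (Path.smul a) ra p).mul (ratkk mu' (Path.smul b) rb q)).sub
      ((ratkk mu (Path.smul a) ra q).mul (ratkk mu' (Path.smul b) rb p))
  have h2 := RatAt.zero h1 (by
    filter_upwards [H] with s hs
    rw [hs, sub_self])
  simp only [one_smul] at h2
  exact sub_eq_zero.mp h2

omit [Infinite F] [Fintype ι] [DecidableEq ι] in
/-- Vectors that are multiples of one vector on `D` have vanishing minors. -/
private theorem dirD_minor {v w u : ι × Fin 2 → F} {al m : F} {p q : ι × Fin 2}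
    (hv : ∀ i ∈ D, vec v i = al • vec u i) (hw : ∀ i ∈ D, vec w i = m • vec u i)
    (hp : p.1 ∈ D) (hq : q.1 ∈ D) : v p * w q = v q * w p := by
  have e1 : ∀ r : ι × Fin 2, r.1 ∈ D → v r = al * u r := fun r hr => congrFun (hv r.1 hr) r.2
  have e2 : ∀ r : ι × Fin 2, r.1 ∈ D → w r = m * u r := fun r hr => congrFun (hw r.1 hr) r.2
  rw [e1 p hp, e1 q hq, e2 p hp, e2 q hq]
  ring

private theorem dirD_same (h : S.Good) (hD : S.IsComp D) (ha : S.Reg a)
    (hmu : mu ∈ S.E) (hmu' : mu' ∈ S.E) {p q : ι × Fin 2} (hp : p.1 ∈ D) (hq : q.1 ∈ D) :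
    kk S.T mu a p * kk S.T mu' a q = kk S.T mu a q * kk S.T mu' a p := by
  refine dirD_close ha ha p q ?_
  filter_upwards [h.ev a] with s hs
  obtain ⟨hs, hg⟩ := hs
  obtain ⟨mu1, hm1⟩ := exists_vec hg (IsComp.shift h hs hg hD)
  obtain ⟨al, hal⟩ := hm1.all _ (S.mem_E_shift hs hmu)
  obtain ⟨m, hm⟩ := hm1.all _ (S.mem_E_shift hs hmu')
  exact dirD_minor hal hm hp hq

private theorem dirD_one (h : S.Good) (hD : S.IsComp D) (ha : S.Reg a) (hb : S.Reg b) {l : ι}
    (hl : l ∉ D) (hab : ∀ i, i ≠ l → a i = b i) (hmu : mu ∈ S.E) (hmu' : mu' ∈ S.E)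
    {p q : ι × Fin 2} (hp : p.1 ∈ D) (hq : q.1 ∈ D) :
    kk S.T mu a p * kk S.T mu' b q = kk S.T mu a q * kk S.T mu' b p := by
  refine dirD_close ha hb p q ?_
  have hra : ∀ᶠ s : F in cofinite, S.Reg (s • a) :=
    ev_det (s0 := (1 : F)) (Path.smul a) (by simp only [one_smul]; exact ha)
  filter_upwards [h.ev b, hra] with s hs hsa
  obtain ⟨hs, hg⟩ := hs
  have hD' := IsComp.shift h hs hg hD
  obtain ⟨mu1, hm1⟩ := exists_vec hg hD'
  have e1 : s • b + Pi.single l (s * (a l - b l)) = s • a := by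
    funext i
    by_cases hi : i = l
    · subst hi
      simp only [Pi.add_apply, Pi.smul_apply, smul_eq_mul, Pi.single_eq_same]
      ring
    · simp only [Pi.add_apply, Pi.smul_apply, smul_eq_mul, Pi.single_apply, hi, if_false,
        add_zero]
      rw [hab i hi]
  have hr : (S.shift (s • b) hs).Reg (Pi.single l (s * (a l - b l))) := by
    rw [S.reg_shift hs, e1]
    exact hsa
  obtain ⟨al, hal⟩ := dir_base hg hD' hm1 hl hr (S.mem_E_shift hs hmu)
  rw [S.kk_shift hs mu hr, e1] at hal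
  obtain ⟨m, hm⟩ := hm1.all _ (S.mem_E_shift hs hmu')
  exact dirD_minor hal hm hp hq

private theorem dirD_set (h : S.Good) (hD : S.IsComp D) (R : Finset ι) :
    (∀ l ∈ R, l ∉ D) → ∀ a b : ι → F, S.Reg a → S.Reg b → (∀ i, i ∉ R → a i = b i) →
      ∀ mu ∈ S.E, ∀ mu' ∈ S.E, ∀ p q : ι × Fin 2, p.1 ∈ D → q.1 ∈ D →
      kk S.T mu a p * kk S.T mu' b q = kk S.T mu a q * kk S.T mu' b p := by
  classical
  induction R using Finset.induction_on with
  | empty =>
    intro _ a b ha hb hab mu hmu mu' hmu' p q hp hq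
    have e : a = b := funext fun i => hab i (Finset.notMem_empty i)
    subst e
    exact dirD_same h hD ha hmu hmu' hp hq
  | insert l R hlR ih =>
    intro hR a b ha hb hab mu hmu mu' hmu' p q hp hq
    have hl : l ∉ D := hR l (Finset.mem_insert_self l R)
    have hR' : ∀ l' ∈ R, l' ∉ D := fun l' hl' => hR l' (Finset.mem_insert_of_mem hl')
    obtain ⟨i0, hi0⟩ := hD.ne
    obtain ⟨mu0, hmu0, hne0⟩ := h.mu i0 (hD.inA i0 hi0)
    obtain ⟨e0, he0⟩ := Function.ne_iff.1 hne0
    set c : ι → F := fun i => if i = l then b i else a i with hc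
    refine dirD_close ha hb p q ?_
    have hra : ∀ᶠ s : F in cofinite, S.Reg (s • a) :=
      ev_det (s0 := (1 : F)) (Path.smul a) (by simp only [one_smul]; exact ha)
    have hrb : ∀ᶠ s : F in cofinite, S.Reg (s • b) :=
      ev_det (s0 := (1 : F)) (Path.smul b) (by simp only [one_smul]; exact hb)
    have hr0 : S.Reg ((0 : F) • c) := by rw [zero_smul]; exact S.reg_zero
    have hrc : ∀ᶠ s : F in cofinite, S.Reg (s • c) := ev_det (s0 := (0 : F)) (Path.smul c) hr0
    have hk : ∀ᶠ s : F in cofinite, kk S.T mu0 (s • c) (i0, e0) ≠ 0 := by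
      refine RatAt.ne (ratkk mu0 (Path.smul c) hr0 (i0, e0)) ?_
      have e1 : kk S.T mu0 ((0 : F) • c) = mu0 := by
        rw [zero_smul]
        exact (Inst.mk S.T mu0 mu0).k_zero
      simp only [e1]
      exact he0
    filter_upwards [hra, hrb, hrc, hk] with s sa sb sc sk
    have h1 : ∀ i, i ≠ l → (s • a) i = (s • c) i := by
      intro i hi
      simp only [Pi.smul_apply, hc, if_neg hi]
    have h2 : ∀ i, i ∉ R → (s • c) i = (s • b) i := by
      intro i hi
      simp only [Pi.smul_apply, hc]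
      by_cases hil : i = l
      · rw [if_pos hil]
      · rw [if_neg hil, hab i (fun h3 => (Finset.mem_insert.1 h3).elim hil hi)]
    have A : ∀ r1 r2 : ι × Fin 2, r1.1 ∈ D → r2.1 ∈ D →
        kk S.T mu (s • a) r1 * kk S.T mu0 (s • c) r2 =
        kk S.T mu (s • a) r2 * kk S.T mu0 (s • c) r1 := fun r1 r2 hr1 hr2 =>
      dirD_one h hD sa sc hl h1 hmu hmu0 hr1 hr2
    have B : ∀ r1 r2 : ι × Fin 2, r1.1 ∈ D → r2.1 ∈ D →
        kk S.T mu0 (s • c) r1 * kk S.T mu' (s • b) r2 =
        kk S.T mu0 (s • c) r2 * kk S.T mu' (s • b) r1 := fun r1 r2 hr1 hr2 =>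
      ih hR' (s • c) (s • b) sc sb h2 mu0 hmu0 mu' hmu' r1 r2 hr1 hr2
    have hr : ((i0, e0) : ι × Fin 2).1 ∈ D := hi0
    have A1 := A p (i0, e0) hp hr
    have A2 := A q (i0, e0) hq hr
    have B1 := B (i0, e0) q hr hq
    have B2 := B (i0, e0) p hr hp
    refine mul_right_cancel₀ (mul_ne_zero sk sk) ?_
    calc kk S.T mu (s • a) p * kk S.T mu' (s • b) q *
          (kk S.T mu0 (s • c) (i0, e0) * kk S.T mu0 (s • c) (i0, e0)) =
          (kk S.T mu (s • a) p * kk S.T mu0 (s • c) (i0, e0)) *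
          (kk S.T mu0 (s • c) (i0, e0) * kk S.T mu' (s • b) q) := by ring
      _ = (kk S.T mu (s • a) q * kk S.T mu0 (s • c) (i0, e0)) *
          (kk S.T mu0 (s • c) (i0, e0) * kk S.T mu' (s • b) p) := by
        rw [A1, B1, A2, B2]
        ring
      _ = kk S.T mu (s • a) q * kk S.T mu' (s • b) p *
          (kk S.T mu0 (s • c) (i0, e0) * kk S.T mu0 (s • c) (i0, e0)) := by ring

theorem dd (h : S.Good) (hD : S.IsComp D) (ha : S.Reg a) (hb : S.Reg b)
    (hab : ∀ i ∈ D, a i = b i) (hmu : mu ∈ S.E) (hmu' : mu' ∈ S.E) {p q : ι × Fin 2}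
    (hp : p.1 ∈ D) (hq : q.1 ∈ D) :
    kk S.T mu a p * kk S.T mu' b q = kk S.T mu a q * kk S.T mu' b p := by
  refine dirD_set h hD (Finset.univ \ D) (fun l hl => (Finset.mem_sdiff.1 hl).2) a b ha hb
    (fun i hi => hab i ?_) mu hmu mu' hmu' p q hp hq
  by_contra h1
  exact hi (Finset.mem_sdiff.2 ⟨Finset.mem_univ i, h1⟩)

end Sys

end Pool.Agent.H50.R2
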