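import Pool.Agent.H50.R2.Shift

/-! # Module GInv: from a matrix to a system (MP_966f71_lc)

`B` with a generalised inverse `G`, `T = - Q G P`, and `beta` with `B beta = 0`:
`kx = kk T (Q beta) x`, `yx = beta - G P X kx`.
* `exists_ginv`: `B = 0` on a complement... choose a complement `C` of `ker B` and a left inverse of
  `B` on it: any `G` with `B G B = B` (linear maps over a field: `LinearMap.exists_leftInverse...`,
  or `Matrix.toLin'`, quotient by the kernel).
* `Q_y`: `Q yx = Q beta - Q G P X kx = Q beta + T X kx = kx` (`kk_eq`).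
* `M_y`: let `M = B + P X Q`. First, every `v` with `M v = 0` is `yx` for `beta = v - G B v`
  (`B beta = 0`; `B v = - P X Q v`, so `v = beta - G P X Q v`, `Q v = Q beta + T X Q v`, so
  `Q v = kx` by `kk_unique`). So `ker M` is contained in the image of `ker B` under the linear map
  `beta ↦ yx`; `dim ker M ≥ dim ker B` as `rank M ≤ rank B`; the image has dimension at most
  `dim ker B`; so it equals `ker M`. -/

set_option autoImplicit false

namespace Pool.Agent.H50.R2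

open Matrix Module

variable {F ι N K : Type*} [Field F] [Fintype ι] [DecidableEq ι] [Fintype N] [Fintype K]
  [DecidableEq K] [DecidableEq N]

/-- `beta - G P X kx`. -/
noncomputable def yy (G : Matrix K N F) (P : Matrix N (ι × Fin 2) F) (Q : Matrix (ι × Fin 2) K F)
    (beta : K → F) (x : ι → F) : K → F :=
  beta - G *ᵥ (P *ᵥ (dg x *ᵥ kk (-(Q * G * P)) (Q *ᵥ beta) x))

theorem exists_ginv (B : Matrix N K F) : ∃ G : Matrix K N F, B * G * B = B := by
  obtain ⟨g, hg⟩ := LinearMap.exists_rightInverse_of_surjective B.mulVecLin.rangeRestrict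
    (LinearMap.range_rangeRestrict B.mulVecLin)
  obtain ⟨p, hp⟩ := LinearMap.exists_leftInverse_of_injective
    (LinearMap.range B.mulVecLin).subtype (Submodule.ker_subtype _)
  refine ⟨LinearMap.toMatrix' (g ∘ₗ p), ?_⟩
  apply Matrix.toLin'.injective
  apply LinearMap.ext
  intro v
  rw [Matrix.toLin'_apply, Matrix.toLin'_apply, ← Matrix.mulVec_mulVec, ← Matrix.mulVec_mulVec,
    ← Matrix.toLin'_apply (LinearMap.toMatrix' (g ∘ₗ p)), Matrix.toLin'_toMatrix',
    LinearMap.comp_apply]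
  have h1 : p (B *ᵥ v) = ⟨B *ᵥ v, ⟨v, rfl⟩⟩ :=
    congrArg (fun f => f ⟨B *ᵥ v, ⟨v, rfl⟩⟩) hp
  rw [h1]
  have h2 : B.mulVecLin.rangeRestrict (g ⟨B *ᵥ v, ⟨v, rfl⟩⟩) = ⟨B *ᵥ v, ⟨v, rfl⟩⟩ :=
    congrArg (fun f => f ⟨B *ᵥ v, ⟨v, rfl⟩⟩) hg
  exact congrArg Subtype.val h2

variable {B : Matrix N K F} {P : Matrix N (ι × Fin 2) F} {Q : Matrix (ι × Fin 2) K F}
  {G : Matrix K N F} {beta : K → F} {x : ι → F}

theorem Q_yy (hx : (1 - -(Q * G * P) * dg x).det ≠ 0) :
    Q *ᵥ yy G P Q beta x = kk (-(Q * G * P)) (Q *ᵥ beta) x := by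
  have e := kk_eq (mu := Q *ᵥ beta) hx
  rw [yy, Matrix.mulVec_sub, Matrix.mulVec_mulVec, Matrix.mulVec_mulVec]
  conv_rhs => rw [e]
  rw [Matrix.neg_mulVec, ← sub_eq_add_neg]

private theorem GInv_lin (G : Matrix K N F) (P : Matrix N (ι × Fin 2) F)
    (Q : Matrix (ι × Fin 2) K F) (beta : K → F) (x : ι → F) :
    yy G P Q beta x =
      (1 - G * P * dg x * (1 - -(Q * G * P) * dg x)⁻¹ * Q) *ᵥ beta := by
  rw [yy, kk, Matrix.sub_mulVec, Matrix.one_mulVec]
  simp only [Matrix.mulVec_mulVec, Matrix.mul_assoc]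

theorem M_yy (hG : B * G * B = B) (hmax : ∀ x : ι → F, (B + P * dg x * Q).rank ≤ B.rank)
    (hx : (1 - -(Q * G * P) * dg x).det ≠ 0) (hb : B *ᵥ beta = 0) :
    B *ᵥ yy G P Q beta x +
      P *ᵥ (dg x *ᵥ kk (-(Q * G * P)) (Q *ᵥ beta) x) = 0 := by
  set M : Matrix N K F := B + P * dg x * Q with hM
  set L : Matrix K K F := 1 - G * P * dg x * (1 - -(Q * G * P) * dg x)⁻¹ * Q with hL
  have hMv : ∀ v : K → F, M *ᵥ v = B *ᵥ v + P *ᵥ (dg x *ᵥ (Q *ᵥ v)) := by
    intro v
    rw [hM, Matrix.add_mulVec]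
    simp only [Matrix.mulVec_mulVec, Matrix.mul_assoc]
  have hker : LinearMap.ker M.mulVecLin ≤ (LinearMap.ker B.mulVecLin).map L.mulVecLin := by
    intro v hv
    rw [LinearMap.mem_ker, Matrix.mulVecLin_apply, hMv] at hv
    have hBv : B *ᵥ v = -(P *ᵥ (dg x *ᵥ (Q *ᵥ v))) := eq_neg_of_add_eq_zero_left hv
    refine ⟨v - G *ᵥ (B *ᵥ v), ?_, ?_⟩
    · show B *ᵥ (v - G *ᵥ (B *ᵥ v)) = 0
      rw [Matrix.mulVec_sub, Matrix.mulVec_mulVec, Matrix.mulVec_mulVec, hG, sub_self]
    · rw [Matrix.mulVecLin_apply, hL, ← GInv_lin]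
      have hQ : Q *ᵥ v = kk (-(Q * G * P)) (Q *ᵥ (v - G *ᵥ (B *ᵥ v))) x := by
        apply kk_unique hx
        rw [hBv, Matrix.mulVec_neg, sub_neg_eq_add, Matrix.mulVec_add, Matrix.neg_mulVec]
        simp only [Matrix.mulVec_mulVec, Matrix.mul_assoc]
        rw [add_neg_cancel_right]
      rw [yy, ← hQ, hBv, Matrix.mulVec_neg, sub_neg_eq_add, add_sub_cancel_right]
  have hle : finrank F ((LinearMap.ker B.mulVecLin).map L.mulVecLin) ≤
      finrank F (LinearMap.ker M.mulVecLin) := by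
    have h1 := Submodule.finrank_map_le L.mulVecLin (LinearMap.ker B.mulVecLin)
    have h2 := LinearMap.finrank_range_add_finrank_ker B.mulVecLin
    have h3 := LinearMap.finrank_range_add_finrank_ker M.mulVecLin
    have h4 : finrank F (LinearMap.range M.mulVecLin) ≤ finrank F (LinearMap.range B.mulVecLin) :=
      hmax x
    omega
  have heq := Submodule.eq_of_le_of_finrank_le hker hle
  have hmem : yy G P Q beta x ∈ LinearMap.ker M.mulVecLin := by
    rw [heq]
    refine ⟨beta, hb, ?_⟩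
    rw [Matrix.mulVecLin_apply, hL, ← GInv_lin]
  have hz : M *ᵥ yy G P Q beta x = 0 := hmem
  rw [hMv, Q_yy hx] at hz
  exact hz

end Pool.Agent.H50.R2
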