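import Pool.Agent.H50.R2.IsoEdge
import Pool.Agent.H50.R2.IndepSet

/-! # Module Iso: an isolated index of an odd 4-set (MP_966f71_lc)

`S = {j, a, b, c}` odd, its 3-subsets genuine, `j` adjacent to none of `a, b, c`. For `u ∈ S` the
covector `nu_j T_ju` kills `mu_u` (`u = j`: `single_tau`), so it is `s_ju • nu_u` (`exists_covec`).
With `e_u = nu_u k_u(x)`: `e_j = s_jj x_j e_j + s_ja x_a e_a + s_jb x_b e_b + s_jc x_c e_c` and
`x_j e_j + x_a e_a + x_b e_b + x_c e_c = h x = 0`.
* At least two edges among `a, b, c`: by `edge_eq` (`tau` is antisymmetric up to sign by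
  `tau_anti`) `s_ja = s_jb = s_jc = s`, so `e_j (1 - (s_jj - s) x_j) = 0`.
* Exactly one edge, say `a ~ b`: `s_ja = s_jb = s` and, `c` being isolated as well,
  `s_ca = s_cb = r`: `e_j (1 - (s_jj - s) x_j) = (s_jc - s) x_c e_c`,
  `e_c (1 - (s_cc - r) x_c) = (s_cj - r) x_j e_j`, so `e_j` times
  `(1 - (s_jj - s) x_j)(1 - (s_cc - r) x_c) - (s_jc - s)(s_cj - r) x_j x_c` is zero.
* No edge: `indepSet`.
In the first two cases replace `x` by `s • x`: the factor is a polynomial in `s` with value 1 at 0,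
so `e_j(s • x) = 0` for almost all `s`, and `RatAt.zero` at `s = 1`. -/

set_option autoImplicit false

namespace Pool.Agent.H50.R2

open Matrix Filter

variable {F ι : Type*} [Field F] [Infinite F] [Fintype ι] [DecidableEq ι]

namespace Inst

variable {I : Inst F ι} {j a b c : ι}

omit [Fintype ι] in
private theorem iso_e1 (j a b c : ι) : ({j, a, b, c} : Finset ι) = {j, b, c, a} := by
  ext v
  simp only [Finset.mem_insert, Finset.mem_singleton]
  tauto

omit [Fintype ι] in
private theorem iso_e2 (j a b c : ι) : ({j, a, b, c} : Finset ι) = {j, a, c, b} := by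
  ext v
  simp only [Finset.mem_insert, Finset.mem_singleton]
  tauto

omit [Fintype ι] in
private theorem iso_e3 (a b c : ι) : ({a, b, c} : Finset ι) = {b, a, c} := by
  ext v
  simp only [Finset.mem_insert, Finset.mem_singleton]
  tauto

omit [Fintype ι] in
private theorem iso_e4 (a b c : ι) : ({a, b, c} : Finset ι) = {c, a, b} := by
  ext v
  simp only [Finset.mem_insert, Finset.mem_singleton]
  tauto

omit [Fintype ι] in
private theorem iso_s1 (j a b c : ι) : ({j, a, b} : Finset ι) ⊆ {j, a, b, c} := by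
  intro v hv
  simp only [Finset.mem_insert, Finset.mem_singleton] at hv ⊢
  tauto

omit [Fintype ι] in
private theorem iso_s2 (j a b c : ι) : ({j, a, c} : Finset ι) ⊆ {j, a, b, c} := by
  intro v hv
  simp only [Finset.mem_insert, Finset.mem_singleton] at hv ⊢
  tauto

omit [Fintype ι] in
private theorem iso_s3 (j a b c : ι) : ({j, b, c} : Finset ι) ⊆ {j, a, b, c} := by
  intro v hv
  simp only [Finset.mem_insert, Finset.mem_singleton] at hv ⊢
  tauto

omit [Fintype ι] in
private theorem iso_s4 (j a b c : ι) : ({c, a, b} : Finset ι) ⊆ {j, a, b, c} := by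
  intro v hv
  simp only [Finset.mem_insert, Finset.mem_singleton] at hv ⊢
  tauto

omit [Fintype ι] in
private theorem iso_s5 (j a b c : ι) : ({c, j} : Finset ι) ⊆ {j, a, b, c} := by
  intro v hv
  simp only [Finset.mem_insert, Finset.mem_singleton] at hv ⊢
  tauto

private theorem iso_close {x : ι → F} (hx : I.Reg x) (p : Polynomial F) (hp : p.eval 0 ≠ 0)
    (H : ∀ s : F, I.Reg (s • x) → (vec I.nu j ⬝ᵥ vec (I.k (s • x)) j) * p.eval s = 0) :
    vec I.nu j ⬝ᵥ vec (I.k x) j = 0 := by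
  have hx1 : I.Reg ((1 : F) • x) := by rwa [one_smul]
  have h1 := I.evReg (Path.smul x) hx1
  have h2 := (RatAt.poly (s0 := (0 : F)) p).ne hp
  have hrat : RatAt (1 : F) (fun s : F => vec I.nu j ⬝ᵥ vec (I.k (s • x)) j) :=
    RatAt.dot (fun _ => RatAt.const _) (fun i => I.ratK (Path.smul x) hx1 (j, i))
  have h3 := hrat.zero (by
    filter_upwards [h1, h2] with s hs hs2
    exact (mul_eq_zero.mp (H s hs)).resolve_right hs2)
  simpa using h3

omit [Infinite F] [Fintype ι] [DecidableEq ι] in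
private theorem iso_smul {x : ι → F} {S : Finset ι} (h : Supp x S) (s : F) :
    Supp (s • x) S := fun i hi => by rw [Pi.smul_apply, h i hi, smul_zero]

private theorem iso_covec {u v : ι} (hmu : vec I.mu v ≠ 0) (hnu : vec I.nu v ≠ 0)
    (ho : I.Odd {v}) (ht : I.tau u v = 0) :
    ∃ s : F, ∀ w, vec I.nu u ⬝ᵥ (blk I.T u v *ᵥ w) = s * (vec I.nu v ⬝ᵥ w) := by
  obtain ⟨s, hs⟩ := exists_covec hmu hnu (single_dot ho) (c := vec I.nu u ᵥ* blk I.T u v) (by
    rw [← Matrix.dotProduct_mulVec]; exact ht)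
  refine ⟨s, fun w => ?_⟩
  rw [Matrix.dotProduct_mulVec, hs, smul_dotProduct, smul_eq_mul]

private theorem iso_covecs {S : Finset ι} {u : ι} (hnd : I.NonDeg S)
    (ho : ∀ v ∈ S, I.Odd {v}) (ht : ∀ v ∈ S, I.tau u v = 0) :
    ∃ s : ι → F, ∀ v ∈ S, ∀ w, vec I.nu u ⬝ᵥ (blk I.T u v *ᵥ w) = s v * (vec I.nu v ⬝ᵥ w) := by
  have h := fun v (hv : v ∈ S) => iso_covec (hnd v hv).1 (hnd v hv).2 (ho v hv) (ht v hv)
  choose! s hs using h
  exact ⟨s, hs⟩

private theorem iso_exp {S : Finset ι} {u : ι} (hu : I.Odd {u}) {s : ι → F}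
    (hs : ∀ v ∈ S, ∀ w, vec I.nu u ⬝ᵥ (blk I.T u v *ᵥ w) = s v * (vec I.nu v ⬝ᵥ w))
    {x : ι → F} (hS : Supp x S) (hx : I.Reg x) :
    vec I.nu u ⬝ᵥ vec (I.k x) u = ∑ v ∈ S, x v * (s v * (vec I.nu v ⬝ᵥ vec (I.k x) v)) := by
  conv_lhs => rw [I.k_eq_on hx hS u]
  rw [dotProduct_add, single_dot hu, zero_add, dotProduct_sum]
  refine Finset.sum_congr rfl fun v hv => ?_
  rw [dotProduct_smul, smul_eq_mul, hs v hv]

omit [Infinite F] [Fintype ι] in
private theorem iso_sum (hja : j ≠ a) (hjb : j ≠ b) (hjc : j ≠ c) (hab : a ≠ b) (hac : a ≠ c)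
    (hbc : b ≠ c) (f : ι → F) :
    ∑ v ∈ ({j, a, b, c} : Finset ι), f v = f j + (f a + (f b + f c)) := by
  rw [Finset.sum_insert (by simp [hja, hjb, hjc]), Finset.sum_insert (by simp [hab, hac]),
    Finset.sum_insert (by simp [hbc]), Finset.sum_singleton]

private theorem iso_two (hja : j ≠ a) (hjb : j ≠ b) (hjc : j ≠ c) (hab : a ≠ b) (hac : a ≠ c)
    (hbc : b ≠ c) (ho : I.Odd {j, a, b, c}) {s : ι → F}
    (hs : ∀ v ∈ ({j, a, b, c} : Finset ι), ∀ w,
      vec I.nu j ⬝ᵥ (blk I.T j v *ᵥ w) = s v * (vec I.nu v ⬝ᵥ w))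
    (h1 : s a = s b) (h2 : s b = s c) {x : ι → F}
    (hS : Supp x {j, a, b, c}) (hx : I.Reg x) : vec I.nu j ⬝ᵥ vec (I.k x) j = 0 := by
  refine iso_close hx (1 - Polynomial.C ((s j - s c) * x j) * Polynomial.X) (by simp) ?_
  intro t ht
  have hj : I.Odd {j} := ho.mono (by simp)
  have e1 := iso_exp hj hs (iso_smul hS t) ht
  have e2 := ho (t • x) (iso_smul hS t) ht
  rw [I.h_eq_on (iso_smul hS t)] at e2
  rw [iso_sum hja hjb hjc hab hac hbc] at e1 e2
  simp only [Pi.smul_apply, smul_eq_mul] at e1 e2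
  rw [h1, h2] at e1
  simp only [Polynomial.eval_sub, Polynomial.eval_one, Polynomial.eval_mul, Polynomial.eval_C,
    Polynomial.eval_X]
  generalize vec I.nu j ⬝ᵥ vec (I.k (t • x)) j = ej at e1 e2 ⊢
  generalize vec I.nu a ⬝ᵥ vec (I.k (t • x)) a = ea at e1 e2
  generalize vec I.nu b ⬝ᵥ vec (I.k (t • x)) b = eb at e1 e2
  generalize vec I.nu c ⬝ᵥ vec (I.k (t • x)) c = ec at e1 e2
  linear_combination e1 + s c * e2

private theorem iso_one (hja : j ≠ a) (hjb : j ≠ b) (hjc : j ≠ c) (hab : a ≠ b) (hac : a ≠ c)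
    (hbc : b ≠ c) (hnd : I.NonDeg {j, a, b, c}) (ho : I.Odd {j, a, b, c})
    (g1 : I.Gen {j, a, b}) (g4 : I.Gen {c, a, b})
    (tja : I.tau j a = 0) (tjb : I.tau j b = 0) (tjc : I.tau j c = 0) (tab : I.tau a b ≠ 0)
    (tca : I.tau c a = 0) (tcb : I.tau c b = 0) {x : ι → F}
    (hS : Supp x {j, a, b, c}) (hx : I.Reg x) : vec I.nu j ⬝ᵥ vec (I.k x) j = 0 := by
  have ho1 : ∀ v ∈ ({j, a, b, c} : Finset ι), I.Odd {v} := fun v hv =>
    ho.mono (Finset.singleton_subset_iff.mpr hv)
  have tcj : I.tau c j = 0 := by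
    rw [tau_anti hjc.symm (ho.mono (iso_s5 j a b c)), tjc, neg_zero]
  obtain ⟨s, hs⟩ := iso_covecs (u := j) hnd ho1 (by
    intro v hv
    simp only [Finset.mem_insert, Finset.mem_singleton] at hv
    rcases hv with rfl | rfl | rfl | rfl
    · exact single_tau (ho1 _ (by simp))
    · exact tja
    · exact tjb
    · exact tjc)
  obtain ⟨r, hr⟩ := iso_covecs (u := c) hnd ho1 (by
    intro v hv
    simp only [Finset.mem_insert, Finset.mem_singleton] at hv
    rcases hv with rfl | rfl | rfl | rfl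
    · exact tcj
    · exact tca
    · exact tcb
    · exact single_tau (ho1 _ (by simp)))
  have sub1 : ({j, a, b} : Finset ι) ⊆ {j, a, b, c} := iso_s1 j a b c
  have sub2 : ({c, a, b} : Finset ι) ⊆ {j, a, b, c} := iso_s4 j a b c
  have hsab : s a = s b := edge_eq hja hjb hab (hnd.mono sub1) (ho.mono sub1) g1 tja tjb tab
    (hs a (by simp)) (hs b (by simp))
  have hrab : r a = r b := edge_eq hac.symm hbc.symm hab (hnd.mono sub2) (ho.mono sub2) g4 tca tcb
    tab (hr a (by simp)) (hr b (by simp))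
  refine iso_close hx ((1 - Polynomial.C ((s j - s b) * x j) * Polynomial.X) *
    (1 - Polynomial.C ((r c - r b) * x c) * Polynomial.X) -
    Polynomial.C ((s c - s b) * x c) * Polynomial.X *
      (Polynomial.C ((r j - r b) * x j) * Polynomial.X)) (by simp) ?_
  intro t ht
  have e1 := iso_exp (ho1 j (by simp)) hs (iso_smul hS t) ht
  have e2 := ho (t • x) (iso_smul hS t) ht
  have e3 := iso_exp (ho1 c (by simp)) hr (iso_smul hS t) ht
  rw [I.h_eq_on (iso_smul hS t)] at e2
  rw [iso_sum hja hjb hjc hab hac hbc] at e1 e2 e3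
  simp only [Pi.smul_apply, smul_eq_mul] at e1 e2 e3
  rw [hsab] at e1
  rw [hrab] at e3
  simp only [Polynomial.eval_sub, Polynomial.eval_one, Polynomial.eval_mul, Polynomial.eval_C,
    Polynomial.eval_X]
  generalize vec I.nu j ⬝ᵥ vec (I.k (t • x)) j = ej at e1 e2 e3 ⊢
  generalize vec I.nu a ⬝ᵥ vec (I.k (t • x)) a = ea at e1 e2 e3
  generalize vec I.nu b ⬝ᵥ vec (I.k (t • x)) b = eb at e1 e2 e3
  generalize vec I.nu c ⬝ᵥ vec (I.k (t • x)) c = ec at e1 e2 e3
  linear_combination (1 - (r c - r b) * x c * t) * (e1 + s b * e2) +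
    (s c - s b) * x c * t * (e3 + r b * e2)

theorem isolated (hja : j ≠ a) (hjb : j ≠ b) (hjc : j ≠ c) (hab : a ≠ b) (hac : a ≠ c)
    (hbc : b ≠ c) (hnd : I.NonDeg {j, a, b, c}) (ho : I.Odd {j, a, b, c})
    (g1 : I.Gen {j, a, b}) (g2 : I.Gen {j, a, c}) (g3 : I.Gen {j, b, c}) (g4 : I.Gen {a, b, c})
    (tja : I.tau j a = 0) (tjb : I.tau j b = 0) (tjc : I.tau j c = 0) {x : ι → F}
    (hS : Supp x {j, a, b, c}) (hx : I.Reg x) : vec I.nu j ⬝ᵥ vec (I.k x) j = 0 := by
  have ho1 : ∀ v ∈ ({j, a, b, c} : Finset ι), I.Odd {v} := fun v hv =>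
    ho.mono (Finset.singleton_subset_iff.mpr hv)
  have anti : ∀ u ∈ ({j, a, b, c} : Finset ι), ∀ v ∈ ({j, a, b, c} : Finset ι), u ≠ v →
      I.tau u v = - I.tau v u := by
    intro u hu v hv huv
    refine tau_anti huv (ho.mono ?_)
    intro w hw
    simp only [Finset.mem_insert, Finset.mem_singleton] at hw
    rcases hw with rfl | rfl
    · exact hu
    · exact hv
  have ma : a ∈ ({j, a, b, c} : Finset ι) := by simp
  have mb : b ∈ ({j, a, b, c} : Finset ι) := by simp
  have mc : c ∈ ({j, a, b, c} : Finset ι) := by simp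
  have mj : j ∈ ({j, a, b, c} : Finset ι) := by simp
  obtain ⟨s, hs⟩ := iso_covecs (u := j) hnd ho1 (by
    intro v hv
    simp only [Finset.mem_insert, Finset.mem_singleton] at hv
    rcases hv with rfl | rfl | rfl | rfl
    · exact single_tau (ho1 _ (by simp))
    · exact tja
    · exact tjb
    · exact tjc)
  have sub1 : ({j, a, b} : Finset ι) ⊆ {j, a, b, c} := iso_s1 j a b c
  have sub2 : ({j, a, c} : Finset ι) ⊆ {j, a, b, c} := iso_s2 j a b c
  have sub3 : ({j, b, c} : Finset ι) ⊆ {j, a, b, c} := iso_s3 j a b c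
  have eab : I.tau a b ≠ 0 → s a = s b := fun h =>
    edge_eq hja hjb hab (hnd.mono sub1) (ho.mono sub1) g1 tja tjb h (hs a ma) (hs b mb)
  have eac : I.tau a c ≠ 0 → s a = s c := fun h =>
    edge_eq hja hjc hac (hnd.mono sub2) (ho.mono sub2) g2 tja tjc h (hs a ma) (hs c mc)
  have ebc : I.tau b c ≠ 0 → s b = s c := fun h =>
    edge_eq hjb hjc hbc (hnd.mono sub3) (ho.mono sub3) g3 tjb tjc h (hs b mb) (hs c mc)
  have two : s a = s b → s b = s c → vec I.nu j ⬝ᵥ vec (I.k x) j = 0 := fun h1 h2 =>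
    iso_two hja hjb hjc hab hac hbc ho hs h1 h2 hS hx
  by_cases hxab : I.tau a b = 0
  · by_cases hxac : I.tau a c = 0
    · by_cases hxbc : I.tau b c = 0
      · -- no edge
        refine indepSet hnd ho1 ?_ hS hx mj
        intro u hu v hv huv
        have hba : I.tau b a = 0 := by rw [anti b mb a ma hab.symm, hxab, neg_zero]
        have hca : I.tau c a = 0 := by rw [anti c mc a ma hac.symm, hxac, neg_zero]
        have hcb : I.tau c b = 0 := by rw [anti c mc b mb hbc.symm, hxbc, neg_zero]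
        have haj : I.tau a j = 0 := by rw [anti a ma j mj hja.symm, tja, neg_zero]
        have hbj : I.tau b j = 0 := by rw [anti b mb j mj hjb.symm, tjb, neg_zero]
        have hcj : I.tau c j = 0 := by rw [anti c mc j mj hjc.symm, tjc, neg_zero]
        simp only [Finset.mem_insert, Finset.mem_singleton] at hu hv
        clear hs two eab eac ebc anti ho1 ho hnd g1 g2 g3 g4 sub1 sub2 sub3 hS hx
        rcases hu with hu | hu | hu | hu <;> rcases hv with hv | hv | hv | hv <;> rw [hu, hv]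
        · exact absurd (hu.trans hv.symm) huv
        · exact tja
        · exact tjb
        · exact tjc
        · exact haj
        · exact absurd (hu.trans hv.symm) huv
        · exact hxab
        · exact hxac
        · exact hbj
        · exact hba
        · exact absurd (hu.trans hv.symm) huv
        · exact hxbc
        · exact hcj
        · exact hca
        · exact hcb
        · exact absurd (hu.trans hv.symm) huv
      · -- only `b ~ c`
        have e : ({j, a, b, c} : Finset ι) = {j, b, c, a} := iso_e1 j a b c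
        rw [e] at hnd ho hS
        exact iso_one hjb hjc hja hbc hab.symm hac.symm hnd ho g3 g4 tjb tjc tja hxbc
          hxab hxac hS hx
    · by_cases hxbc : I.tau b c = 0
      · -- only `a ~ c`
        have e : ({j, a, b, c} : Finset ι) = {j, a, c, b} := iso_e2 j a b c
        have e4 : ({a, b, c} : Finset ι) = {b, a, c} := iso_e3 a b c
        have hba : I.tau b a = 0 := by rw [anti b mb a ma hab.symm, hxab, neg_zero]
        rw [e] at hnd ho hS
        rw [e4] at g4
        exact iso_one hja hjc hjb hac hab hbc.symm hnd ho g2 g4 tja tjc tjb hxac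
          hba hxbc hS hx
      · exact two ((eac hxac).trans (ebc hxbc).symm) (ebc hxbc)
  · by_cases hxac : I.tau a c = 0
    · by_cases hxbc : I.tau b c = 0
      · -- only `a ~ b`
        have e4 : ({a, b, c} : Finset ι) = {c, a, b} := iso_e4 a b c
        have hca : I.tau c a = 0 := by rw [anti c mc a ma hac.symm, hxac, neg_zero]
        have hcb : I.tau c b = 0 := by rw [anti c mc b mb hbc.symm, hxbc, neg_zero]
        rw [e4] at g4
        exact iso_one hja hjb hjc hab hac hbc hnd ho g1 g4 tja tjb tjc hxab hca hcb hS hx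
      · exact two (eab hxab) (ebc hxbc)
    · exact two (eab hxab) ((eab hxab).symm.trans (eac hxac))

end Inst

end Pool.Agent.H50.R2
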