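import Pool.Agent.H50.R2.Pair

/-! # Module IsoEdge (MP_966f71_lc)

`j` is not adjacent to `a` and `b`, `a ~ b`. For `x` supported on `{a, b}` write
`e_j = nu_j k_j`, `e_a`, `e_b` similarly. Generic `x` (path `s ↦ s • x` or coordinates near 0):
* `k_j(x) ∥ k_j(0, x_b) ∥ mu_j`: two applications of `Gen {j, a, b}` (coordinate `a`, then
  coordinate `b`; `k_j(0, x_b) ≠ 0` for almost all points of the path), so `e_j = 0` (`nu_j mu_j = 0`).
* `h x = x_a e_a + x_b e_b = 0` and, inserting `k_j = mu_j + x_a T_ja k_a + x_b T_jb k_b`,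
  `e_j = x_a s1 e_a + x_b s2 e_b`. So `(s1 - s2) x_a e_a = 0`.
* `e_a ≠ 0` at a suitable point: at `x = x_b e_b`, `k_a = mu_a + x_b' T_ab mu_b` (`k_single`),
  `e_a = x_b' tau a b ≠ 0`; take the path `s ↦ s e_a + x_b e_b` and `RatAt.ne` at `s = 0`. -/

set_option autoImplicit false

namespace Pool.Agent.H50.R2

open Matrix Filter

variable {F ι : Type*} [Field F] [Infinite F] [Fintype ι] [DecidableEq ι]

namespace Inst

variable {I : Inst F ι} {j a b : ι}

theorem edge_eq (hja : j ≠ a) (hjb : j ≠ b) (hab : a ≠ b) (hnd : I.NonDeg {j, a, b})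
    (ho : I.Odd {j, a, b}) (hg : I.Gen {j, a, b}) (tja : I.tau j a = 0) (tjb : I.tau j b = 0)
    (tab : I.tau a b ≠ 0) {s1 s2 : F}
    (h1 : ∀ v, vec I.nu j ⬝ᵥ (blk I.T j a *ᵥ v) = s1 * (vec I.nu a ⬝ᵥ v))
    (h2 : ∀ v, vec I.nu j ⬝ᵥ (blk I.T j b *ᵥ v) = s2 * (vec I.nu b ⬝ᵥ v)) : s1 = s2 := by
  have mj : j ∈ ({j, a, b} : Finset ι) := by simp
  have ma : a ∈ ({j, a, b} : Finset ι) := by simp
  have mb : b ∈ ({j, a, b} : Finset ι) := by simp
  have oj : I.Odd {j} := ho.mono (by simp)
  have oa : I.Odd {a} := ho.mono (by simp)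
  have ob : I.Odd {b} := ho.mono (by simp)
  obtain ⟨cb, hcb⟩ := single_eig ob (hnd b mb).1 (hnd b mb).2
  -- choose `t`
  have r0 : I.Reg ((fun s : F => (Pi.single b s : ι → F)) 0) := by
    simp only [Pi.single_zero]
    exact I.reg_zero
  have f1 := I.evReg (s0 := 0) (Path.single b) r0
  have f2 : ∀ᶠ s : F in cofinite, s ≠ 0 := by
    simp [Filter.eventually_cofinite]
  have f3 := I.evK (s0 := 0) (Path.single b) r0 (i := j) (by
    simp only [Pi.single_zero]
    rw [I.k_zero]
    exact (hnd j mj).1)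
  obtain ⟨t, rt, t0, kt⟩ := (f1.and (f2.and f3)).exists
  obtain ⟨nb, kb⟩ := k_single (hnd b mb).1 hcb rt
  -- the path
  have hX : Path (fun s : F => (Pi.single a s : ι → F) + Pi.single b t) :=
    (Path.single a).add (Path.const _)
  have hX0 : (Pi.single a (0 : F) : ι → F) + Pi.single b t = Pi.single b t := by
    rw [Pi.single_zero, zero_add]
  have rX0 : I.Reg ((fun s : F => (Pi.single a s : ι → F) + Pi.single b t) 0) := by
    simp only [hX0]
    exact rt
  have g1 := I.evReg (s0 := 0) hX rX0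
  have hrat : RatAt (0 : F) (fun s : F =>
      vec I.nu a ⬝ᵥ vec (I.k ((Pi.single a s : ι → F) + Pi.single b t)) a) := by
    have hk : ∀ α : Fin 2, RatAt (0 : F)
        (fun s : F => vec (I.k ((Pi.single a s : ι → F) + Pi.single b t)) a α) :=
      fun α => I.ratK (s0 := 0) hX rX0 (a, α)
    have h3 := ((RatAt.const (s0 := (0 : F)) (vec I.nu a 0)).mul (hk 0)).add
      ((RatAt.const (vec I.nu a 1)).mul (hk 1))
    refine h3.congr ?_ (Filter.Eventually.of_forall fun s => ?_)
    · simp only [dotProduct, Fin.sum_univ_two]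
    · simp only [dotProduct, Fin.sum_univ_two]
  have hne : vec I.nu a ⬝ᵥ vec (I.k ((Pi.single a (0 : F) : ι → F) + Pi.single b t)) a ≠ 0 := by
    rw [hX0, kb a hab, dotProduct_add, single_dot oa, dotProduct_smul, zero_add, smul_eq_mul]
    exact mul_ne_zero (div_ne_zero t0 nb) tab
  have g2 := hrat.ne hne
  obtain ⟨s, rs, s0, es⟩ := (g1.and (f2.and g2)).exists
  have rs' : I.Reg ((Pi.single a s : ι → F) + Pi.single b t) := rs
  have spX : Supp ((Pi.single a s : ι → F) + Pi.single b t) {j, a, b} := by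
    intro l hl
    simp only [Finset.mem_insert, Finset.mem_singleton, not_or] at hl
    rw [Pi.add_apply, Pi.single_eq_of_ne hl.2.1, Pi.single_eq_of_ne hl.2.2, add_zero]
  have spB : Supp (Pi.single b t : ι → F) {j, a, b} := by
    intro l hl
    simp only [Finset.mem_insert, Finset.mem_singleton, not_or] at hl
    rw [Pi.single_eq_of_ne hl.2.2]
  have sp0 : Supp (0 : ι → F) {j, a, b} := fun l _ => rfl
  have xj : (Pi.single a s + Pi.single b t : ι → F) j = 0 := by
    rw [Pi.add_apply, Pi.single_eq_of_ne hja, Pi.single_eq_of_ne hjb, add_zero]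
  have xa : (Pi.single a s + Pi.single b t : ι → F) a = s := by
    rw [Pi.add_apply, Pi.single_eq_same, Pi.single_eq_of_ne hab, add_zero]
  have xb : (Pi.single a s + Pi.single b t : ι → F) b = t := by
    rw [Pi.add_apply, Pi.single_eq_of_ne hab.symm, Pi.single_eq_same, zero_add]
  -- the direction of `k_j`
  have p1 := hg j mj a ma hja tja _ _ spX spB (fun l hl => by
    rw [Pi.add_apply, Pi.single_eq_of_ne hl, zero_add]) rs' rt
  have p2 := hg j mj b mb hjb tjb _ _ spB sp0 (fun l hl => by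
    rw [Pi.single_eq_of_ne hl, Pi.zero_apply]) rt I.reg_zero
  have p3 := par_trans kt p1 p2
  rw [I.k_zero] at p3
  have ej := ker_of_par (hnd j mj).1 (par_symm p3) (single_dot oj)
  -- `h = 0`
  have hh := ho _ spX rs'
  rw [I.h_eq_on spX] at hh
  have kj := I.k_eq_on rs' spX j
  have n1 : j ∉ ({a, b} : Finset ι) := by simp [hja, hjb]
  have n2 : a ∉ ({b} : Finset ι) := by simp [hab]
  rw [Finset.sum_insert n1, Finset.sum_insert n2, Finset.sum_singleton, xj, xa, xb, zero_mul,
    zero_add] at hh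
  rw [Finset.sum_insert n1, Finset.sum_insert n2, Finset.sum_singleton, xj, xa, xb, zero_smul,
    zero_add] at kj
  rw [kj, dotProduct_add, dotProduct_add, dotProduct_smul, dotProduct_smul, h1, h2,
    single_dot oj, smul_eq_mul, smul_eq_mul, zero_add] at ej
  have fin : (s1 - s2) * (s * (vec I.nu a ⬝ᵥ
      vec (I.k ((Pi.single a s : ι → F) + Pi.single b t)) a)) = 0 := by
    linear_combination ej - s2 * hh
  exact sub_eq_zero.1 ((mul_eq_zero.1 fin).resolve_right (mul_ne_zero s0 es))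

end Inst

end Pool.Agent.H50.R2
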