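import Pool.Agent.H50.R2.ShiftOdd

/-! # Module TauInd: vanishing `tau` along an axis gives independence (MP_966f71_lc)

Let `x, y` be supported on `{i, j, l}`, equal off `j`, regular. Paths `s • x`, `s • y` and
`x' s = s • rst x {j, l}`, `y' s = s • rst y {j, l}`, `c s = Pi.single l (s * x l)`. For almost all
`s` all are regular and `k_i` is nonzero at all of them (nonzero at `s = 0`). Then
`k_i(s • x) ∥ k_i(x' s)` (`own_k`, they differ in the coordinate `i` only), and
`x' s = c s + Pi.single j (s * x j)`; at the base `c s`, `k_i = mu_i + t' T_ij mu_j` (`k_add`,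
`k_single`, `single_eig`; `{j}` is odd at `c s` as `{j, l}` is odd; `mu_j, nu_j ≠ 0` at `c s` for
almost all `s`), and `tau i j = 0` at `c s` says that `nu_i` kills `T_ij mu_j` and `mu_i`
(`single_dot`), so `k_i(x' s) ∥ k_i(c s)` (`par_of_ker`, `nu_i ≠ 0` at `c s`). The same for `y`.
So `k_i(s • x) ∥ k_i(s • y)`; `closePar` at `s0 = 1`. -/

set_option autoImplicit false

namespace Pool.Agent.H50.R2

open Matrix Filter

variable {F ι : Type*} [Field F] [Infinite F] [Fintype ι] [DecidableEq ι]

namespace Inst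

variable {I : Inst F ι} {i j l : ι}

private theorem TauInd_aux (hij : i ≠ j) (hil : i ≠ l) (hjl : j ≠ l)
    (hnd : I.NonDeg {i, j, l}) (ho : I.Odd {i, j, l})
    (h : ∀ t : F, I.Reg (Pi.single l t) → (I.shift (Pi.single l t)).tau i j = 0)
    {x : ι → F} (hS : Supp x {i, j, l}) :
    ∀ᶠ s : F in cofinite, par (vec (I.k (s • x)) i)
      (vec (I.k (s • (Pi.single l (x l) : ι → F))) i) ∧
      vec (I.k (s • (Pi.single l (x l) : ι → F))) i ≠ 0 := by
  have hmi : vec I.mu i ≠ 0 := (hnd i (by simp)).1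
  have hni : vec I.nu i ≠ 0 := (hnd i (by simp)).2
  have hmj : vec I.mu j ≠ 0 := (hnd j (by simp)).1
  have hnj : vec I.nu j ≠ 0 := (hnd j (by simp)).2
  have P1 : Path (fun s : F => s • x) := Path.smul x
  have P2 : Path (fun s : F => s • rst x {j, l}) := Path.smul _
  have P3 : Path (fun s : F => s • (Pi.single l (x l) : ι → F)) := Path.smul _
  have Z : ∀ y : ι → F, I.Reg ((0 : F) • y) := fun y => by
    rw [zero_smul]
    exact I.reg_zero
  have E1 : ∀ᶠ s : F in cofinite, I.Reg (s • x) := I.evReg P1 (Z x)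
  have E2 : ∀ᶠ s : F in cofinite, I.Reg (s • rst x {j, l}) := I.evReg P2 (Z _)
  have E3 : ∀ᶠ s : F in cofinite, I.Reg (s • (Pi.single l (x l) : ι → F)) := I.evReg P3 (Z _)
  have E4 : ∀ᶠ s : F in cofinite, vec (I.k (s • rst x {j, l})) i ≠ 0 :=
    I.evK P2 (Z _) (by simpa only [zero_smul, I.k_zero] using hmi)
  have E5 : ∀ᶠ s : F in cofinite, vec (I.k (s • (Pi.single l (x l) : ι → F))) i ≠ 0 :=
    I.evK P3 (Z _) (by simpa only [zero_smul, I.k_zero] using hmi)
  have E6 : ∀ᶠ s : F in cofinite, vec (I.k (s • (Pi.single l (x l) : ι → F))) j ≠ 0 :=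
    I.evK P3 (Z _) (by simpa only [zero_smul, I.k_zero] using hmj)
  have E7 : ∀ᶠ s : F in cofinite, vec (I.l (s • (Pi.single l (x l) : ι → F))) i ≠ 0 :=
    I.evL P3 (Z _) (by simpa only [zero_smul, I.l_zero] using hni)
  have E8 : ∀ᶠ s : F in cofinite, vec (I.l (s • (Pi.single l (x l) : ι → F))) j ≠ 0 :=
    I.evL P3 (Z _) (by simpa only [zero_smul, I.l_zero] using hnj)
  filter_upwards [E1, E2, E3, E4, E5, E6, E7, E8] with s r1 r2 r3 n4 n5 n6 n7 n8
  refine ⟨?_, n5⟩
  have hsub : ({j, l} : Finset ι) ⊆ {i, j, l} := by simp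
  have sx' : Supp (s • rst x {j, l}) {i, j, l} := ((supp_rst x {j, l}).smul s).mono hsub
  have A1 : par (vec (I.k (s • x)) i) (vec (I.k (s • rst x {j, l})) i) := by
    refine own_k ho (by simp) hni (hS.smul s) sx' ?_ r1 r2
    intro a ha
    simp only [Pi.smul_apply, smul_eq_mul, rst]
    by_cases haj : a ∈ ({j, l} : Finset ι)
    · rw [if_pos haj]
    · rw [if_neg haj]
      have : x a = 0 := hS a (by
        simp only [Finset.mem_insert, Finset.mem_singleton] at haj ⊢
        tauto)
      rw [this]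
  set z : ι → F := s • (Pi.single l (x l) : ι → F) with hz
  have hz' : z = Pi.single l (s * x l) := by
    rw [hz]
    funext a
    by_cases ha : a = l
    · subst ha
      simp
    · simp [ha]
  have sz : Supp z {l} := by
    rw [hz']
    exact supp_single l _
  have hsum : z + Pi.single j (s * x j) = s • rst x {j, l} := by
    rw [hz']
    funext a
    by_cases haj : a = j
    · subst haj
      simp [rst, hjl]
    · by_cases hal : a = l
      · subst hal
        simp [rst, haj]
      · simp [rst, haj, hal]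
  have rs : I.Reg (z + Pi.single j (s * x j)) := by
    rw [hsum]
    exact r2
  have rJ : (I.shift z).Reg (Pi.single j (s * x j)) := (I.reg_add r3).mpr rs
  have kJ : (I.shift z).k (Pi.single j (s * x j)) = I.k (s • rst x {j, l}) := by
    rw [I.k_add r3 rs, hsum]
  have oj : (I.shift z).Odd {j} := by
    refine Odd.shift (R := {l}) (ho.mono ?_) sz r3
    intro a
    simp only [Finset.mem_union, Finset.mem_insert, Finset.mem_singleton]
    tauto
  have oi : (I.shift z).Odd {i} := by
    refine Odd.shift (R := {l}) (ho.mono ?_) sz r3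
    intro a
    simp only [Finset.mem_union, Finset.mem_insert, Finset.mem_singleton]
    tauto
  obtain ⟨c, hc⟩ := single_eig oj (show vec (I.shift z).mu j ≠ 0 from n6)
    (show vec (I.shift z).nu j ≠ 0 from n8)
  obtain ⟨_, hk⟩ := k_single (I := I.shift z) (show vec (I.shift z).mu j ≠ 0 from n6) hc rJ
  have hki := hk i hij
  rw [kJ] at hki
  have ht : (I.shift z).tau i j = 0 := by
    have := h (s * x l)
    rw [← hz'] at this
    exact this r3
  have hd : vec (I.shift z).nu i ⬝ᵥ vec (I.shift z).mu i = 0 := single_dot oi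
  have A2 : par (vec (I.k (s • rst x {j, l})) i) (vec (I.k z) i) := by
    refine par_of_ker (n := vec (I.shift z).nu i) n7 ?_ hd
    rw [hki, dotProduct_add, dotProduct_smul, hd]
    have ht' : vec (I.shift z).nu i ⬝ᵥ (blk (I.shift z).T i j *ᵥ vec (I.shift z).mu j) = 0 := ht
    rw [ht', smul_zero, add_zero]
  exact par_trans n4 A1 A2

theorem indep_of_tau (hij : i ≠ j) (hil : i ≠ l) (hjl : j ≠ l) (hnd : I.NonDeg {i, j, l})
    (ho : I.Odd {i, j, l})
    (h : ∀ t : F, I.Reg (Pi.single l t) → (I.shift (Pi.single l t)).tau i j = 0) :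
    I.Indep i j {i, j, l} := by
  intro x y hx hy hxy rx ry
  have A1 := TauInd_aux hij hil hjl hnd ho h hx
  have A2 := TauInd_aux hij hil hjl hnd ho h hy
  rw [← hxy l hjl.symm] at A2
  have key : ∀ᶠ s : F in cofinite, par (vec (I.k (s • x)) i) (vec (I.k (s • y)) i) := by
    filter_upwards [A1, A2] with s a1 a2
    exact par_trans a1.2 a1.1 (par_symm a2.1)
  have h1 : I.Reg ((1 : F) • x) := by
    rw [one_smul]
    exact rx
  have h2 : I.Reg ((1 : F) • y) := by
    rw [one_smul]
    exact ry
  have := I.closePar (Path.smul x) (Path.smul y) h1 h2 key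
  simpa only [one_smul] using this

end Inst

end Pool.Agent.H50.R2
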