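import Pool.Agent.H50.R2.NoTau
import Pool.Agent.H50.R2.TauInd
import Pool.Agent.H50.R2.Cycle

/-! # Module LemB: no four-cycle in a minimal non-odd set (MP_966f71_lc)

`exists_base` with `Q = {i, j, l, m}`, `J = I.shift z`: `MinNon Q`, the four `tau` nonzero at `J`
(and, by `tau_anti` on 2-subsets, in both orders). `no_tau` (with the roles permuted; rewrite the
finite set) gives: `tau i j = 0` along the axes `l` and `m` (both orders `i j` and `j i`), and
`tau l m = 0` along the axes `i` and `j` (both orders). So by `indep_of_tau` the four 3-subsets are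
genuine for `J` (the only nonadjacent pairs in `{i, j, l}` are `(i, j)`, `(j, i)`, etc.), and
`tau i j = 0`, `tau l m = 0` at `J` (`no_tau` with `t = 0`: `Pi.single l 0 = 0`, `reg_zero`,
`shift_zero`). `four_cycle` makes `Q` odd for `J`: contradiction. -/

set_option autoImplicit false

namespace Pool.Agent.H50.R2

open Matrix Filter

variable {F ι : Type*} [Field F] [Infinite F] [Fintype ι] [DecidableEq ι]

namespace Inst

variable {I : Inst F ι} {V : Finset ι} {i j l m : ι}

theorem lemB_p2 (i j l m : ι) : ({i, j, l, m} : Finset ι) = {j, i, l, m} := by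
  ext u; simp only [Finset.mem_insert, Finset.mem_singleton]; tauto

theorem lemB_p3 (i j l m : ι) : ({i, j, l, m} : Finset ι) = {i, j, m, l} := by
  ext u; simp only [Finset.mem_insert, Finset.mem_singleton]; tauto

theorem lemB_p4 (i j l m : ι) : ({i, j, l, m} : Finset ι) = {j, i, m, l} := by
  ext u; simp only [Finset.mem_insert, Finset.mem_singleton]; tauto

theorem lemB_p5 (i j l m : ι) : ({i, j, l, m} : Finset ι) = {l, m, i, j} := by
  ext u; simp only [Finset.mem_insert, Finset.mem_singleton]; tauto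

theorem lemB_p6 (i j l m : ι) : ({i, j, l, m} : Finset ι) = {m, l, i, j} := by
  ext u; simp only [Finset.mem_insert, Finset.mem_singleton]; tauto

theorem lemB_p7 (i j l m : ι) : ({i, j, l, m} : Finset ι) = {l, m, j, i} := by
  ext u; simp only [Finset.mem_insert, Finset.mem_singleton]; tauto

theorem lemB_p8 (i j l m : ι) : ({i, j, l, m} : Finset ι) = {m, l, j, i} := by
  ext u; simp only [Finset.mem_insert, Finset.mem_singleton]; tauto

theorem lemB_r3 (i l m : ι) : ({i, l, m} : Finset ι) = {l, m, i} := by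
  ext u; simp only [Finset.mem_insert, Finset.mem_singleton]; tauto

/-- A triple with two adjacent pairs `(i, l)`, `(j, l)` and `tau i j = tau j i = 0` along the axis
`l` is genuine. -/
theorem lemB_gen {J : Inst F ι} (hij : i ≠ j) (hil : i ≠ l) (hjl : j ≠ l)
    (hnd : J.NonDeg {i, j, l}) (ho : J.Odd {i, j, l}) (til : J.tau i l ≠ 0) (tjl : J.tau j l ≠ 0)
    (h1 : ∀ t : F, J.Reg (Pi.single l t) → (J.shift (Pi.single l t)).tau i j = 0)
    (h2 : ∀ t : F, J.Reg (Pi.single l t) → (J.shift (Pi.single l t)).tau j i = 0) :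
    J.Gen {i, j, l} := by
  have e1 : ({i, l} : Finset ι) ⊆ {i, j, l} := by
    intro u hu
    simp only [Finset.mem_insert, Finset.mem_singleton] at hu ⊢
    tauto
  have e2 : ({j, l} : Finset ι) ⊆ {i, j, l} := by
    intro u hu
    simp only [Finset.mem_insert, Finset.mem_singleton] at hu ⊢
    tauto
  have a1 : J.tau i l = - J.tau l i := tau_anti hil (ho.mono e1)
  have a2 : J.tau j l = - J.tau l j := tau_anti hjl (ho.mono e2)
  have til' : J.tau l i ≠ 0 := fun h => til (by rw [a1, h, neg_zero])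
  have tjl' : J.tau l j ≠ 0 := fun h => tjl (by rw [a2, h, neg_zero])
  intro a ha b hb hab hz
  simp only [Finset.mem_insert, Finset.mem_singleton] at ha hb
  rcases ha with rfl | rfl | rfl <;> rcases hb with rfl | rfl | rfl
  · exact absurd rfl hab
  · exact indep_of_tau hij hil hjl hnd ho h1
  · exact absurd hz til
  · have e : ({a, b, l} : Finset ι) = {b, a, l} := Finset.insert_comm _ _ _
    rw [← e] at hnd ho ⊢
    exact indep_of_tau hab hjl hil hnd ho h2
  · exact absurd rfl hab
  · exact absurd hz tjl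
  · exact absurd hz til'
  · exact absurd hz tjl'
  · exact absurd rfl hab

theorem lemB (hV : I.MinNon V) (hi : i ∈ V) (hj : j ∈ V) (hl : l ∈ V) (hm : m ∈ V)
    (hij : i ≠ j) (hil : i ≠ l) (him : i ≠ m) (hjl : j ≠ l) (hjm : j ≠ m) (hlm : l ≠ m)
    (til : I.tau i l ≠ 0) (tim : I.tau i m ≠ 0) (tjl : I.tau j l ≠ 0) (tjm : I.tau j m ≠ 0) :
    False := by
  have hQV : ({i, j, l, m} : Finset ι) ⊆ V := by
    intro u hu
    simp only [Finset.mem_insert, Finset.mem_singleton] at hu
    rcases hu with rfl | rfl | rfl | rfl <;> assumption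
  obtain ⟨z, -, -, hnd, ht, hQ⟩ := exists_base hV hQV ⟨i, Finset.mem_insert_self _ _⟩
  set J : Inst F ι := I.shift z with hJ
  have til := ht i hi l hl til
  have tim := ht i hi m hm tim
  have tjl := ht j hj l hl tjl
  have tjm := ht j hj m hm tjm
  have hnd : J.NonDeg {i, j, l, m} := hnd.mono hQV
  have hc : ({i, j, l, m} : Finset ι).card = 4 := by
    rw [Finset.card_insert_of_notMem (by simp [hij, hil, him]),
      Finset.card_insert_of_notMem (by simp [hjl, hjm]),
      Finset.card_insert_of_notMem (by simp [hlm]), Finset.card_singleton]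
  have hodd : ∀ S : Finset ι, S ⊆ {i, j, l, m} → S.card < 4 → J.Odd S := by
    intro S hS hSc
    refine hQ.prop S (Finset.ssubset_iff_subset_ne.2 ⟨hS, fun h => ?_⟩)
    rw [h, hc] at hSc
    exact lt_irrefl _ hSc
  have c3 : ∀ a b c : ι, ({a, b, c} : Finset ι).card < 4 := fun a b c =>
    lt_of_le_of_lt Finset.card_le_three (by norm_num)
  have c2 : ∀ a b : ι, ({a, b} : Finset ι).card < 4 := fun a b =>
    lt_of_le_of_lt Finset.card_le_two (by norm_num)
  have s3 : ∀ a b c : ι, a ∈ ({i, j, l, m} : Finset ι) → b ∈ ({i, j, l, m} : Finset ι) →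
      c ∈ ({i, j, l, m} : Finset ι) → ({a, b, c} : Finset ι) ⊆ {i, j, l, m} := by
    intro a b c ha hb hc' u hu
    rcases Finset.mem_insert.1 hu with rfl | hu
    · exact ha
    rcases Finset.mem_insert.1 hu with rfl | hu
    · exact hb
    rw [Finset.mem_singleton.1 hu]
    exact hc'
  have s2 : ∀ a b : ι, a ∈ ({i, j, l, m} : Finset ι) → b ∈ ({i, j, l, m} : Finset ι) →
      ({a, b} : Finset ι) ⊆ {i, j, l, m} := by
    intro a b ha hb u hu
    rcases Finset.mem_insert.1 hu with rfl | hu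
    · exact ha
    rw [Finset.mem_singleton.1 hu]
    exact hb
  have mi : i ∈ ({i, j, l, m} : Finset ι) := by simp
  have mj : j ∈ ({i, j, l, m} : Finset ι) := by simp
  have ml : l ∈ ({i, j, l, m} : Finset ι) := by simp
  have mm : m ∈ ({i, j, l, m} : Finset ι) := by simp
  have anti : ∀ a b : ι, a ∈ ({i, j, l, m} : Finset ι) → b ∈ ({i, j, l, m} : Finset ι) → a ≠ b →
      J.tau a b ≠ 0 → J.tau b a ≠ 0 := by
    intro a b ha hb hab h h'
    apply h
    rw [tau_anti hab (hodd _ (s2 a b ha hb) (c2 a b)), h', neg_zero]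
  have tli := anti i l mi ml hil til
  have tmi := anti i m mi mm him tim
  have tlj := anti j l mj ml hjl tjl
  have tmj := anti j m mj mm hjm tjm
  -- permutations of the set
  have q1 : J.MinNon {i, j, l, m} := hQ
  have p2 : ({i, j, l, m} : Finset ι) = {j, i, l, m} := lemB_p2 i j l m
  have p3 : ({i, j, l, m} : Finset ι) = {i, j, m, l} := lemB_p3 i j l m
  have p4 : ({i, j, l, m} : Finset ι) = {j, i, m, l} := lemB_p4 i j l m
  have p5 : ({i, j, l, m} : Finset ι) = {l, m, i, j} := lemB_p5 i j l m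
  have p6 : ({i, j, l, m} : Finset ι) = {m, l, i, j} := lemB_p6 i j l m
  have p7 : ({i, j, l, m} : Finset ι) = {l, m, j, i} := lemB_p7 i j l m
  have p8 : ({i, j, l, m} : Finset ι) = {m, l, j, i} := lemB_p8 i j l m
  -- the eight vanishing statements
  have n1 : ∀ t : F, J.Reg (Pi.single l t) → (J.shift (Pi.single l t)).tau i j = 0 :=
    fun t ht => no_tau hij hil him hjl hjm hlm q1 tim tjm ht
  have n2 : ∀ t : F, J.Reg (Pi.single l t) → (J.shift (Pi.single l t)).tau j i = 0 :=
    fun t ht => no_tau hij.symm hjl hjm hil him hlm (p2 ▸ q1) tjm tim ht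
  have n3 : ∀ t : F, J.Reg (Pi.single m t) → (J.shift (Pi.single m t)).tau i j = 0 :=
    fun t ht => no_tau hij him hil hjm hjl hlm.symm (p3 ▸ q1) til tjl ht
  have n4 : ∀ t : F, J.Reg (Pi.single m t) → (J.shift (Pi.single m t)).tau j i = 0 :=
    fun t ht => no_tau hij.symm hjm hjl him hil hlm.symm (p4 ▸ q1) tjl til ht
  have n5 : ∀ t : F, J.Reg (Pi.single i t) → (J.shift (Pi.single i t)).tau l m = 0 :=
    fun t ht => no_tau hlm hil.symm hjl.symm him.symm hjm.symm hij (p5 ▸ q1) tlj tmj ht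
  have n6 : ∀ t : F, J.Reg (Pi.single i t) → (J.shift (Pi.single i t)).tau m l = 0 :=
    fun t ht => no_tau hlm.symm him.symm hjm.symm hil.symm hjl.symm hij (p6 ▸ q1) tmj tlj ht
  have n7 : ∀ t : F, J.Reg (Pi.single j t) → (J.shift (Pi.single j t)).tau l m = 0 :=
    fun t ht => no_tau hlm hjl.symm hil.symm hjm.symm him.symm hij.symm (p7 ▸ q1) tli tmi ht
  have n8 : ∀ t : F, J.Reg (Pi.single j t) → (J.shift (Pi.single j t)).tau m l = 0 :=
    fun t ht => no_tau hlm.symm hjm.symm him.symm hjl.symm hil.symm hij.symm (p8 ▸ q1) tmi tli ht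
  have tij0 : J.tau i j = 0 := by
    have h := n1 0 (by rw [Pi.single_zero]; exact J.reg_zero)
    rwa [Pi.single_zero, J.shift_zero] at h
  have tlm0 : J.tau l m = 0 := by
    have h := n5 0 (by rw [Pi.single_zero]; exact J.reg_zero)
    rwa [Pi.single_zero, J.shift_zero] at h
  have o1 : J.Odd {i, j, l} := hodd _ (s3 _ _ _ mi mj ml) (c3 _ _ _)
  have o2 : J.Odd {i, j, m} := hodd _ (s3 _ _ _ mi mj mm) (c3 _ _ _)
  have o3 : J.Odd {i, l, m} := hodd _ (s3 _ _ _ mi ml mm) (c3 _ _ _)
  have o4 : J.Odd {j, l, m} := hodd _ (s3 _ _ _ mj ml mm) (c3 _ _ _)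
  have g1 : J.Gen {i, j, l} :=
    lemB_gen hij hil hjl (hnd.mono (s3 _ _ _ mi mj ml)) o1 til tjl n1 n2
  have g2 : J.Gen {i, j, m} :=
    lemB_gen hij him hjm (hnd.mono (s3 _ _ _ mi mj mm)) o2 tim tjm n3 n4
  have r3 : ({i, l, m} : Finset ι) = {l, m, i} := lemB_r3 i l m
  have r4 : ({j, l, m} : Finset ι) = {l, m, j} := lemB_r3 j l m
  have g3 : J.Gen {i, l, m} := by
    have hn := hnd.mono (s3 _ _ _ mi ml mm)
    rw [r3] at o3 hn ⊢
    exact lemB_gen hlm hil.symm him.symm hn o3 tli tmi n5 n6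
  have g4 : J.Gen {j, l, m} := by
    have hn := hnd.mono (s3 _ _ _ mj ml mm)
    rw [r4] at o4 hn ⊢
    exact lemB_gen hlm hjl.symm hjm.symm hn o4 tlj tmj n7 n8
  exact hQ.non (four_cycle hij hil him hjl hjm hlm hnd o1 o2 o3 o4 g1 g2 g3 g4 tij0 tlm0 til tim
    tjl tjm)

end Inst

end Pool.Agent.H50.R2
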