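import Pool.Agent.H50.R2.ShiftOdd

/-! # Module Symm: dependence is symmetric (MP_966f71_lc)

Suppose `k_j` is independent of `x_i` on `S`. Let `x, y` agree off `j`. Path `s ↦ (s • x, s • y)`:
for almost all `s` the points are regular, `k_j(s • y) ≠ 0`, `k_j(s • x) ≠ 0`, `l_i(s • x) ≠ 0`
(nonzero at `s = 0`). Fix such an `s`, write `b = s • x`, `a = s • y` and `a_u = a + u e_i`. For
almost all `u`, `a_u` is regular and `k_j(a_u) ∥ k_j(a)` (hypothesis) `∥ k_j(b)` (`own_k`, they
differ only in `j`), and `l_j(b) k_j(b) = 0` (`own_dot`), so `l_j(b) k_j(a_u) = 0`. (E) for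
`a_u, b` (which agree off `i, j`): `u (l_i(b) k_i(a_u)) = 0`. Let `u → 0` (`RatAt.zero`):
`l_i(b) k_i(a) = 0`. Also `l_i(b) k_i(b) = 0` (`own_dot`). Hence `k_i(a) ∥ k_i(b)` (`par_of_ker`).
`closePar` at `s0 = 1`. -/

set_option autoImplicit false

namespace Pool.Agent.H50.R2

open Matrix Filter

variable {F ι : Type*} [Field F] [Infinite F] [Fintype ι] [DecidableEq ι]

namespace Inst

variable {I : Inst F ι} {S : Finset ι} {i j : ι}

private theorem symm_step (hij : i ≠ j) (hi : i ∈ S) (hj : j ∈ S) (hS : I.Odd S)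
    (hnu : vec I.nu j ≠ 0) (h : I.Indep j i S) {a b : ι → F} (ha : Supp a S) (hb : Supp b S)
    (hab : ∀ l, l ≠ j → b l = a l) (ra : I.Reg a) (rb : I.Reg b)
    (kb : vec (I.k b) j ≠ 0) (ka : vec (I.k a) j ≠ 0) (lb : vec (I.l b) i ≠ 0) :
    par (vec (I.k b) i) (vec (I.k a) i) := by
  have p : Path (fun u : F => a + (Pi.single i u : ι → F)) := (Path.const a).add (Path.single i)
  have r0 : I.Reg ((fun u : F => a + (Pi.single i u : ι → F)) 0) := by
    show I.Reg (a + (Pi.single i (0 : F) : ι → F))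
    rw [Pi.single_zero, add_zero]
    exact ra
  have hrat : RatAt (0 : F) (fun u : F =>
      vec (I.l b) i ⬝ᵥ vec (I.k (a + (Pi.single i u : ι → F))) i) := by
    apply RatAt.dot
    · intro c
      exact RatAt.const _
    · intro c
      exact I.ratK p r0 (i, c)
  have hz : ∀ᶠ u : F in cofinite,
      vec (I.l b) i ⬝ᵥ vec (I.k (a + (Pi.single i u : ι → F))) i = 0 := by
    have hne : ∀ᶠ u : F in cofinite, u ≠ 0 := by
      rw [Filter.eventually_cofinite]
      simp
    filter_upwards [I.evReg p r0, hne] with u ru hu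
    have hauS : Supp (a + (Pi.single i u : ι → F)) S := by
      intro m hm
      have hmi : m ≠ i := fun e => hm (e ▸ hi)
      simp [ha m hm, Pi.single_eq_of_ne hmi]
    have e1 : par (vec (I.k (a + (Pi.single i u : ι → F))) j) (vec (I.k a) j) :=
      h _ _ hauS ha (fun l hl => by simp [Pi.single_eq_of_ne hl]) ru ra
    have e2 : par (vec (I.k b) j) (vec (I.k a) j) :=
      own_k hS hj hnu hb ha hab rb ra
    have e3 : vec (I.l b) j ⬝ᵥ vec (I.k b) j = 0 := own_dot hS hj hb hb (fun _ _ => rfl) rb rb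
    have e4 : vec (I.l b) j ⬝ᵥ vec (I.k a) j = 0 := ker_of_par kb e2 e3
    have e5 : vec (I.l b) j ⬝ᵥ vec (I.k (a + (Pi.single i u : ι → F))) j = 0 :=
      ker_of_par ka (par_symm e1) e4
    have hE := I.E_id ru rb
    rw [hS _ hauS ru, hS _ hb rb, sub_zero] at hE
    rw [Finset.sum_eq_single i] at hE
    · have : ((a + (Pi.single i u : ι → F)) i - b i) = u := by
        rw [hab i hij]
        simp
      rw [this] at hE
      exact (mul_eq_zero.1 hE).resolve_left hu
    · intro m _ hm
      by_cases hmj : m = j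
      · subst hmj
        rw [e5, mul_zero]
      · rw [hab m hmj]
        simp [Pi.single_eq_of_ne hm]
    · intro hh
      exact absurd (Finset.mem_univ i) hh
  have h0 := hrat.zero hz
  simp only [Pi.single_zero, add_zero] at h0
  exact par_of_ker lb (own_dot hS hi hb hb (fun _ _ => rfl) rb rb) h0

theorem Indep.symm (hij : i ≠ j) (hi : i ∈ S) (hj : j ∈ S) (hS : I.Odd S)
    (hnd : I.NonDeg {i, j}) (h : I.Indep j i S) : I.Indep i j S := by
  intro x y hx hy hxy rx ry
  have px : Path (fun s : F => s • x) := Path.smul x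
  have py : Path (fun s : F => s • y) := Path.smul y
  have r0x : I.Reg ((fun s : F => s • x) 0) := by
    show I.Reg ((0 : F) • x)
    rw [zero_smul]
    exact I.reg_zero
  have r0y : I.Reg ((fun s : F => s • y) 0) := by
    show I.Reg ((0 : F) • y)
    rw [zero_smul]
    exact I.reg_zero
  have hndi := hnd i (by simp)
  have hndj := hnd j (by simp)
  have k0x : vec (I.k ((fun s : F => s • x) 0)) j ≠ 0 := by
    show vec (I.k ((0 : F) • x)) j ≠ 0
    rw [zero_smul, I.k_zero]
    exact hndj.1
  have k0y : vec (I.k ((fun s : F => s • y) 0)) j ≠ 0 := by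
    show vec (I.k ((0 : F) • y)) j ≠ 0
    rw [zero_smul, I.k_zero]
    exact hndj.1
  have l0x : vec (I.l ((fun s : F => s • x) 0)) i ≠ 0 := by
    show vec (I.l ((0 : F) • x)) i ≠ 0
    rw [zero_smul, I.l_zero]
    exact hndi.2
  have key : ∀ᶠ s : F in cofinite,
      par (vec (I.k ((fun s : F => s • x) s)) i) (vec (I.k ((fun s : F => s • y) s)) i) := by
    filter_upwards [I.evReg px r0x, I.evReg py r0y, I.evK px r0x k0x, I.evK py r0y k0y,
      I.evL px r0x l0x] with s rb ra kb ka lb
    have hbS : Supp (s • x) S := hx.smul s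
    have haS : Supp (s • y) S := hy.smul s
    exact symm_step hij hi hj hS hndj.2 h haS hbS (fun l hl => by simp [hxy l hl]) ra rb
      kb ka lb
  have := I.closePar (s0 := 1) px py (by simpa using rx) (by simpa using ry) key
  simpa using this

end Inst

end Pool.Agent.H50.R2
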