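import Pool.Agent.H50.R2.LemC1
import Pool.Agent.H50.R2.LemB
import Pool.Agent.H50.R2.Symm

/-! # Module LemC: proper subsets of a minimal non-odd set are genuine (MP_966f71_lc)

Strong induction on the size of `S` (`Finset.strongInduction`). Size at most 5: `h5`. Otherwise let
`i ≠ j` in `S`, `tau i j = 0`, and suppose `¬ Indep i j S`. By `Indep.symm` also `¬ Indep j i S`, and
`tau j i = 0` (`tau_anti`). `H = (S.erase i).erase j` has at least 4 elements. For `l ≠ m` in `H`,
`lemC1` (contrapositive) says: not both `tau i l = 0`, `tau i m = 0`; and not both `tau j l = 0`,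
`tau j m = 0`. So at most one element of `H` has `tau i . = 0`, at most one has `tau j . = 0`; pick
`l ≠ m` in `H` with all four `tau` nonzero and apply `lemB`. (To pick: the filter of `H` by
`tau i . = 0` has card at most 1, same for `j`; `Finset.card_sdiff`, `Finset.one_lt_card`.) -/

set_option autoImplicit false

namespace Pool.Agent.H50.R2

open Matrix Filter

variable {F ι : Type*} [Field F] [Infinite F] [Fintype ι] [DecidableEq ι]

namespace Inst

variable {I : Inst F ι} {V : Finset ι}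

/-- Picking two elements outside two sets with at most one element each. -/
theorem lemC_pick {α : Type*} [DecidableEq α] {H A B : Finset α} (hH : 4 ≤ H.card)
    (hA : A.card ≤ 1) (hB : B.card ≤ 1) :
    ∃ l ∈ H, ∃ m ∈ H, l ≠ m ∧ l ∉ A ∧ m ∉ A ∧ l ∉ B ∧ m ∉ B := by
  have h1 : H.card - A.card ≤ (H \ A).card := Finset.le_card_sdiff A H
  have h2 : (H \ A).card - B.card ≤ ((H \ A) \ B).card := Finset.le_card_sdiff B (H \ A)
  have h3 : 1 < ((H \ A) \ B).card := by omega
  obtain ⟨l, hl, m, hm, hlm⟩ := Finset.one_lt_card.1 h3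
  simp only [Finset.mem_sdiff] at hl hm
  exact ⟨l, hl.1.1, m, hm.1.1, hlm, hl.1.2, hm.1.2, hl.2, hm.2⟩

/-- One step: all proper subsets of `S` are genuine, `S` has at least six elements. -/
theorem lemC_step (hV : I.MinNon V) (S : Finset ι) (hS : S ⊂ V) (hc : 5 < S.card)
    (ih : ∀ S' ⊂ S, I.Gen S') : I.Gen S := by
  classical
  have hodd : I.Odd S := hV.prop S hS
  have hnd : I.NonDeg S := hV.nd.mono hS.1
  intro i hi j hj hij tij
  by_contra hcon
  have hpair : ({i, j} : Finset ι) ⊆ S := by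
    intro u hu
    rcases Finset.mem_insert.1 hu with rfl | hu
    · exact hi
    · rw [Finset.mem_singleton.1 hu]
      exact hj
  have hnd2 : I.NonDeg {i, j} := hnd.mono hpair
  have hcon' : ¬ I.Indep j i S := fun h => hcon (h.symm hij hi hj hodd hnd2)
  have tji : I.tau j i = 0 := by
    have h := tau_anti hij (hodd.mono hpair)
    rw [tij] at h
    exact neg_eq_zero.1 h.symm
  set H : Finset ι := (S.erase i).erase j with hHdef
  have hHc : 4 ≤ H.card := by
    have h1 : (S.erase i).card = S.card - 1 := Finset.card_erase_of_mem hi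
    have h2 : H.card = (S.erase i).card - 1 :=
      Finset.card_erase_of_mem (Finset.mem_erase.2 ⟨hij.symm, hj⟩)
    omega
  have hmem : ∀ u ∈ H, u ∈ S ∧ i ≠ u ∧ j ≠ u := by
    intro u hu
    rw [hHdef, Finset.mem_erase, Finset.mem_erase] at hu
    exact ⟨hu.2.2, fun h => hu.2.1 h.symm, fun h => hu.1 h.symm⟩
  have hA : (H.filter fun u => I.tau i u = 0).card ≤ 1 := by
    by_contra hlt
    obtain ⟨l, hl, m, hm, hlm⟩ := Finset.one_lt_card.1 (not_le.1 hlt)
    rw [Finset.mem_filter] at hl hm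
    obtain ⟨hlS, hil, hjl⟩ := hmem l hl.1
    obtain ⟨hmS, him, hjm⟩ := hmem m hm.1
    exact hcon (lemC1 hodd hnd ih hi hj hlS hmS hij hil him hjl hjm hlm tij hl.2 hm.2)
  have hB : (H.filter fun u => I.tau j u = 0).card ≤ 1 := by
    by_contra hlt
    obtain ⟨l, hl, m, hm, hlm⟩ := Finset.one_lt_card.1 (not_le.1 hlt)
    rw [Finset.mem_filter] at hl hm
    obtain ⟨hlS, hil, hjl⟩ := hmem l hl.1
    obtain ⟨hmS, him, hjm⟩ := hmem m hm.1
    exact hcon' (lemC1 hodd hnd ih hj hi hlS hmS hij.symm hjl hjm hil him hlm tji hl.2 hm.2)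
  obtain ⟨l, hl, m, hm, hlm, a1, a2, b1, b2⟩ := lemC_pick hHc hA hB
  obtain ⟨hlS, hil, hjl⟩ := hmem l hl
  obtain ⟨hmS, him, hjm⟩ := hmem m hm
  have til : I.tau i l ≠ 0 := fun h => a1 (Finset.mem_filter.2 ⟨hl, h⟩)
  have tim : I.tau i m ≠ 0 := fun h => a2 (Finset.mem_filter.2 ⟨hm, h⟩)
  have tjl : I.tau j l ≠ 0 := fun h => b1 (Finset.mem_filter.2 ⟨hl, h⟩)
  have tjm : I.tau j m ≠ 0 := fun h => b2 (Finset.mem_filter.2 ⟨hm, h⟩)
  exact lemB hV (hS.1 hi) (hS.1 hj) (hS.1 hlS) (hS.1 hmS) hij hil him hjl hjm hlm til tim tjl tjm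

theorem lemC (hV : I.MinNon V) (h5 : ∀ S ⊆ V, S.card ≤ 5 → I.Gen S) (S : Finset ι)
    (hS : S ⊂ V) : I.Gen S := by
  induction S using Finset.strongInduction with
  | H S ih =>
    by_cases hc : S.card ≤ 5
    · exact h5 S hS.1 hc
    · exact lemC_step hV S hS (not_le.1 hc) fun S' hS' => ih S' hS' (hS'.trans hS)

end Inst

end Pool.Agent.H50.R2
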