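import Pool.Agent.H50.R2.Iso
import Pool.Agent.H50.R2.Base

/-! # Module LemC1: the step with an isolated index (MP_966f71_lc)

`S` odd, all proper subsets of `S` genuine, `i, j, l, m ∈ S` different, `i` adjacent to none of
`j, l, m`. Claim: on `S` the direction of `k_i` does not depend on `x_j`. Let `x, y` be supported
on `S`, equal off `j`, regular; `Q = {i, j, l, m}`. For almost all `s` the points `s • x`, `s • y`
and `c = s • rst x (S \ Q)` are regular, and `ev_good` holds at `c` (for `V = S`). `J = I.shift c`: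
* `J.Odd Q` (`Odd.shift`, `Q ∪ (S \ Q) = S`);
* `tau i j`, `tau i l`, `tau i m` vanish for `J`: for `u ∈ {j, l, m}` let `Q'` be a 3-subset of `Q`
  containing `i, u`; `Q' ∪ (S \ Q)` is a proper subset of `S`, so genuine, so
  `I.Indep i u (Q' ∪ (S \ Q))`, hence `J.Indep i u Q'` (`Indep.shift`), and `tau_zero`;
* the 3-subsets `Q'` of `Q` are genuine for `J`: if `J.tau a b = 0` then `I.tau a b = 0` by
  `ev_good`, so `I.Indep a b (Q' ∪ (S \ Q))`, so `J.Indep a b Q'`.
`isolated` for `J` at `rst (s • x) Q` and `rst (s • y) Q` (both regular for `J`, `reg_add`), and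
`k^J(rst (s • x) Q) = k(s • x)`, `k^J(rst (s • y) Q) = k(s • y)` as `s • y` agrees with `s • x`
off `Q`: `nu^J_i` kills both `k_i(s • x)` and `k_i(s • y)`. `par_of_ker`, `closePar` at 1. -/

set_option autoImplicit false

namespace Pool.Agent.H50.R2

open Matrix Filter

variable {F ι : Type*} [Field F] [Infinite F] [Fintype ι] [DecidableEq ι]

namespace Inst

variable {I : Inst F ι} {S : Finset ι} {i j l m : ι}

omit [Infinite F] in
/-- Proper subsets stay genuine after a generic change of the base point. -/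
theorem lemC1_gen {Q Q' : Finset ι} {c : ι → F} (hg : ∀ S' ⊂ S, I.Gen S') (hQ : Q ⊆ S)
    (hQ' : Q' ⊆ Q) {q : ι} (hq : q ∈ Q) (hq' : q ∉ Q') (hc : Supp c (S \ Q)) (rc : I.Reg c)
    (ht : ∀ a ∈ S, ∀ b ∈ S, I.tau a b ≠ 0 → (I.shift c).tau a b ≠ 0) :
    Q' ∪ (S \ Q) ⊂ S ∧ (I.shift c).Gen Q' := by
  have hs : Q' ∪ (S \ Q) ⊂ S := by
    rw [Finset.ssubset_iff_of_subset
      (Finset.union_subset (hQ'.trans hQ) Finset.sdiff_subset)]
    refine ⟨q, hQ hq, ?_⟩
    rw [Finset.mem_union, Finset.mem_sdiff]
    rintro (h | h)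
    · exact hq' h
    · exact h.2 hq
  refine ⟨hs, fun a ha b hb hab hJ => ?_⟩
  have hI : I.tau a b = 0 := by
    by_contra h
    exact ht a (hQ (hQ' ha)) b (hQ (hQ' hb)) h hJ
  exact Indep.shift (hg _ hs a (Finset.mem_union_left _ ha) b (Finset.mem_union_left _ hb)
    hab hI) hc rc

/-- The isolated index stays isolated after a generic change of the base point. -/
theorem lemC1_tau {Q : Finset ι} {c : ι → F} {u : ι} (hS : I.Odd S)
    (hg : ∀ S' ⊂ S, I.Gen S') (hQ : Q ⊆ S) (hi : i ∈ Q) (hu : u ∈ Q) (hiu : i ≠ u) {q : ι}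
    (hq : q ∈ Q) (hqi : q ≠ i) (hqu : q ≠ u) (hc : Supp c (S \ Q)) (rc : I.Reg c)
    (hnd : (I.shift c).NonDeg S) (htau : I.tau i u = 0) : (I.shift c).tau i u = 0 := by
  have hsub : ({i, u} : Finset ι) ⊆ Q := by
    intro a ha
    rcases Finset.mem_insert.mp ha with h | h
    · rw [h]
      exact hi
    · rw [Finset.mem_singleton.mp h]
      exact hu
  have hs : ({i, u} : Finset ι) ∪ (S \ Q) ⊂ S := by
    rw [Finset.ssubset_iff_of_subset
      (Finset.union_subset (hsub.trans hQ) Finset.sdiff_subset)]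
    refine ⟨q, hQ hq, ?_⟩
    rw [Finset.mem_union, Finset.mem_sdiff]
    rintro (h | h)
    · rcases Finset.mem_insert.mp h with h1 | h1
      · exact hqi h1
      · exact hqu (Finset.mem_singleton.mp h1)
    · exact h.2 hq
  have h1 : I.Indep i u ({i, u} ∪ (S \ Q)) :=
    hg _ hs i (Finset.mem_union_left _ (Finset.mem_insert_self i _)) u
      (Finset.mem_union_left _ (Finset.mem_insert_of_mem (Finset.mem_singleton_self u))) hiu htau
  exact tau_zero hiu (Odd.shift (hS.mono hs.subset) hc rc)
    (hnd.mono (hsub.trans hQ)) (Indep.shift h1 hc rc)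

theorem lemC1 (hS : I.Odd S) (hnd : I.NonDeg S) (hg : ∀ S' ⊂ S, I.Gen S') (hi : i ∈ S)
    (hj : j ∈ S) (hl : l ∈ S) (hm : m ∈ S)
    (hij : i ≠ j) (hil : i ≠ l) (him : i ≠ m) (hjl : j ≠ l) (hjm : j ≠ m) (hlm : l ≠ m)
    (tij : I.tau i j = 0) (til : I.tau i l = 0) (tim : I.tau i m = 0) : I.Indep i j S := by
  intro x y hx hy hxy rx ry
  have hQ : ({i, j, l, m} : Finset ι) ⊆ S := by
    intro a ha
    simp only [Finset.mem_insert, Finset.mem_singleton] at ha
    rcases ha with h | h | h | h <;> rw [h] <;> assumption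
  have rx1 : I.Reg ((1 : F) • x) := by rwa [one_smul]
  have ry1 : I.Reg ((1 : F) • y) := by rwa [one_smul]
  have hx' := I.evReg (s0 := (1 : F)) (x := fun s : F => s • x) (Path.smul x) rx1
  have hy' := I.evReg (s0 := (1 : F)) (x := fun s : F => s • y) (Path.smul y) ry1
  have hc' := ev_good hnd (rst x (S \ {i, j, l, m}))
  have key : ∀ᶠ s : F in cofinite, par (vec (I.k (s • x)) i) (vec (I.k (s • y)) i) := by
    filter_upwards [hx', hy', hc'] with s hsx hsy hsc
    obtain ⟨rc, nd, ht⟩ := hsc
    have hc : Supp (s • rst x (S \ {i, j, l, m})) (S \ {i, j, l, m}) := (supp_rst x _).smul s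
    have ex : s • rst x (S \ {i, j, l, m}) + rst (s • x) {i, j, l, m} = s • x := by
      have h1 := rst_add_rst (hx.smul s) hQ
      have h2 : s • rst x (S \ {i, j, l, m}) = rst (s • x) (S \ {i, j, l, m}) := by
        funext a
        simp only [rst, Pi.smul_apply, smul_eq_mul]
        split_ifs <;> simp
      rw [h2]
      exact h1
    have ey : s • rst x (S \ {i, j, l, m}) + rst (s • y) {i, j, l, m} = s • y := by
      have h1 := rst_add_rst (hy.smul s) hQ
      have h2 : s • rst x (S \ {i, j, l, m}) = rst (s • y) (S \ {i, j, l, m}) := by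
        funext a
        by_cases haj : a = j
        · have hn : a ∉ S \ {i, j, l, m} := by
            rw [haj]
            simp
          simp only [rst, Pi.smul_apply, if_neg hn, smul_zero]
        · simp only [rst, Pi.smul_apply, smul_eq_mul, hxy a haj]
          split_ifs <;> simp
      rw [h2]
      exact h1
    have ho : (I.shift (s • rst x (S \ {i, j, l, m}))).Odd {i, j, l, m} :=
      Odd.shift (by rwa [Finset.union_sdiff_of_subset hQ]) hc rc
    have g1 : (I.shift (s • rst x (S \ {i, j, l, m}))).Gen {i, j, l} :=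
      (lemC1_gen hg hQ (q := m) (by
        intro a ha
        simp only [Finset.mem_insert, Finset.mem_singleton] at ha ⊢
        tauto) (by simp) (by simp [him.symm, hjm.symm, hlm.symm]) hc rc ht).2
    have g2 : (I.shift (s • rst x (S \ {i, j, l, m}))).Gen {i, j, m} :=
      (lemC1_gen hg hQ (q := l) (by
        intro a ha
        simp only [Finset.mem_insert, Finset.mem_singleton] at ha ⊢
        tauto) (by simp) (by simp [hil.symm, hjl.symm, hlm]) hc rc ht).2
    have g3 : (I.shift (s • rst x (S \ {i, j, l, m}))).Gen {i, l, m} :=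
      (lemC1_gen hg hQ (q := j) (by
        intro a ha
        simp only [Finset.mem_insert, Finset.mem_singleton] at ha ⊢
        tauto) (by simp) (by simp [hij.symm, hjl, hjm]) hc rc ht).2
    have g4 : (I.shift (s • rst x (S \ {i, j, l, m}))).Gen {j, l, m} :=
      (lemC1_gen hg hQ (q := i) (by
        intro a ha
        simp only [Finset.mem_insert, Finset.mem_singleton] at ha ⊢
        tauto) (by simp) (by simp [hij, hil, him]) hc rc ht).2
    have t1 : (I.shift (s • rst x (S \ {i, j, l, m}))).tau i j = 0 :=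
      lemC1_tau hS hg hQ (by simp) (by simp) hij (q := l) (by simp) hil.symm hjl.symm hc rc nd
        tij
    have t2 : (I.shift (s • rst x (S \ {i, j, l, m}))).tau i l = 0 :=
      lemC1_tau hS hg hQ (by simp) (by simp) hil (q := j) (by simp) hij.symm hjl hc rc nd til
    have t3 : (I.shift (s • rst x (S \ {i, j, l, m}))).tau i m = 0 :=
      lemC1_tau hS hg hQ (by simp) (by simp) him (q := j) (by simp) hij.symm hjm hc rc nd tim
    have e1 : vec (I.shift (s • rst x (S \ {i, j, l, m}))).nu i ⬝ᵥ vec (I.k (s • x)) i = 0 := by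
      have r1 : I.Reg (s • rst x (S \ {i, j, l, m}) + rst (s • x) {i, j, l, m}) := by
        rw [ex]
        exact hsx
      have h := isolated hij hil him hjl hjm hlm (nd.mono hQ) ho g1 g2 g3 g4 t1 t2 t3
        (supp_rst (s • x) _) ((I.reg_add rc).mpr r1)
      rw [I.k_add rc r1, ex] at h
      exact h
    have e2 : vec (I.shift (s • rst x (S \ {i, j, l, m}))).nu i ⬝ᵥ vec (I.k (s • y)) i = 0 := by
      have r1 : I.Reg (s • rst x (S \ {i, j, l, m}) + rst (s • y) {i, j, l, m}) := by
        rw [ey]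
        exact hsy
      have h := isolated hij hil him hjl hjm hlm (nd.mono hQ) ho g1 g2 g3 g4 t1 t2 t3
        (supp_rst (s • y) _) ((I.reg_add rc).mpr r1)
      rw [I.k_add rc r1, ey] at h
      exact h
    exact par_of_ker (nd i hi).2 e1 e2
  have hfin := I.closePar (s0 := (1 : F)) (x := fun s : F => s • x) (y := fun s : F => s • y)
    (Path.smul x) (Path.smul y) rx1 ry1 key
  simpa using hfin

end Inst

end Pool.Agent.H50.R2
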