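import Mathlib

/-! # Module LinCount: dimension counts (MP_966f71_lc)

* `finrank_le_sum`: the map `U → Π c, U ⧸ K c` has kernel `⨅ c, K c`
  (`LinearMap.finrank_range_add_finrank_ker`, `Module.finrank_pi_fintype`,
  `Submodule.finrank_quotient_add_finrank`).
* `finrank_dotAnn`: the dot product is a nondegenerate bilinear form (or use the dual annihilator
  and `Subspace.finrank_add_finrank_dualAnnihilator_eq`, or rank of a matrix whose rows span `R`). -/

set_option autoImplicit false

namespace Pool.Agent.H50.R2

open Module Matrix

theorem finrank_le_sum {F C U : Type*} [Field F] [Fintype C] [AddCommGroup U] [Module F U]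
    [FiniteDimensional F U] (K : C → Submodule F U) (d : C → ℕ)
    (hd : ∀ c, finrank F U ≤ finrank F (K c) + d c) :
    finrank F U ≤ finrank F (⨅ c, K c : Submodule F U) + ∑ c, d c := by
  have h1 := LinearMap.finrank_range_add_finrank_ker
    (LinearMap.pi fun c => (K c).mkQ : U →ₗ[F] (c : C) → U ⧸ K c)
  have h2 : LinearMap.ker (LinearMap.pi fun c => (K c).mkQ : U →ₗ[F] (c : C) → U ⧸ K c) =
      ⨅ c, K c := by
    rw [LinearMap.ker_pi]
    simp only [Submodule.ker_mkQ]
  rw [h2] at h1
  have h3 : finrank F (LinearMap.range
      (LinearMap.pi fun c => (K c).mkQ : U →ₗ[F] (c : C) → U ⧸ K c)) ≤ ∑ c, d c := by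
    refine (Submodule.finrank_le _).trans ?_
    rw [Module.finrank_pi_fintype]
    refine Finset.sum_le_sum fun c _ => ?_
    have h4 := Submodule.finrank_quotient_add_finrank (K c)
    have h5 := hd c
    omega
  omega

/-- The annihilator of a subspace with respect to the dot product. -/
def dotAnn {F n : Type*} [Field F] [Fintype n] (R : Submodule F (n → F)) :
    Submodule F (n → F) where
  carrier := {v | ∀ r ∈ R, v ⬝ᵥ r = 0}
  zero_mem' := fun r _ => by simp
  add_mem' := fun {a b} ha hb r hr => by rw [add_dotProduct, ha r hr, hb r hr, add_zero]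
  smul_mem' := fun c a ha r hr => by rw [smul_dotProduct, ha r hr, smul_zero]

theorem finrank_dotAnn {F n : Type*} [Field F] [Fintype n] (R : Submodule F (n → F)) :
    finrank F (dotAnn R) + finrank F R = Fintype.card n := by
  classical
  have h1 : dotAnn R = R.dualAnnihilator.comap
      (dotProductEquiv F n : (n → F) →ₗ[F] Dual F (n → F)) := by
    ext v
    simp only [Submodule.mem_comap, Submodule.mem_dualAnnihilator]
    exact Iff.rfl
  have h2 : finrank F (dotAnn R) = finrank F R.dualAnnihilator := by
    rw [h1, Submodule.comap_equiv_eq_map_symm]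
    exact LinearEquiv.finrank_map_eq (dotProductEquiv F n).symm R.dualAnnihilator
  have h3 := Subspace.finrank_add_finrank_dualAnnihilator_eq R
  rw [Module.finrank_fintype_fun_eq_card] at h3
  omega

end Pool.Agent.H50.R2
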