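import Pool.Agent.H50.R2.Own

/-! # Module Master: the master identity (MP_966f71_lc)

* `exists_area`: `exists_area_const` for each `i` (`single_dot`), `quad` for each `i`: its
  hypothesis is `w ar(T_ii mu_i, mu_i) = - nu_i(T_ii mu_i) = - tau i i = 0` (`single_tau`).
* `master`: expand `0 = sum_i x_i w_i ar(k_i, k_i)`, inserting
  `k_i = mu_i + sum_j x_j T_ij k_j` in the first place: `0 = sum_i x_i w_i ar(mu_i, k_i) +
  sum_(i,j) x_i x_j w_i ar(T_ij k_j, k_i) = h + sum_(i,j) ...`. The diagonal terms are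
  `- x_i ^ 2 nu_i(k_i) th_i(k_i)`, and `h * sum_j x_j th_j(k_j) = sum_(i,j) x_i x_j nu_i(k_i)
  th_j(k_j)` whose diagonal terms cancel them.
* the versions for 2, 3, 4 indices: expand the sums (`Finset.sum_insert`, `Finset.erase_insert`,
  ... by `simp` with the inequalities) and collect the two halves of `dfct`.
* `odd_of_mul`: path `s ↦ s • x`: for almost all `s` it is regular and `g (s • x) ≠ 0`
  (`RatAt.ne`, `g 0 ≠ 0`), so `h (s • x) = 0`; `closeH` at `s0 = 1`. -/

set_option autoImplicit false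

namespace Pool.Agent.H50.R2

open Matrix Filter

variable {F ι : Type*} [Field F] [Infinite F] [Fintype ι] [DecidableEq ι]

namespace Inst

variable {I : Inst F ι} {S : Finset ι} {i j l m : ι} {x : ι → F} {w : ι → F}
  {th : ι → Fin 2 → F}

theorem exists_area (hnd : I.NonDeg S) (h : ∀ i ∈ S, I.Odd {i}) :
    ∃ (w : ι → F) (th : ι → Fin 2 → F), I.IsArea S w th := by
  have key : ∀ i, ∃ (w : F) (t : Fin 2 → F), i ∈ S →
      (∀ b, vec I.nu i ⬝ᵥ b = w * ar (vec I.mu i) b) ∧
      (∀ a, w * ar (blk I.T i i *ᵥ a) a = -((vec I.nu i ⬝ᵥ a) * (t ⬝ᵥ a))) := by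
    intro i
    by_cases hi : i ∈ S
    · obtain ⟨hm, hn⟩ := hnd i hi
      have hd := single_dot (h i hi)
      obtain ⟨w, hw⟩ := exists_area_const hm hd
      have h0 : w * ar (blk I.T i i *ᵥ vec I.mu i) (vec I.mu i) = 0 := by
        have h1 := hw (blk I.T i i *ᵥ vec I.mu i)
        have h2 := single_tau (h i hi)
        unfold tau at h2
        rw [ar_swap, mul_neg, ← h1, h2, neg_zero]
      obtain ⟨t, ht⟩ := quad hm hn hd w (blk I.T i i) h0
      exact ⟨w, t, fun _ => ⟨hw, ht⟩⟩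
    · exact ⟨0, 0, fun hi' => absurd hi' hi⟩
  choose w th hh using key
  exact ⟨w, th, ⟨fun i hi => (hh i hi).1, fun i hi => (hh i hi).2⟩⟩

omit [Infinite F] in
theorem master (hA : I.IsArea S w th) (hS : Supp x S) (hx : I.Reg x) :
    I.h x * (1 - ∑ j ∈ S, x j * (th j ⬝ᵥ vec (I.k x) j)) =
      - ∑ i ∈ S, ∑ j ∈ S.erase i, x i * x j *
        (w i * ar (blk I.T i j *ᵥ vec (I.k x) j) (vec (I.k x) i) +
          (vec I.nu i ⬝ᵥ vec (I.k x) i) * (th j ⬝ᵥ vec (I.k x) j)) := by
  have hk := I.k_eq_on hx hS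
  have hN : ∀ i ∈ S, (vec I.nu i ⬝ᵥ vec (I.k x) i) =
      x i * ((vec I.nu i ⬝ᵥ vec (I.k x) i) * (th i ⬝ᵥ vec (I.k x) i)) -
        ∑ j ∈ S.erase i, x j * (w i * ar (blk I.T i j *ᵥ vec (I.k x) j) (vec (I.k x) i)) := by
    intro i hi
    have h0 : ar (vec (I.k x) i) (vec (I.k x) i) = 0 := ar_self _
    have h1 : ar (vec I.mu i) (vec (I.k x) i) +
        ∑ j ∈ S, x j * ar (blk I.T i j *ᵥ vec (I.k x) j) (vec (I.k x) i) = 0 := by
      rw [← h0]
      conv_rhs => rw [show ar (vec (I.k x) i) (vec (I.k x) i) =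
        ar (vec I.mu i + ∑ j ∈ S, x j • (blk I.T i j *ᵥ vec (I.k x) j)) (vec (I.k x) i) by
          rw [← hk i]]
      rw [ar_add_left, ar_sum_left]
      simp only [ar_smul_left]
    have h2 : (vec I.nu i ⬝ᵥ vec (I.k x) i) +
        ∑ j ∈ S, x j * (w i * ar (blk I.T i j *ᵥ vec (I.k x) j) (vec (I.k x) i)) = 0 := by
      rw [hA.hw i hi]
      have h3 := congrArg (fun z => w i * z) h1
      simp only [mul_add, mul_zero, Finset.mul_sum] at h3
      rw [← h3]
      congr 1
      refine Finset.sum_congr rfl fun j _ => ?_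
      ring
    rw [← Finset.add_sum_erase S _ hi] at h2
    have h4 := hA.hth i hi (vec (I.k x) i)
    rw [h4] at h2
    linear_combination h2
  rw [I.h_eq_on hS, mul_sub, mul_one, Finset.sum_mul, ← Finset.sum_sub_distrib,
    ← Finset.sum_neg_distrib]
  refine Finset.sum_congr rfl fun i hi => ?_
  have h5 : ∑ j ∈ S, x j * (th j ⬝ᵥ vec (I.k x) j) = x i * (th i ⬝ᵥ vec (I.k x) i) +
      ∑ j ∈ S.erase i, x j * (th j ⬝ᵥ vec (I.k x) j) := (Finset.add_sum_erase S _ hi).symm
  have h6 : ∑ j ∈ S.erase i, x i * x j *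
        (w i * ar (blk I.T i j *ᵥ vec (I.k x) j) (vec (I.k x) i) +
          (vec I.nu i ⬝ᵥ vec (I.k x) i) * (th j ⬝ᵥ vec (I.k x) j)) =
      x i * ∑ j ∈ S.erase i, x j * (w i * ar (blk I.T i j *ᵥ vec (I.k x) j) (vec (I.k x) i)) +
      x i * (vec I.nu i ⬝ᵥ vec (I.k x) i) *
        ∑ j ∈ S.erase i, x j * (th j ⬝ᵥ vec (I.k x) j) := by
    rw [Finset.mul_sum, Finset.mul_sum, ← Finset.sum_add_distrib]
    refine Finset.sum_congr rfl fun j _ => ?_
    ring
  rw [h5, h6]
  linear_combination x i * hN i hi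

omit [Infinite F] in
theorem master_pair (hij : i ≠ j) (hA : I.IsArea {i, j} w th) (hS : Supp x {i, j})
    (hx : I.Reg x) :
    I.h x * (1 - (x i * (th i ⬝ᵥ vec (I.k x) i) + x j * (th j ⬝ᵥ vec (I.k x) j))) =
      -(x i * x j * I.dfct w th i j (vec (I.k x) j) (vec (I.k x) i)) := by
  have h := master hA hS hx
  simp only [Finset.sum_erase_eq_sub, Finset.mem_insert, Finset.mem_singleton, true_or, or_true,
    Finset.sum_insert, hij, not_false_eq_true, Finset.sum_singleton, or_false] at h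
  rw [h]
  unfold dfct
  ring

omit [Infinite F] in
theorem master_triple (hij : i ≠ j) (hil : i ≠ l) (hjl : j ≠ l) (hA : I.IsArea {i, j, l} w th)
    (hS : Supp x {i, j, l}) (hx : I.Reg x) :
    I.h x * (1 - (x i * (th i ⬝ᵥ vec (I.k x) i) + x j * (th j ⬝ᵥ vec (I.k x) j) +
        x l * (th l ⬝ᵥ vec (I.k x) l))) =
      -(x i * x j * I.dfct w th i j (vec (I.k x) j) (vec (I.k x) i) +
        x i * x l * I.dfct w th i l (vec (I.k x) l) (vec (I.k x) i) +
        x j * x l * I.dfct w th j l (vec (I.k x) l) (vec (I.k x) j)) := by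
  have h := master hA hS hx
  have e : ∀ f : ι → F, ∑ a ∈ ({i, j, l} : Finset ι), f a = f i + f j + f l := by
    intro f
    rw [Finset.sum_insert (by simp [hij, hil]), Finset.sum_insert (by simp [hjl]),
      Finset.sum_singleton, add_assoc]
  have e' : ∀ f : ι → ι → F, ∑ a ∈ ({i, j, l} : Finset ι),
      ∑ b ∈ ({i, j, l} : Finset ι).erase a, f a b =
      f i j + f i l + f j i + f j l + f l i + f l j := by
    intro f
    rw [e, Finset.sum_erase_eq_sub (by simp), Finset.sum_erase_eq_sub (by simp),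
      Finset.sum_erase_eq_sub (by simp), e, e, e]
    ring
  rw [e, e'] at h
  rw [h]
  unfold dfct
  ring

omit [Infinite F] in
theorem master_quad (hij : i ≠ j) (hil : i ≠ l) (him : i ≠ m) (hjl : j ≠ l) (hjm : j ≠ m)
    (hlm : l ≠ m) (hA : I.IsArea {i, j, l, m} w th) (hS : Supp x {i, j, l, m}) (hx : I.Reg x) :
    I.h x * (1 - (x i * (th i ⬝ᵥ vec (I.k x) i) + x j * (th j ⬝ᵥ vec (I.k x) j) +
        x l * (th l ⬝ᵥ vec (I.k x) l) + x m * (th m ⬝ᵥ vec (I.k x) m))) =
      -(x i * x j * I.dfct w th i j (vec (I.k x) j) (vec (I.k x) i) +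
        x i * x l * I.dfct w th i l (vec (I.k x) l) (vec (I.k x) i) +
        x i * x m * I.dfct w th i m (vec (I.k x) m) (vec (I.k x) i) +
        x j * x l * I.dfct w th j l (vec (I.k x) l) (vec (I.k x) j) +
        x j * x m * I.dfct w th j m (vec (I.k x) m) (vec (I.k x) j) +
        x l * x m * I.dfct w th l m (vec (I.k x) m) (vec (I.k x) l)) := by
  have h := master hA hS hx
  have e : ∀ f : ι → F, ∑ a ∈ ({i, j, l, m} : Finset ι), f a = f i + f j + f l + f m := by
    intro f
    rw [Finset.sum_insert (by simp [hij, hil, him]), Finset.sum_insert (by simp [hjl, hjm]),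
      Finset.sum_insert (by simp [hlm]), Finset.sum_singleton, add_assoc, add_assoc]
  have e' : ∀ f : ι → ι → F, ∑ a ∈ ({i, j, l, m} : Finset ι),
      ∑ b ∈ ({i, j, l, m} : Finset ι).erase a, f a b =
      f i j + f i l + f i m + f j i + f j l + f j m + f l i + f l j + f l m +
        f m i + f m j + f m l := by
    intro f
    rw [e, Finset.sum_erase_eq_sub (by simp), Finset.sum_erase_eq_sub (by simp),
      Finset.sum_erase_eq_sub (by simp), Finset.sum_erase_eq_sub (by simp), e, e, e, e]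
    ring
  rw [e, e'] at h
  rw [h]
  unfold dfct
  ring

theorem odd_of_mul (g : (ι → F) → F) (hg : ∀ x, Supp x S → RatAt 0 (fun s : F => g (s • x)))
    (hg0 : g 0 ≠ 0) (H : ∀ x, Supp x S → I.Reg x → I.h x * g x = 0) : I.Odd S := by
  intro x hxS hx
  have hp : Path (fun s : F => s • x) := Path.smul x
  have hr0 : I.Reg ((fun s : F => s • x) 0) := by
    simpa using I.reg_zero
  have h1 := I.evReg hp hr0
  have h2 := (hg x hxS).ne (by simpa using hg0)
  have h3 : ∀ᶠ s in cofinite, I.h ((fun s : F => s • x) s) = 0 := by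
    filter_upwards [h1, h2] with s hs1 hs2
    have hsupp : Supp (s • x) S := by
      intro i hi
      simp [hxS i hi]
    have := H (s • x) hsupp hs1
    exact (mul_eq_zero.mp this).resolve_right hs2
  have hr1 : I.Reg ((fun s : F => s • x) 1) := by
    simpa using hx
  have h4 := I.closeH hp hr1 h3
  simpa using h4

omit [Infinite F] in
theorem dfct_symm (a b : Fin 2 → F) : I.dfct w th i j a b = I.dfct w th j i b a := by
  unfold dfct
  ring

omit [Infinite F] in
theorem dfct_add_left (u v b : Fin 2 → F) :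
    I.dfct w th i j (u + v) b = I.dfct w th i j u b + I.dfct w th i j v b := by
  unfold dfct
  rw [mulVec_add, ar_add_left, ar_add_right, dotProduct_add, dotProduct_add]
  ring

omit [Infinite F] in
theorem dfct_smul_left (c : F) (u b : Fin 2 → F) :
    I.dfct w th i j (c • u) b = c * I.dfct w th i j u b := by
  unfold dfct
  rw [mulVec_smul, ar_smul_left, ar_smul_right, dotProduct_smul, dotProduct_smul]
  simp only [smul_eq_mul]
  ring

omit [Infinite F] in
theorem dfct_add_right (a u v : Fin 2 → F) :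
    I.dfct w th i j a (u + v) = I.dfct w th i j a u + I.dfct w th i j a v := by
  unfold dfct
  rw [mulVec_add, ar_add_left, ar_add_right, dotProduct_add, dotProduct_add]
  ring

omit [Infinite F] in
theorem dfct_smul_right (c : F) (a u : Fin 2 → F) :
    I.dfct w th i j a (c • u) = c * I.dfct w th i j a u := by
  unfold dfct
  rw [mulVec_smul, ar_smul_left, ar_smul_right, dotProduct_smul, dotProduct_smul]
  simp only [smul_eq_mul]
  ring

omit [Infinite F] in
/-- `R_ij(mu_j, mu_i) = - tau_ij - tau_ji` -/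
theorem dfct_mu (hA : I.IsArea {i, j} w th) :
    I.dfct w th i j (vec I.mu j) (vec I.mu i) = - I.tau i j - I.tau j i +
      (vec I.nu i ⬝ᵥ vec I.mu i) * (th j ⬝ᵥ vec I.mu j) +
      (vec I.nu j ⬝ᵥ vec I.mu j) * (th i ⬝ᵥ vec I.mu i) := by
  have h1 := hA.hw i (by simp) (blk I.T i j *ᵥ vec I.mu j)
  have h2 := hA.hw j (by simp) (blk I.T j i *ᵥ vec I.mu i)
  unfold dfct tau
  rw [h1, h2, ar_swap (blk I.T i j *ᵥ vec I.mu j), ar_swap (blk I.T j i *ᵥ vec I.mu i)]
  ring

/-- rationality along `s ↦ s • x` of the correction factor -/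
theorem rat_theta (x : ι → F) (i : ι) (t : Fin 2 → F) :
    RatAt 0 (fun s : F => (s • x) i * (t ⬝ᵥ vec (I.k (s • x)) i)) := by
  have hp : Path (fun s : F => s • x) := Path.smul x
  have hr0 : I.Reg ((fun s : F => s • x) 0) := by
    simpa using I.reg_zero
  have h1 : RatAt (0 : F) (fun s : F => s * x i) := RatAt.var.mul (RatAt.const (x i))
  have h2 : RatAt (0 : F) (fun s : F => t ⬝ᵥ vec (I.k (s • x)) i) :=
    RatAt.dot (fun j => RatAt.const (t j)) (fun j => I.ratK hp hr0 (i, j))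
  exact h1.mul h2

end Inst

end Pool.Agent.H50.R2
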