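import Pool.Agent.H50.R2.Rat

/-! # Module MatRat: matrices whose entries are rational functions (MP_966f71_lc)

All by `RatAt.sum`, `RatAt.prod`, `RatAt.mul`, `RatAt.inv`. Determinant: `Matrix.det_apply`.
Inverse: `Matrix.inv_def`, `Ring.inverse_eq_inv'`, `Matrix.adjugate_apply`: an entry of the adjugate
is a determinant of a matrix whose entries are entries of `A` or constants. -/

set_option autoImplicit false

namespace Pool.Agent.H50.R2

open Filter Matrix

variable {F : Type*} [Field F] {s0 : F} {m n l : Type*} [Fintype m] [Fintype n] [DecidableEq n]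

theorem RatAt.det {A : F → Matrix n n F} (h : ∀ i j, RatAt s0 (fun s => A s i j)) :
    RatAt s0 (fun s => (A s).det) := by
  simp only [Matrix.det_apply, Units.smul_def, zsmul_eq_mul]
  refine RatAt.sum Finset.univ (fun (σ : Equiv.Perm n) s =>
    (((Equiv.Perm.sign σ : ℤˣ) : ℤ) : F) * ∏ i, A s (σ i) i) fun σ _ => ?_
  exact RatAt.mul (RatAt.const _) (RatAt.prod Finset.univ (fun i s => A s (σ i) i) fun i _ => h _ _)

theorem RatAt.matInv {A : F → Matrix n n F} (h : ∀ i j, RatAt s0 (fun s => A s i j))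
    (h0 : (A s0).det ≠ 0) (i j : n) : RatAt s0 (fun s => (A s)⁻¹ i j) := by
  simp only [Matrix.inv_def, Ring.inverse_eq_inv', Matrix.smul_apply, smul_eq_mul,
    Matrix.adjugate_apply]
  refine RatAt.mul (RatAt.inv (RatAt.det h) h0) (RatAt.det fun a b => ?_)
  by_cases hab : a = j
  · subst hab
    simp only [Matrix.updateRow_self]
    exact RatAt.const _
  · simp only [Matrix.updateRow_ne hab]
    exact h a b

theorem RatAt.matMul {A : F → Matrix l m F} {B : F → Matrix m n F}
    (hA : ∀ i j, RatAt s0 (fun s => A s i j)) (hB : ∀ i j, RatAt s0 (fun s => B s i j))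
    (i : l) (j : n) : RatAt s0 (fun s => (A s * B s) i j) := by
  simp only [Matrix.mul_apply]
  exact RatAt.sum Finset.univ (fun k s => A s i k * B s k j) fun k _ => RatAt.mul (hA i k) (hB k j)

theorem RatAt.matMulVec {A : F → Matrix l m F} {v : F → m → F}
    (hA : ∀ i j, RatAt s0 (fun s => A s i j)) (hv : ∀ j, RatAt s0 (fun s => v s j))
    (i : l) : RatAt s0 (fun s => (A s *ᵥ v s) i) := by
  simp only [Matrix.mulVec, dotProduct]
  exact RatAt.sum Finset.univ (fun k s => A s i k * v s k) fun k _ => RatAt.mul (hA i k) (hv k)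

theorem RatAt.matVecMul {A : F → Matrix m n F} {v : F → m → F}
    (hA : ∀ i j, RatAt s0 (fun s => A s i j)) (hv : ∀ j, RatAt s0 (fun s => v s j))
    (i : n) : RatAt s0 (fun s => (v s ᵥ* A s) i) := by
  simp only [Matrix.vecMul, dotProduct]
  exact RatAt.sum Finset.univ (fun k s => v s k * A s k i) fun k _ => RatAt.mul (hv k) (hA k i)

theorem RatAt.dot {u v : F → m → F} (hu : ∀ j, RatAt s0 (fun s => u s j))
    (hv : ∀ j, RatAt s0 (fun s => v s j)) : RatAt s0 (fun s => u s ⬝ᵥ v s) := by
  simp only [dotProduct]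
  exact RatAt.sum Finset.univ (fun k s => u s k * v s k) fun k _ => RatAt.mul (hu k) (hv k)

end Pool.Agent.H50.R2
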