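import Pool.Agent.H50.R2.SoundVec
import Pool.Agent.H50.R2.LinCount

/-! # Module Piece: the codimension bound for one component (MP_966f71_lc)

Let `W0` be the space of pairs `(v, t)`, `v : D × Fin 2 → F` (functions on the elements of `D`),
`t : F`, with `sum_i nu_i v_i = 0`; `nu ≠ 0` on `D ≠ ∅`, so `dim W0 = 2 |D|`. `u ↦ (be u, t(u))`
(with the `t` of `h2`, unique and linear because some coordinate of `mu` on `D` is nonzero) is a
linear map `U → W0`. `soundVec` at `rst x D` gives `u0, t0`; `w0 = (X u0, t0)` is a nonzero element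
of `W0` (if both entries vanish on `D` then `u0 = 0` on `D`). The kernel of `U → W0 ⧸ span w0` is
contained in `K`: if `(be u, t(u)) = c w0` then, by `h2`, `al u = c u0` and `be u = c X u0` on `D`, so
`be u = X (al u)` on `D`. So `dim U ≤ dim K + 2 |D| - 1`. -/

set_option autoImplicit false

namespace Pool.Agent.H50.R2

open Matrix Filter Module

variable {F ι : Type*} [Field F] [Infinite F] [Fintype ι] [DecidableEq ι]

private theorem pc_sum (T : Matrix (ι × Fin 2) (ι × Fin 2) F) (D : Finset ι) (i : ι)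
    (b : ι × Fin 2 → F) (a : Fin 2) :
    (∑ j ∈ D, blk T i j *ᵥ vec b j) a = ∑ j ∈ D, ∑ c, T (i, a) (j, c) * b (j, c) := by
  rw [Finset.sum_apply]
  rfl

private theorem pc_dg (T : Matrix (ι × Fin 2) (ι × Fin 2) F) (D : Finset ι) (x : ι → F)
    (u : ι × Fin 2 → F) (p : ι × Fin 2) :
    (T *ᵥ (dg (rst x D) *ᵥ u)) p = ∑ j ∈ D, ∑ c, T p (j, c) * (x j * u (j, c)) := by
  unfold dg Matrix.mulVec dotProduct
  simp only [Matrix.diagonal_apply, ite_mul, zero_mul, Finset.sum_ite_eq, Finset.mem_univ,
    if_true]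
  rw [Fintype.sum_prod_type]
  rw [← Finset.sum_subset (Finset.subset_univ D)]
  · refine Finset.sum_congr rfl fun j hj => Finset.sum_congr rfl fun c _ => ?_
    simp [rst, hj]
  · intro j _ hj
    refine Finset.sum_eq_zero fun c _ => ?_
    simp [rst, hj]

theorem piece_count {I : Inst F ι} {D : Finset ι} (ho : I.Odd D) (hnd : I.NonDeg D)
    (hne : D.Nonempty) {U : Type*} [AddCommGroup U] [Module F U] [FiniteDimensional F U]
    (al be : U →ₗ[F] (ι × Fin 2 → F))
    (h1 : ∀ u, ∑ i ∈ D, vec I.nu i ⬝ᵥ vec (be u) i = 0)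
    (h2 : ∀ u, ∃ t : F, ∀ i ∈ D,
      vec (al u) i = ∑ j ∈ D, blk I.T i j *ᵥ vec (be u) j + t • vec I.mu i)
    (x : ι → F) (K : Submodule F U)
    (hK : ∀ u, (∀ i ∈ D, vec (be u) i = x i • vec (al u) i) → u ∈ K) :
    finrank F U ≤ finrank F K + (2 * D.card - 1) := by
  classical
  obtain ⟨i0, hi0⟩ := hne
  obtain ⟨hmu, hnu⟩ := hnd i0 hi0
  obtain ⟨a0, ha0⟩ : ∃ a, I.mu (i0, a) ≠ 0 := by
    by_contra hc
    push Not at hc
    exact hmu (funext fun a => hc a)
  obtain ⟨b0, hb0⟩ : ∃ a, I.nu (i0, a) ≠ 0 := by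
    by_contra hc
    push Not at hc
    exact hnu (funext fun a => hc a)
  have hxs : Supp (rst x D) D := fun i hi => by simp [rst, hi]
  obtain ⟨u0, t0, he, hz, i1, hi1, hu1⟩ := Inst.soundVec ho hnd ⟨i0, hi0⟩ hxs
  -- the scalar `t u`
  let tt : U →ₗ[F] F :=
    { toFun := fun u => (al u (i0, a0) - ∑ j ∈ D, ∑ c, I.T (i0, a0) (j, c) * be u (j, c)) /
        I.mu (i0, a0)
      map_add' := by
        intro u v
        have : ∑ j ∈ D, ∑ c, I.T (i0, a0) (j, c) * (be u (j, c) + be v (j, c)) =
            ∑ j ∈ D, ∑ c, I.T (i0, a0) (j, c) * be u (j, c) +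
            ∑ j ∈ D, ∑ c, I.T (i0, a0) (j, c) * be v (j, c) := by
          rw [← Finset.sum_add_distrib]
          refine Finset.sum_congr rfl fun j _ => ?_
          rw [← Finset.sum_add_distrib]
          exact Finset.sum_congr rfl fun c _ => mul_add _ _ _
        simp only [map_add, Pi.add_apply]
        rw [this]
        ring
      map_smul' := by
        intro r u
        have : ∑ j ∈ D, ∑ c, I.T (i0, a0) (j, c) * (r * be u (j, c)) =
            r * ∑ j ∈ D, ∑ c, I.T (i0, a0) (j, c) * be u (j, c) := by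
          rw [Finset.mul_sum]
          refine Finset.sum_congr rfl fun j _ => ?_
          rw [Finset.mul_sum]
          exact Finset.sum_congr rfl fun c _ => by ring
        simp only [map_smul, Pi.smul_apply, smul_eq_mul, RingHom.id_apply]
        rw [this]
        ring }
  have htt : ∀ u, ∀ i ∈ D, ∀ a, al u (i, a) =
      ∑ j ∈ D, ∑ c, I.T (i, a) (j, c) * be u (j, c) + tt u * I.mu (i, a) := by
    intro u i hi a
    obtain ⟨t, ht⟩ := h2 u
    have h3 : ∀ i ∈ D, ∀ a, al u (i, a) =
        ∑ j ∈ D, ∑ c, I.T (i, a) (j, c) * be u (j, c) + t * I.mu (i, a) := by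
      intro i hi a
      have := congrFun (ht i hi) a
      rw [Pi.add_apply, pc_sum] at this
      exact this
    have h4 : tt u = t := by
      show (al u (i0, a0) - ∑ j ∈ D, ∑ c, I.T (i0, a0) (j, c) * be u (j, c)) /
        I.mu (i0, a0) = t
      rw [h3 i0 hi0 a0, add_sub_cancel_left, mul_div_assoc, div_self ha0, mul_one]
    rw [h4]
    exact h3 i hi a
  -- the target space
  let w0 : (D × Fin 2 → F) × F := (fun p => x p.1 * u0 (p.1, p.2), t0)
  have hw0 : w0 ≠ 0 := by
    intro hw
    have h5 : ∀ j ∈ D, ∀ c, x j * u0 (j, c) = 0 := by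
      intro j hj c
      exact congrFun (congrArg Prod.fst hw) (⟨j, hj⟩, c)
    have h6 : t0 = 0 := congrArg Prod.snd hw
    apply hu1
    funext a
    show u0 (i1, a) = 0
    rw [congrFun he (i1, a), Pi.add_apply, pc_dg, h6, zero_smul]
    simp only [Pi.zero_apply, zero_add]
    exact Finset.sum_eq_zero fun j hj => Finset.sum_eq_zero fun c _ => by
      rw [h5 j hj c, mul_zero]
  let rb : U →ₗ[F] (D × Fin 2 → F) :=
    { toFun := fun u p => be u (p.1, p.2)
      map_add' := by
        intro u v
        funext p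
        simp
      map_smul' := by
        intro r u
        funext p
        simp }
  let Φ : (U × F) →ₗ[F] (D × Fin 2 → F) × F :=
    (rb.prod tt).comp (LinearMap.fst F U F) - (LinearMap.toSpanSingleton F _ w0).comp
      (LinearMap.snd F U F)
  have hΦ : ∀ u c, Φ (u, c) = (rb u, tt u) - c • w0 := fun u c => rfl
  let ν : ((D × Fin 2 → F) × F) →ₗ[F] F :=
    { toFun := fun v => ∑ p : D × Fin 2, I.nu (p.1, p.2) * v.1 p
      map_add' := by
        intro v w
        simp only [Prod.fst_add, Pi.add_apply, mul_add, Finset.sum_add_distrib]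
      map_smul' := by
        intro r v
        simp only [Prod.smul_fst, Pi.smul_apply, smul_eq_mul, RingHom.id_apply]
        rw [Finset.mul_sum]
        exact Finset.sum_congr rfl fun p _ => by ring }
  have hνsum : ∀ f : ι × Fin 2 → F, ∑ p : D × Fin 2, I.nu (p.1, p.2) * f (p.1, p.2) =
      ∑ j ∈ D, ∑ c, I.nu (j, c) * f (j, c) := by
    intro f
    rw [Fintype.sum_prod_type]
    exact Finset.sum_coe_sort D (fun j => ∑ c, I.nu (j, c) * f (j, c))
  have hν1 : ∀ u c, ν (Φ (u, c)) = 0 := by
    intro u c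
    rw [hΦ, map_sub, map_smul]
    have e1 : ν (rb u, tt u) = 0 := by
      show ∑ p : D × Fin 2, I.nu (p.1, p.2) * be u (p.1, p.2) = 0
      rw [hνsum (be u)]
      exact h1 u
    have e2 : ν w0 = 0 := by
      show ∑ p : D × Fin 2, I.nu (p.1, p.2) * (x p.1 * u0 (p.1, p.2)) = 0
      rw [hνsum (fun q => x q.1 * u0 q)]
      rw [← hz]
      unfold dg Matrix.mulVec dotProduct
      simp only [Matrix.diagonal_apply, ite_mul, zero_mul, Finset.sum_ite_eq, Finset.mem_univ,
        if_true]
      rw [Fintype.sum_prod_type]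
      rw [← Finset.sum_subset (Finset.subset_univ D)]
      · refine Finset.sum_congr rfl fun j hj => Finset.sum_congr rfl fun c _ => ?_
        simp [rst, hj]
      · intro j _ hj
        refine Finset.sum_eq_zero fun c _ => ?_
        simp [rst, hj]
    rw [e1, e2, smul_zero, sub_zero]
  have hrange : finrank F (LinearMap.range Φ) < 2 * D.card + 1 := by
    have h7 : LinearMap.range Φ ≤ LinearMap.ker ν := by
      rintro _ ⟨⟨u, c⟩, rfl⟩
      exact hν1 u c
    have h8 : LinearMap.ker ν ≠ ⊤ := by
      intro h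
      have h9 : (Pi.single (⟨i0, hi0⟩, b0) (1 : F), (0 : F)) ∈ LinearMap.ker ν := by
        rw [h]
        exact Submodule.mem_top
      have h10 : ∑ p : D × Fin 2, I.nu (p.1, p.2) *
          (Pi.single (⟨i0, hi0⟩, b0) (1 : F) : D × Fin 2 → F) p = 0 := h9
      rw [Finset.sum_eq_single (⟨i0, hi0⟩, b0)] at h10
      · simp only [Pi.single_eq_same, mul_one] at h10
        exact hb0 h10
      · intro p _ hp
        rw [Pi.single_eq_of_ne hp, mul_zero]
      · intro h
        exact absurd (Finset.mem_univ _) h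
    have h11 : finrank F ((D × Fin 2 → F) × F) = 2 * D.card + 1 := by
      rw [Module.finrank_prod, Module.finrank_self, Module.finrank_fintype_fun_eq_card,
        Fintype.card_prod, Fintype.card_coe, Fintype.card_fin, mul_comm]
    rw [← h11]
    exact lt_of_le_of_lt (Submodule.finrank_mono h7) (Submodule.finrank_lt h8)
  have hker : finrank F (LinearMap.ker Φ) ≤ finrank F K := by
    have hmem : ∀ q ∈ LinearMap.ker Φ, q.1 ∈ K := by
      rintro ⟨u, c⟩ hq
      have h12 : (rb u, tt u) - c • w0 = 0 := hq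
      have h13 : (rb u, tt u) = c • w0 := sub_eq_zero.mp h12
      have h14 : ∀ j ∈ D, ∀ e, be u (j, e) = c * (x j * u0 (j, e)) := fun j hj e =>
        congrFun (congrArg Prod.fst h13) (⟨j, hj⟩, e)
      have h15 : tt u = c * t0 := congrArg Prod.snd h13
      refine hK u fun i hi => ?_
      funext a
      show be u (i, a) = x i * al u (i, a)
      have h16 : al u (i, a) = c * u0 (i, a) := by
        rw [htt u i hi a, h15, congrFun he (i, a), Pi.add_apply, pc_dg]
        have h17 : ∑ j ∈ D, ∑ e, I.T (i, a) (j, e) * be u (j, e) =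
            c * ∑ j ∈ D, ∑ e, I.T (i, a) (j, e) * (x j * u0 (j, e)) := by
          rw [Finset.mul_sum]
          refine Finset.sum_congr rfl fun j hj => ?_
          rw [Finset.mul_sum]
          exact Finset.sum_congr rfl fun e _ => by rw [h14 j hj e]; ring
        rw [h17]
        simp only [Pi.smul_apply, smul_eq_mul]
        ring
      rw [h16, h14 i hi a]
      ring
    let g : LinearMap.ker Φ →ₗ[F] K :=
      ((LinearMap.fst F U F).comp (LinearMap.ker Φ).subtype).codRestrict K
        (fun q => hmem q.1 q.2)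
    have hg : Function.Injective g := by
      rw [← LinearMap.ker_eq_bot]
      rw [LinearMap.ker_eq_bot']
      rintro ⟨⟨u, c⟩, hq⟩ h0
      have hu : u = 0 := congrArg Subtype.val h0
      subst hu
      have h12 : (rb 0, tt 0) - c • w0 = 0 := hq
      rw [map_zero, map_zero] at h12
      have h13 : c • w0 = 0 := by
        have h14 : ((0 : D × Fin 2 → F), (0 : F)) = 0 := rfl
        rw [h14, zero_sub, neg_eq_zero] at h12
        exact h12
      have h15 : c = 0 := (smul_eq_zero.mp h13).resolve_right hw0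
      subst h15
      rfl
    exact LinearMap.finrank_le_finrank_of_injective hg
  have hrk := LinearMap.finrank_range_add_finrank_ker Φ
  rw [Module.finrank_prod, Module.finrank_self] at hrk
  omega

end Pool.Agent.H50.R2
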