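import Pool.Agent.H50.R2.Cert
import Pool.Agent.H50.R2.Piece
import Pool.Agent.H50.R2.LG

/-! # Module Sound: soundness of certificates (MP_966f71_lc)

`rank M(x) = card K - dim ker M(x)`. Apply `finrank_le_sum` to the space `U`, with the index type
`C = {i // i ∉ D.biUnion id} ⊕ {S // S ∈ D}` and the subspaces
* `K (inl i) = {u : u.2_i = x_i (Q u.1)_i}`: the map `u ↦ u.2_i - x_i (Q u.1)_i` goes into `Y i`, so
  the codimension is at most `dim Y i`;
* `K (inr S) = {u : u.2_i = x_i (Q u.1)_i for i ∈ S}`: `piece_count` with `al u = Q u.1`,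
  `be u = u.2 - a (Q u.1)`, the point `x - a`, and `LocOdd.odd`: codimension at most `2 |S| - 1`.
The intersection consists of the `u ∈ U` with `u.2 = X Q u.1`; then `M(x) u.1 = B u.1 + P u.2 = 0`,
and `u ↦ u.1` is injective on it: its dimension is at most `dim ker M(x)`. -/

set_option autoImplicit false

namespace Pool.Agent.H50.R2

open Matrix Filter Module

variable {F ι N K : Type*} [Field F] [Infinite F] [Fintype ι] [DecidableEq ι] [Fintype N]
  [Fintype K] [DecidableEq K]

theorem sound {B : Matrix N K F} {P : Matrix N (ι × Fin 2) F} {Q : Matrix (ι × Fin 2) K F}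
    {U : Submodule F ((K → F) × (ι × Fin 2 → F))} {Y : ι → Submodule F (Fin 2 → F)}
    {D : Finset (Finset ι)} {a : ι → F} {J : Finset ι → Inst F ι}
    (h : IsCert B P Q U Y D a J) (x : ι → F) :
    (B + P * dg x * Q).rank + finrank F U ≤ val K Y D := by
  classical
  -- linear maps on pairs
  let al : U →ₗ[F] (ι × Fin 2 → F) :=
    (Matrix.mulVecLin Q).comp ((LinearMap.fst F _ _).comp U.subtype)
  let xi : U →ₗ[F] (ι × Fin 2 → F) := (LinearMap.snd F _ _).comp U.subtype
  let be : U →ₗ[F] (ι × Fin 2 → F) := xi - (Matrix.mulVecLin (dg a)).comp al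
  let G : U →ₗ[F] (ι × Fin 2 → F) := xi - (Matrix.mulVecLin (dg x)).comp al
  have hdg : ∀ (z : ι → F) (v : ι × Fin 2 → F) (p : ι × Fin 2),
      (dg z *ᵥ v) p = z p.1 * v p := by
    intro z v p
    unfold dg
    rw [Matrix.mulVec_diagonal]
  have hal : ∀ u : U, al u = Q *ᵥ u.1.1 := fun u => rfl
  have hbe : ∀ (u : U) (p : ι × Fin 2), be u p = u.1.2 p - a p.1 * (Q *ᵥ u.1.1) p := by
    intro u p
    show u.1.2 p - (dg a *ᵥ (Q *ᵥ u.1.1)) p = _
    rw [hdg]
  have hG : ∀ (u : U) (p : ι × Fin 2), G u p = u.1.2 p - x p.1 * (Q *ᵥ u.1.1) p := by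
    intro u p
    show u.1.2 p - (dg x *ᵥ (Q *ᵥ u.1.1)) p = _
    rw [hdg]
  have hbev : ∀ (u : U) (i : ι), vec (be u) i = vec u.1.2 i - a i • vec (Q *ᵥ u.1.1) i := by
    intro u i
    funext c
    exact hbe u (i, c)
  let pr : ι → ((ι × Fin 2 → F) →ₗ[F] (Fin 2 → F)) := fun i =>
    { toFun := fun v => vec v i
      map_add' := fun v w => rfl
      map_smul' := fun r v => rfl }
  let KK : ({i // i ∈ (D.biUnion id)ᶜ} ⊕ {S // S ∈ D}) → Submodule F U := fun c =>
    match c with
    | Sum.inl i => LinearMap.ker ((pr i.1).comp G)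
    | Sum.inr S => ⨅ i : {i // i ∈ S.1}, LinearMap.ker ((pr i.1).comp G)
  let dd : ({i // i ∈ (D.biUnion id)ᶜ} ⊕ {S // S ∈ D}) → ℕ := fun c =>
    match c with
    | Sum.inl i => finrank F (Y i.1)
    | Sum.inr S => 2 * S.1.card - 1
  have hd : ∀ c, finrank F U ≤ finrank F (KK c) + dd c := by
    rintro (⟨i, hi⟩ | ⟨S, hS⟩)
    · have h1 := LinearMap.finrank_range_add_finrank_ker ((pr i).comp G)
      have hi' : ∀ S ∈ D, i ∉ S := by
        intro S hS hiS
        rw [Finset.mem_compl] at hi
        exact hi (Finset.mem_biUnion.2 ⟨S, hS, hiS⟩)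
      have h2 : LinearMap.range ((pr i).comp G) ≤ Y i := by
        rintro _ ⟨u, rfl⟩
        obtain ⟨h3, h4⟩ := h.out u.1 u.2 i hi'
        have h5 : ((pr i).comp G) u = vec u.1.2 i - x i • vec (Q *ᵥ u.1.1) i := by
          funext c
          exact hG u (i, c)
        rw [h5]
        exact Submodule.sub_mem _ h4 (Submodule.smul_mem _ _ h3)
      have h6 := Submodule.finrank_mono h2
      show finrank F U ≤ finrank F (LinearMap.ker ((pr i).comp G)) + finrank F (Y i)
      omega
    · show finrank F U ≤ finrank F (⨅ i : {i // i ∈ S}, LinearMap.ker ((pr i.1).comp G) :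
        Submodule F U) + (2 * S.card - 1)
      refine piece_count (I := J S) (Inst.LocOdd.odd (h.loc S hS)) (h.loc S hS).1 (h.ne S hS)
        al be ?_ ?_ (x - a) _ ?_
      · intro u
        rw [← h.nu0 u.1 u.2 S hS]
        exact Finset.sum_congr rfl fun i _ => by rw [hbev]
      · intro u
        obtain ⟨t, ht⟩ := h.mu0 u.1 u.2 S hS
        refine ⟨t, fun i hi => ?_⟩
        rw [hal, ht i hi]
        congr 1
        exact Finset.sum_congr rfl fun j _ => by rw [hbev]
      · intro u hu
        rw [Submodule.mem_iInf]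
        rintro ⟨i, hi⟩
        rw [LinearMap.mem_ker]
        have h1 := hu i hi
        funext c
        have h2 := congrFun h1 c
        show G u (i, c) = 0
        rw [hG]
        have h3 : be u (i, c) = (x i - a i) * (Q *ᵥ u.1.1) (i, c) := h2
        rw [hbe] at h3
        have h4 : u.1.2 (i, c) = x i * (Q *ᵥ u.1.1) (i, c) := by
          linear_combination h3
        rw [h4]
        exact sub_self _
  have hmain := finrank_le_sum KK dd hd
  have hsum : ∑ c, dd c = ∑ i ∈ (D.biUnion id)ᶜ, finrank F (Y i) + ∑ S ∈ D, (2 * S.card - 1) := by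
    rw [Fintype.sum_sum_type]
    congr 1
    · exact Finset.sum_coe_sort ((D.biUnion id)ᶜ) (fun i => finrank F (Y i))
    · exact Finset.sum_coe_sort D (fun S : Finset ι => 2 * S.card - 1)
  -- the intersection
  have hker : finrank F (⨅ c, KK c : Submodule F U) ≤
      finrank F (LinearMap.ker (Matrix.mulVecLin (B + P * dg x * Q))) := by
    have hval : ∀ u ∈ (⨅ c, KK c : Submodule F U), u.1.2 = dg x *ᵥ (Q *ᵥ u.1.1) := by
      intro u hu
      rw [Submodule.mem_iInf] at hu
      funext p
      rw [hdg]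
      obtain ⟨i, c⟩ := p
      have h2 : vec (G u) i = 0 := by
        by_cases hi : i ∈ D.biUnion id
        · obtain ⟨S, hS, hiS⟩ := Finset.mem_biUnion.1 hi
          have h3 := hu (Sum.inr ⟨S, hS⟩)
          have h4 : u ∈ (⨅ i : {i // i ∈ S}, LinearMap.ker ((pr i.1).comp G) :
            Submodule F U) := h3
          rw [Submodule.mem_iInf] at h4
          exact h4 ⟨i, hiS⟩
        · exact hu (Sum.inl ⟨i, Finset.mem_compl.2 hi⟩)
      have h5 : G u (i, c) = 0 := congrFun h2 c
      rw [hG] at h5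
      exact sub_eq_zero.1 h5
    have hmem : ∀ u ∈ (⨅ c, KK c : Submodule F U),
        u.1.1 ∈ LinearMap.ker (Matrix.mulVecLin (B + P * dg x * Q)) := by
      intro u hu
      rw [LinearMap.mem_ker, Matrix.mulVecLin_apply, Matrix.add_mulVec]
      rw [← Matrix.mulVec_mulVec, ← Matrix.mulVec_mulVec, ← hval u hu]
      exact h.ker u.1 u.2
    let g : (⨅ c, KK c : Submodule F U) →ₗ[F]
        LinearMap.ker (Matrix.mulVecLin (B + P * dg x * Q)) :=
      (((LinearMap.fst F _ _).comp U.subtype).comp
        (⨅ c, KK c : Submodule F U).subtype).codRestrict _ (fun q => hmem q.1 q.2)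
    have hg : Function.Injective g := by
      intro q q' h0
      have hy : q.1.1.1 = q'.1.1.1 := congrArg Subtype.val h0
      have hz : q.1.1.2 = q'.1.1.2 := by rw [hval q.1 q.2, hval q'.1 q'.2, hy]
      exact Subtype.ext (Subtype.ext (Prod.ext hy hz))
    exact LinearMap.finrank_le_finrank_of_injective hg
  have hrk := LinearMap.finrank_range_add_finrank_ker (Matrix.mulVecLin (B + P * dg x * Q))
  rw [Module.finrank_fintype_fun_eq_card] at hrk
  have hrk' : (B + P * dg x * Q).rank =
      finrank F (LinearMap.range (Matrix.mulVecLin (B + P * dg x * Q))) := rfl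
  unfold val
  rw [hsum] at hmain
  omega

end Pool.Agent.H50.R2
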