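import Pool.Agent.H50.R2.Cert

/-! # Module Transl: translating a certificate (MP_966f71_lc)

`B' = B + P (dg a0) Q`. A certificate `(U', Y, D, a', J)` of `B'` gives the certificate
`(U, Y, D, a' + a0, J)` of `B` with `U` the image of `U'` under the linear automorphism
`(y, xi) ↦ (y, xi + dg a0 Q y)` (`out`: `(dg a0 Q y)_i = a0 i (Q y)_i ∈ Y i`; `ker`:
`B y + P (xi + dg a0 Q y) = B' y + P xi`; `nu0`, `mu0`: the differences `xi - a Q y` are unchanged). -/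

set_option autoImplicit false

namespace Pool.Agent.H50.R2

open Matrix Module

variable {F ι N K : Type*} [Field F] [Fintype ι] [DecidableEq ι] [Fintype N] [Fintype K]

private theorem Transl_vec (Q : Matrix (ι × Fin 2) K F) (a0 : ι → F) (y : K → F)
    (xi : ι × Fin 2 → F) (i : ι) :
    vec (xi + (dg a0 * Q) *ᵥ y) i = vec xi i + a0 i • vec (Q *ᵥ y) i := by
  funext c
  simp only [vec, Pi.add_apply, Pi.smul_apply, smul_eq_mul]
  rw [← Matrix.mulVec_mulVec, dg, Matrix.mulVec_diagonal]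

theorem transl {B : Matrix N K F} {P : Matrix N (ι × Fin 2) F} {Q : Matrix (ι × Fin 2) K F}
    {U' : Submodule F ((K → F) × (ι × Fin 2 → F))} {Y : ι → Submodule F (Fin 2 → F)}
    {D : Finset (Finset ι)} {a' : ι → F} {J : Finset ι → Inst F ι} (a0 : ι → F)
    (h : IsCert (B + P * dg a0 * Q) P Q U' Y D a' J) :
    ∃ U, IsCert B P Q U Y D (a' + a0) J ∧ finrank F U = finrank F U' := by
  let L : (K → F) →ₗ[F] (ι × Fin 2 → F) := (dg a0 * Q).mulVecLin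
  let f : ((K → F) × (ι × Fin 2 → F)) →ₗ[F] ((K → F) × (ι × Fin 2 → F)) :=
    LinearMap.prod (LinearMap.fst F _ _) (LinearMap.snd F _ _ + L ∘ₗ LinearMap.fst F _ _)
  let g : ((K → F) × (ι × Fin 2 → F)) →ₗ[F] ((K → F) × (ι × Fin 2 → F)) :=
    LinearMap.prod (LinearMap.fst F _ _) (LinearMap.snd F _ _ - L ∘ₗ LinearMap.fst F _ _)
  let e : ((K → F) × (ι × Fin 2 → F)) ≃ₗ[F] ((K → F) × (ι × Fin 2 → F)) :=
    LinearEquiv.ofLinearMap f g
      (LinearMap.ext fun u => Prod.ext rfl (by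
        change u.2 - L u.1 + L u.1 = u.2
        abel))
      (LinearMap.ext fun u => Prod.ext rfl (by
        change u.2 + L u.1 - L u.1 = u.2
        abel))
  have he : ∀ u, e u = (u.1, u.2 + (dg a0 * Q) *ᵥ u.1) := fun u => rfl
  have hv : ∀ (u : (K → F) × (ι × Fin 2 → F)) (i : ι),
      vec (u.2 + (dg a0 * Q) *ᵥ u.1) i - (a' + a0) i • vec (Q *ᵥ u.1) i =
        vec u.2 i - a' i • vec (Q *ᵥ u.1) i := by
    intro u i
    rw [Transl_vec, Pi.add_apply, add_smul]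
    abel
  refine ⟨U'.map (e : _ →ₗ[F] _), ⟨?_, h.ne, h.disj, h.loc, ?_, ?_, ?_⟩,
    LinearEquiv.finrank_map_eq e U'⟩
  · rintro _ ⟨u, hu, rfl⟩
    have h1 := h.ker u hu
    change B *ᵥ u.1 + P *ᵥ (u.2 + (dg a0 * Q) *ᵥ u.1) = 0
    rw [← h1, Matrix.add_mulVec, Matrix.mulVec_add, Matrix.mulVec_mulVec, Matrix.mul_assoc]
    abel
  · rintro _ ⟨u, hu, rfl⟩ i hi
    obtain ⟨h1, h2⟩ := h.out u hu i hi
    change vec (Q *ᵥ u.1) i ∈ Y i ∧ vec (u.2 + (dg a0 * Q) *ᵥ u.1) i ∈ Y i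
    refine ⟨h1, ?_⟩
    rw [Transl_vec]
    exact (Y i).add_mem h2 ((Y i).smul_mem _ h1)
  · rintro _ ⟨u, hu, rfl⟩ S hS
    have h1 := h.nu0 u hu S hS
    change ∑ i ∈ S, vec (J S).nu i ⬝ᵥ (vec (u.2 + (dg a0 * Q) *ᵥ u.1) i -
      (a' + a0) i • vec (Q *ᵥ u.1) i) = 0
    simp only [hv]
    exact h1
  · rintro _ ⟨u, hu, rfl⟩ S hS
    obtain ⟨t, ht⟩ := h.mu0 u hu S hS
    refine ⟨t, fun i hi => ?_⟩
    have h1 := ht i hi
    change vec (Q *ᵥ u.1) i = ∑ j ∈ S, blk (J S).T i j *ᵥ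
      (vec (u.2 + (dg a0 * Q) *ᵥ u.1) j - (a' + a0) j • vec (Q *ᵥ u.1) j) + t • vec (J S).mu i
    simp only [hv]
    exact h1

end Pool.Agent.H50.R2
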