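import Pool.Agent.H50.R2.Complete
import Pool.Agent.H50.R2.Transl
import Pool.Agent.H50.R2.Sound

/-! # The min-max theorem (MP_966f71_lc) -/

set_option autoImplicit false

namespace Pool.Agent.H50.R2

open Matrix Module

variable {F ι N K : Type*} [Field F] [Infinite F] [Fintype ι] [DecidableEq ι] [Fintype N]
  [Fintype K] [DecidableEq K] [DecidableEq N]

theorem minmax (B : Matrix N K F) (P : Matrix N (ι × Fin 2) F) (Q : Matrix (ι × Fin 2) K F)
    (r : ℕ) : (∀ x : ι → F, (B + P * dg x * Q).rank < r) ↔
      ∃ (U : Submodule F ((K → F) × (ι × Fin 2 → F))) (Y : ι → Submodule F (Fin 2 → F))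
        (D : Finset (Finset ι)) (a : ι → F) (J : Finset ι → Inst F ι),
        IsCert B P Q U Y D a J ∧ val K Y D < r + finrank F U := by
  constructor
  · intro h
    -- a point of maximal rank
    obtain ⟨a0, ha0⟩ : ∃ a0 : ι → F, ∀ x : ι → F,
        (B + P * dg x * Q).rank ≤ (B + P * dg a0 * Q).rank := by
      have hbdd : ∃ n, ∀ x : ι → F, (B + P * dg x * Q).rank ≤ n :=
        ⟨Fintype.card K, fun x => Matrix.rank_le_card_width _⟩
      classical
      let p : ℕ → Prop := fun n => ∀ x : ι → F, (B + P * dg x * Q).rank ≤ n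
      have hp : ∃ n, p n := hbdd
      by_contra hcon
      push Not at hcon
      have hmin := Nat.find_spec hp
      rcases Nat.eq_zero_or_pos (Nat.find hp) with h0 | hpos
      · obtain ⟨x, hx⟩ := hcon 0
        have := hmin x
        omega
      · have hnot := Nat.find_min hp (Nat.sub_lt hpos one_pos)
        simp only [p, not_forall, not_le] at hnot
        obtain ⟨a0, ha0⟩ := hnot
        obtain ⟨x, hx⟩ := hcon a0
        have := hmin x
        omega
    have hmax : ∀ x : ι → F, ((B + P * dg a0 * Q) + P * dg x * Q).rank ≤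
        (B + P * dg a0 * Q).rank := by
      intro x
      have h1 : (B + P * dg a0 * Q) + P * dg x * Q = B + P * dg (a0 + x) * Q := by
        rw [dg_add, Matrix.mul_add, Matrix.add_mul, add_assoc]
      rw [h1]
      exact ha0 _
    obtain ⟨U', Y, D, a', J, hc, hv⟩ := complete0 hmax
    obtain ⟨U, hU, hfr⟩ := transl a0 hc
    refine ⟨U, Y, D, a' + a0, J, hU, ?_⟩
    have := h a0
    rw [hfr]
    omega
  · rintro ⟨U, Y, D, a, J, hc, hv⟩ x
    have := sound hc x
    omega

end Pool.Agent.H50.R2
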