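import Pool.Agent.H50.R2.Triangle
import Pool.Agent.H50.R2.Base

/-! # Module NoTau (MP_966f71_lc)

`lemA`: `exists_base` with `Q = {i, j, l}`: at the base the three `tau` are nonzero and the
2-subsets are odd (`MinNon.prop`), so `triangle` makes `Q` odd, contradiction.
`no_tau`: `J = I`, `Q = {i, j, l, m}` minimal non-odd, `tau i m, tau j m ≠ 0`. Suppose
`tau_ij ≠ 0` at the base `t0 e_l`. Then for almost all `t`: `t e_l` is regular,
`tau_ij(t e_l) ≠ 0` (`evTau` at `t0`), `tau_im, tau_jm ≠ 0` and `mu, nu` nonzero on `Q` at `t e_l`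
(`evTau`, `evK`, `evL` at `t = 0`), and `{i, j, m}` is not odd at `t e_l`: take `w` supported on
`Q`, regular, `h w ≠ 0`, `w' = rst w {i, j, m}`; `h(t e_l + w')` is nonzero at `t = w l`, so for
almost all `t` (`ratH`, path `Pi.single l t + w'`), and `not_odd_shift`. Its 2-subsets are odd
there (`Odd.shift`, 3-subsets of `Q` are odd). This contradicts `triangle`. -/

set_option autoImplicit false

namespace Pool.Agent.H50.R2

open Matrix Filter

variable {F ι : Type*} [Field F] [Infinite F] [Fintype ι] [DecidableEq ι]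

namespace Inst

variable {I : Inst F ι} {V : Finset ι} {i j l m : ι}

omit [Fintype ι] in
private theorem ssub_of {A B : Finset ι} (h : A ⊆ B) {c : ι} (hB : c ∈ B) (hA : c ∉ A) : A ⊂ B :=
  (Finset.ssubset_iff_of_subset h).2 ⟨c, hB, hA⟩

theorem lemA (hV : I.MinNon V) (hi : i ∈ V) (hj : j ∈ V) (hl : l ∈ V) (hij : i ≠ j)
    (hil : i ≠ l) (hjl : j ≠ l) (tij : I.tau i j ≠ 0) (til : I.tau i l ≠ 0)
    (tjl : I.tau j l ≠ 0) : False := by
  have hQ : ({i, j, l} : Finset ι) ⊆ V := by
    intro a ha
    simp only [Finset.mem_insert, Finset.mem_singleton] at ha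
    rcases ha with rfl | rfl | rfl <;> assumption
  obtain ⟨z, -, -, hnd, htau, hmin⟩ := exists_base hV hQ ⟨i, by simp⟩
  refine hmin.non (triangle hij hil hjl (hnd.mono hQ) (hmin.prop _ ?_) (hmin.prop _ ?_)
    (hmin.prop _ ?_) (htau i hi j hj tij) (htau i hi l hl til) (htau j hj l hl tjl))
  · exact ssub_of (by intro a ha; simp only [Finset.mem_insert, Finset.mem_singleton] at ha ⊢; tauto)
      (c := l) (by simp) (by simp [hil.symm, hjl.symm])
  · exact ssub_of (by intro a ha; simp only [Finset.mem_insert, Finset.mem_singleton] at ha ⊢; tauto)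
      (c := j) (by simp) (by simp [hij.symm, hjl])
  · exact ssub_of (by intro a ha; simp only [Finset.mem_insert, Finset.mem_singleton] at ha ⊢; tauto)
      (c := i) (by simp) (by simp [hij, hil])

theorem no_tau (hij : i ≠ j) (hil : i ≠ l) (him : i ≠ m) (hjl : j ≠ l) (hjm : j ≠ m)
    (hlm : l ≠ m) (hQ : I.MinNon {i, j, l, m}) (tim : I.tau i m ≠ 0) (tjm : I.tau j m ≠ 0)
    {t : F} (ht : I.Reg (Pi.single l t)) : (I.shift (Pi.single l t)).tau i j = 0 := by
  by_contra hne
  have p : Path (fun s : F => (Pi.single l s : ι → F)) := Path.single l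
  have e0 : (fun s : F => (Pi.single l s : ι → F)) 0 = 0 := by simp
  have r0 : I.Reg ((fun s : F => (Pi.single l s : ι → F)) 0) := by
    rw [e0]
    exact I.reg_zero
  have nd : ∀ a ∈ ({i, j, l, m} : Finset ι), vec I.mu a ≠ 0 ∧ vec I.nu a ≠ 0 := hQ.nd
  have K : ∀ a ∈ ({i, j, l, m} : Finset ι), ∀ᶠ s in cofinite,
      vec (I.k ((fun s : F => (Pi.single l s : ι → F)) s)) a ≠ 0 := fun a ha =>
    I.evK p r0 (by rw [Pi.single_zero, I.k_zero]; exact (nd a ha).1)
  have L : ∀ a ∈ ({i, j, l, m} : Finset ι), ∀ᶠ s in cofinite,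
      vec (I.l ((fun s : F => (Pi.single l s : ι → F)) s)) a ≠ 0 := fun a ha =>
    I.evL p r0 (by rw [Pi.single_zero, I.l_zero]; exact (nd a ha).2)
  have T1 := I.evTau p r0 (i := i) (j := m) (by rw [Pi.single_zero, I.shift_zero]; exact tim)
  have T2 := I.evTau p r0 (i := j) (j := m) (by rw [Pi.single_zero, I.shift_zero]; exact tjm)
  have T3 := I.evTau p (s0 := t) ht (i := i) (j := j) hne
  obtain ⟨w, hw, rw', hhw⟩ : ∃ w, Supp w ({i, j, l, m} : Finset ι) ∧ I.Reg w ∧ I.h w ≠ 0 := by
    by_contra hcon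
    push Not at hcon
    exact hQ.non hcon
  have q : Path (fun s : F => (Pi.single l s : ι → F) + rst w {i, j, m}) :=
    (Path.single l).add (Path.const _)
  have eq0 : (fun s : F => (Pi.single l s : ι → F) + rst w {i, j, m}) (w l) = w := by
    funext a
    by_cases hal : a = l
    · subst hal
      simp [rst, hil.symm, hjl.symm, hlm]
    · simp only [Pi.add_apply, Pi.single_eq_of_ne hal, zero_add, rst]
      split_ifs with hmem
      · rfl
      · refine (hw a ?_).symm
        simp only [Finset.mem_insert, Finset.mem_singleton] at hmem ⊢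
        tauto
  have eq1 : (Pi.single l (w l) : ι → F) + rst w {i, j, m} = w := eq0
  have Q1 := I.evReg q (s0 := w l) (by rw [eq1]; exact rw')
  have Q2 := (I.ratH q (s0 := w l) (by rw [eq1]; exact rw')).ne (by
    show I.h ((fun s : F => (Pi.single l s : ι → F) + rst w {i, j, m}) (w l)) ≠ 0
    rw [eq0]; exact hhw)
  obtain ⟨s, hs⟩ := ((I.evReg p r0).and ((K i (by simp)).and ((K j (by simp)).and
    ((K m (by simp)).and ((L i (by simp)).and ((L j (by simp)).and ((L m (by simp)).and
    (T1.and (T2.and (T3.and (Q1.and Q2))))))))))).exists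
  obtain ⟨rs, ki, kj, km, li, lj, lm, t1, t2, t3, q1, q2⟩ := hs
  have hodd : ∀ S ⊂ ({i, j, l, m} : Finset ι), I.Odd S := hQ.prop
  have key : ¬ (I.shift (Pi.single l s)).Odd {i, j, m} :=
    not_odd_shift (R := {l}) (hodd _ (ssub_of (by simp) (c := i) (by simp) (by simp [hil])))
      (supp_single l s) rs (supp_rst w _) q1 q2
  refine key (triangle hij him hjm ?_ ?_ ?_ ?_ t3 t1 t2)
  · intro a ha
    simp only [Finset.mem_insert, Finset.mem_singleton] at ha
    rcases ha with rfl | rfl | rfl
    · exact ⟨ki, li⟩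
    · exact ⟨kj, lj⟩
    · exact ⟨km, lm⟩
  · refine Odd.shift (R := {l}) (hodd _ (ssub_of ?_ (c := m) (by simp) ?_)) (supp_single l s) rs
    · intro a ha
      simp only [Finset.mem_insert, Finset.mem_singleton, Finset.mem_union] at ha ⊢
      tauto
    · simp [him.symm, hjm.symm, hlm.symm]
  · refine Odd.shift (R := {l}) (hodd _ (ssub_of ?_ (c := j) (by simp) ?_)) (supp_single l s) rs
    · intro a ha
      simp only [Finset.mem_insert, Finset.mem_singleton, Finset.mem_union] at ha ⊢
      tauto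
    · simp [hij.symm, hjm, hjl]
  · refine Odd.shift (R := {l}) (hodd _ (ssub_of ?_ (c := i) (by simp) ?_)) (supp_single l s) rs
    · intro a ha
      simp only [Finset.mem_insert, Finset.mem_singleton, Finset.mem_union] at ha ⊢
      tauto
    · simp [hij, him, hil]

end Inst

end Pool.Agent.H50.R2
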