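import Pool.Agent.H50.R2.Defs

/-! # Module Plane: linear algebra in the plane `F ^ 2` (MP_966f71_lc)

`ar u v = u 0 * v 1 - u 1 * v 0`, `par u v` means `ar u v = 0`. All statements are elementary
(`Fin 2` sums: `Matrix.mulVec`, `dotProduct`, `Fin.sum_univ_two`; field arithmetic).
* `par_of_ker`: the kernel of a nonzero covector is a line.
* `exists_covec`: a covector killing `m ≠ 0` is a multiple of any nonzero covector killing `m`.
* `quad`: a quadratic form `a ↦ ar (E a) a` (times `w`) vanishing at `m`, where the nonzero covector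
  `n` kills `m ≠ 0`, is `-(n a)(t a)` for some covector `t` (choose coordinates: `a = x m + y m'`).
* `scalar_of_inf`: if `ar (phi v) (E v) = 0` for `v = a + t b` for three different values of `t`,
  `a, b` independent, `phi` invertible, then `E v = c (phi v)` for all `v` (the quadratic form
  `ar (phi v) (E v)` in the coordinates of `v` has at least three zeros on the projective line, so
  it is zero, so every vector is an eigenvector of `phi⁻¹ E`).
* `bilin_of_inf`: if the bilinear form `R` satisfies `R v (phi v) = 0` for `v = a + t b` for three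
  different values of `t`, then `R x y = c * ar (phi x) y`. -/

set_option autoImplicit false

namespace Pool.Agent.H50.R2

open Matrix

variable {F : Type*} [Field F]

theorem ar_self (u : Fin 2 → F) : ar u u = 0 := by
  simp only [ar]; ring

theorem ar_swap (u v : Fin 2 → F) : ar u v = - ar v u := by
  simp only [ar]; ring

theorem ar_add_left (u v w : Fin 2 → F) : ar (u + v) w = ar u w + ar v w := by
  simp only [ar, Pi.add_apply]; ring

theorem ar_add_right (u v w : Fin 2 → F) : ar u (v + w) = ar u v + ar u w := by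
  simp only [ar, Pi.add_apply]; ring

theorem ar_smul_left (c : F) (u v : Fin 2 → F) : ar (c • u) v = c * ar u v := by
  simp only [ar, Pi.smul_apply, smul_eq_mul]; ring

theorem ar_smul_right (c : F) (u v : Fin 2 → F) : ar u (c • v) = c * ar u v := by
  simp only [ar, Pi.smul_apply, smul_eq_mul]; ring

theorem ar_sum_left {α : Type*} (S : Finset α) (f : α → Fin 2 → F) (v : Fin 2 → F) :
    ar (∑ a ∈ S, f a) v = ∑ a ∈ S, ar (f a) v := by
  simp only [ar, Finset.sum_apply, Finset.sum_mul, Finset.sum_sub_distrib]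

theorem ar_zero_left (v : Fin 2 → F) : ar 0 v = 0 := by
  simp [ar]

theorem ar_mulVec (A : Matrix (Fin 2) (Fin 2) F) (u v : Fin 2 → F) :
    ar (A *ᵥ u) (A *ᵥ v) = A.det * ar u v := by
  simp only [ar, Matrix.mulVec, dotProduct, Fin.sum_univ_two, Matrix.det_fin_two]
  ring

theorem par_refl (u : Fin 2 → F) : par u u := ar_self u

theorem par_symm {u v : Fin 2 → F} (h : par u v) : par v u := by
  unfold par at h ⊢
  rw [ar_swap, h, neg_zero]

theorem par_zero_left (v : Fin 2 → F) : par 0 v := ar_zero_left v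

theorem par_zero_right (v : Fin 2 → F) : par v 0 := par_symm (par_zero_left v)

theorem par_smul (c : F) (u : Fin 2 → F) : par u (c • u) := by
  unfold par
  rw [ar_smul_right, ar_self, mul_zero]

private theorem par_cross {u v : Fin 2 → F} (h : par u v) (a b : Fin 2) :
    u a * v b = v a * u b := by
  unfold par ar at h
  fin_cases a <;> fin_cases b <;> simp only [Fin.zero_eta, Fin.mk_one]
  · ring
  · linear_combination h
  · linear_combination -h
  · ring

theorem exists_smul_of_par {u v : Fin 2 → F} (hu : u ≠ 0) (h : par u v) : ∃ c : F, v = c • u := by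
  obtain ⟨a, ha⟩ := Function.ne_iff.1 hu
  rw [Pi.zero_apply] at ha
  refine ⟨v a / u a, ?_⟩
  funext b
  rw [Pi.smul_apply, smul_eq_mul]
  have := par_cross h a b
  field_simp
  linear_combination this

theorem par_trans {u v w : Fin 2 → F} (hv : v ≠ 0) (h1 : par u v) (h2 : par v w) : par u w := by
  obtain ⟨c, rfl⟩ := exists_smul_of_par hv (par_symm h1)
  obtain ⟨d, rfl⟩ := exists_smul_of_par hv h2
  unfold par
  rw [ar_smul_left, ar_smul_right, ar_self, mul_zero, mul_zero]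

theorem par_of_ker {n u v : Fin 2 → F} (hn : n ≠ 0) (hu : n ⬝ᵥ u = 0) (hv : n ⬝ᵥ v = 0) :
    par u v := by
  obtain ⟨a, ha⟩ := Function.ne_iff.1 hn
  rw [Pi.zero_apply] at ha
  simp only [dotProduct, Fin.sum_univ_two] at hu hv
  have h : n a * ar u v = 0 := by
    unfold ar
    fin_cases a
    · simp only [Fin.zero_eta]
      linear_combination v 1 * hu - u 1 * hv
    · simp only [Fin.mk_one]
      linear_combination u 0 * hv - v 0 * hu
  exact (mul_eq_zero.1 h).resolve_left ha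

theorem par_of_ker' {n m v : Fin 2 → F} (hv : v ≠ 0) (hn : n ⬝ᵥ v = 0) (hm : m ⬝ᵥ v = 0) :
    par n m :=
  par_of_ker hv (by rw [dotProduct_comm]; exact hn) (by rw [dotProduct_comm]; exact hm)

theorem ker_of_par {n u v : Fin 2 → F} (hu : u ≠ 0) (h : par u v) (hn : n ⬝ᵥ u = 0) :
    n ⬝ᵥ v = 0 := by
  obtain ⟨c, rfl⟩ := exists_smul_of_par hu h
  rw [dotProduct_smul, hn, smul_zero]

theorem exists_covec {m n c : Fin 2 → F} (hm : m ≠ 0) (hn : n ≠ 0) (hnm : n ⬝ᵥ m = 0)
    (hcm : c ⬝ᵥ m = 0) : ∃ s : F, c = s • n :=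
  exists_smul_of_par hn (par_of_ker' hm hnm hcm)

theorem exists_area_const {m n : Fin 2 → F} (hm : m ≠ 0) (hnm : n ⬝ᵥ m = 0) :
    ∃ w : F, ∀ b, n ⬝ᵥ b = w * ar m b := by
  have h0 : (![-m 1, m 0] : Fin 2 → F) ≠ 0 := by
    intro h
    apply hm
    have e0 := congrFun h 0
    have e1 := congrFun h 1
    simp only [Matrix.cons_val_zero, Matrix.cons_val_one, Pi.zero_apply, neg_eq_zero] at e0 e1
    funext a
    fin_cases a
    · exact e1
    · exact e0
  have h1 : (![-m 1, m 0] : Fin 2 → F) ⬝ᵥ m = 0 := by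
    simp only [dotProduct, Fin.sum_univ_two, Matrix.cons_val_zero, Matrix.cons_val_one]
    ring
  obtain ⟨w, hw⟩ := exists_smul_of_par h0 (par_of_ker' hm h1 hnm)
  refine ⟨w, fun b => ?_⟩
  have e0 := congrFun hw 0
  have e1 := congrFun hw 1
  simp only [Pi.smul_apply, smul_eq_mul, Matrix.cons_val_zero, Matrix.cons_val_one] at e0 e1
  simp only [dotProduct, Fin.sum_univ_two, ar]
  rw [e0, e1]
  ring

private theorem quad_aux {T : Matrix (Fin 2) (Fin 2) F} {m : Fin 2 → F} (hm : m ≠ 0)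
    (h : ar (T *ᵥ m) m = 0) :
    ∃ th : Fin 2 → F, ∀ a, ar (T *ᵥ a) a = - (ar m a * (th ⬝ᵥ a)) := by
  simp only [ar, Matrix.mulVec, dotProduct, Fin.sum_univ_two] at h
  by_cases h0 : m 0 = 0
  · have h1 : m 1 ≠ 0 := by
      intro h1
      apply hm
      funext a
      fin_cases a
      · exact h0
      · exact h1
    have hT : T 0 1 = 0 := by
      rw [h0] at h
      have : m 1 * m 1 * T 0 1 = 0 := by linear_combination h
      exact (mul_eq_zero.1 this).resolve_left (mul_ne_zero h1 h1)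
    refine ⟨![- T 1 0 / m 1, (T 0 0 - T 1 1) / m 1], fun a => ?_⟩
    simp only [ar, Matrix.mulVec, dotProduct, Fin.sum_univ_two, Matrix.cons_val_zero,
      Matrix.cons_val_one, h0, hT]
    field_simp
    ring
  · refine ⟨![(m 1 * (- T 0 1 / m 0) - (T 0 0 - T 1 1)) / m 0, - T 0 1 / m 0], fun a => ?_⟩
    have hT : T 1 0 * (m 0 * m 0) = T 0 1 * (m 1 * m 1) + (T 0 0 - T 1 1) * (m 0 * m 1) := by
      linear_combination -h
    simp only [ar, Matrix.mulVec, dotProduct, Fin.sum_univ_two, Matrix.cons_val_zero,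
      Matrix.cons_val_one]
    field_simp
    linear_combination (- (a 0 * a 0)) * hT

theorem quad {m n : Fin 2 → F} (hm : m ≠ 0) (hn : n ≠ 0) (hnm : n ⬝ᵥ m = 0) (w : F)
    (E : Matrix (Fin 2) (Fin 2) F) (h : w * ar (E *ᵥ m) m = 0) :
    ∃ t : Fin 2 → F, ∀ a, w * ar (E *ᵥ a) a = -((n ⬝ᵥ a) * (t ⬝ᵥ a)) := by
  by_cases hw : w = 0
  · exact ⟨0, fun a => by rw [hw, zero_mul, zero_dotProduct, mul_zero, neg_zero]⟩
  obtain ⟨v, hv⟩ := exists_area_const hm hnm
  have hv0 : v ≠ 0 := by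
    rintro rfl
    apply hn
    funext a
    have h1 := hv (Pi.single a 1)
    rw [zero_mul, dotProduct_single, mul_one] at h1
    exact h1
  obtain ⟨t, ht⟩ := quad_aux (T := E) hm ((mul_eq_zero.1 h).resolve_left hw)
  refine ⟨(w / v) • t, fun a => ?_⟩
  rw [ht, hv, smul_dotProduct, smul_eq_mul]
  field_simp

private theorem span2 {u v : Fin 2 → F} (h : ar u v ≠ 0) (a : Fin 2 → F) :
    a = (ar a v / ar u v) • u + (ar u a / ar u v) • v := by
  funext b
  rw [Pi.add_apply, Pi.smul_apply, Pi.smul_apply, smul_eq_mul, smul_eq_mul]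
  field_simp
  unfold ar
  fin_cases b
  · simp only [Fin.zero_eta]; ring
  · simp only [Fin.mk_one]; ring

theorem rank_one_map {m n : Fin 2 → F} (hm : m ≠ 0) (hn : n ≠ 0) (hnm : n ⬝ᵥ m = 0)
    (A : Matrix (Fin 2) (Fin 2) F) (h : A *ᵥ m = 0) :
    ∃ rho : Fin 2 → F, ∀ v, A *ᵥ v = (n ⬝ᵥ v) • rho := by
  -- every row of `A` kills `m`
  have hrow : ∀ a, ∃ s : F, A a = s • n := by
    intro a
    refine exists_covec hm hn hnm ?_
    exact congrFun h a
  choose rho hrho using hrow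
  refine ⟨rho, fun v => ?_⟩
  funext a
  change A a ⬝ᵥ v = _
  rw [hrho a, smul_dotProduct, Pi.smul_apply, smul_eq_mul, smul_eq_mul, mul_comm]

theorem exists_map {a b c d : Fin 2 → F} (hab : ar a b ≠ 0) :
    ∃ phi : Matrix (Fin 2) (Fin 2) F, phi *ᵥ a = c ∧ phi *ᵥ b = d ∧
      (ar c d ≠ 0 → phi.det ≠ 0) := by
  set phi : Matrix (Fin 2) (Fin 2) F := Matrix.of fun r s =>
    (![(c r * b 1 - d r * a 1) / ar a b, (d r * a 0 - c r * b 0) / ar a b] : Fin 2 → F) s with hphi
  have h1 : phi *ᵥ a = c := by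
    funext r
    simp only [hphi, Matrix.mulVec, dotProduct, Fin.sum_univ_two, Matrix.of_apply,
      Matrix.cons_val_zero, Matrix.cons_val_one]
    field_simp
    unfold ar
    ring
  have h2 : phi *ᵥ b = d := by
    funext r
    simp only [hphi, Matrix.mulVec, dotProduct, Fin.sum_univ_two, Matrix.of_apply,
      Matrix.cons_val_zero, Matrix.cons_val_one]
    field_simp
    unfold ar
    ring
  refine ⟨phi, h1, h2, fun h3 h4 => h3 ?_⟩
  rw [← h1, ← h2, ar_mulVec, h4, zero_mul]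

/-- a quadratic polynomial with three zeros -/
private theorem quad_zero {α β γ t1 t2 t3 : F} (h12 : t1 ≠ t2) (h13 : t1 ≠ t3) (h23 : t2 ≠ t3)
    (h1 : α + t1 * β + t1 * t1 * γ = 0) (h2 : α + t2 * β + t2 * t2 * γ = 0)
    (h3 : α + t3 * β + t3 * t3 * γ = 0) : α = 0 ∧ β = 0 ∧ γ = 0 := by
  have d12 : t1 - t2 ≠ 0 := sub_ne_zero.2 h12
  have d13 : t1 - t3 ≠ 0 := sub_ne_zero.2 h13
  have d23 : t2 - t3 ≠ 0 := sub_ne_zero.2 h23
  have e1 : β + (t1 + t2) * γ = 0 := by
    have : (t1 - t2) * (β + (t1 + t2) * γ) = 0 := by linear_combination h1 - h2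
    exact (mul_eq_zero.1 this).resolve_left d12
  have e2 : β + (t1 + t3) * γ = 0 := by
    have : (t1 - t3) * (β + (t1 + t3) * γ) = 0 := by linear_combination h1 - h3
    exact (mul_eq_zero.1 this).resolve_left d13
  have e3 : γ = 0 := by
    have : (t2 - t3) * γ = 0 := by linear_combination e1 - e2
    exact (mul_eq_zero.1 this).resolve_left d23
  have e4 : β = 0 := by rw [e3, mul_zero, add_zero] at e1; exact e1
  refine ⟨?_, e4, e3⟩
  rw [e3, e4, mul_zero, mul_zero, add_zero, add_zero] at h1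
  exact h1

theorem bilin_of_inf (R : (Fin 2 → F) → (Fin 2 → F) → F)
    (hR1 : ∀ u v w, R (u + v) w = R u w + R v w) (hR2 : ∀ (c : F) u w, R (c • u) w = c * R u w)
    (hR3 : ∀ u v w, R u (v + w) = R u v + R u w) (hR4 : ∀ (c : F) u w, R u (c • w) = c * R u w)
    {phi : Matrix (Fin 2) (Fin 2) F} (hphi : phi.det ≠ 0) {a b : Fin 2 → F}
    (hab : ar a b ≠ 0) {t1 t2 t3 : F} (h12 : t1 ≠ t2) (h13 : t1 ≠ t3) (h23 : t2 ≠ t3)
    (h1 : R (a + t1 • b) (phi *ᵥ (a + t1 • b)) = 0)
    (h2 : R (a + t2 • b) (phi *ᵥ (a + t2 • b)) = 0)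
    (h3 : R (a + t3 • b) (phi *ᵥ (a + t3 • b)) = 0) :
    ∃ c : F, ∀ u v, R u v = c * ar (phi *ᵥ u) v := by
  have hexp : ∀ t : F, R (a + t • b) (phi *ᵥ (a + t • b)) = R a (phi *ᵥ a) +
      t * (R a (phi *ᵥ b) + R b (phi *ᵥ a)) + t * t * R b (phi *ᵥ b) := by
    intro t
    rw [Matrix.mulVec_add, Matrix.mulVec_smul, hR1, hR3, hR3, hR2, hR2, hR4, hR4]
    ring
  rw [hexp] at h1 h2 h3
  obtain ⟨e1, e2, e3⟩ := quad_zero h12 h13 h23 h1 h2 h3
  have hcd : ar (phi *ᵥ a) (phi *ᵥ b) ≠ 0 := by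
    rw [ar_mulVec]
    exact mul_ne_zero hphi hab
  refine ⟨R a (phi *ᵥ b) / ar (phi *ᵥ a) (phi *ᵥ b), fun u v => ?_⟩
  have hu := span2 hab u
  have hv := span2 hcd v
  set x := ar u b / ar a b
  set y := ar a u / ar a b
  set z := ar v (phi *ᵥ b) / ar (phi *ᵥ a) (phi *ᵥ b)
  set t := ar (phi *ᵥ a) v / ar (phi *ᵥ a) (phi *ᵥ b)
  have hba : R b (phi *ᵥ a) = - R a (phi *ᵥ b) := by linear_combination e2
  rw [hu, hv, Matrix.mulVec_add, Matrix.mulVec_smul, Matrix.mulVec_smul, hR1, hR3, hR3, hR2, hR2,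
    hR2, hR2, hR4, hR4, hR4, hR4, e1, e3, hba, ar_add_left, ar_add_right, ar_add_right,
    ar_smul_left, ar_smul_left, ar_smul_left, ar_smul_left, ar_smul_right, ar_smul_right,
    ar_smul_right, ar_smul_right, ar_self, ar_self, ar_swap (phi *ᵥ b) (phi *ᵥ a)]
  field_simp
  ring

theorem scalar_of_inf {phi E : Matrix (Fin 2) (Fin 2) F} (hphi : phi.det ≠ 0) {a b : Fin 2 → F}
    (hab : ar a b ≠ 0) {t1 t2 t3 : F} (h12 : t1 ≠ t2) (h13 : t1 ≠ t3) (h23 : t2 ≠ t3)
    (h1 : ar (phi *ᵥ (a + t1 • b)) (E *ᵥ (a + t1 • b)) = 0)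
    (h2 : ar (phi *ᵥ (a + t2 • b)) (E *ᵥ (a + t2 • b)) = 0)
    (h3 : ar (phi *ᵥ (a + t3 • b)) (E *ᵥ (a + t3 • b)) = 0) :
    ∃ c : F, ∀ v, E *ᵥ v = c • (phi *ᵥ v) := by
  obtain ⟨c, hc⟩ := bilin_of_inf (fun u v => ar v (E *ᵥ u))
    (fun u v w => by simp only [Matrix.mulVec_add, ar_add_right])
    (fun c u w => by simp only [Matrix.mulVec_smul, ar_smul_right])
    (fun u v w => by simp only [ar_add_left]) (fun c u w => by simp only [ar_smul_left])
    hphi hab h12 h13 h23 h1 h2 h3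
  refine ⟨-c, fun v => ?_⟩
  -- `ar u (E v) = c ar (phi v) u` for all `u`
  have h4 : ∀ u, ar u (E *ᵥ v - (-c) • (phi *ᵥ v)) = 0 := by
    intro u
    have h5 := hc v u
    simp only [ar, Pi.sub_apply, Pi.smul_apply, smul_eq_mul] at h5 ⊢
    linear_combination h5
  have h5 : E *ᵥ v - (-c) • (phi *ᵥ v) = 0 := by
    funext r
    have e0 := h4 ![1, 0]
    have e1 := h4 ![0, 1]
    simp only [ar, Matrix.cons_val_zero, Matrix.cons_val_one, one_mul, zero_mul, sub_zero,
      zero_sub, neg_eq_zero] at e0 e1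
    fin_cases r
    · exact e1
    · exact e0
  exact sub_eq_zero.1 h5

end Pool.Agent.H50.R2
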