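import Pool.Agent.H50.R2.RatI
import Pool.Agent.H50.R2.Plane

/-! # Module Own: dependence on the own variable, single indices (MP_966f71_lc)

* `own_dot`: `a`, `b` agree off `i`. If `a i ≠ b i`, (E) gives
  `(a i - b i) * (l_i(b) k_i(a)) = h a - h b = 0`. If `a i = b i`, i.e. `a = b`: use the path
  `s ↦ a + Pi.single i s`, for almost all `s` it is regular and (for `s ≠ 0`) `l_i(b) k_i(.) = 0`;
  close by `RatAt.zero` at `s0 = 0` (`ratK`, `RatAt.dot` with constant `l(b)`).
* `own_k`: path `s ↦ (s • a, s • b)`. For almost all `s` both are regular and `l_i(s • b) ≠ 0`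
  (nonzero at `s = 0`, where `l = nu`; `evL`), and `own_dot` says that `l_i(s • b)` kills
  `k_i(s • a)` and `k_i(s • b)`, so they are parallel (`par_of_ker`); `closePar` at `s0 = 1`.
* `own_l`: `own_k` for `I.tr`.
* `single_dot`: with `S = {i}` and `a = b = 0` in `own_dot`: `nu_i mu_i = 0`. For the second: for
  `x = Pi.single i t` regular, `own_dot` (`b = 0`) gives `nu_i k_i(x) = 0`, and
  `k_i = mu_i + t T_ii k_i`, so `t nu_i T_ii k_i(x) = 0`; let `t → 0` (`RatAt.zero`).
* `single_eig`: `T_ii mu_i` and `mu_i` are killed by `nu_i ≠ 0`.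
* `k_single`: `(1 - t T_jj) mu_j = (1 - c t) mu_j`. If `1 - c t = 0` then the vector supported at
  `j` ... : extend: the vector `v` with `v_j = mu_j`, `v_i = t T_ij mu_j` (`i ≠ j`) is in the kernel
  of `1 - T X`, nonzero: contradiction to regularity. Otherwise `v_j = mu_j / (1 - c t)`,
  `v_i = mu_i + t T_ij v_j` solves the equations, use `k_unique`. -/

set_option autoImplicit false

namespace Pool.Agent.H50.R2

open Matrix Filter

variable {F ι : Type*} [Field F] [Infinite F] [Fintype ι] [DecidableEq ι]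

namespace Inst

variable {I : Inst F ι} {S : Finset ι} {i j : ι} {a b : ι → F}

omit [Infinite F] [Fintype ι] in
private theorem own_single_ne {i l : ι} (h : l ≠ i) (s : F) : (Pi.single i s : ι → F) l = 0 := by
  simp [h]

omit [Infinite F] [Fintype ι] in
private theorem own_single_same (i : ι) (s : F) : (Pi.single i s : ι → F) i = s := by
  simp

theorem own_dot (hS : I.Odd S) (hi : i ∈ S) (ha : Supp a S) (hb : Supp b S)
    (hab : ∀ l, l ≠ i → a l = b l) (ra : I.Reg a) (rb : I.Reg b) :
    vec (I.l b) i ⬝ᵥ vec (I.k a) i = 0 := by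
  have key : ∀ a' : ι → F, Supp a' S → (∀ l, l ≠ i → a' l = b l) → I.Reg a' → a' i ≠ b i →
      vec (I.l b) i ⬝ᵥ vec (I.k a') i = 0 := by
    intro a' ha' hab' ra' hne
    have h1 := I.E_id ra' rb
    rw [hS a' ha' ra', hS b hb rb, sub_zero] at h1
    rw [Finset.sum_eq_single i (fun l _ hl => by rw [hab' l hl, sub_self, zero_mul])
      (fun hn => absurd (Finset.mem_univ i) hn)] at h1
    exact (mul_eq_zero.mp h1).resolve_left (sub_ne_zero.mpr hne)
  by_cases hne : a i = b i
  · let x : F → ι → F := fun s => a + (Pi.single i s : ι → F)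
    have hx : Path x := Path.add (Path.const a) (Path.single i)
    have hx0 : x 0 = a := by
      show a + (Pi.single i (0 : F) : ι → F) = a
      rw [Pi.single_zero, add_zero]
    have hr0 : I.Reg (x 0) := by rw [hx0]; exact ra
    have hrat : RatAt 0 (fun s => vec (I.l b) i ⬝ᵥ vec (I.k (x s)) i) :=
      RatAt.dot (fun q => RatAt.const _) (fun q => I.ratK hx hr0 (i, q))
    have h2 := RatAt.zero hrat (by
      filter_upwards [I.evReg hx hr0, eventually_cofinite_ne (0 : F)] with s hs hs0
      refine key (x s) ?_ ?_ hs ?_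
      · intro l hl
        have hli : l ≠ i := fun e => hl (e ▸ hi)
        show a l + (Pi.single i s : ι → F) l = 0
        rw [ha l hl, Pi.single_eq_of_ne hli, add_zero]
      · intro l hl
        show a l + (Pi.single i s : ι → F) l = b l
        rw [Pi.single_eq_of_ne hl, add_zero, hab l hl]
      · show a i + (Pi.single i s : ι → F) i ≠ b i
        rw [Pi.single_eq_same, hne]
        intro e
        exact hs0 (by simpa using e))
    rw [hx0] at h2
    exact h2
  · exact key a ha hab ra hne

theorem own_k (hS : I.Odd S) (hi : i ∈ S) (hnu : vec I.nu i ≠ 0) (ha : Supp a S) (hb : Supp b S)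
    (hab : ∀ l, l ≠ i → a l = b l) (ra : I.Reg a) (rb : I.Reg b) :
    par (vec (I.k a) i) (vec (I.k b) i) := by
  have hsupp : ∀ (s : F) {c : ι → F}, Supp c S → Supp (s • c) S := fun s c hc l hl => by
    rw [Pi.smul_apply, hc l hl, smul_zero]
  have ra1 : I.Reg ((1 : F) • a) := by rw [one_smul]; exact ra
  have rb1 : I.Reg ((1 : F) • b) := by rw [one_smul]; exact rb
  have h0 : I.Reg ((0 : F) • b) := by rw [zero_smul]; exact I.reg_zero
  have hl0 : vec (I.l ((0 : F) • b)) i ≠ 0 := by rw [zero_smul, I.l_zero]; exact hnu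
  have h := I.closePar (s0 := 1) (i := i) (Path.smul a) (Path.smul b) ra1 rb1 (by
    filter_upwards [I.evReg (Path.smul a) ra1, I.evReg (Path.smul b) rb1,
      I.evL (Path.smul b) h0 hl0] with s hsa hsb hsl
    refine par_of_ker hsl ?_ ?_
    · exact own_dot hS hi (hsupp s ha) (hsupp s hb)
        (fun l hl => by rw [Pi.smul_apply, Pi.smul_apply, hab l hl]) hsa hsb
    · exact own_dot hS hi (hsupp s hb) (hsupp s hb) (fun l hl => rfl) hsb hsb)
  rwa [one_smul, one_smul] at h

theorem own_l (hS : I.Odd S) (hi : i ∈ S) (hmu : vec I.mu i ≠ 0) (ha : Supp a S) (hb : Supp b S)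
    (hab : ∀ l, l ≠ i → a l = b l) (ra : I.Reg a) (rb : I.Reg b) :
    par (vec (I.l a) i) (vec (I.l b) i) := by
  have h := own_k (I := I.tr) (I.odd_tr hS) hi hmu ha hb hab (I.reg_tr.mpr ra)
    (I.reg_tr.mpr rb)
  rwa [I.k_tr, I.k_tr] at h

theorem single_dot (h : I.Odd {i}) : vec I.nu i ⬝ᵥ vec I.mu i = 0 := by
  have hs : Supp (0 : ι → F) {i} := fun l _ => rfl
  have h1 := own_dot h (Finset.mem_singleton_self i) hs hs (fun l _ => rfl) I.reg_zero I.reg_zero
  rwa [I.l_zero, I.k_zero] at h1

theorem single_tau (h : I.Odd {i}) : I.tau i i = 0 := by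
  have hs : ∀ s : F, Supp (Pi.single i s : ι → F) {i} := by
    intro s l hl
    have hli : l ≠ i := fun e => hl (Finset.mem_singleton.mpr e)
    exact own_single_ne hli s
  let x : F → ι → F := fun s => (Pi.single i s : ι → F)
  have hx : Path x := Path.single i
  have hx0 : x 0 = 0 := Pi.single_zero i
  have hr0 : I.Reg (x 0) := by rw [hx0]; exact I.reg_zero
  have hrat : RatAt 0 (fun s => vec I.nu i ⬝ᵥ (blk I.T i i *ᵥ vec (I.k (x s)) i)) :=
    RatAt.dot (fun q => RatAt.const _) (fun q => RatAt.matMulVec (A := fun _ => blk I.T i i)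
      (fun p q => RatAt.const _) (fun q => I.ratK hx hr0 (i, q)) q)
  have h2 := RatAt.zero hrat (by
    filter_upwards [I.evReg hx hr0, eventually_cofinite_ne (0 : F)] with s hs1 hs0
    have h3 : vec I.nu i ⬝ᵥ vec (I.k (x s)) i = 0 := by
      have h4 := own_dot h (Finset.mem_singleton_self i) (hs s) (fun l _ => rfl : Supp (0 : ι → F) {i})
        (fun l hl => own_single_ne hl s) hs1 I.reg_zero
      rwa [I.l_zero] at h4
    have h5 := I.k_eq_on hs1 (hs s) i
    rw [Finset.sum_singleton] at h5
    rw [h5, dotProduct_add, single_dot h, zero_add, dotProduct_smul] at h3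
    have h6 : x s i = s := own_single_same i s
    rw [h6, smul_eq_mul] at h3
    exact (mul_eq_zero.mp h3).resolve_left hs0)
  rw [hx0, I.k_zero] at h2
  exact h2

theorem single_eig (h : I.Odd {i}) (hmu : vec I.mu i ≠ 0) (hnu : vec I.nu i ≠ 0) :
    ∃ c : F, blk I.T i i *ᵥ vec I.mu i = c • vec I.mu i := by
  have h1 : par (vec I.mu i) (blk I.T i i *ᵥ vec I.mu i) :=
    par_of_ker hnu (single_dot h) (single_tau h)
  exact exists_smul_of_par hmu h1

theorem k_single {c t : F} (hmu : vec I.mu j ≠ 0)
    (hc : blk I.T j j *ᵥ vec I.mu j = c • vec I.mu j) (hr : I.Reg (Pi.single j t)) :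
    1 - c * t ≠ 0 ∧ ∀ i, i ≠ j → vec (I.k (Pi.single j t)) i =
      vec I.mu i + (t / (1 - c * t)) • (blk I.T i j *ᵥ vec I.mu j) := by
  let v : F → F → ι × Fin 2 → F := fun e r p =>
    (if p.1 = j then r • vec I.mu j
      else e • vec I.mu p.1 + (t * r) • (blk I.T p.1 j *ᵥ vec I.mu j)) p.2
  have hvj : ∀ e r, vec (v e r) j = r • vec I.mu j := fun e r => by
    funext q
    show (if j = j then _ else _ : Fin 2 → F) q = _
    rw [if_pos rfl]
  have hvi : ∀ e r i, i ≠ j → vec (v e r) i =
      e • vec I.mu i + (t * r) • (blk I.T i j *ᵥ vec I.mu j) := fun e r i hi => by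
    funext q
    show (if i = j then _ else _ : Fin 2 → F) q = _
    rw [if_neg hi]
  have hsum : ∀ (w : ι × Fin 2 → F) (i : ι),
      ∑ l, (Pi.single j t : ι → F) l • (blk I.T i l *ᵥ vec w l) =
        t • (blk I.T i j *ᵥ vec w j) := fun w i => by
    rw [Finset.sum_eq_single j (fun l _ hl => by rw [Pi.single_eq_of_ne hl, zero_smul])
      (fun hn => absurd (Finset.mem_univ j) hn), Pi.single_eq_same]
  have heq : ∀ e r : F, e + t * r * c = r → ∀ i, vec (v e r) i =
      e • vec I.mu i + t • (blk I.T i j *ᵥ vec (v e r) j) := fun e r her i => by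
    rw [hvj, Matrix.mulVec_smul, smul_smul]
    by_cases hi : i = j
    · subst hi
      rw [hvj, hc, smul_smul, ← add_smul, her]
    · rw [hvi e r i hi]
  have hct : 1 - c * t ≠ 0 := by
    intro h0
    have h1 : I.k (Pi.single j t) + v 0 1 = I.k (Pi.single j t) := by
      refine I.k_unique hr fun i => ?_
      have h2 := I.k_eq_on hr (S := Finset.univ) (fun l hl => absurd (Finset.mem_univ l) hl) i
      rw [hsum] at h2
      rw [hsum, vec_add, vec_add, Matrix.mulVec_add, smul_add, ← add_assoc, ← h2]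
      congr 1
      have h3 := heq 0 1 (by linear_combination -h0) i
      rwa [zero_smul, zero_add] at h3
    have h2 : v 0 1 = 0 := by simpa using h1
    apply hmu
    have h3 := hvj 0 1
    rw [one_smul, h2] at h3
    rw [← h3]
    rfl
  refine ⟨hct, fun i hi => ?_⟩
  have h1 : v 1 (1 / (1 - c * t)) = I.k (Pi.single j t) := by
    refine I.k_unique hr fun i => ?_
    rw [hsum]
    have hd : (1 - c * t) * (1 / (1 - c * t)) = 1 := mul_one_div_cancel hct
    have h3 := heq 1 (1 / (1 - c * t)) (by linear_combination -hd) i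
    rwa [one_smul] at h3
  rw [← h1, hvi _ _ i hi, one_smul, mul_one_div]

end Inst

end Pool.Agent.H50.R2
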