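import Pool.Agent.H50.R2.Master
import Pool.Agent.H50.R2.Anti

/-! # Module Pair: an adjacent pair has zero defect form (MP_966f71_lc)

`{i, j}` odd, nondegenerate, `tau i j ≠ 0`. Let `c_i, c_j` be the eigenvalues (`single_eig`).
Step 1. For all `a, b` with `Pi.single i a`, `Pi.single j b` regular, `a ≠ 0`, `b ≠ 0`:
`R(k_j(a e_i), k_i(b e_j)) = 0`. Path `s ↦ x s = s a e_i + s b e_j`; for almost all `s`
(`s ≠ 0`, `x s`, `s a e_i`, `s b e_j` regular, `k_i`, `k_j` at all of them nonzero, as they are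
`mu_i, mu_j ≠ 0` at `s = 0`) `master_pair` and `h = 0` give `R(k_j(x s), k_i(x s)) = 0`; by `own_k`
`k_j(x s) ∥ k_j(s a e_i)` and `k_i(x s) ∥ k_i(s b e_j)`, so `R(k_j(s a e_i), k_i(s b e_j)) = 0`
(bilinear, nonzero proportionality factors). Close with `RatAt.zero` at `s0 = 1`.
Step 2. By `k_single`, `k_j(a e_i) = mu_j + a' T_ji mu_i`, `k_i(b e_j) = mu_i + b' T_ij mu_j`,
`a' = a / (1 - c_i a)`, an injective function of `a`. Choose two regular `a ≠ 0` and two regular
`b ≠ 0` (almost all are): bilinearity gives `R(u, v) = 0` for `u ∈ {mu_j, T_ji mu_i}`,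
`v ∈ {mu_i, T_ij mu_j}`. These are bases: `nu_i mu_i = 0`, `nu_i T_ij mu_j = tau i j ≠ 0`, and
`tau j i = - tau i j ≠ 0` (`tau_anti`). -/

set_option autoImplicit false

namespace Pool.Agent.H50.R2

open Matrix Filter

variable {F ι : Type*} [Field F] [Infinite F] [Fintype ι] [DecidableEq ι]

namespace Inst

variable {I : Inst F ι} {i j : ι} {w : ι → F} {th : ι → Fin 2 → F}

omit [Infinite F] [Fintype ι] [DecidableEq ι] in
private theorem Pair_expand (w : ι → F) (th : ι → Fin 2 → F) (i j : ι) (a b : Fin 2 → F) :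
    I.dfct w th i j a b = a 0 * b 0 * I.dfct w th i j ![1, 0] ![1, 0] +
      a 0 * b 1 * I.dfct w th i j ![1, 0] ![0, 1] + a 1 * b 0 * I.dfct w th i j ![0, 1] ![1, 0] +
      a 1 * b 1 * I.dfct w th i j ![0, 1] ![0, 1] := by
  simp only [dfct, ar, Matrix.mulVec, dotProduct, Fin.sum_univ_two, Matrix.cons_val_zero,
    Matrix.cons_val_one]
  ring

private theorem Pair_step (hij : i ≠ j) (hnd : I.NonDeg {i, j}) (ho : I.Odd {i, j})
    (hA : I.IsArea {i, j} w th) {a b : F} (ha : a ≠ 0) (hb : b ≠ 0)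
    (ra : I.Reg (Pi.single i a)) (rb : I.Reg (Pi.single j b)) :
    I.dfct w th i j (vec (I.k (Pi.single i a)) j) (vec (I.k (Pi.single j b)) i) = 0 := by
  have hi : i ∈ ({i, j} : Finset ι) := Finset.mem_insert_self i _
  have hj : j ∈ ({i, j} : Finset ι) := Finset.mem_insert_of_mem (Finset.mem_singleton_self j)
  set x0 : ι → F := Pi.single i a + Pi.single j b with hx0
  have x0i : x0 i = a := by
    rw [hx0, Pi.add_apply, Pi.single_eq_same, Pi.single_eq_of_ne hij, add_zero]
  have x0j : x0 j = b := by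
    rw [hx0, Pi.add_apply, Pi.single_eq_same, Pi.single_eq_of_ne hij.symm, zero_add]
  have hX : Path (fun s : F => s • x0) := Path.smul x0
  have hY : Path (fun s : F => s • (Pi.single i a : ι → F)) := Path.smul _
  have hZ : Path (fun s : F => s • (Pi.single j b : ι → F)) := Path.smul _
  have rX0 : I.Reg ((0 : F) • x0) := by rw [zero_smul]; exact I.reg_zero
  have rY1 : I.Reg ((1 : F) • (Pi.single i a : ι → F)) := by rw [one_smul]; exact ra
  have rZ1 : I.Reg ((1 : F) • (Pi.single j b : ι → F)) := by rw [one_smul]; exact rb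
  have e1 := I.evReg (s0 := 0) hX rX0
  have e2 := I.evReg (s0 := 1) hY rY1
  have e3 := I.evReg (s0 := 1) hZ rZ1
  have e4 := I.evK (s0 := 0) hX rX0 (i := j) (by rw [zero_smul, I.k_zero]; exact (hnd j hj).1)
  have e5 := I.evK (s0 := 0) hX rX0 (i := i) (by rw [zero_smul, I.k_zero]; exact (hnd i hi).1)
  have e6 : ∀ᶠ s : F in cofinite, s ≠ 0 := by
    simp [Filter.eventually_cofinite]
  have hrat : RatAt (1 : F) (fun s : F => I.dfct w th i j
      (vec (I.k (s • (Pi.single i a : ι → F))) j) (vec (I.k (s • (Pi.single j b : ι → F))) i)) := by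
    have hk : ∀ α : Fin 2, RatAt (1 : F) (fun s : F => vec (I.k (s • (Pi.single i a : ι → F))) j α) :=
      fun α => I.ratK (s0 := 1) hY rY1 (j, α)
    have hl : ∀ α : Fin 2, RatAt (1 : F) (fun s : F => vec (I.k (s • (Pi.single j b : ι → F))) i α) :=
      fun α => I.ratK (s0 := 1) hZ rZ1 (i, α)
    have h1 := (((((hk 0).mul (hl 0)).mul (RatAt.const (I.dfct w th i j ![1, 0] ![1, 0]))).add
      (((hk 0).mul (hl 1)).mul (RatAt.const (I.dfct w th i j ![1, 0] ![0, 1])))).add
      (((hk 1).mul (hl 0)).mul (RatAt.const (I.dfct w th i j ![0, 1] ![1, 0])))).add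
      (((hk 1).mul (hl 1)).mul (RatAt.const (I.dfct w th i j ![0, 1] ![0, 1])))
    refine h1.congr ?_ (Filter.Eventually.of_forall fun s => ?_)
    · exact (Pair_expand w th i j _ _).symm
    · exact (Pair_expand w th i j _ _).symm
  have hz := hrat.zero (by
    filter_upwards [e1, e2, e3, e4, e5, e6] with s s1 s2 s3 s4 s5 s6
    have spX : Supp (s • x0) {i, j} := by
      intro l hl
      rw [Finset.mem_insert, Finset.mem_singleton, not_or] at hl
      rw [Pi.smul_apply, hx0, Pi.add_apply, Pi.single_eq_of_ne hl.1, Pi.single_eq_of_ne hl.2,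
        add_zero, smul_zero]
    have spY : Supp (s • (Pi.single i a : ι → F)) {i, j} := by
      intro l hl
      rw [Finset.mem_insert, Finset.mem_singleton, not_or] at hl
      rw [Pi.smul_apply, Pi.single_eq_of_ne hl.1, smul_zero]
    have spZ : Supp (s • (Pi.single j b : ι → F)) {i, j} := by
      intro l hl
      rw [Finset.mem_insert, Finset.mem_singleton, not_or] at hl
      rw [Pi.smul_apply, Pi.single_eq_of_ne hl.2, smul_zero]
    have m1 := master_pair hij hA spX s1
    rw [ho _ spX s1, zero_mul] at m1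
    have m2 := neg_eq_zero.1 m1.symm
    have m3 : (s • x0) i * (s • x0) j ≠ 0 := by
      rw [Pi.smul_apply, Pi.smul_apply, x0i, x0j, smul_eq_mul, smul_eq_mul]
      exact mul_ne_zero (mul_ne_zero s6 ha) (mul_ne_zero s6 hb)
    have m4 := (mul_eq_zero.1 m2).resolve_left m3
    have p1 := own_k ho hj (hnd j hj).2 spX spY (fun l hl => by
      rw [Pi.smul_apply, Pi.smul_apply, hx0, Pi.add_apply, Pi.single_eq_of_ne hl, add_zero]) s1 s2
    have p2 := own_k ho hi (hnd i hi).2 spX spZ (fun l hl => by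
      rw [Pi.smul_apply, Pi.smul_apply, hx0, Pi.add_apply, Pi.single_eq_of_ne hl, zero_add]) s1 s3
    obtain ⟨c, hc⟩ := exists_smul_of_par s4 p1
    obtain ⟨d, hd⟩ := exists_smul_of_par s5 p2
    rw [hc, hd, dfct_smul_left, dfct_smul_right, m4, mul_zero, mul_zero])
  simp only [one_smul] at hz
  exact hz

private theorem Pair_two (i : ι) : ∃ a1 a2 : F, a1 ≠ 0 ∧ a2 ≠ 0 ∧ a1 ≠ a2 ∧
    I.Reg (Pi.single i a1) ∧ I.Reg (Pi.single i a2) := by
  have h0 : I.Reg ((fun s : F => (Pi.single i s : ι → F)) 0) := by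
    simp only [Pi.single_zero]
    exact I.reg_zero
  have e1 := I.evReg (s0 := 0) (Path.single i) h0
  have e2 : ∀ᶠ s : F in cofinite, s ≠ 0 := by
    simp [Filter.eventually_cofinite]
  obtain ⟨a1, h1, h2⟩ := (e1.and e2).exists
  have e3 : ∀ᶠ s : F in cofinite, s ≠ a1 := by
    simp [Filter.eventually_cofinite]
  obtain ⟨a2, h3, h4, h5⟩ := (e1.and (e2.and e3)).exists
  exact ⟨a1, a2, h2, h4, h5.symm, h1, h3⟩

omit [Infinite F] [Fintype ι] [DecidableEq ι] in
private theorem Pair_inj {c a1 a2 : F} (h : a1 ≠ a2) (h1 : 1 - c * a1 ≠ 0) (h2 : 1 - c * a2 ≠ 0) :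
    a1 / (1 - c * a1) ≠ a2 / (1 - c * a2) := by
  intro h3
  rw [div_eq_div_iff h1 h2] at h3
  apply h
  linear_combination h3

omit [Infinite F] [Fintype ι] [DecidableEq ι] in
private theorem Pair_bil {A B C E a1 a2 b1 b2 : F} (ha : a1 ≠ a2) (hb : b1 ≠ b2)
    (h11 : A + b1 * B + a1 * (C + b1 * E) = 0) (h12 : A + b2 * B + a1 * (C + b2 * E) = 0)
    (h21 : A + b1 * B + a2 * (C + b1 * E) = 0) (h22 : A + b2 * B + a2 * (C + b2 * E) = 0) :
    A = 0 ∧ B = 0 ∧ C = 0 ∧ E = 0 := by
  have da : a1 - a2 ≠ 0 := sub_ne_zero.2 ha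
  have db : b1 - b2 ≠ 0 := sub_ne_zero.2 hb
  have e1 : C + b1 * E = 0 := by
    have : (a1 - a2) * (C + b1 * E) = 0 := by linear_combination h11 - h21
    exact (mul_eq_zero.1 this).resolve_left da
  have e2 : C + b2 * E = 0 := by
    have : (a1 - a2) * (C + b2 * E) = 0 := by linear_combination h12 - h22
    exact (mul_eq_zero.1 this).resolve_left da
  have e3 : E = 0 := by
    have : (b1 - b2) * E = 0 := by linear_combination e1 - e2
    exact (mul_eq_zero.1 this).resolve_left db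
  have e4 : C = 0 := by rw [e3, mul_zero, add_zero] at e1; exact e1
  rw [e1, mul_zero, add_zero] at h11
  rw [e2, mul_zero, add_zero] at h12
  have e5 : B = 0 := by
    have : (b1 - b2) * B = 0 := by linear_combination h11 - h12
    exact (mul_eq_zero.1 this).resolve_left db
  rw [e5, mul_zero, add_zero] at h11
  exact ⟨h11, e5, e4, e3⟩

theorem pair_dfct (hij : i ≠ j) (hnd : I.NonDeg {i, j}) (ho : I.Odd {i, j})
    (hA : I.IsArea {i, j} w th) (ht : I.tau i j ≠ 0) (a b : Fin 2 → F) :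
    I.dfct w th i j a b = 0 := by
  have hi : i ∈ ({i, j} : Finset ι) := Finset.mem_insert_self i _
  have hj : j ∈ ({i, j} : Finset ι) := Finset.mem_insert_of_mem (Finset.mem_singleton_self j)
  have oi : I.Odd {i} := ho.mono (by simp)
  have oj : I.Odd {j} := ho.mono (by simp)
  obtain ⟨ci, hci⟩ := single_eig oi (hnd i hi).1 (hnd i hi).2
  obtain ⟨cj, hcj⟩ := single_eig oj (hnd j hj).1 (hnd j hj).2
  obtain ⟨a1, a2, ha1, ha2, ha, ra1, ra2⟩ := Pair_two (I := I) i
  obtain ⟨b1, b2, hb1, hb2, hb, rb1, rb2⟩ := Pair_two (I := I) j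
  obtain ⟨na1, ka1⟩ := k_single (hnd i hi).1 hci ra1
  obtain ⟨na2, ka2⟩ := k_single (hnd i hi).1 hci ra2
  obtain ⟨nb1, kb1⟩ := k_single (hnd j hj).1 hcj rb1
  obtain ⟨nb2, kb2⟩ := k_single (hnd j hj).1 hcj rb2
  have hexp : ∀ (s t : F) (u u' v v' : Fin 2 → F),
      I.dfct w th i j (u + s • u') (v + t • v') = I.dfct w th i j u v +
        t * I.dfct w th i j u v' + s * (I.dfct w th i j u' v + t * I.dfct w th i j u' v') := by
    intro s t u u' v v'
    rw [dfct_add_left, dfct_add_right, dfct_add_right, dfct_smul_left, dfct_smul_left,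
      dfct_smul_right, dfct_smul_right]
    ring
  have s11 := Pair_step hij hnd ho hA ha1 hb1 ra1 rb1
  have s12 := Pair_step hij hnd ho hA ha1 hb2 ra1 rb2
  have s21 := Pair_step hij hnd ho hA ha2 hb1 ra2 rb1
  have s22 := Pair_step hij hnd ho hA ha2 hb2 ra2 rb2
  rw [ka1 j hij.symm, kb1 i hij, hexp] at s11
  rw [ka1 j hij.symm, kb2 i hij, hexp] at s12
  rw [ka2 j hij.symm, kb1 i hij, hexp] at s21
  rw [ka2 j hij.symm, kb2 i hij, hexp] at s22
  obtain ⟨z1, z2, z3, z4⟩ := Pair_bil (Pair_inj ha na1 na2) (Pair_inj hb nb1 nb2) s11 s12 s21 s22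
  have w1 : ar (vec I.mu j) (blk I.T j i *ᵥ vec I.mu i) ≠ 0 := by
    intro h0
    have h1 : I.tau j i = 0 := by
      unfold tau
      exact ker_of_par (hnd j hj).1 h0 (single_dot oj)
    rw [tau_anti hij ho, h1, neg_zero] at ht
    exact ht rfl
  have w2 : ar (vec I.mu i) (blk I.T i j *ᵥ vec I.mu j) ≠ 0 := by
    intro h0
    apply ht
    unfold tau
    exact ker_of_par (hnd i hi).1 h0 (single_dot oi)
  have span2 : ∀ {u v : Fin 2 → F}, ar u v ≠ 0 → ∀ c : Fin 2 → F,
      c = (ar c v / ar u v) • u + (ar u c / ar u v) • v := by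
    intro u v huv c
    funext r
    rw [Pi.add_apply, Pi.smul_apply, Pi.smul_apply, smul_eq_mul, smul_eq_mul]
    field_simp
    unfold ar
    fin_cases r
    · simp only [Fin.zero_eta]; ring
    · simp only [Fin.mk_one]; ring
  rw [span2 w1 a, span2 w2 b, dfct_add_left, dfct_add_right, dfct_add_right, dfct_smul_left,
    dfct_smul_left, dfct_smul_left, dfct_smul_left, dfct_smul_right, dfct_smul_right,
    dfct_smul_right, dfct_smul_right, z1, z2, z3, z4]
  ring

end Inst

end Pool.Agent.H50.R2
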