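import Pool.Agent.H50.R2.Pair

/-! # Module PathA: the structure of a path `i - l - j` (MP_966f71_lc)

`v_i := T_il mu_l`, `v_j := T_jl mu_l`; `nu_i mu_i = 0`, `nu_i v_i = tau i l ≠ 0`, so
`ar mu_i v_i ≠ 0`, same for `j`. `phi` with `phi mu_j = mu_i`, `phi v_j = v_i` (`exists_map`) is
invertible; `T_il - phi T_jl` kills `mu_l`, so it is `v ↦ (nu_l v) rho` (`rank_one_map`).
For regular `x` supported on `{i, j, l}` (`k_eq_on` for `i` and `j`, and
`h x = x_i nu_i k_i + x_j nu_j k_j + x_l nu_l k_l = 0`):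
`k_i - phi k_j = x_i (T_ii - phi T_ji - rho nu_i) k_i + x_j (T_ij - phi T_jj - rho nu_j) k_j`.  (*)
`pa`: let `t e_l` be regular; `y s = s e_j + t e_l` is regular for almost all `s`;
`k_i(y s) ∥ k_i(t e_l)` (`Gen`, `tau i j = 0`), `k_j(y s) ∥ k_j(t e_l)` (`own_k`), and
`k_i(t e_l) = mu_i + t' v_i = phi (mu_j + t' v_j) = phi k_j(t e_l)` (`k_single`), nonzero. So
`ar (phi k_j(y s)) (k_i(y s)) = 0`, and (*) gives `ar (phi k_j) (E k_j) = 0`,
`E = T_ij - phi T_jj - rho nu_j`, for `s ≠ 0`, so (let `s → 0`, `RatAt.zero`) at `t e_l`, where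
`k_j = mu_j + t' v_j`: infinitely many `t'`; `scalar_of_inf` gives `E = c1 phi`.
`pb`: the same with `y s = s e_i + t e_l` and `E' = T_ii - phi T_ji - rho nu_i` on the plane of `i`
(`k_i(y s) ∥ k_i(t e_l)` by `own_k`, `k_j(y s) ∥ k_j(t e_l)` by `Gen`, `tau j i = 0`); here
`scalar_of_inf` with `phi = 1`. -/

set_option autoImplicit false
set_option linter.unusedSectionVars false
set_option linter.unnecessarySimpa false
set_option linter.unusedVariables false

namespace Pool.Agent.H50.R2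

open Matrix Filter

variable {F ι : Type*} [Field F] [Infinite F] [Fintype ι] [DecidableEq ι]

namespace Inst

variable {I : Inst F ι} {i j l : ι}

omit [Infinite F] in
private theorem PathA_mem (i j l : ι) : i ∈ ({i, j, l} : Finset ι) ∧ j ∈ ({i, j, l} : Finset ι) ∧
    l ∈ ({i, j, l} : Finset ι) := by
  refine ⟨?_, ?_, ?_⟩ <;> simp

private theorem PathA_ar {a b : ι} (hmu : vec I.mu a ≠ 0) (oa : I.Odd {a}) (ht : I.tau a b ≠ 0) :
    ar (vec I.mu a) (blk I.T a b *ᵥ vec I.mu b) ≠ 0 := by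
  intro h0
  apply ht
  unfold tau
  exact ker_of_par hmu h0 (single_dot oa)

/-- The map `phi` and the vector `rho` (pure linear algebra). -/
theorem path_phi (hnd : I.NonDeg {i, j, l}) (ho : I.Odd {i, j, l})
    (til : I.tau i l ≠ 0) (tjl : I.tau j l ≠ 0) :
    ∃ (phi : Matrix (Fin 2) (Fin 2) F) (rho : Fin 2 → F), phi *ᵥ vec I.mu j = vec I.mu i ∧
      phi.det ≠ 0 ∧ ∀ v, blk I.T i l *ᵥ v = phi *ᵥ (blk I.T j l *ᵥ v) +
        (vec I.nu l ⬝ᵥ v) • rho := by
  obtain ⟨mi, mj, ml⟩ := PathA_mem i j l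
  have oi : I.Odd {i} := ho.mono (by simpa using mi)
  have oj : I.Odd {j} := ho.mono (by simpa using mj)
  have ol : I.Odd {l} := ho.mono (by simpa using ml)
  have ai := PathA_ar (hnd i mi).1 oi til
  have aj := PathA_ar (hnd j mj).1 oj tjl
  obtain ⟨phi, h1, h2, h3⟩ := exists_map (c := vec I.mu i) (d := blk I.T i l *ᵥ vec I.mu l) aj
  obtain ⟨rho, hrho⟩ := rank_one_map (hnd l ml).1 (hnd l ml).2 (single_dot ol)
    (blk I.T i l - phi * blk I.T j l) (by
      rw [Matrix.sub_mulVec, ← Matrix.mulVec_mulVec, h2, sub_self])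
  refine ⟨phi, rho, h1, h3 ai, fun v => ?_⟩
  rw [← hrho v, Matrix.sub_mulVec, ← Matrix.mulVec_mulVec, add_sub_cancel]

/-- the difference `k_i - phi k_j` -/
private theorem PathA_diff (hij : i ≠ j) (hil : i ≠ l) (hjl : j ≠ l) (ho : I.Odd {i, j, l})
    {phi : Matrix (Fin 2) (Fin 2) F} {rho : Fin 2 → F}
    (h1 : phi *ᵥ vec I.mu j = vec I.mu i)
    (h3 : ∀ v, blk I.T i l *ᵥ v = phi *ᵥ (blk I.T j l *ᵥ v) + (vec I.nu l ⬝ᵥ v) • rho)
    {y : ι → F} (hy : Supp y {i, j, l}) (ry : I.Reg y) :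
    vec (I.k y) i = phi *ᵥ vec (I.k y) j +
      y i • (blk I.T i i *ᵥ vec (I.k y) i - phi *ᵥ (blk I.T j i *ᵥ vec (I.k y) i) -
        (vec I.nu i ⬝ᵥ vec (I.k y) i) • rho) +
      y j • (blk I.T i j *ᵥ vec (I.k y) j - phi *ᵥ (blk I.T j j *ᵥ vec (I.k y) j) -
        (vec I.nu j ⬝ᵥ vec (I.k y) j) • rho) := by
  have hh := ho y hy ry
  rw [I.h_eq_on hy] at hh
  have ei := I.k_eq_on ry hy i
  have ej := I.k_eq_on ry hy j
  have hn1 : i ∉ ({j, l} : Finset ι) := by simp [hij, hil]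
  rw [Finset.sum_insert hn1, Finset.sum_pair hjl] at hh ei ej
  have h4 := h3 (vec (I.k y) l)
  set ki := vec (I.k y) i
  set kj := vec (I.k y) j
  set kl := vec (I.k y) l
  have e1 : phi *ᵥ kj = vec I.mu i + (y i • (phi *ᵥ (blk I.T j i *ᵥ ki)) +
      (y j • (phi *ᵥ (blk I.T j j *ᵥ kj)) + y l • (phi *ᵥ (blk I.T j l *ᵥ kl)))) := by
    conv_lhs => rw [ej]
    rw [Matrix.mulVec_add, Matrix.mulVec_add, Matrix.mulVec_add, Matrix.mulVec_smul,
      Matrix.mulVec_smul, Matrix.mulVec_smul, h1]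
  funext r
  have f1 := congrFun e1 r
  have f2 := congrFun ei r
  have f4 := congrFun h4 r
  simp only [Pi.add_apply, Pi.sub_apply, Pi.smul_apply, smul_eq_mul] at f1 f2 f4 ⊢
  linear_combination f2 - f1 + y l * f4 + rho r * hh

/-- if `y` differs from `t e_l` only in coordinates that do not matter then `k_i` is parallel to
`phi k_j` -/
private theorem PathA_par {phi : Matrix (Fin 2) (Fin 2) F} {ki kj ki' kj' : Fin 2 → F}
    (h0 : ki' = phi *ᵥ kj') (hne : ki' ≠ 0) (h1 : par ki ki') (h2 : par kj kj') :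
    ar (phi *ᵥ kj) ki = 0 := by
  have h3 : par (phi *ᵥ kj) ki' := by
    unfold par
    rw [h0, ar_mulVec, h2, mul_zero]
  exact par_trans hne h3 (par_symm h1)

private theorem PathA_three (i : ι) : ∃ a1 a2 a3 : F, a1 ≠ a2 ∧ a1 ≠ a3 ∧ a2 ≠ a3 ∧
    I.Reg (Pi.single i a1) ∧ I.Reg (Pi.single i a2) ∧ I.Reg (Pi.single i a3) := by
  have h0 : I.Reg ((fun s : F => (Pi.single i s : ι → F)) 0) := by
    simp only [Pi.single_zero]
    exact I.reg_zero
  have e1 := I.evReg (s0 := 0) (Path.single i) h0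
  have e2 : ∀ a : F, ∀ᶠ s : F in cofinite, s ≠ a := fun a => by
    simp [Filter.eventually_cofinite]
  obtain ⟨a1, h1⟩ := e1.exists
  obtain ⟨a2, h2, h2'⟩ := (e1.and (e2 a1)).exists
  obtain ⟨a3, h3, h3', h3''⟩ := (e1.and ((e2 a1).and (e2 a2))).exists
  exact ⟨a1, a2, a3, h2'.symm, h3'.symm, h3''.symm, h1, h2, h3⟩

omit [Infinite F] [Fintype ι] [DecidableEq ι] in
private theorem PathA_inj {c a1 a2 : F} (h : a1 ≠ a2) (h1 : 1 - c * a1 ≠ 0)
    (h2 : 1 - c * a2 ≠ 0) : a1 / (1 - c * a1) ≠ a2 / (1 - c * a2) := by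
  intro h3
  rw [div_eq_div_iff h1 h2] at h3
  apply h
  linear_combination h3

/-- a quadratic expression in rational functions is rational -/
private theorem PathA_rat {s0 : F} (A B : Matrix (Fin 2) (Fin 2) F) {f : F → Fin 2 → F}
    (hf : ∀ a, RatAt s0 (fun s => f s a)) :
    RatAt s0 (fun s => ar (A *ᵥ f s) (B *ᵥ f s)) := by
  have hA : ∀ (A : Matrix (Fin 2) (Fin 2) F) (r : Fin 2), RatAt s0 (fun s => (A *ᵥ f s) r) := by
    intro A r
    refine (((RatAt.const (A r 0)).mul (hf 0)).add ((RatAt.const (A r 1)).mul (hf 1))).congr ?_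
      (Filter.Eventually.of_forall fun s => ?_) <;>
    simp only [Matrix.mulVec, dotProduct, Fin.sum_univ_two]
  exact ((hA A 0).mul (hA B 1)).sub ((hA A 1).mul (hA B 0))

private theorem PathA_pts (hij : i ≠ j) (hil : i ≠ l) (hjl : j ≠ l) (hnd : I.NonDeg {i, j, l})
    (ho : I.Odd {i, j, l}) (til : I.tau i l ≠ 0) {phi : Matrix (Fin 2) (Fin 2) F}
    {rho : Fin 2 → F} (h1 : phi *ᵥ vec I.mu j = vec I.mu i)
    (h3 : ∀ v, blk I.T i l *ᵥ v = phi *ᵥ (blk I.T j l *ᵥ v) + (vec I.nu l ⬝ᵥ v) • rho)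
    {c t : F} (hc : blk I.T l l *ᵥ vec I.mu l = c • vec I.mu l) (rt : I.Reg (Pi.single l t)) :
    1 - c * t ≠ 0 ∧
    vec (I.k (Pi.single l t)) i = vec I.mu i + (t / (1 - c * t)) • (blk I.T i l *ᵥ vec I.mu l) ∧
    vec (I.k (Pi.single l t)) j = vec I.mu j + (t / (1 - c * t)) • (blk I.T j l *ᵥ vec I.mu l) ∧
    vec (I.k (Pi.single l t)) i = phi *ᵥ vec (I.k (Pi.single l t)) j ∧
    vec (I.k (Pi.single l t)) i ≠ 0 := by
  obtain ⟨mi, mj, ml⟩ := PathA_mem i j l
  have oi : I.Odd {i} := ho.mono (by simpa using mi)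
  have ol : I.Odd {l} := ho.mono (by simpa using ml)
  obtain ⟨n1, k1⟩ := k_single (hnd l ml).1 hc rt
  have h4 := h3 (vec I.mu l)
  rw [single_dot ol, zero_smul, add_zero] at h4
  refine ⟨n1, k1 i hil, k1 j hjl, ?_, ?_⟩
  · rw [k1 i hil, k1 j hjl, Matrix.mulVec_add, Matrix.mulVec_smul, h1, h4]
  · rw [k1 i hil]
    intro h0
    have h5 := PathA_ar (hnd i mi).1 oi til
    apply h5
    have h6 : ar (vec I.mu i) (vec I.mu i + (t / (1 - c * t)) • (blk I.T i l *ᵥ vec I.mu l)) = 0 := by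
      rw [h0]
      simp [ar]
    rw [ar_add_right, ar_self, zero_add, ar_smul_right] at h6
    rcases mul_eq_zero.1 h6 with h7 | h7
    · rw [h7, zero_smul, add_zero] at h0
      exact absurd h0 (hnd i mi).1
    · exact h7

theorem path_pa (hij : i ≠ j) (hil : i ≠ l) (hjl : j ≠ l) (hnd : I.NonDeg {i, j, l})
    (ho : I.Odd {i, j, l}) (hg : I.Gen {i, j, l}) (tij : I.tau i j = 0) (til : I.tau i l ≠ 0)
    (tjl : I.tau j l ≠ 0) {phi : Matrix (Fin 2) (Fin 2) F} {rho : Fin 2 → F}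
    (h1 : phi *ᵥ vec I.mu j = vec I.mu i) (h2 : phi.det ≠ 0)
    (h3 : ∀ v, blk I.T i l *ᵥ v = phi *ᵥ (blk I.T j l *ᵥ v) + (vec I.nu l ⬝ᵥ v) • rho) :
    ∃ c1 : F, ∀ v, blk I.T i j *ᵥ v = phi *ᵥ (blk I.T j j *ᵥ v) + (vec I.nu j ⬝ᵥ v) • rho +
      c1 • (phi *ᵥ v) := by
  obtain ⟨mi, mj, ml⟩ := PathA_mem i j l
  have oj : I.Odd {j} := ho.mono (by simpa using mj)
  have ol : I.Odd {l} := ho.mono (by simpa using ml)
  obtain ⟨c, hc⟩ := single_eig ol (hnd l ml).1 (hnd l ml).2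
  set E : Matrix (Fin 2) (Fin 2) F :=
    blk I.T i j - phi * blk I.T j j - Matrix.vecMulVec rho (vec I.nu j) with hE
  have hEv : ∀ v, E *ᵥ v = blk I.T i j *ᵥ v - phi *ᵥ (blk I.T j j *ᵥ v) -
      (vec I.nu j ⬝ᵥ v) • rho := by
    intro v
    rw [hE, Matrix.sub_mulVec, Matrix.sub_mulVec, ← Matrix.mulVec_mulVec]
    congr 1
    funext r
    simp only [Matrix.mulVec, dotProduct, Fin.sum_univ_two, Matrix.vecMulVec_apply, Pi.smul_apply,
      smul_eq_mul]
    ring
  have key : ∀ t : F, I.Reg (Pi.single l t) → ar (phi *ᵥ vec (I.k (Pi.single l t)) j)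
      (E *ᵥ vec (I.k (Pi.single l t)) j) = 0 := by
    intro t rt
    obtain ⟨-, -, -, q4, q5⟩ := PathA_pts hij hil hjl hnd ho til h1 h3 hc rt
    have hY : Path (fun s : F => (Pi.single l t : ι → F) + Pi.single j s) :=
      (Path.const _).add (Path.single j)
    have r0 : I.Reg ((Pi.single l t : ι → F) + Pi.single j (0 : F)) := by
      rw [Pi.single_zero, add_zero]; exact rt
    have hrat : RatAt (0 : F) (fun s : F => ar
        (phi *ᵥ vec (I.k ((Pi.single l t : ι → F) + Pi.single j s)) j)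
        (E *ᵥ vec (I.k ((Pi.single l t : ι → F) + Pi.single j s)) j)) :=
      PathA_rat phi E fun a => I.ratK (s0 := 0) hY r0 (j, a)
    have e1 := I.evReg (s0 := 0) hY r0
    have e2 : ∀ᶠ s : F in cofinite, s ≠ 0 := by simp [Filter.eventually_cofinite]
    have hz := hrat.zero (by
      filter_upwards [e1, e2] with s s1 s2
      have spT : Supp (Pi.single l t : ι → F) {i, j, l} := by
        intro a ha
        rw [Pi.single_eq_of_ne]
        rintro rfl
        exact ha ml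
      have spY : Supp ((Pi.single l t : ι → F) + Pi.single j s) {i, j, l} := by
        intro a ha
        rw [Pi.add_apply, spT a ha, zero_add, Pi.single_eq_of_ne]
        rintro rfl
        exact ha mj
      have agree : ∀ a, a ≠ j → ((Pi.single l t : ι → F) + Pi.single j s : ι → F) a =
          (Pi.single l t : ι → F) a := fun a ha => by
        rw [Pi.add_apply, Pi.single_eq_of_ne ha, add_zero]
      have p1 := hg i mi j mj hij tij _ _ spY spT agree s1 rt
      have p2 := own_k ho mj (hnd j mj).2 spY spT agree s1 rt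
      have p3 := PathA_par q4 q5 p1 p2
      have d := PathA_diff hij hil hjl ho h1 h3 spY s1
      have yi : ((Pi.single l t : ι → F) + Pi.single j s : ι → F) i = 0 := by
        rw [Pi.add_apply, Pi.single_eq_of_ne hil, Pi.single_eq_of_ne hij, add_zero]
      have yj : ((Pi.single l t : ι → F) + Pi.single j s : ι → F) j = s := by
        rw [Pi.add_apply, Pi.single_eq_of_ne hjl, Pi.single_eq_same, zero_add]
      rw [yi, yj, zero_smul, add_zero, ← hEv] at d
      rw [d, ar_add_right, ar_self, zero_add, ar_smul_right] at p3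
      exact (mul_eq_zero.1 p3).resolve_left s2)
    simp only [Pi.single_zero, add_zero] at hz
    exact hz
  obtain ⟨a1, a2, a3, h12, h13, h23, ra1, ra2, ra3⟩ := PathA_three (I := I) l
  obtain ⟨n1, -, u1, -, -⟩ := PathA_pts hij hil hjl hnd ho til h1 h3 hc ra1
  obtain ⟨n2, -, u2, -, -⟩ := PathA_pts hij hil hjl hnd ho til h1 h3 hc ra2
  obtain ⟨n3, -, u3, -, -⟩ := PathA_pts hij hil hjl hnd ho til h1 h3 hc ra3
  have z1 := key a1 ra1
  have z2 := key a2 ra2
  have z3 := key a3 ra3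
  rw [u1] at z1
  rw [u2] at z2
  rw [u3] at z3
  obtain ⟨c1, hc1⟩ := scalar_of_inf h2 (PathA_ar (hnd j mj).1 oj tjl) (PathA_inj h12 n1 n2)
    (PathA_inj h13 n1 n3) (PathA_inj h23 n2 n3) z1 z2 z3
  refine ⟨c1, fun v => ?_⟩
  rw [← hc1 v, hEv]
  abel

theorem path_pb (hij : i ≠ j) (hil : i ≠ l) (hjl : j ≠ l) (hnd : I.NonDeg {i, j, l})
    (ho : I.Odd {i, j, l}) (hg : I.Gen {i, j, l}) (tij : I.tau i j = 0) (til : I.tau i l ≠ 0)
    (tjl : I.tau j l ≠ 0) {phi : Matrix (Fin 2) (Fin 2) F} {rho : Fin 2 → F}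
    (h1 : phi *ᵥ vec I.mu j = vec I.mu i) (h2 : phi.det ≠ 0)
    (h3 : ∀ v, blk I.T i l *ᵥ v = phi *ᵥ (blk I.T j l *ᵥ v) + (vec I.nu l ⬝ᵥ v) • rho) :
    ∃ c2 : F, ∀ v, blk I.T i i *ᵥ v = phi *ᵥ (blk I.T j i *ᵥ v) + (vec I.nu i ⬝ᵥ v) • rho -
      c2 • v := by
  obtain ⟨mi, mj, ml⟩ := PathA_mem i j l
  have oi : I.Odd {i} := ho.mono (by simpa using mi)
  have ol : I.Odd {l} := ho.mono (by simpa using ml)
  have oij : I.Odd {i, j} := ho.mono (by
    intro a ha
    simp only [Finset.mem_insert, Finset.mem_singleton] at ha ⊢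
    tauto)
  have tji : I.tau j i = 0 := by
    have h := tau_anti hij oij
    rw [tij] at h
    exact neg_eq_zero.1 h.symm
  obtain ⟨c, hc⟩ := single_eig ol (hnd l ml).1 (hnd l ml).2
  set E : Matrix (Fin 2) (Fin 2) F :=
    blk I.T i i - phi * blk I.T j i - Matrix.vecMulVec rho (vec I.nu i) with hE
  have hEv : ∀ v, E *ᵥ v = blk I.T i i *ᵥ v - phi *ᵥ (blk I.T j i *ᵥ v) -
      (vec I.nu i ⬝ᵥ v) • rho := by
    intro v
    rw [hE, Matrix.sub_mulVec, Matrix.sub_mulVec, ← Matrix.mulVec_mulVec]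
    congr 1
    funext r
    simp only [Matrix.mulVec, dotProduct, Fin.sum_univ_two, Matrix.vecMulVec_apply, Pi.smul_apply,
      smul_eq_mul]
    ring
  have key : ∀ t : F, I.Reg (Pi.single l t) →
      ar ((1 : Matrix (Fin 2) (Fin 2) F) *ᵥ vec (I.k (Pi.single l t)) i)
        (E *ᵥ vec (I.k (Pi.single l t)) i) = 0 := by
    intro t rt
    obtain ⟨-, -, -, q4, q5⟩ := PathA_pts hij hil hjl hnd ho til h1 h3 hc rt
    have hY : Path (fun s : F => (Pi.single l t : ι → F) + Pi.single i s) :=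
      (Path.const _).add (Path.single i)
    have r0 : I.Reg ((Pi.single l t : ι → F) + Pi.single i (0 : F)) := by
      rw [Pi.single_zero, add_zero]; exact rt
    have hrat : RatAt (0 : F) (fun s : F => ar
        ((1 : Matrix (Fin 2) (Fin 2) F) *ᵥ vec (I.k ((Pi.single l t : ι → F) + Pi.single i s)) i)
        (E *ᵥ vec (I.k ((Pi.single l t : ι → F) + Pi.single i s)) i)) :=
      PathA_rat 1 E fun a => I.ratK (s0 := 0) hY r0 (i, a)
    have e1 := I.evReg (s0 := 0) hY r0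
    have e2 : ∀ᶠ s : F in cofinite, s ≠ 0 := by simp [Filter.eventually_cofinite]
    have hz := hrat.zero (by
      filter_upwards [e1, e2] with s s1 s2
      have spT : Supp (Pi.single l t : ι → F) {i, j, l} := by
        intro a ha
        rw [Pi.single_eq_of_ne]
        rintro rfl
        exact ha ml
      have spY : Supp ((Pi.single l t : ι → F) + Pi.single i s) {i, j, l} := by
        intro a ha
        rw [Pi.add_apply, spT a ha, zero_add, Pi.single_eq_of_ne]
        rintro rfl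
        exact ha mi
      have agree : ∀ a, a ≠ i → ((Pi.single l t : ι → F) + Pi.single i s : ι → F) a =
          (Pi.single l t : ι → F) a := fun a ha => by
        rw [Pi.add_apply, Pi.single_eq_of_ne ha, add_zero]
      have p1 := own_k ho mi (hnd i mi).2 spY spT agree s1 rt
      have p2 := hg j mj i mi hij.symm tji _ _ spY spT agree s1 rt
      have p3 := PathA_par q4 q5 p1 p2
      have d := PathA_diff hij hil hjl ho h1 h3 spY s1
      have yi : ((Pi.single l t : ι → F) + Pi.single i s : ι → F) i = s := by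
        rw [Pi.add_apply, Pi.single_eq_of_ne hil, Pi.single_eq_same, zero_add]
      have yj : ((Pi.single l t : ι → F) + Pi.single i s : ι → F) j = 0 := by
        rw [Pi.add_apply, Pi.single_eq_of_ne hjl, Pi.single_eq_of_ne hij.symm, add_zero]
      rw [yi, yj, zero_smul, add_zero, ← hEv] at d
      rw [Matrix.one_mulVec]
      set ki := vec (I.k ((Pi.single l t : ι → F) + Pi.single i s)) i
      set kj := vec (I.k ((Pi.single l t : ι → F) + Pi.single i s)) j
      have d' : phi *ᵥ kj = ki - s • (E *ᵥ ki) := by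
        rw [eq_sub_iff_add_eq]
        exact d.symm
      rw [d'] at p3
      have p4 : s * ar ki (E *ᵥ ki) = 0 := by
        simp only [ar, Pi.sub_apply, Pi.smul_apply, smul_eq_mul] at p3 ⊢
        linear_combination p3
      exact (mul_eq_zero.1 p4).resolve_left s2)
    simp only [Pi.single_zero, add_zero] at hz
    exact hz
  obtain ⟨a1, a2, a3, h12, h13, h23, ra1, ra2, ra3⟩ := PathA_three (I := I) l
  obtain ⟨n1, u1, -, -, -⟩ := PathA_pts hij hil hjl hnd ho til h1 h3 hc ra1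
  obtain ⟨n2, u2, -, -, -⟩ := PathA_pts hij hil hjl hnd ho til h1 h3 hc ra2
  obtain ⟨n3, u3, -, -, -⟩ := PathA_pts hij hil hjl hnd ho til h1 h3 hc ra3
  have z1 := key a1 ra1
  have z2 := key a2 ra2
  have z3 := key a3 ra3
  rw [u1] at z1
  rw [u2] at z2
  rw [u3] at z3
  obtain ⟨c1, hc1⟩ := scalar_of_inf (phi := 1) (by rw [Matrix.det_one]; exact one_ne_zero)
    (PathA_ar (hnd i mi).1 oi til) (PathA_inj h12 n1 n2)
    (PathA_inj h13 n1 n3) (PathA_inj h23 n2 n3) z1 z2 z3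
  refine ⟨-c1, fun v => ?_⟩
  have h5 := hc1 v
  rw [hEv, Matrix.one_mulVec] at h5
  rw [neg_smul, ← h5]
  abel

end Inst

end Pool.Agent.H50.R2
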