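import Pool.Agent.H50.R2.PathA

/-! # Module PathC: the defect form at the ends of a path, and `PathD` (MP_966f71_lc)

`path_pd`: `R_il = R_jl = 0` (`pair_dfct`; `tau j l ≠ 0`), `h = 0` on `{i, j, l}`, so
`master_triple` gives `x_i x_j R_ij(k_j, k_i) = 0`. For `t e_l` regular use the path
`s ↦ s e_i + s e_j + t e_l`: `R_ij(k_j, k_i) = 0` for almost all `s`, so (`RatAt.zero` at `s = 0`)
`R_ij(k_j(t e_l), k_i(t e_l)) = 0`, where `k_j = mu_j + t' T_jl mu_l`,
`k_i = mu_i + t' T_il mu_l = phi k_j` (`k_single`, `t' = t / (1 - c t)` takes infinitely many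
values; `h3` at `v = mu_l` with `nu_l mu_l = 0` gives `T_il mu_l = phi T_jl mu_l`).
`bilin_of_inf` gives the claim. `path`: put together. -/

set_option autoImplicit false

namespace Pool.Agent.H50.R2

open Matrix Filter

variable {F ι : Type*} [Field F] [Infinite F] [Fintype ι] [DecidableEq ι]

namespace Inst

variable {I : Inst F ι} {i j l : ι} {w : ι → F} {th : ι → Fin 2 → F}

omit [Infinite F] [Fintype ι] [DecidableEq ι] in
private theorem PathC_rat {s0 : F} {u v : F → Fin 2 → F} (hu : ∀ a, RatAt s0 (fun s => u s a))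
    (hv : ∀ a, RatAt s0 (fun s => v s a)) :
    RatAt s0 (fun s => I.dfct w th i j (u s) (v s)) := by
  have hm : ∀ (A : Matrix (Fin 2) (Fin 2) F) (f : F → Fin 2 → F),
      (∀ a, RatAt s0 (fun s => f s a)) → ∀ a, RatAt s0 (fun s => (A *ᵥ f s) a) :=
    fun A f hf a => RatAt.matMulVec (fun p q => RatAt.const (A p q)) hf a
  have har : ∀ (f g : F → Fin 2 → F), (∀ a, RatAt s0 (fun s => f s a)) →
      (∀ a, RatAt s0 (fun s => g s a)) → RatAt s0 (fun s => ar (f s) (g s)) :=
    fun f g hf hg => ((hf 0).mul (hg 1)).sub ((hf 1).mul (hg 0))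
  have hd : ∀ (n : Fin 2 → F) (f : F → Fin 2 → F), (∀ a, RatAt s0 (fun s => f s a)) →
      RatAt s0 (fun s => n ⬝ᵥ f s) :=
    fun n f hf => RatAt.dot (u := fun _ => n) (fun a => RatAt.const (n a)) hf
  unfold dfct
  exact ((((RatAt.const (w i)).mul (har _ _ (hm _ _ hu) hv)).add
    ((RatAt.const (w j)).mul (har _ _ (hm _ _ hv) hu))).add
    ((hd _ _ hv).mul (hd _ _ hu))).add ((hd _ _ hu).mul (hd _ _ hv))

private theorem PathC_zero (hij : i ≠ j) (hil : i ≠ l) (hjl : j ≠ l) (hnd : I.NonDeg {i, j, l})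
    (ho : I.Odd {i, j, l}) (hA : I.IsArea {i, j, l} w th) (til : I.tau i l ≠ 0)
    (tjl : I.tau j l ≠ 0) {t : F} (ht : I.Reg (Pi.single l t)) :
    I.dfct w th i j (vec (I.k (Pi.single l t)) j) (vec (I.k (Pi.single l t)) i) = 0 := by
  have hsil : ({i, l} : Finset ι) ⊆ {i, j, l} := by
    intro a ha
    simp only [Finset.mem_insert, Finset.mem_singleton] at ha ⊢
    tauto
  have hsjl : ({j, l} : Finset ι) ⊆ {i, j, l} := by
    intro a ha
    simp only [Finset.mem_insert, Finset.mem_singleton] at ha ⊢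
    tauto
  have dil := pair_dfct hil (hnd.mono hsil) (ho.mono hsil) (hA.mono hsil) til
  have djl := pair_dfct hjl (hnd.mono hsjl) (ho.mono hsjl) (hA.mono hsjl) tjl
  let x : F → ι → F := fun s => Pi.single i s + Pi.single j s + Pi.single l t
  have hx : Path x := ((Path.single i).add (Path.single j)).add (Path.const (Pi.single l t))
  have hx0 : x 0 = Pi.single l t := by simp [x]
  have hr0 : I.Reg (x 0) := by rw [hx0]; exact ht
  have key := RatAt.zero (s0 := (0 : F))
    (f := fun s => I.dfct w th i j (vec (I.k (x s)) j) (vec (I.k (x s)) i))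
    (PathC_rat (fun a => I.ratK hx hr0 (j, a)) (fun a => I.ratK hx hr0 (i, a))) (by
      filter_upwards [I.evReg hx hr0, eventually_cofinite_ne (0 : F)] with s hs hs0
      have hsupp : Supp (x s) {i, j, l} := by
        intro m hm
        simp only [Finset.mem_insert, Finset.mem_singleton, not_or] at hm
        simp [x, hm.1, hm.2.1, hm.2.2]
      have h := master_triple hij hil hjl hA hsupp hs
      rw [ho _ hsupp hs, dil, djl] at h
      have hxi : x s i = s := by simp [x, hij, hil]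
      have hxj : x s j = s := by simp [x, hij.symm, hjl]
      rw [hxi, hxj] at h
      have h' : s * s * I.dfct w th i j (vec (I.k (x s)) j) (vec (I.k (x s)) i) = 0 := by
        linear_combination h
      exact (mul_eq_zero.mp h').resolve_left (mul_ne_zero hs0 hs0))
  simpa only [hx0] using key

theorem path_pd (hij : i ≠ j) (hil : i ≠ l) (hjl : j ≠ l) (hnd : I.NonDeg {i, j, l})
    (ho : I.Odd {i, j, l}) (hA : I.IsArea {i, j, l} w th) (til : I.tau i l ≠ 0)
    (tjl : I.tau j l ≠ 0) {phi : Matrix (Fin 2) (Fin 2) F} {rho : Fin 2 → F}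
    (h1 : phi *ᵥ vec I.mu j = vec I.mu i) (h2 : phi.det ≠ 0)
    (h3 : ∀ v, blk I.T i l *ᵥ v = phi *ᵥ (blk I.T j l *ᵥ v) + (vec I.nu l ⬝ᵥ v) • rho) :
    ∃ c : F, ∀ a b, I.dfct w th i j a b = c * ar (phi *ᵥ a) b := by
  have hj : j ∈ ({i, j, l} : Finset ι) := by simp
  have hl : l ∈ ({i, j, l} : Finset ι) := by simp
  have oj : I.Odd {j} := ho.mono (Finset.singleton_subset_iff.mpr hj)
  have ol : I.Odd {l} := ho.mono (Finset.singleton_subset_iff.mpr hl)
  obtain ⟨c, hc⟩ := single_eig ol (hnd l hl).1 (hnd l hl).2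
  have h4 : blk I.T i l *ᵥ vec I.mu l = phi *ᵥ (blk I.T j l *ᵥ vec I.mu l) := by
    rw [h3, single_dot ol, zero_smul, add_zero]
  -- the point of the line
  have hpt : ∀ t, I.Reg (Pi.single l t) →
      1 - c * t ≠ 0 ∧ I.dfct w th i j
        (vec I.mu j + (t / (1 - c * t)) • (blk I.T j l *ᵥ vec I.mu l))
        (phi *ᵥ (vec I.mu j + (t / (1 - c * t)) • (blk I.T j l *ᵥ vec I.mu l))) = 0 := by
    intro t ht
    obtain ⟨hne, hk⟩ := k_single (hnd l hl).1 hc ht
    refine ⟨hne, ?_⟩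
    have h := PathC_zero hij hil hjl hnd ho hA til tjl ht
    rw [hk j hjl, hk i hil] at h
    rw [mulVec_add, mulVec_smul, h1, ← h4]
    exact h
  have hab : ar (vec I.mu j) (blk I.T j l *ᵥ vec I.mu l) ≠ 0 := by
    intro h
    exact tjl (ker_of_par (hnd j hj).1 h (single_dot oj))
  have hev : ∀ᶠ t in cofinite, I.Reg (Pi.single l t) :=
    I.evReg (s0 := (0 : F)) (Path.single l) (by rw [Pi.single_zero]; exact I.reg_zero)
  obtain ⟨t1, r1⟩ := hev.exists
  obtain ⟨t2, r2, n2⟩ := (hev.and (eventually_cofinite_ne t1)).exists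
  obtain ⟨t3, r3, n31, n32⟩ :=
    (hev.and ((eventually_cofinite_ne t1).and (eventually_cofinite_ne t2))).exists
  have hinj : ∀ s t : F, 1 - c * s ≠ 0 → 1 - c * t ≠ 0 → s ≠ t →
      s / (1 - c * s) ≠ t / (1 - c * t) := by
    intro s t hs ht hst h
    rw [div_eq_div_iff hs ht] at h
    exact hst (by linear_combination h)
  obtain ⟨e1, d1⟩ := hpt t1 r1
  obtain ⟨e2, d2⟩ := hpt t2 r2
  obtain ⟨e3, d3⟩ := hpt t3 r3
  exact bilin_of_inf (fun u v => I.dfct w th i j u v)
    (fun u v z => dfct_add_left u v z) (fun d u z => dfct_smul_left d u z)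
    (fun u v z => dfct_add_right u v z) (fun d u z => dfct_smul_right d u z) h2 hab
    (hinj t1 t2 e1 e2 n2.symm) (hinj t1 t3 e1 e3 n31.symm) (hinj t2 t3 e2 e3 n32.symm) d1 d2 d3

theorem path (hij : i ≠ j) (hil : i ≠ l) (hjl : j ≠ l) (hnd : I.NonDeg {i, j, l})
    (ho : I.Odd {i, j, l}) (hg : I.Gen {i, j, l}) (hA : I.IsArea {i, j, l} w th)
    (tij : I.tau i j = 0) (til : I.tau i l ≠ 0) (tjl : I.tau j l ≠ 0) :
    ∃ (phi : Matrix (Fin 2) (Fin 2) F) (rho : Fin 2 → F) (c1 c2 c : F),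
      I.PathD w th i l j phi rho c1 c2 c := by
  obtain ⟨phi, rho, h1, h2, h3⟩ := path_phi hnd ho til tjl
  obtain ⟨c1, hc1⟩ := path_pa hij hil hjl hnd ho hg tij til tjl h1 h2 h3
  obtain ⟨c2, hc2⟩ := path_pb hij hil hjl hnd ho hg tij til tjl h1 h2 h3
  obtain ⟨c, hc⟩ := path_pd hij hil hjl hnd ho hA til tjl h1 h2 h3
  exact ⟨phi, rho, c1, c2, c, h1, h2, h3, hc1, hc2, hc⟩

end Inst

end Pool.Agent.H50.R2
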