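import Pool.Agent.H50.R2.Defs

/-! # Module Rat: rational functions of one variable, weakly (MP_966f71_lc)

`RatAt s0 f`: there are polynomials `p, q` with `q(s0) ≠ 0` and `q(s) f(s) = p(s)` for all `s` with
`q(s) ≠ 0`. Proofs:
* `add`, `mul`, `sum`, `prod`: multiply the denominators.
* `inv`: if `f = p / q`, `f s0 ≠ 0`, take denominator `p * q` and numerator `q * q`.
* `congr`: multiply `q` by the product of `X - C e` over the finitely many exceptional `e`
  (none of them is `s0`).
* `ne`: `p(s0) = q(s0) f(s0) ≠ 0`, so `p` and `q` are nonzero polynomials; `f s = 0` forces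
  `q(s) = 0` or `p(s) = 0`: finitely many `s`.
* `zero`: otherwise `f` is nonzero cofinitely by `ne`, and zero cofinitely; `F` is infinite
  (`Filter.Eventually.and`, `Filter.Eventually.exists`, `Filter.cofinite_neBot`). -/

set_option autoImplicit false

namespace Pool.Agent.H50.R2

open Filter

variable {F : Type*} [Field F] {s0 : F} {f g : F → F}

theorem RatAt.const (c : F) : RatAt s0 (fun _ => c) :=
  ⟨Polynomial.C c, 1, by simp, fun s _ => by simp⟩

theorem RatAt.var : RatAt s0 (fun s : F => s) :=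
  ⟨Polynomial.X, 1, by simp, fun s _ => by simp⟩

theorem RatAt.poly (p : Polynomial F) : RatAt s0 (fun s => p.eval s) :=
  ⟨p, 1, by simp, fun s _ => by simp⟩

theorem RatAt.add (hf : RatAt s0 f) (hg : RatAt s0 g) : RatAt s0 (fun s => f s + g s) := by
  obtain ⟨p, q, hq, h1⟩ := hf
  obtain ⟨p', q', hq', h2⟩ := hg
  refine ⟨p * q' + p' * q, q * q', ?_, fun s hs => ?_⟩
  · rw [Polynomial.eval_mul]
    exact mul_ne_zero hq hq'
  · rw [Polynomial.eval_mul] at hs
    have h3 := h1 s (left_ne_zero_of_mul hs)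
    have h4 := h2 s (right_ne_zero_of_mul hs)
    rw [Polynomial.eval_mul, Polynomial.eval_add, Polynomial.eval_mul, Polynomial.eval_mul, ← h3,
      ← h4]
    ring

theorem RatAt.mul (hf : RatAt s0 f) (hg : RatAt s0 g) : RatAt s0 (fun s => f s * g s) := by
  obtain ⟨p, q, hq, h1⟩ := hf
  obtain ⟨p', q', hq', h2⟩ := hg
  refine ⟨p * p', q * q', ?_, fun s hs => ?_⟩
  · rw [Polynomial.eval_mul]
    exact mul_ne_zero hq hq'
  · rw [Polynomial.eval_mul] at hs
    have h3 := h1 s (left_ne_zero_of_mul hs)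
    have h4 := h2 s (right_ne_zero_of_mul hs)
    rw [Polynomial.eval_mul, Polynomial.eval_mul, ← h3, ← h4]
    ring

theorem RatAt.neg (hf : RatAt s0 f) : RatAt s0 (fun s => - f s) := by
  have h := (RatAt.const (s0 := s0) (-1 : F)).mul hf
  simpa only [neg_one_mul] using h

theorem RatAt.sub (hf : RatAt s0 f) (hg : RatAt s0 g) : RatAt s0 (fun s => f s - g s) := by
  have h := hf.add hg.neg
  simpa only [sub_eq_add_neg] using h

theorem RatAt.sum {α : Type*} (S : Finset α) (f : α → F → F) (h : ∀ a ∈ S, RatAt s0 (f a)) :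
    RatAt s0 (fun s => ∑ a ∈ S, f a s) := by
  classical
  induction S using Finset.induction_on with
  | empty =>
    simp only [Finset.sum_empty]
    exact RatAt.const 0
  | insert a S ha ih =>
    simp only [Finset.sum_insert ha]
    exact (h a (Finset.mem_insert_self a S)).add
      (ih fun b hb => h b (Finset.mem_insert_of_mem hb))

theorem RatAt.prod {α : Type*} (S : Finset α) (f : α → F → F) (h : ∀ a ∈ S, RatAt s0 (f a)) :
    RatAt s0 (fun s => ∏ a ∈ S, f a s) := by
  classical
  induction S using Finset.induction_on with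
  | empty =>
    simp only [Finset.prod_empty]
    exact RatAt.const 1
  | insert a S ha ih =>
    simp only [Finset.prod_insert ha]
    exact (h a (Finset.mem_insert_self a S)).mul
      (ih fun b hb => h b (Finset.mem_insert_of_mem hb))

theorem RatAt.inv (hf : RatAt s0 f) (h0 : f s0 ≠ 0) : RatAt s0 (fun s => (f s)⁻¹) := by
  obtain ⟨p, q, hq, h1⟩ := hf
  have hp : p.eval s0 ≠ 0 := by
    rw [← h1 s0 hq]
    exact mul_ne_zero hq h0
  refine ⟨q * q, p * q, ?_, fun s hs => ?_⟩
  · rw [Polynomial.eval_mul]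
    exact mul_ne_zero hp hq
  · rw [Polynomial.eval_mul] at hs
    have hq1 := right_ne_zero_of_mul hs
    have hp1 := left_ne_zero_of_mul hs
    have h3 := h1 s hq1
    have hf1 : f s ≠ 0 := by
      intro h4
      rw [h4, mul_zero] at h3
      exact hp1 h3.symm
    rw [Polynomial.eval_mul, Polynomial.eval_mul, ← h3]
    field_simp

theorem RatAt.congr (hf : RatAt s0 f) (h0 : f s0 = g s0) (h : ∀ᶠ s in cofinite, f s = g s) :
    RatAt s0 g := by
  classical
  obtain ⟨p, q, hq, h1⟩ := hf
  have hfin : {s | ¬ f s = g s}.Finite := h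
  set r : Polynomial F := ∏ e ∈ hfin.toFinset, (Polynomial.X - Polynomial.C e) with hr
  have hr1 : ∀ s, r.eval s ≠ 0 ↔ f s = g s := by
    intro s
    rw [hr, Polynomial.eval_prod, Finset.prod_ne_zero_iff]
    constructor
    · intro h2
      by_contra h3
      have h4 := h2 s (hfin.mem_toFinset.mpr h3)
      simp at h4
    · intro h2 e he h3
      have h4 : ¬ f e = g e := hfin.mem_toFinset.mp he
      rw [Polynomial.eval_sub, Polynomial.eval_X, Polynomial.eval_C, sub_eq_zero] at h3
      rw [← h3] at h4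
      exact h4 h2
  refine ⟨p * r, q * r, ?_, fun s hs => ?_⟩
  · rw [Polynomial.eval_mul]
    exact mul_ne_zero hq ((hr1 s0).mpr h0)
  · rw [Polynomial.eval_mul] at hs
    have h2 := (hr1 s).mp (right_ne_zero_of_mul hs)
    rw [Polynomial.eval_mul, Polynomial.eval_mul, ← h2, ← h1 s (left_ne_zero_of_mul hs)]
    ring

theorem RatAt.ne (hf : RatAt s0 f) (h0 : f s0 ≠ 0) : ∀ᶠ s in cofinite, f s ≠ 0 := by
  obtain ⟨p, q, hq, h1⟩ := hf
  have hp : p.eval s0 ≠ 0 := by
    rw [← h1 s0 hq]
    exact mul_ne_zero hq h0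
  have hp0 : p ≠ 0 := by
    rintro rfl
    simp at hp
  have hq0 : q ≠ 0 := by
    rintro rfl
    simp at hq
  have h2 : ∀ r : Polynomial F, r ≠ 0 → ∀ᶠ s in cofinite, r.eval s ≠ 0 := by
    intro r hr
    have h3 : {s | ¬ r.eval s ≠ 0} = {s | r.IsRoot s} := by
      ext s
      simp [Polynomial.IsRoot]
    change {s | ¬ r.eval s ≠ 0}.Finite
    rw [h3]
    exact Polynomial.finite_setOfPred_isRoot hr
  filter_upwards [h2 p hp0, h2 q hq0] with s hps hqs h3
  have h4 := h1 s hqs
  rw [h3, mul_zero] at h4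
  exact hps h4.symm

theorem RatAt.zero [Infinite F] (hf : RatAt s0 f) (h : ∀ᶠ s in cofinite, f s = 0) :
    f s0 = 0 := by
  by_contra h0
  obtain ⟨s, h1, h2⟩ := (h.and (hf.ne h0)).exists
  exact h2 h1

end Pool.Agent.H50.R2
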