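import Pool.Agent.H50.R2.Own

/-! # Module ShiftOdd: oddness and independence at other base points (MP_966f71_lc)

`z` supported on `R`, regular. For `y` supported on `S`, `z + y` is supported on `S ∪ R`;
`reg_add`, `h_add`, `k_add`. `Odd.shift`: `h^z(y) = h(z + y) - h(z) = 0`. `Indep.shift`:
`k^z(y) = k(z + y)`. `tau_zero`: take `t ≠ 0` with `Pi.single j t` regular (almost all `t`);
`Indep` at `Pi.single j t` and `0` gives `mu_i ∥ k_i = mu_i + t' T_ij mu_j`, `t' ≠ 0` (`k_single`,
`single_eig`), so `T_ij mu_j ∥ mu_i`, killed by `nu_i`. -/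

set_option autoImplicit false

namespace Pool.Agent.H50.R2

open Matrix Filter

variable {F ι : Type*} [Field F] [Infinite F] [Fintype ι] [DecidableEq ι]

theorem Supp.mono {x : ι → F} {S S' : Finset ι} (h : Supp x S) (hS : S ⊆ S') : Supp x S' :=
  fun i hi => h i fun hi' => hi (hS hi')

theorem Supp.add {x y : ι → F} {S S' : Finset ι} (h : Supp x S) (h' : Supp y S') :
    Supp (x + y) (S ∪ S') := by
  intro i hi
  rw [Finset.mem_union, not_or] at hi
  rw [Pi.add_apply, h i hi.1, h' i hi.2, add_zero]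

theorem Supp.smul {x : ι → F} {S : Finset ι} (h : Supp x S) (c : F) : Supp (c • x) S := by
  intro i hi
  rw [Pi.smul_apply, h i hi, smul_zero]

theorem supp_rst (x : ι → F) (S : Finset ι) : Supp (rst x S) S := by
  intro i hi
  simp only [rst, if_neg hi]

theorem supp_single (i : ι) (t : F) : Supp (Pi.single i t : ι → F) {i} := by
  intro l hl
  rw [Finset.mem_singleton] at hl
  rw [Pi.single_eq_of_ne hl]

theorem rst_add_rst {x : ι → F} {S V : Finset ι} (h : Supp x V) (hS : S ⊆ V) :
    rst x (V \ S) + rst x S = x := by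
  funext i
  by_cases hi : i ∈ S
  · have h1 : i ∉ V \ S := fun h' => (Finset.mem_sdiff.1 h').2 hi
    simp only [Pi.add_apply, rst, if_pos hi, if_neg h1, zero_add]
  · by_cases hV : i ∈ V
    · have h1 : i ∈ V \ S := Finset.mem_sdiff.2 ⟨hV, hi⟩
      simp only [Pi.add_apply, rst, if_neg hi, if_pos h1, add_zero]
    · have h1 : i ∉ V \ S := fun h' => hV (Finset.mem_sdiff.1 h').1
      simp only [Pi.add_apply, rst, if_neg hi, if_neg h1, add_zero]
      exact (h i hV).symm

namespace Inst

variable {I : Inst F ι} {S R Q : Finset ι} {z y : ι → F} {i j : ι}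

omit [Infinite F] in
theorem Odd.shift (h : I.Odd (S ∪ R)) (hz : Supp z R) (rz : I.Reg z) : (I.shift z).Odd S := by
  intro x hx hr
  have hxy : I.Reg (z + x) := (I.reg_add rz).1 hr
  have h1 := I.h_add rz hxy
  have hz' : Supp z (S ∪ R) := fun i hi => hz i fun hi' => hi (Finset.mem_union_right _ hi')
  have hzx : Supp (z + x) (S ∪ R) := by
    intro i hi
    have h2 : i ∉ S := fun hi' => hi (Finset.mem_union_left _ hi')
    rw [Pi.add_apply, hz' i hi, hx i h2, add_zero]
  rw [h _ hzx hxy, h _ hz' rz, zero_add] at h1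
  exact h1.symm

omit [Infinite F] in
theorem Indep.shift (h : I.Indep i j (S ∪ R)) (hz : Supp z R) (rz : I.Reg z) :
    (I.shift z).Indep i j S := by
  intro x y hx hy hl hrx hry
  have hrx' : I.Reg (z + x) := (I.reg_add rz).1 hrx
  have hry' : I.Reg (z + y) := (I.reg_add rz).1 hry
  have hsup : ∀ {x : ι → F}, Supp x S → Supp (z + x) (S ∪ R) := by
    intro x hx l hl
    have h2 : l ∉ S := fun hi' => hl (Finset.mem_union_left _ hi')
    have h3 : l ∉ R := fun hi' => hl (Finset.mem_union_right _ hi')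
    rw [Pi.add_apply, hz l h3, hx l h2, add_zero]
  rw [I.k_add rz hrx', I.k_add rz hry']
  refine h _ _ (hsup hx) (hsup hy) ?_ hrx' hry'
  intro l hlj
  rw [Pi.add_apply, Pi.add_apply, hl l hlj]

omit [Infinite F] in
theorem not_odd_shift (hR : I.Odd R) (hz : Supp z R) (rz : I.Reg z) (hy : Supp y Q)
    (rzy : I.Reg (z + y)) (hne : I.h (z + y) ≠ 0) : ¬ (I.shift z).Odd Q := by
  intro hQ
  apply hne
  rw [I.h_add rz rzy, hR z hz rz, zero_add]
  exact hQ y hy ((I.reg_add rz).2 rzy)

theorem tau_zero (hij : i ≠ j) (ho : I.Odd {i, j}) (hnd : I.NonDeg {i, j})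
    (hI : I.Indep i j {i, j}) : I.tau i j = 0 := by
  have hi : i ∈ ({i, j} : Finset ι) := Finset.mem_insert_self _ _
  have hj : j ∈ ({i, j} : Finset ι) := Finset.mem_insert_of_mem (Finset.mem_singleton_self _)
  have hoi : I.Odd {i} := Odd.mono ho (Finset.singleton_subset_iff.2 hi)
  have hoj : I.Odd {j} := Odd.mono ho (Finset.singleton_subset_iff.2 hj)
  obtain ⟨c, hc⟩ := single_eig hoj (hnd j hj).1 (hnd j hj).2
  have hp0 : I.Reg ((fun s : F => (Pi.single j s : ι → F)) 0) := by
    show I.Reg (Pi.single j 0)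
    rw [Pi.single_zero]
    exact I.reg_zero
  obtain ⟨t, hreg, ht0⟩ :=
    ((I.evReg (Path.single j) hp0).and (eventually_cofinite_ne (0 : F))).exists
  obtain ⟨hct, hk⟩ := k_single (hnd j hj).1 hc hreg
  have hk' := hk i hij
  have hpar := hI (Pi.single j t) 0 ((supp_single j t).mono (Finset.singleton_subset_iff.2 hj))
    (fun l _ => rfl) (fun l hl => by rw [Pi.single_eq_of_ne hl]; rfl) hreg I.reg_zero
  rw [hk', I.k_zero] at hpar
  have h1 : par (vec I.mu i) (blk I.T i j *ᵥ vec I.mu j) := by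
    unfold par at hpar ⊢
    rw [ar_add_left, ar_self, zero_add, ar_smul_left] at hpar
    have h2 := (mul_eq_zero.1 hpar).resolve_left (div_ne_zero ht0 hct)
    rw [ar_swap, h2, neg_zero]
  exact ker_of_par (hnd i hi).1 h1 (single_dot hoi)

end Inst

end Pool.Agent.H50.R2
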