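import Pool.Agent.H50.R2.RatI

/-! # Module SoundVec: a kernel vector at every point (MP_966f71_lc)

Let `N(x)` be the bordered matrix `Matrix.fromBlocks (1 - T X) (col mu) (row (nu X)) 0` on
`(ι × Fin 2) ⊕ Unit`. For regular `x` supported on `D` the vector `(k(x), -1)` is in its kernel
(`h x = 0`), so `det N(x) = 0` (`Matrix.exists_mulVec_eq_zero_iff`). For general `x` supported on
`D` use the path `s ↦ s • x`: `s • x` is regular for almost all `s` (regular at `s = 0`, `evReg`),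
`det N(s • x)` is rational in `s` (`RatAt.det`), so `det N(x) = 0` (`RatAt.zero` at `s = 1`). A
nonzero kernel vector `(u, -t)` satisfies the two equations. If `u` vanished on `D` then `X u = 0`
(`x` is supported on `D`), so `u = t mu`, and `mu_i ≠ 0` for some `i ∈ D` forces `t = 0`, `u = 0`:
contradiction. -/

set_option autoImplicit false

namespace Pool.Agent.H50.R2

open Matrix Filter

variable {F ι : Type*} [Field F] [Infinite F] [Fintype ι] [DecidableEq ι]

namespace Inst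

/-- the bordered matrix -/
private def SoundVec_N (I : Inst F ι) (x : ι → F) :
    Matrix ((ι × Fin 2) ⊕ Unit) ((ι × Fin 2) ⊕ Unit) F :=
  Matrix.fromBlocks (1 - I.T * dg x) (Matrix.of fun p _ => I.mu p)
    (Matrix.of fun _ q => (I.nu ᵥ* dg x) q) 0

omit [Infinite F] in
private theorem SoundVec_mul (I : Inst F ι) (x : ι → F) (v : (ι × Fin 2) ⊕ Unit → F) :
    SoundVec_N I x *ᵥ v = Sum.elim
      ((1 - I.T * dg x) *ᵥ (v ∘ Sum.inl) + v (Sum.inr ()) • I.mu)
      (fun _ => I.nu ⬝ᵥ (dg x *ᵥ (v ∘ Sum.inl))) := by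
  rw [SoundVec_N, Matrix.fromBlocks_mulVec]
  congr 1
  · congr 1
    funext p
    simp [Matrix.mulVec, dotProduct, mul_comm]
  · funext p
    rw [Matrix.zero_mulVec, add_zero, Matrix.dotProduct_mulVec]
    rfl

omit [Infinite F] in
private theorem SoundVec_det_of_reg {I : Inst F ι} {D : Finset ι} (ho : I.Odd D) {x : ι → F}
    (hx : Supp x D) (rx : I.Reg x) : (SoundVec_N I x).det = 0 := by
  rw [← Matrix.exists_mulVec_eq_zero_iff]
  refine ⟨Sum.elim (I.k x) (fun _ => -1), ?_, ?_⟩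
  · intro h0
    have := congrFun h0 (Sum.inr ())
    simp at this
  · rw [SoundVec_mul]
    have h1 : (Sum.elim (I.k x) (fun _ : Unit => (-1 : F))) ∘ Sum.inl = I.k x := by
      funext p; rfl
    rw [h1]
    have h2 : I.nu ⬝ᵥ (dg x *ᵥ I.k x) = 0 := ho x hx rx
    have h3 : I.k x = I.mu + I.T *ᵥ (dg x *ᵥ I.k x) := kk_eq rx
    funext p
    rcases p with p | p
    · have h4 : ((1 - I.T * dg x) *ᵥ I.k x) = I.mu := by
        rw [Matrix.sub_mulVec, Matrix.one_mulVec, ← Matrix.mulVec_mulVec]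
        rw [sub_eq_iff_eq_add]
        exact h3
      simp [h4]
    · simp [h2]

omit [Infinite F] in
private theorem SoundVec_rat (I : Inst F ι) (x : ι → F) (s0 : F) :
    RatAt s0 (fun s => (SoundVec_N I (s • x)).det) := by
  refine RatAt.det (A := fun s => SoundVec_N I (s • x)) ?_
  rintro (p | p) (q | q)
  · have h1 : (fun s : F => SoundVec_N I (s • x) (Sum.inl p) (Sum.inl q)) =
        fun s => (1 : Matrix (ι × Fin 2) (ι × Fin 2) F) p q - I.T p q * (s * x q.1) := by
      funext s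
      rw [SoundVec_N, Matrix.fromBlocks_apply₁₁, Matrix.sub_apply, dg, Matrix.mul_diagonal]
      rfl
    rw [h1]
    exact (RatAt.const _).sub ((RatAt.const _).mul (RatAt.var.mul (RatAt.const _)))
  · exact RatAt.const (I.mu p)
  · have h1 : (fun s : F => SoundVec_N I (s • x) (Sum.inr p) (Sum.inl q)) =
        fun s => I.nu q * (s * x q.1) := by
      funext s
      rw [SoundVec_N, Matrix.fromBlocks_apply₂₁, Matrix.of_apply, dg, Matrix.vecMul_diagonal]
      rfl
    rw [h1]
    exact (RatAt.const _).mul (RatAt.var.mul (RatAt.const _))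
  · exact RatAt.const 0

private theorem SoundVec_det {I : Inst F ι} {D : Finset ι} (ho : I.Odd D) {x : ι → F}
    (hx : Supp x D) : (SoundVec_N I x).det = 0 := by
  have h0 : I.Reg ((0 : F) • x) := by
    rw [zero_smul]
    exact I.reg_zero
  have h1 : ∀ᶠ s : F in cofinite, I.Reg (s • x) :=
    I.evReg (x := fun s : F => s • x) (s0 := 0) (Path.smul x) h0
  have h2 : ∀ᶠ s : F in cofinite, (SoundVec_N I (s • x)).det = 0 := by
    filter_upwards [h1] with s hs
    refine SoundVec_det_of_reg ho ?_ hs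
    intro i hi
    rw [Pi.smul_apply, hx i hi, smul_zero]
  have h3 := RatAt.zero (SoundVec_rat I x 1) h2
  simpa using h3

theorem soundVec {I : Inst F ι} {D : Finset ι} (ho : I.Odd D) (hnd : I.NonDeg D)
    (hne : D.Nonempty) {x : ι → F} (hx : Supp x D) :
    ∃ (u : ι × Fin 2 → F) (t : F), u = t • I.mu + I.T *ᵥ (dg x *ᵥ u) ∧
      I.nu ⬝ᵥ (dg x *ᵥ u) = 0 ∧ ∃ i ∈ D, vec u i ≠ 0 := by
  obtain ⟨v, hv, hv0⟩ := Matrix.exists_mulVec_eq_zero_iff.2 (SoundVec_det ho hx)
  rw [SoundVec_mul] at hv0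
  have e1 : (1 - I.T * dg x) *ᵥ (v ∘ Sum.inl) + v (Sum.inr ()) • I.mu = 0 := by
    funext p
    exact congrFun hv0 (Sum.inl p)
  have e2 : I.nu ⬝ᵥ (dg x *ᵥ (v ∘ Sum.inl)) = 0 := congrFun hv0 (Sum.inr ())
  have e3 : v ∘ Sum.inl = (-v (Sum.inr ())) • I.mu + I.T *ᵥ (dg x *ᵥ (v ∘ Sum.inl)) := by
    rw [Matrix.sub_mulVec, Matrix.one_mulVec, ← Matrix.mulVec_mulVec] at e1
    rw [neg_smul]
    have e4 : v ∘ Sum.inl - I.T *ᵥ dg x *ᵥ (v ∘ Sum.inl) = -(v (Sum.inr ()) • I.mu) :=
      eq_neg_of_add_eq_zero_left e1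
    rw [← e4]
    abel
  refine ⟨v ∘ Sum.inl, -v (Sum.inr ()), e3, e2, ?_⟩
  by_contra hcon
  push Not at hcon
  have e5 : dg x *ᵥ (v ∘ Sum.inl) = 0 := by
    funext p
    rw [dg, Matrix.mulVec_diagonal]
    by_cases hp : p.1 ∈ D
    · have h1 := congrFun (hcon p.1 hp) p.2
      have h2 : (v ∘ Sum.inl) p = 0 := h1
      rw [h2, mul_zero]
      rfl
    · rw [hx p.1 hp, zero_mul]
      rfl
  rw [e5, Matrix.mulVec_zero, add_zero] at e3
  obtain ⟨i, hi⟩ := hne
  have h1 : v (Sum.inr ()) = 0 := by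
    by_contra h0
    apply (hnd i hi).1
    have h2 := hcon i hi
    rw [e3, vec_smul] at h2
    rcases smul_eq_zero.1 h2 with h3 | h3
    · exact absurd (neg_eq_zero.1 h3) h0
    · exact h3
  rw [h1, neg_zero, zero_smul] at e3
  apply hv
  funext p
  rcases p with p | p
  · exact congrFun e3 p
  · exact h1

end Inst

end Pool.Agent.H50.R2
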