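import Pool.Agent.H50.R2.SysPar

/-! # Module SysAdj: adjacency (MP_966f71_lc)

* `inA_of_adj`: `tau i j ≠ 0` for some `mu, nu`. By `k_eq_on` for `x = Pi.single j t`:
  `k_i = mu_i + t T_ij k_j`, and `nu_i mu_i = 0` (`own` with `a = b = 0`), so
  `nu_i k_i(x) = t (nu_i T_ij k_j(x))`, where the bracket is nonzero for almost all `t` (at `t = 0` it
  is `tau i j`). So `InA i` with the points `0` and `Pi.single j t`. (For `j` use `adj_symm`.)
* `adj_struct`: let `mu0 ∈ E`, `nu0 ∈ L` have `tau i j ≠ 0`; then `tau j i = - tau i j ≠ 0`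
  (`tau_anti`), so `mu0` and `nu0` are nonzero at `i` and `j`. For `mu ∈ E`: `nu0_i` kills `mu_i` and
  `mu0_i` (`own`, `a = b = 0`), so `mu_i = m mu0_i`, and `mu_j = m' mu0_j`. `tau_anti` for
  `(T, mu, nu0)`: `m' tau0 i j = tau i j = - tau j i = - m tau0 j i = m tau0 i j`. So `m = m'`. -/

set_option autoImplicit false

namespace Pool.Agent.H50.R2

open Matrix Module Filter

variable {F ι : Type*} [Field F] [Infinite F] [Fintype ι] [DecidableEq ι]

namespace Sys

variable {S : Sys F ι} {i j : ι}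

omit [Infinite F] in
private theorem SysAdj_rat (I : Inst F ι) (v : Fin 2 → F) (A : Matrix (Fin 2) (Fin 2) F) (j : ι) :
    RatAt (0 : F) (fun s => v ⬝ᵥ (A *ᵥ vec (I.k (Pi.single j s)) j)) := by
  have hreg : I.Reg ((fun s : F => (Pi.single j s : ι → F)) 0) := by
    have : (Pi.single j (0 : F) : ι → F) = 0 := Pi.single_zero j
    show I.Reg (Pi.single j (0 : F))
    rw [this]
    exact I.reg_zero
  have hx := Path.single (F := F) j
  have h1 : ∀ b : Fin 2, RatAt (0 : F) (fun s => I.k (Pi.single j s) (j, b)) :=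
    fun b => I.ratK hx hreg (j, b)
  exact RatAt.sum Finset.univ (fun a s => v a * ∑ b, A a b * I.k (Pi.single j s) (j, b))
    fun a _ => (RatAt.const _).mul (RatAt.sum Finset.univ
      (fun b s => A a b * I.k (Pi.single j s) (j, b)) fun b _ => (RatAt.const _).mul (h1 b))

omit [Infinite F] in
private theorem SysAdj_ev (I : Inst F ι) (j : ι) :
    ∀ᶠ s : F in cofinite, I.Reg (Pi.single j s) ∧ s ≠ 0 := by
  have hreg : I.Reg ((fun s : F => (Pi.single j s : ι → F)) 0) := by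
    have : (Pi.single j (0 : F) : ι → F) = 0 := Pi.single_zero j
    show I.Reg (Pi.single j (0 : F))
    rw [this]
    exact I.reg_zero
  have h1 := I.evReg (Path.single (F := F) j) hreg
  have h2 : ∀ᶠ s : F in cofinite, s ≠ 0 := by
    rw [eventually_cofinite]
    simp
  exact h1.and h2

omit [Infinite F] in
private theorem SysAdj_k (I : Inst F ι) (i j : ι) {s : F} (h : I.Reg (Pi.single j s)) :
    vec (I.k (Pi.single j s)) i =
      vec I.mu i + s • (blk I.T i j *ᵥ vec (I.k (Pi.single j s)) j) := by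
  have hs : Supp (Pi.single j s : ι → F) {j} := by
    intro l hl
    rw [Finset.mem_singleton] at hl
    simp [hl]
  have h1 := I.k_eq_on h hs i
  rw [Finset.sum_singleton, Pi.single_eq_same] at h1
  exact h1

private theorem SysAdj_dot {mu nu : ι × Fin 2 → F} (hmu : mu ∈ S.E) (hnu : nu ∈ S.L) (i : ι) :
    vec nu i ⬝ᵥ vec mu i = 0 := by
  have h1 := own (i := i) hmu hnu S.reg_zero S.reg_zero (fun _ _ => rfl)
  have h2 : kk S.T mu 0 = mu := (Inst.mk S.T mu nu).k_zero
  have h3 : ll S.T nu 0 = nu := (Inst.mk S.T mu nu).l_zero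
  rw [h2, h3] at h1
  exact h1

theorem inA_of_adj (hij : i ≠ j) (h : S.Adj i j) : S.InA i := by
  obtain ⟨mu, hmu, nu, hnu, hne⟩ := h
  set I : Inst F ι := Inst.mk S.T mu nu with hI
  have hr := (SysAdj_rat I (vec nu i) (blk S.T i j) j).ne (by
    show vec nu i ⬝ᵥ (blk S.T i j *ᵥ vec (I.k (Pi.single j (0 : F))) j) ≠ 0
    rw [Pi.single_zero, I.k_zero]
    exact hne)
  obtain ⟨s, hs1, hs2, hs3⟩ := (hr.and (SysAdj_ev I j)).exists
  refine ⟨mu, hmu, nu, hnu, 0, Pi.single j s, S.reg_zero, hs2, ?_⟩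
  have h3 : ll S.T nu 0 = nu := I.l_zero
  have h4 : vec (kk S.T mu (Pi.single j s)) i =
      vec mu i + s • (blk S.T i j *ᵥ vec (I.k (Pi.single j s)) j) := SysAdj_k I i j hs2
  rw [h3, h4, dotProduct_add, SysAdj_dot hmu hnu, zero_add, dotProduct_smul, smul_eq_mul]
  exact mul_ne_zero hs3 hs1

theorem not_adj_self (i : ι) : ¬ S.Adj i i := by
  rintro ⟨mu, hmu, nu, hnu, hne⟩
  set I : Inst F ι := Inst.mk S.T mu nu with hI
  apply hne
  have hr := (SysAdj_rat I (vec nu i) (blk S.T i i) i).zero (by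
    filter_upwards [SysAdj_ev I i] with s hs
    have h1 := own (i := i) (a := Pi.single i s) (b := 0) hmu hnu hs.1 S.reg_zero (fun m hm => by
      simp [hm])
    have h3 : ll S.T nu 0 = nu := I.l_zero
    have h4 : vec (kk S.T mu (Pi.single i s)) i =
        vec mu i + s • (blk S.T i i *ᵥ vec (I.k (Pi.single i s)) i) := SysAdj_k I i i hs.1
    rw [h3, h4, dotProduct_add, SysAdj_dot hmu hnu, zero_add, dotProduct_smul, smul_eq_mul] at h1
    exact (mul_eq_zero.1 h1).resolve_left hs.2)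
  rw [Pi.single_zero, I.k_zero] at hr
  exact hr

theorem adj_struct (hij : i ≠ j) (h : S.Adj i j) :
    ∃ mu0 ∈ S.E, vec mu0 i ≠ 0 ∧ vec mu0 j ≠ 0 ∧ ∀ mu ∈ S.E, ∃ m : F,
      vec mu i = m • vec mu0 i ∧ vec mu j = m • vec mu0 j := by
  obtain ⟨mu0, hmu0, nu0, hnu0, hne⟩ := h
  have hanti : ∀ mu ∈ S.E, (Inst.mk S.T mu nu0).tau i j = -(Inst.mk S.T mu nu0).tau j i :=
    fun mu hmu => Inst.tau_anti hij ((S.odd mu hmu nu0 hnu0).mono (Finset.subset_univ _))
  have hne' : (Inst.mk S.T mu0 nu0).tau j i ≠ 0 := by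
    intro h0
    apply hne
    rw [hanti mu0 hmu0, h0, neg_zero]
  have e1 : ∀ mu : ι × Fin 2 → F, (Inst.mk S.T mu nu0).tau i j =
      vec nu0 i ⬝ᵥ (blk S.T i j *ᵥ vec mu j) := fun mu => rfl
  have e2 : ∀ mu : ι × Fin 2 → F, (Inst.mk S.T mu nu0).tau j i =
      vec nu0 j ⬝ᵥ (blk S.T j i *ᵥ vec mu i) := fun mu => rfl
  have hmj : vec mu0 j ≠ 0 := by
    intro h0
    apply hne
    rw [e1, h0, Matrix.mulVec_zero, dotProduct_zero]
  have hmi : vec mu0 i ≠ 0 := by
    intro h0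
    apply hne'
    rw [e2, h0, Matrix.mulVec_zero, dotProduct_zero]
  have hni : vec nu0 i ≠ 0 := by
    intro h0
    apply hne
    rw [e1, h0, zero_dotProduct]
  have hnj : vec nu0 j ≠ 0 := by
    intro h0
    apply hne'
    rw [e2, h0, zero_dotProduct]
  refine ⟨mu0, hmu0, hmi, hmj, fun mu hmu => ?_⟩
  obtain ⟨m, hm⟩ := exists_smul_of_par hmi
    (par_of_ker hni (SysAdj_dot hmu0 hnu0 i) (SysAdj_dot hmu hnu0 i))
  obtain ⟨m', hm'⟩ := exists_smul_of_par hmj
    (par_of_ker hnj (SysAdj_dot hmu0 hnu0 j) (SysAdj_dot hmu hnu0 j))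
  have h1 := hanti mu hmu
  have h2 := hanti mu0 hmu0
  rw [e1, e2, hm, hm', Matrix.mulVec_smul, Matrix.mulVec_smul, dotProduct_smul, dotProduct_smul,
    ← e1, ← e2, smul_eq_mul, smul_eq_mul, h2] at h1
  have h3 : (m' - m) * (Inst.mk S.T mu0 nu0).tau j i = 0 := by linear_combination -h1
  have h4 : m' = m := sub_eq_zero.1 ((mul_eq_zero.1 h3).resolve_right hne')
  exact ⟨m, hm, by rw [hm', h4]⟩

end Sys

end Pool.Agent.H50.R2
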