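import Pool.Agent.H50.R2.SysAdj

/-! # Module SysComp: components (MP_966f71_lc)

Components of the graph on the active indices, edges `i ≠ j`, `Adj i j` (symmetric by `adj_symm`,
ends active by `inA_of_adj`). `comp i := Finset.univ.filter (fun j => ReflTransGen r i j)` with
`r a b := a ≠ b ∧ S.Adj a b`; `D := (Finset.univ.filter S.InA).image comp` (classical).
* `exists_comps`: members are nonempty, disjoint or equal, consist of active indices; `sep`: an
  adjacent `l` would be in the component; note `Adj i i` never holds (`not_adj_self`); `conn`: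
  induction along `ReflTransGen` from the given element.
* `exists_vec`: `i0 ∈ D`, `mu0 ∈ E` with `mu0_{i0} ≠ 0` (`Good.mu`). Claim for `i ∈ D` by `conn`:
  `mu0_i ≠ 0` and for all `mu ∈ E`, `m`: `mu_{i0} = m mu0_{i0} → mu_i = m mu0_i`. Step: adjacent
  `a, b ∈ D`, `adj_struct` gives `mu1` with `mu_a = m' mu1_a`, `mu_b = m' mu1_b` for all `mu ∈ E`;
  compare. Start: `mu_{i0} ∥ mu0_{i0}` by `par_own` at `a = b = 0`.
* `exists_cov`: `exists_vec` for `S.tr` (`Good.tr`, `IsComp.tr`, `adj_symm`). -/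

set_option autoImplicit false

namespace Pool.Agent.H50.R2

open Matrix Module Filter

variable {F ι : Type*} [Field F] [Infinite F] [Fintype ι] [DecidableEq ι]

namespace Sys

variable {S : Sys F ι} {D : Finset ι}

/-- the edge relation -/
private def SCrel (S : Sys F ι) (a b : ι) : Prop := a ≠ b ∧ S.Adj a b

private theorem SC_sym (S : Sys F ι) {a b : ι} (h : SCrel S a b) : SCrel S b a :=
  ⟨h.1.symm, adj_symm h.1 h.2⟩

private theorem SC_gsym (S : Sys F ι) {a b : ι} (h : Relation.ReflTransGen (SCrel S) a b) :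
    Relation.ReflTransGen (SCrel S) b a := by
  induction h with
  | refl => exact Relation.ReflTransGen.refl
  | tail _ h2 ih => exact Relation.ReflTransGen.head (SC_sym S h2) ih

private theorem SC_inA (S : Sys F ι) {a b : ι} (ha : S.InA a)
    (h : Relation.ReflTransGen (SCrel S) a b) : S.InA b := by
  induction h with
  | refl => exact ha
  | tail _ h2 _ => exact inA_of_adj h2.1.symm (adj_symm h2.1 h2.2)

theorem exists_comps (S : Sys F ι) : ∃ D : Finset (Finset ι), (∀ C ∈ D, S.IsComp C) ∧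
    (∀ C ∈ D, ∀ C' ∈ D, C ≠ C' → Disjoint C C') ∧ ∀ i, S.InA i ↔ i ∈ D.biUnion id := by
  classical
  let comp : ι → Finset ι := fun i =>
    Finset.univ.filter (fun j => Relation.ReflTransGen (SCrel S) i j)
  have hmem : ∀ i j, j ∈ comp i ↔ Relation.ReflTransGen (SCrel S) i j := by
    intro i j
    simp only [comp, Finset.mem_filter, Finset.mem_univ, true_and]
  refine ⟨(Finset.univ.filter S.InA).image comp, ?_, ?_, ?_⟩
  · intro C hC
    obtain ⟨i0, hi0, rfl⟩ := Finset.mem_image.mp hC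
    have hA0 : S.InA i0 := (Finset.mem_filter.mp hi0).2
    refine ⟨⟨i0, (hmem i0 i0).mpr Relation.ReflTransGen.refl⟩, ?_, ?_, ?_⟩
    · intro i hi
      exact SC_inA S hA0 ((hmem i0 i).mp hi)
    · intro i hi l hl
      have hil : i ≠ l := by
        rintro rfl
        exact hl hi
      have h1 : ¬ S.Adj i l := by
        intro hadj
        exact hl ((hmem i0 l).mpr (((hmem i0 i).mp hi).tail ⟨hil, hadj⟩))
      exact ⟨h1, fun hadj => h1 (adj_symm hil.symm hadj)⟩
    · intro p hex hstep i hi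
      obtain ⟨j0, hj0, hp⟩ := hex
      have hpath : Relation.ReflTransGen (SCrel S) j0 i :=
        (SC_gsym S ((hmem i0 j0).mp hj0)).trans ((hmem i0 i).mp hi)
      clear hi
      induction hpath with
      | refl => exact hp
      | @tail b c h1 h2 ih =>
        have hb : b ∈ comp i0 := (hmem i0 b).mpr (((hmem i0 j0).mp hj0).trans h1)
        have hc : c ∈ comp i0 := (hmem i0 c).mpr ((((hmem i0 j0).mp hj0).trans h1).tail h2)
        exact hstep b hb c hc h2.1 h2.2 ih
  · intro C hC C' hC' hne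
    obtain ⟨i0, hi0, rfl⟩ := Finset.mem_image.mp hC
    obtain ⟨j0, hj0, rfl⟩ := Finset.mem_image.mp hC'
    rw [Finset.disjoint_left]
    intro x hx hx'
    apply hne
    have h1 := (hmem i0 x).mp hx
    have h2 := (hmem j0 x).mp hx'
    have h3 : Relation.ReflTransGen (SCrel S) i0 j0 := h1.trans (SC_gsym S h2)
    ext y
    rw [hmem, hmem]
    exact ⟨fun h => (SC_gsym S h3).trans h, fun h => h3.trans h⟩
  · intro i
    constructor
    · intro hi
      refine Finset.mem_biUnion.mpr ⟨comp i, ?_, ?_⟩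
      · exact Finset.mem_image.mpr ⟨i, Finset.mem_filter.mpr ⟨Finset.mem_univ i, hi⟩, rfl⟩
      · exact (hmem i i).mpr Relation.ReflTransGen.refl
    · intro hi
      obtain ⟨C, hC, hiC⟩ := Finset.mem_biUnion.mp hi
      obtain ⟨i0, hi0, rfl⟩ := Finset.mem_image.mp hC
      exact SC_inA S (Finset.mem_filter.mp hi0).2 ((hmem i0 i).mp hiC)

theorem exists_vec (h : S.Good) (hD : S.IsComp D) : ∃ mu0, S.IsVec D mu0 := by
  obtain ⟨i0, hi0⟩ := hD.ne
  obtain ⟨mu0, hmu0, hne0⟩ := h.mu i0 (hD.inA i0 hi0)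
  have key : ∀ i ∈ D, vec mu0 i ≠ 0 ∧ ∀ mu ∈ S.E, ∀ m : F,
      vec mu i0 = m • vec mu0 i0 → vec mu i = m • vec mu0 i := by
    refine hD.conn _ ⟨i0, hi0, hne0, fun mu _ m hm => hm⟩ ?_
    rintro a ha b hb hab hadj ⟨h1, h2⟩
    obtain ⟨mu1, hmu1, ha1, hb1, hall⟩ := adj_struct hab hadj
    obtain ⟨m0, hm0a, hm0b⟩ := hall mu0 hmu0
    have hm0 : m0 ≠ 0 := by
      rintro rfl
      rw [zero_smul] at hm0a
      exact h1 hm0a
    refine ⟨?_, ?_⟩
    · rw [hm0b]
      exact smul_ne_zero hm0 hb1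
    · intro mu hmu m hm
      obtain ⟨m', hm'a, hm'b⟩ := hall mu hmu
      have h3 := h2 mu hmu m hm
      rw [hm'a, hm0a, smul_smul] at h3
      have h4 : m' = m * m0 := smul_left_injective F ha1 h3
      rw [hm'b, hm0b, smul_smul, h4]
  have h0 : S.Reg 0 := (Inst.mk S.T mu0 mu0).reg_zero
  have hkz : ∀ mu : ι × Fin 2 → F, kk S.T mu (0 : ι → F) = mu := fun mu =>
    (Inst.mk S.T mu mu).k_zero
  refine ⟨mu0, hmu0, fun i hi => (key i hi).1, ?_⟩
  intro mu hmu
  have hpar := par_own h (hD.inA i0 hi0) hmu0 hmu h0 h0 (fun _ _ => rfl)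
  rw [hkz, hkz] at hpar
  obtain ⟨m, hm⟩ := exists_smul_of_par hne0 hpar
  exact ⟨m, fun i hi => (key i hi).2 mu hmu m hm⟩

theorem exists_cov (h : S.Good) (hD : S.IsComp D) : ∃ nu0, S.IsCov D nu0 := by
  obtain ⟨nu0, h1, h2, h3⟩ := exists_vec h.tr (IsComp.tr (fun i j hij hadj => adj_symm hij hadj) hD)
  exact ⟨nu0, h1, h2, h3⟩

end Sys

end Pool.Agent.H50.R2
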