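import Pool.Agent.H50.R2.ShiftOdd
import Pool.Agent.H50.R2.LinCount

/-! # Systems (MP_966f71_lc)

A system is a matrix `T` with a space `E` of vectors `mu` and a space `L` of covectors `nu` such
that all instances `(T, mu, nu)` are odd. -/

set_option autoImplicit false

namespace Pool.Agent.H50.R2

open Matrix Module

variable {F ι : Type*} [Field F] [Fintype ι] [DecidableEq ι]

/-- A system. -/
structure Sys (F ι : Type*) [Field F] [Fintype ι] [DecidableEq ι] where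
  T : Matrix (ι × Fin 2) (ι × Fin 2) F
  E : Submodule F (ι × Fin 2 → F)
  L : Submodule F (ι × Fin 2 → F)
  odd : ∀ mu ∈ E, ∀ nu ∈ L, (Inst.mk T mu nu).Odd Finset.univ

namespace Sys

variable (S : Sys F ι)

/-- Regular points. -/
def Reg (x : ι → F) : Prop := (1 - S.T * dg x).det ≠ 0

/-- The transposed system. -/
def tr : Sys F ι := ⟨S.Tᵀ, S.L, S.E, fun mu hmu nu hnu => (Inst.mk S.T nu mu).odd_tr
  (S.odd nu hnu mu hmu)⟩

/-- The system seen from the base point `a`. -/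
noncomputable def shift (a : ι → F) (ha : S.Reg a) : Sys F ι :=
  ⟨(1 - S.T * dg a)⁻¹ * S.T, S.E.map (mulVecLin (1 - S.T * dg a)⁻¹),
    S.L.map (vecMulLinear (1 - dg a * S.T)⁻¹), by
    rintro _ ⟨mu, hmu, rfl⟩ _ ⟨nu, hnu, rfl⟩
    exact Inst.Odd.shift (I := Inst.mk S.T mu nu) (S := Finset.univ) (R := Finset.univ)
      (by simpa using S.odd mu hmu nu hnu) (fun i hi => absurd (Finset.mem_univ i) hi) ha⟩

/-- The active indices. -/
def InA (i : ι) : Prop := ∃ mu ∈ S.E, ∃ nu ∈ S.L, ∃ x y, S.Reg x ∧ S.Reg y ∧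
  vec (ll S.T nu x) i ⬝ᵥ vec (kk S.T mu y) i ≠ 0

/-- Adjacency. -/
def Adj (i j : ι) : Prop := ∃ mu ∈ S.E, ∃ nu ∈ S.L, (Inst.mk S.T mu nu).tau i j ≠ 0

/-- The base point `0` is generic. -/
structure Good : Prop where
  mu : ∀ i, S.InA i → ∃ mu ∈ S.E, vec mu i ≠ 0
  nu : ∀ i, S.InA i → ∃ nu ∈ S.L, vec nu i ≠ 0
  tau : ∀ i j, ∀ mu ∈ S.E, ∀ nu ∈ S.L, ∀ x, S.Reg x →
    ((Inst.mk S.T mu nu).shift x).tau i j ≠ 0 → S.Adj i j

/-- The span of the values of `k_i`. -/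
def Y (i : ι) : Submodule F (Fin 2 → F) :=
  Submodule.span F {v | ∃ mu ∈ S.E, ∃ x, S.Reg x ∧ v = vec (kk S.T mu x) i}

/-- The direction of `k_i(x)` depends only on the coordinates of `x` outside `R`. -/
def DInd (i : ι) (R : Finset ι) : Prop :=
  ∀ mu ∈ S.E, ∀ mu' ∈ S.E, ∀ a b, S.Reg a → S.Reg b → (∀ m, m ∉ R → a m = b m) →
    par (vec (kk S.T mu a) i) (vec (kk S.T mu' b) i)

/-- `D` is a component. -/
structure IsComp (D : Finset ι) : Prop where
  ne : D.Nonempty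
  inA : ∀ i ∈ D, S.InA i
  sep : ∀ i ∈ D, ∀ l, l ∉ D → ¬ S.Adj i l ∧ ¬ S.Adj l i
  conn : ∀ p : ι → Prop, (∃ i ∈ D, p i) →
    (∀ a ∈ D, ∀ b ∈ D, a ≠ b → S.Adj a b → p a → p b) → ∀ i ∈ D, p i

/-- `mu0 ∈ E` is nonzero at all elements of `D` and all `mu ∈ E` are multiples of it on `D`. -/
structure IsVec (D : Finset ι) (mu0 : ι × Fin 2 → F) : Prop where
  mem : mu0 ∈ S.E
  ne : ∀ i ∈ D, vec mu0 i ≠ 0
  all : ∀ mu ∈ S.E, ∃ m : F, ∀ i ∈ D, vec mu i = m • vec mu0 i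

/-- `nu0 ∈ L` is nonzero at all elements of `D` and all `nu ∈ L` are multiples of it on `D`. -/
structure IsCov (D : Finset ι) (nu0 : ι × Fin 2 → F) : Prop where
  mem : nu0 ∈ S.L
  ne : ∀ i ∈ D, vec nu0 i ≠ 0
  all : ∀ nu ∈ S.L, ∃ m : F, ∀ i ∈ D, vec nu i = m • vec nu0 i

/-- Covectors whose components kill the spaces `Y i`. -/
def Yann : Submodule F (ι × Fin 2 → F) where
  carrier := {v | ∀ i, ∀ y ∈ S.Y i, vec v i ⬝ᵥ y = 0}
  zero_mem' := fun i y _ => by simp [vec, dotProduct]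
  add_mem' := fun {a b} ha hb i y hy => by
    have h1 := ha i y hy
    have h2 := hb i y hy
    have h3 : vec (a + b) i = vec a i + vec b i := rfl
    rw [h3, add_dotProduct, h1, h2, add_zero]
  smul_mem' := fun c a ha i y hy => by
    have h1 := ha i y hy
    have h3 : vec (c • a) i = c • vec a i := rfl
    rw [h3, smul_dotProduct, h1, smul_zero]

end Sys

end Pool.Agent.H50.R2
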