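import Pool.Agent.H50.R2.SysGood
import Pool.Agent.H50.R2.Plane

/-! # Module SysPar: active indices (MP_966f71_lc)

`S` good, `i` active.
* `par_own`: path `s ↦ (s • a, s • b)`; choose `nu ∈ L`, `nu_i ≠ 0` (`Good.nu`). For almost all `s`
  `ll_i(nu, s • b) ≠ 0` (nonzero at `s = 0`, `ratll`, `RatAt.ne`) and it kills
  `kk_i(mu, s • a)` and `kk_i(mu', s • b)` (`own`), so they are parallel (`par_of_ker`); close with
  `RatAt.zero` at `s = 1`.
* `Y_top`: let `nu, mu, x, y` be as in `InA`, `v = kk_i(mu, y) ≠ 0`. If `Y i ≠ ⊤` then every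
  `kk_i(mu, z)` (`z` regular) is a multiple of `v` (a proper subspace of `F ^ 2` containing `v ≠ 0` is
  `span v`). Path `s ↦ x + s • (y - x)` (`s = 0`: `x`, `s = 1`: `y`): for almost all `s` `z = z s` is
  regular and `kk_i(mu, z) ≠ 0` (nonzero at `s = 1`), `ll_i(nu, z)` kills `kk_i(mu, z)` (`own`), so
  it kills `v`; by `RatAt.zero` at `s = 0`, `ll_i(nu, x)` kills `v`: contradiction. -/

set_option autoImplicit false

namespace Pool.Agent.H50.R2

open Matrix Module Filter

variable {F ι : Type*} [Field F] [Infinite F] [Fintype ι] [DecidableEq ι]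

namespace Sys

variable {S : Sys F ι} {mu mu' nu nu' : ι × Fin 2 → F} {a b : ι → F} {i : ι}

theorem par_own (h : S.Good) (hi : S.InA i) (hmu : mu ∈ S.E) (hmu' : mu' ∈ S.E)
    (ha : S.Reg a) (hb : S.Reg b) (hab : ∀ m, m ≠ i → a m = b m) :
    par (vec (kk S.T mu a) i) (vec (kk S.T mu' b) i) := by
  obtain ⟨nu0, hnu0, hne⟩ := h.nu i hi
  have ra1 : (1 - S.T * dg ((1 : F) • a)).det ≠ 0 := by rw [one_smul]; exact ha
  have rb1 : (1 - S.T * dg ((1 : F) • b)).det ≠ 0 := by rw [one_smul]; exact hb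
  have r0 : (Inst.mk S.T mu nu0).Reg ((0 : F) • b) := by
    rw [zero_smul]; exact (Inst.mk S.T mu nu0).reg_zero
  have hl0 : vec ((Inst.mk S.T mu nu0).l ((0 : F) • b)) i ≠ 0 := by
    rw [zero_smul, (Inst.mk S.T mu nu0).l_zero]; exact hne
  have hrat : RatAt (1 : F) (fun s => ar (vec (kk S.T mu (s • a)) i)
      (vec (kk S.T mu' (s • b)) i)) :=
    ((ratkk mu (Path.smul a) ra1 (i, 0)).mul (ratkk mu' (Path.smul b) rb1 (i, 1))).sub
      ((ratkk mu (Path.smul a) ra1 (i, 1)).mul (ratkk mu' (Path.smul b) rb1 (i, 0)))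
  have h2 := RatAt.zero hrat (by
    filter_upwards [ev_det (Path.smul a) ra1, ev_det (Path.smul b) rb1,
      (Inst.mk S.T mu nu0).evL (Path.smul b) r0 hl0] with s hsa hsb hsl
    exact par_of_ker hsl
      (own hmu hnu0 hsa hsb (fun m hm => by rw [Pi.smul_apply, Pi.smul_apply, hab m hm]))
      (own hmu' hnu0 hsb hsb (fun _ _ => rfl)))
  rw [one_smul, one_smul] at h2
  exact h2

omit [Infinite F] [Fintype ι] [DecidableEq ι] in
private theorem SysPar_top {Y : Submodule F (Fin 2 → F)} {u v : Fin 2 → F} (hu : u ∈ Y)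
    (hv : v ∈ Y) (h : ar u v ≠ 0) : Y = ⊤ := by
  rw [eq_top_iff]
  intro a _
  have e : a = (ar a v / ar u v) • u + (ar u a / ar u v) • v := by
    funext b
    rw [Pi.add_apply, Pi.smul_apply, Pi.smul_apply, smul_eq_mul, smul_eq_mul]
    field_simp
    unfold ar
    fin_cases b
    · simp only [Fin.zero_eta]
      ring
    · simp only [Fin.mk_one]
      ring
  rw [e]
  exact Y.add_mem (Y.smul_mem _ hu) (Y.smul_mem _ hv)

theorem Y_top (hi : S.InA i) : S.Y i = ⊤ := by
  obtain ⟨mu, hmu, nu, hnu, x, y, hx, hy, hne⟩ := hi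
  by_contra hY
  have hv : vec (kk S.T mu y) i ≠ 0 := by
    intro h
    rw [h, dotProduct_zero] at hne
    exact hne rfl
  have hmem : ∀ z, S.Reg z → vec (kk S.T mu z) i ∈ S.Y i := fun z hz =>
    Submodule.subset_span ⟨mu, hmu, z, hz, rfl⟩
  have hpar : ∀ z, S.Reg z → par (vec (kk S.T mu z) i) (vec (kk S.T mu y) i) := by
    intro z hz
    by_contra h
    exact hY (SysPar_top (hmem z hz) (hmem y hy) h)
  let z : F → ι → F := fun s => x + s • (y - x)
  have hz : Path z := Path.add (Path.const x) (Path.smul (y - x))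
  have hz0 : z 0 = x := by
    show x + (0 : F) • (y - x) = x
    rw [zero_smul, add_zero]
  have hz1 : z 1 = y := by
    show x + (1 : F) • (y - x) = y
    rw [one_smul, add_sub_cancel]
  have r0 : (1 - S.T * dg (z 0)).det ≠ 0 := by rw [hz0]; exact hx
  have r1 : (Inst.mk S.T mu nu).Reg (z 1) := by rw [hz1]; exact hy
  have hk1 : vec ((Inst.mk S.T mu nu).k (z 1)) i ≠ 0 := by rw [hz1]; exact hv
  have hrat : RatAt (0 : F) (fun s => vec (ll S.T nu (z s)) i ⬝ᵥ vec (kk S.T mu y) i) :=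
    RatAt.dot (u := fun s => vec (ll S.T nu (z s)) i) (v := fun _ => vec (kk S.T mu y) i)
      (fun a => ratll nu hz r0 (i, a)) (fun _ => RatAt.const _)
  have h2 := RatAt.zero hrat (by
    filter_upwards [ev_det hz r0, (Inst.mk S.T mu nu).evK hz r1 hk1] with s hs hk
    exact ker_of_par hk (hpar (z s) hs) (own hmu hnu hs hs (fun _ _ => rfl)))
  rw [hz0] at h2
  exact hne h2

end Sys

end Pool.Agent.H50.R2
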