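import Pool.Agent.H50.R2.SysDefs
import Pool.Agent.H50.R2.Shift

/-! # Module SysShift: systems at other base points, transposition (MP_966f71_lc)

Everything follows from `det_add`, `kk_add`, `ll_add`, `shiftT_add` (module Shift) and `reg_tr`,
`k_tr`, `l_tr`, `tau_tr`, `shift_tr` (module Basic).
* `inst_shift` is definitional: the instance of the shifted system at `(kk T mu a, ll T nu a)` is
  `(Inst.mk S.T mu nu).shift a`.
* `inA_shift`: the sets of values `ll_i(x) kk_i(y)` (`x, y` regular) of `S` and of `S.shift a` are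
  the same: `kk^{shift}(kk mu a, y) = kk mu (a + y)`, and `y ↦ a + y` is a bijection of regular
  points (`reg_shift`).
* `Y_shift`: same.
* `finrank_L_shift`: `(1 - dg a * T)⁻¹` is invertible, so `vecMulLinear` of it is injective
  (`LinearMap.finrank_map_eq` or `LinearEquiv`, `Submodule.finrank_map_of_injective`...). -/

set_option autoImplicit false

namespace Pool.Agent.H50.R2

open Matrix Module

variable {F ι : Type*} [Field F] [Fintype ι] [DecidableEq ι]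

namespace Sys

variable (S : Sys F ι) {a : ι → F} (ha : S.Reg a)

theorem reg_zero : S.Reg 0 := by
  simp [Reg, dg_zero]

theorem reg_shift (y : ι → F) : (S.shift a ha).Reg y ↔ S.Reg (a + y) :=
  (Inst.mk S.T 0 0).reg_add ha

theorem mem_E_shift {mu : ι × Fin 2 → F} (h : mu ∈ S.E) : kk S.T mu a ∈ (S.shift a ha).E :=
  ⟨mu, h, rfl⟩

theorem mem_L_shift {nu : ι × Fin 2 → F} (h : nu ∈ S.L) : ll S.T nu a ∈ (S.shift a ha).L :=
  ⟨nu, h, rfl⟩

theorem exists_E_shift {mu : ι × Fin 2 → F} (h : mu ∈ (S.shift a ha).E) :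
    ∃ mu0 ∈ S.E, mu = kk S.T mu0 a := by
  obtain ⟨mu0, h0, rfl⟩ := h
  exact ⟨mu0, h0, rfl⟩

theorem exists_L_shift {nu : ι × Fin 2 → F} (h : nu ∈ (S.shift a ha).L) :
    ∃ nu0 ∈ S.L, nu = ll S.T nu0 a := by
  obtain ⟨nu0, h0, rfl⟩ := h
  exact ⟨nu0, h0, rfl⟩

theorem kk_shift (mu : ι × Fin 2 → F) {y : ι → F} (hy : (S.shift a ha).Reg y) :
    kk (S.shift a ha).T (kk S.T mu a) y = kk S.T mu (a + y) :=
  kk_add mu ha ((S.reg_shift ha y).1 hy)

theorem ll_shift (nu : ι × Fin 2 → F) {y : ι → F} (hy : (S.shift a ha).Reg y) :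
    ll (S.shift a ha).T (ll S.T nu a) y = ll S.T nu (a + y) :=
  ll_add nu ha ((S.reg_shift ha y).1 hy)

theorem inst_shift (mu nu : ι × Fin 2 → F) :
    Inst.mk (S.shift a ha).T (kk S.T mu a) (ll S.T nu a) = (Inst.mk S.T mu nu).shift a :=
  rfl

theorem inst_shift_shift (mu nu : ι × Fin 2 → F) {y : ι → F} (hy : (S.shift a ha).Reg y) :
    (Inst.mk (S.shift a ha).T (kk S.T mu a) (ll S.T nu a)).shift y =
      (Inst.mk S.T mu nu).shift (a + y) := by
  rw [S.inst_shift ha]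
  exact (Inst.mk S.T mu nu).shift_add ha ((S.reg_shift ha y).1 hy)

private theorem SysShift_reg_sub {x : ι → F} (hx : S.Reg x) : (S.shift a ha).Reg (x - a) := by
  rw [S.reg_shift ha, add_sub_cancel]
  exact hx

theorem inA_shift (i : ι) : (S.shift a ha).InA i ↔ S.InA i := by
  constructor
  · rintro ⟨mu, hmu, nu, hnu, x, y, hx, hy, h⟩
    obtain ⟨mu0, hmu0, rfl⟩ := S.exists_E_shift ha hmu
    obtain ⟨nu0, hnu0, rfl⟩ := S.exists_L_shift ha hnu
    rw [S.kk_shift ha _ hy, S.ll_shift ha _ hx] at h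
    exact ⟨mu0, hmu0, nu0, hnu0, a + x, a + y, (S.reg_shift ha x).1 hx,
      (S.reg_shift ha y).1 hy, h⟩
  · rintro ⟨mu, hmu, nu, hnu, x, y, hx, hy, h⟩
    have hx' := S.SysShift_reg_sub ha hx
    have hy' := S.SysShift_reg_sub ha hy
    refine ⟨_, S.mem_E_shift ha hmu, _, S.mem_L_shift ha hnu, x - a, y - a, hx', hy', ?_⟩
    rw [S.kk_shift ha _ hy', S.ll_shift ha _ hx', add_sub_cancel, add_sub_cancel]
    exact h

theorem Y_shift (i : ι) : (S.shift a ha).Y i = S.Y i := by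
  unfold Y
  congr 1
  ext v
  constructor
  · rintro ⟨mu, hmu, x, hx, rfl⟩
    obtain ⟨mu0, hmu0, rfl⟩ := S.exists_E_shift ha hmu
    refine ⟨mu0, hmu0, a + x, (S.reg_shift ha x).1 hx, ?_⟩
    rw [S.kk_shift ha _ hx]
  · rintro ⟨mu, hmu, x, hx, rfl⟩
    have hx' := S.SysShift_reg_sub ha hx
    refine ⟨_, S.mem_E_shift ha hmu, x - a, hx', ?_⟩
    rw [S.kk_shift ha _ hx', add_sub_cancel]

theorem finrank_L_shift : finrank F (S.shift a ha).L = finrank F S.L := by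
  have hu : IsUnit (1 - dg a * S.T).det := by
    rw [det_comm]
    exact isUnit_iff_ne_zero.2 ha
  have hinj : Function.Injective (vecMulLinear (1 - dg a * S.T)⁻¹) := by
    intro v w hvw
    have h1 : v ᵥ* (1 - dg a * S.T)⁻¹ = w ᵥ* (1 - dg a * S.T)⁻¹ := hvw
    have h2 := congrArg (fun z => z ᵥ* (1 - dg a * S.T)) h1
    simp only [Matrix.vecMul_vecMul] at h2
    rw [Matrix.nonsing_inv_mul _ hu, Matrix.vecMul_one, Matrix.vecMul_one] at h2
    exact h2
  exact (Submodule.equivMapOfInjective _ hinj S.L).finrank_eq.symm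

theorem tr_reg (x : ι → F) : S.tr.Reg x ↔ S.Reg x :=
  (Inst.mk S.T 0 0).reg_tr (x := x)

theorem kk_tr (mu : ι × Fin 2 → F) (x : ι → F) : kk S.tr.T mu x = ll S.T mu x :=
  (Inst.mk S.T 0 mu).k_tr (x := x)

theorem ll_tr (nu : ι × Fin 2 → F) (x : ι → F) : ll S.tr.T nu x = kk S.T nu x :=
  (Inst.mk S.T nu 0).l_tr (x := x)

theorem inA_tr (i : ι) : S.tr.InA i ↔ S.InA i := by
  constructor
  · rintro ⟨mu, hmu, nu, hnu, x, y, hx, hy, h⟩
    rw [S.kk_tr, S.ll_tr, dotProduct_comm] at h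
    exact ⟨nu, hnu, mu, hmu, y, x, (S.tr_reg y).1 hy, (S.tr_reg x).1 hx, h⟩
  · rintro ⟨mu, hmu, nu, hnu, x, y, hx, hy, h⟩
    refine ⟨nu, hnu, mu, hmu, y, x, (S.tr_reg y).2 hy, (S.tr_reg x).2 hx, ?_⟩
    rw [S.kk_tr, S.ll_tr, dotProduct_comm]
    exact h

theorem adj_tr (i j : ι) : S.tr.Adj i j ↔ S.Adj j i := by
  constructor
  · rintro ⟨mu, hmu, nu, hnu, h⟩
    refine ⟨nu, hnu, mu, hmu, ?_⟩
    rw [← (Inst.mk S.T nu mu).tau_tr i j]
    exact h
  · rintro ⟨mu, hmu, nu, hnu, h⟩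
    refine ⟨nu, hnu, mu, hmu, ?_⟩
    rw [← (Inst.mk S.T mu nu).tau_tr i j] at h
    exact h

theorem Good.tr {S : Sys F ι} (h : S.Good) : S.tr.Good where
  mu i hi := h.nu i ((S.inA_tr i).1 hi)
  nu i hi := h.mu i ((S.inA_tr i).1 hi)
  tau i j mu hmu nu hnu x hx hne := by
    rw [S.adj_tr]
    have hx' : S.Reg x := (S.tr_reg x).1 hx
    refine h.tau j i nu hnu mu hmu x hx' ?_
    rw [← ((Inst.mk S.T nu mu).shift x).tau_tr i j, ← (Inst.mk S.T nu mu).shift_tr hx']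
    exact hne

theorem IsComp.tr {S : Sys F ι} {D : Finset ι} (hs : ∀ i j, i ≠ j → S.Adj i j → S.Adj j i)
    (h : S.IsComp D) : S.tr.IsComp D where
  ne := h.ne
  inA i hi := (S.inA_tr i).2 (h.inA i hi)
  sep i hi l hl := by
    rw [S.adj_tr, S.adj_tr]
    exact (h.sep i hi l hl).symm
  conn p hp hstep := by
    refine h.conn p hp ?_
    intro b hb c hc hbc hadj hpb
    exact hstep b hb c hc hbc ((S.adj_tr b c).2 (hs b c hbc hadj)) hpb

end Sys

end Pool.Agent.H50.R2
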