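import Pool.Agent.H50.R2.Pair

/-! # Module Triangle (MP_966f71_lc)

`exists_area`, `pair_dfct` for the three pairs, `master_triple`: `h x * (1 - theta x) = 0`; then
`odd_of_mul` with `g x = 1 - (...)`, `g 0 = 1`, rational by `rat_theta`. -/

set_option autoImplicit false

namespace Pool.Agent.H50.R2

open Matrix Filter

variable {F ι : Type*} [Field F] [Infinite F] [Fintype ι] [DecidableEq ι]

namespace Inst

variable {I : Inst F ι} {i j l : ι}

theorem triangle (hij : i ≠ j) (hil : i ≠ l) (hjl : j ≠ l) (hnd : I.NonDeg {i, j, l})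
    (oij : I.Odd {i, j}) (oil : I.Odd {i, l}) (ojl : I.Odd {j, l}) (tij : I.tau i j ≠ 0)
    (til : I.tau i l ≠ 0) (tjl : I.tau j l ≠ 0) : I.Odd {i, j, l} := by
  have sij : ({i, j} : Finset ι) ⊆ {i, j, l} := by
    intro a ha
    simp only [Finset.mem_insert, Finset.mem_singleton] at ha ⊢
    tauto
  have sil : ({i, l} : Finset ι) ⊆ {i, j, l} := by
    intro a ha
    simp only [Finset.mem_insert, Finset.mem_singleton] at ha ⊢
    tauto
  have sjl : ({j, l} : Finset ι) ⊆ {i, j, l} := by
    intro a ha
    simp only [Finset.mem_insert, Finset.mem_singleton] at ha ⊢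
    tauto
  have hone : ∀ a ∈ ({i, j, l} : Finset ι), I.Odd {a} := by
    intro a ha
    simp only [Finset.mem_insert, Finset.mem_singleton] at ha
    rcases ha with rfl | rfl | rfl
    · exact oij.mono (by simp)
    · exact oij.mono (by simp)
    · exact oil.mono (by simp)
  obtain ⟨w, th, hA⟩ := exists_area hnd hone
  have dij := pair_dfct hij (hnd.mono sij) oij (hA.mono sij) tij
  have dil := pair_dfct hil (hnd.mono sil) oil (hA.mono sil) til
  have djl := pair_dfct hjl (hnd.mono sjl) ojl (hA.mono sjl) tjl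
  refine odd_of_mul (fun x => 1 - (x i * (th i ⬝ᵥ vec (I.k x) i) + x j * (th j ⬝ᵥ vec (I.k x) j) +
        x l * (th l ⬝ᵥ vec (I.k x) l))) ?_ ?_ ?_
  · intro x _
    exact (RatAt.const 1).sub (((rat_theta x i (th i)).add (rat_theta x j (th j))).add
      (rat_theta x l (th l)))
  · simp
  · intro x hxS hx
    have h := master_triple hij hil hjl hA hxS hx
    rw [dij, dil, djl] at h
    rw [h]
    ring

end Inst

end Pool.Agent.H50.R2
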